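import Pool.Agent.Lib.EqM.N1

/-!
Truncation to the unit ball.
-/

open scoped ComplexOrder

namespace Pool.Agent.Lib.EqM

open Pool.Agent.Lib.EqGamma

variable {M : Type*} [CStarAlgebra M] {T : M →ₗ[ℝ] ℝ}

/-- truncation `x (max 1 |x|)⁻¹` -/
noncomputable def cut (x : M) : M := x * cfc (fun t : ℝ => 1 / max 1 √t) (star x * x)

theorem cutFun_cont : Continuous (fun t : ℝ => 1 / max 1 √t) := by
  refine continuous_const.div (continuous_const.max Real.continuous_sqrt) fun t => ?_
  have : (1 : ℝ) ≤ max 1 √t := le_max_left _ _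
  positivity

theorem norm_cut_le (x : M) : ‖cut x‖ ≤ 1 := by
  let _ := CStarAlgebra.spectralOrder M
  have := CStarAlgebra.spectralOrderedRing M
  have hsa : IsSelfAdjoint (star x * x) := IsSelfAdjoint.star_mul_self x
  have hnn : 0 ≤ star x * x := star_mul_self_nonneg x
  have hg := cutFun_cont.continuousOn (s := spectrum ℝ (star x * x))
  have hgs : star (cfc (fun t : ℝ => 1 / max 1 √t) (star x * x)) =
      cfc (fun t : ℝ => 1 / max 1 √t) (star x * x) := (cfc_predicate _ _ : IsSelfAdjoint _)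
  have h1 : star (cut x) * cut x =
      cfc (fun t : ℝ => 1 / max 1 √t * (t * (1 / max 1 √t))) (star x * x) := by
    rw [cfc_mul (fun t : ℝ => 1 / max 1 √t) (fun t : ℝ => t * (1 / max 1 √t)) (star x * x) hg
      (continuousOn_id.mul hg), cfc_mul (fun t : ℝ => t) (fun t : ℝ => 1 / max 1 √t) (star x * x)
      continuousOn_id hg, cfc_id' ℝ (star x * x) hsa]
    unfold cut
    rw [star_mul, hgs]
    noncomm_ring
  have h2 : ‖star (cut x) * cut x‖ ≤ 1 := by
    rw [h1]
    refine norm_cfc_le zero_le_one fun t ht => ?_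
    have ht0 : 0 ≤ t := spectrum_nonneg_of_nonneg hnn ht
    have h3 : (0 : ℝ) < max 1 √t := lt_max_of_lt_left one_pos
    have h4 : t ≤ max 1 √t * max 1 √t := by
      calc t = √t * √t := (Real.mul_self_sqrt ht0).symm
        _ ≤ max 1 √t * max 1 √t :=
          mul_le_mul (le_max_right _ _) (le_max_right _ _) (Real.sqrt_nonneg _) h3.le
    rw [Real.norm_of_nonneg (by positivity)]
    have h5 : 1 / max 1 √t * (t * (1 / max 1 √t)) = t / (max 1 √t * max 1 √t) := by
      field_simp
    rw [h5]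
    exact div_le_one_of_le₀ h4 (by positivity)
  rw [CStarRing.norm_star_mul_self] at h2
  nlinarith [norm_nonneg (cut x)]

theorem map_cut {N : Type*} [CStarAlgebra N] (φ : M →⋆ₐ[ℂ] N) (x : M) :
    φ (cut x) = cut (φ x) := by
  have hφ : Continuous φ :=
    AddMonoidHomClass.continuous_of_bound φ 1 (fun a => by
      rw [one_mul]; exact NonUnitalStarAlgHom.norm_apply_le φ a)
  have h1 : φ (cfc (fun t : ℝ => 1 / max 1 √t) (star x * x)) =
      cfc (fun t : ℝ => 1 / max 1 √t) (φ (star x * x)) :=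
    StarAlgHomClass.map_cfc φ (fun t : ℝ => 1 / max 1 √t) (star x * x)
      cutFun_cont.continuousOn hφ (IsSelfAdjoint.star_mul_self x)
      (by rw [map_mul, map_star]; exact IsSelfAdjoint.star_mul_self _)
  unfold cut
  rw [map_mul, h1, map_mul, map_star]

/-- if `star v * v` is close to an almost idempotent `e` then `cut v` is close to `v` -/
theorem l2_sub_cut_sq_le (hT : RTr T) {v e : M} {C δ : ℝ} (hv : ‖v‖ ≤ C) (he : ‖e‖ ≤ C)
    (hC : 1 ≤ C) (h1 : n1 T (star v * v - e) ≤ δ) (h2 : n1 T (e * e - e) ≤ δ) :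
    l2 T (v - cut v) ^ 2 ≤ 4 * C ^ 2 * δ := by
  let _ := CStarAlgebra.spectralOrder M
  have := CStarAlgebra.spectralOrderedRing M
  set a := star v * v with ha
  have hsa : IsSelfAdjoint a := IsSelfAdjoint.star_mul_self v
  have hnn : 0 ≤ a := star_mul_self_nonneg v
  have hg := cutFun_cont.continuousOn (s := spectrum ℝ a)
  have hg1 : ContinuousOn (fun t : ℝ => 1 - 1 / max 1 √t) (spectrum ℝ a) :=
    (continuous_const.sub cutFun_cont).continuousOn
  have hw : v - cut v = v * cfc (fun t : ℝ => 1 - 1 / max 1 √t) a := by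
    rw [cfc_sub (fun _ : ℝ => (1 : ℝ)) (fun t : ℝ => 1 / max 1 √t) a continuousOn_const hg,
      cfc_const_one ℝ a hsa, mul_sub, mul_one]
    rfl
  have hgs : star (cfc (fun t : ℝ => 1 - 1 / max 1 √t) a) =
      cfc (fun t : ℝ => 1 - 1 / max 1 √t) a := (cfc_predicate _ _ : IsSelfAdjoint _)
  have h3 : star (v - cut v) * (v - cut v) =
      cfc (fun t : ℝ => (1 - 1 / max 1 √t) * (t * (1 - 1 / max 1 √t))) a := by
    rw [cfc_mul (fun t : ℝ => 1 - 1 / max 1 √t) (fun t : ℝ => t * (1 - 1 / max 1 √t)) a hg1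
      (continuousOn_id.mul hg1), cfc_mul (fun t : ℝ => t) (fun t : ℝ => 1 - 1 / max 1 √t) a
      continuousOn_id hg1, cfc_id' ℝ a hsa, hw, star_mul, hgs, ha]
    noncomm_ring
  have hcs : ContinuousOn (fun t : ℝ => t * t - t) (spectrum ℝ a) := by fun_prop
  have haa : cfc (fun t : ℝ => t * t - t) a = a * a - a := by
    rw [cfc_sub (fun t : ℝ => t * t) (fun t : ℝ => t) a, cfc_mul (fun t : ℝ => t) (fun t : ℝ => t) a,
      cfc_id' ℝ a hsa]
  have hab : ab (a * a - a) = cfc (fun t : ℝ => |t * t - t|) a := by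
    unfold ab
    have hs : star (a * a - a) = a * a - a := by
      rw [star_sub, star_mul, hsa.star_eq]
    rw [hs, ← haa, ← cfc_mul (fun t : ℝ => t * t - t) (fun t : ℝ => t * t - t) a hcs hcs]
    rw [← cfc_comp' Real.sqrt (fun t : ℝ => (t * t - t) * (t * t - t)) a
      Real.continuous_sqrt.continuousOn (hcs.mul hcs) hsa]
    refine cfc_congr fun t _ => ?_
    show √((t * t - t) * (t * t - t)) = |t * t - t|
    exact Real.sqrt_mul_self_eq_abs _
  have h4 : star (v - cut v) * (v - cut v) ≤ ab (a * a - a) := by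
    rw [h3, hab]
    refine cfc_mono (fun t ht => ?_) (hg1.mul (continuousOn_id.mul hg1)) hcs.abs
    have ht0 : 0 ≤ t := spectrum_nonneg_of_nonneg hnn ht
    rcases le_or_gt t 1 with h | h
    · have h5 : max 1 √t = 1 := max_eq_left (Real.sqrt_le_one.mpr h)
      rw [h5]
      simp
    · have h5 : 1 < √t := by
        rw [Real.lt_sqrt zero_le_one]
        simpa using h
      have h6 : max 1 √t = √t := max_eq_right h5.le
      have h7 : √t * √t = t := Real.mul_self_sqrt ht0
      rw [h6]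
      have hkey : ∀ s : ℝ, s ≠ 0 → (1 - 1 / s) * (s * s * (1 - 1 / s)) = (s - 1) * (s - 1) := by
        intro s hs
        field_simp
      have h8 : (1 - 1 / √t) * (t * (1 - 1 / √t)) = (√t - 1) * (√t - 1) := by
        calc (1 - 1 / √t) * (t * (1 - 1 / √t)) = (1 - 1 / √t) * (√t * √t * (1 - 1 / √t)) := by
              rw [h7]
          _ = (√t - 1) * (√t - 1) := hkey _ (by positivity)
      rw [h8, abs_of_nonneg (by nlinarith)]
      have h9 : t * t - t = √t * √t * (√t * √t) - √t * √t := by rw [h7]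
      rw [h9]
      nlinarith [mul_pos (sub_pos.mpr h5) (sub_pos.mpr h5), mul_pos (sub_pos.mpr h5) (zero_lt_one.trans h5),
        mul_pos (mul_pos (sub_pos.mpr h5) (zero_lt_one.trans h5)) (zero_lt_one.trans h5)]
  have h5 : l2 T (v - cut v) ^ 2 ≤ n1 T (a * a - a) := by
    rw [l2_sq hT]
    exact hT.mono h4
  have hδ : 0 ≤ δ := (n1_nonneg hT _).trans h1
  have hna : ‖a‖ ≤ C ^ 2 := by
    rw [ha, CStarRing.norm_star_mul_self]
    nlinarith [norm_nonneg v]
  have h6 : a * a - a = (a - e) * a + e * (a - e) + (e * e - e) + (e - a) := by noncomm_ring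
  have h7 : n1 T ((a - e) * a) ≤ δ * C ^ 2 :=
    (n1_mul_right_le hT _ _).trans (mul_le_mul h1 hna (norm_nonneg _) hδ)
  have h8 : n1 T (e * (a - e)) ≤ C * δ :=
    (n1_mul_left_le hT _ _).trans (mul_le_mul he h1 (n1_nonneg hT _) (by linarith))
  have h9 : n1 T (e - a) ≤ δ := by
    rw [n1_sub_comm]
    exact h1
  have h10 : n1 T (a * a - a) ≤ δ * C ^ 2 + C * δ + δ + δ := by
    rw [h6]
    refine (n1_add_le hT _ _).trans (add_le_add ((n1_add_le hT _ _).trans
      (add_le_add ((n1_add_le hT _ _).trans (add_le_add h7 h8)) h2)) h9)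
  refine h5.trans (h10.trans ?_)
  have h11 : C ≤ C ^ 2 := by nlinarith
  have h12 : 1 ≤ C ^ 2 := by nlinarith
  nlinarith [mul_le_mul_of_nonneg_right h11 hδ, mul_le_mul_of_nonneg_right h12 hδ]

end Pool.Agent.Lib.EqM
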