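import Pool.Agent.Lib.EqM.L2

/-!
Positivity of the joint distribution of two selfadjoint elements.
-/

open scoped ComplexOrder

namespace Pool.Agent.Lib.EqM

open Pool.Agent.Lib.EqGamma

variable {M : Type*} [CStarAlgebra M] {T : M →ₗ[ℝ] ℝ}

namespace JointAux

open Filter Topology

/-- Bernstein polynomials on `[0, c]` -/
noncomputable def be (c : ℝ) (N : ℕ) (k : Fin (N + 1)) (x : ℝ) : ℝ :=
  (N.choose k : ℝ) * (x / c) ^ (k : ℕ) * (1 - x / c) ^ (N - (k : ℕ))

theorem be_cont (c : ℝ) (N : ℕ) (k : Fin (N + 1)) : Continuous (be c N k) := by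
  unfold be
  have h : Continuous fun x : ℝ => x / c := continuous_id.div_const c
  fun_prop

noncomputable def ap (c : ℝ) (N : ℕ) (f : ℝ → ℝ) (x : ℝ) : ℝ :=
  ∑ k : Fin (N + 1), f (c * (bernstein.z k : ℝ)) * be c N k x

theorem mem_I {c x : ℝ} (hc : 0 ≤ c) (hx : x ∈ Set.Icc 0 c) : x / c ∈ unitInterval :=
  ⟨div_nonneg hx.1 hc, div_le_one_of_le₀ hx.2 hc⟩

theorem be_nonneg {c x : ℝ} (hc : 0 ≤ c) (hx : x ∈ Set.Icc 0 c) (N : ℕ) (k : Fin (N + 1)) :
    0 ≤ be c N k x := by
  unfold be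
  have h := mem_I hc hx
  have h1 : 0 ≤ 1 - x / c := by linarith [h.2]
  have h2 := h.1
  positivity

theorem cmul {c x : ℝ} (hx : x ∈ Set.Icc 0 c) : c * (x / c) = x := by
  by_cases h : c = 0
  · subst h
    have : x = 0 := le_antisymm hx.2 hx.1
    simp [this]
  · field_simp

theorem pt_mem {c : ℝ} (hc : 0 ≤ c) (t : unitInterval) : c * (t : ℝ) ∈ Set.Icc 0 c :=
  ⟨mul_nonneg hc t.2.1, mul_le_of_le_one_right hc t.2.2⟩

/-- the continuous function on the unit interval -/
noncomputable def FF (c : ℝ) (f : ℝ → ℝ) (hf : Continuous f) : C(unitInterval, ℝ) :=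
  ⟨fun t => f (c * (t : ℝ)), by fun_prop⟩

theorem ap_eq {c x : ℝ} (hc : 0 ≤ c) (hx : x ∈ Set.Icc 0 c) (N : ℕ) (f : ℝ → ℝ) (hf : Continuous f) :
    ap c N f x = bernsteinApproximation N (FF c f hf) ⟨x / c, mem_I hc hx⟩ := by
  unfold ap bernsteinApproximation
  rw [ContinuousMap.sum_apply]
  refine Finset.sum_congr rfl fun k _ => ?_
  simp only [smul_eq_mul, ContinuousMap.mul_apply, ContinuousMap.const_apply, bernstein_apply]
  rw [mul_comm]
  rfl

theorem ap_tendsto {c : ℝ} (hc : 0 ≤ c) (f : ℝ → ℝ) (hf : Continuous f) :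
    TendstoUniformlyOn (fun N => ap c N f) f atTop (Set.Icc 0 c) := by
  rw [Metric.tendstoUniformlyOn_iff]
  intro ε hε
  have h := Metric.tendsto_nhds.1 (bernsteinApproximation_uniform (FF c f hf)) ε hε
  filter_upwards [h] with N hN x hx
  rw [ap_eq hc hx N f hf, dist_comm]
  have h1 : f x = FF c f hf ⟨x / c, mem_I hc hx⟩ := by
    unfold FF
    simp only [ContinuousMap.coe_mk]
    rw [cmul hx]
  rw [h1]
  exact lt_of_le_of_lt (ContinuousMap.dist_apply_le_dist _) hN

theorem ap_cfc (c : ℝ) (N : ℕ) (f : ℝ → ℝ) (a : M) :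
    cfc (ap c N f) a = ∑ k : Fin (N + 1), f (c * (bernstein.z k : ℝ)) • cfc (be c N k) a := by
  have h1 : ap c N f = ∑ k : Fin (N + 1), fun x => f (c * (bernstein.z k : ℝ)) * be c N k x := by
    funext x
    rw [Finset.sum_apply]
    rfl
  rw [h1, cfc_sum _ _ _ (fun k _ => ((be_cont c N k).const_mul _).continuousOn)]
  refine Finset.sum_congr rfl fun k _ => ?_
  rw [cfc_const_mul _ _ _ (be_cont c N k).continuousOn]

theorem T_cont (hT : RTr T) : Continuous T := by
  have h : ∀ x, ‖T x‖ ≤ T 1 * ‖x‖ := by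
    intro x
    rw [Real.norm_eq_abs]
    have h1 := abs_T_mul_mul_le_l2 hT 1 x 1
    rw [one_mul, mul_one] at h1
    have h2 : l2 T 1 * l2 T 1 = T 1 := by
      rw [← sq, l2_sq hT, star_one, one_mul]
    rw [h2, mul_comm] at h1
    exact h1
  exact AddMonoidHomClass.continuous_of_bound T _ h

theorem spec [PartialOrder M] [StarOrderedRing M] {c : ℝ} {a : M}
    (ha : 0 ≤ a) (hac : a ≤ algebraMap ℝ M c) : spectrum ℝ a ⊆ Set.Icc 0 c := by
  intro x hx
  exact ⟨spectrum_nonneg_of_nonneg ha hx, (le_algebraMap_iff_spectrum_le (IsSelfAdjoint.of_nonneg ha)).1 hac x hx⟩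

end JointAux

open JointAux in
/-- If `∑ f_i(x) g_i(y) ≥ 0` on `[0, c] × [0, c]` then `∑ T (f_i(a) y g_i(b) y*) ≥ 0`. -/
theorem joint_nonneg [PartialOrder M] [StarOrderedRing M] (hT : RTr T) {c : ℝ} {a b : M}
    (ha : 0 ≤ a) (hac : a ≤ algebraMap ℝ M c) (hb : 0 ≤ b) (hbc : b ≤ algebraMap ℝ M c)
    {ι : Type*} (s : Finset ι) (f g : ι → ℝ → ℝ) (hf : ∀ i ∈ s, Continuous (f i))
    (hg : ∀ i ∈ s, Continuous (g i))
    (h : ∀ x ∈ Set.Icc 0 c, ∀ y ∈ Set.Icc 0 c, 0 ≤ ∑ i ∈ s, f i x * g i y) (y : M) :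
    0 ≤ ∑ i ∈ s, T (cfc (f i) a * y * cfc (g i) b * star y) := by
  rcases lt_or_ge c 0 with hc | hc
  · -- trivial algebra
    have h1 : (0 : M) ≤ algebraMap ℝ M c := ha.trans hac
    have h2 : algebraMap ℝ M c ≤ 0 := by
      rw [Algebra.algebraMap_eq_smul_one]
      have h3 : (0:M) ≤ (-c) • (1:M) := smul_nonneg (by linarith) zero_le_one
      rw [neg_smul] at h3
      exact neg_nonneg.1 h3
    have h4 : algebraMap ℝ M c = 0 := le_antisymm h2 h1
    have h5 : (1 : M) = 0 := by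
      rw [Algebra.algebraMap_eq_smul_one] at h4
      have := congrArg (fun z => c⁻¹ • z) h4
      simpa [smul_smul, inv_mul_cancel₀ hc.ne] using this
    have h6 : ∀ z : M, z = 0 := fun z => by rw [← one_mul z, h5, zero_mul]
    refine Finset.sum_nonneg fun i _ => ?_
    rw [h6 (cfc (f i) a * y * cfc (g i) b * star y), map_zero]
  · have hsa := spec ha hac
    have hsb := spec hb hbc
    have hlim : Filter.Tendsto (fun N : ℕ => ∑ i ∈ s, T (cfc (ap c N (f i)) a * y * cfc (ap c N (g i)) b * star y))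
        Filter.atTop (nhds (∑ i ∈ s, T (cfc (f i) a * y * cfc (g i) b * star y))) := by
      refine tendsto_finsetSum s fun i hi => ?_
      refine ((T_cont hT).tendsto _).comp ?_
      have hcon : ∀ (u : ℝ → ℝ) (N : ℕ), Continuous (ap c N u) := by
        intro u N
        unfold ap
        exact continuous_finsetSum _ fun k _ => (be_cont c N k).const_mul _
      have h1 : Filter.Tendsto (fun N => cfc (ap c N (f i)) a) Filter.atTop (nhds (cfc (f i) a)) :=
        tendsto_cfc_fun ((ap_tendsto hc (f i) (hf i hi)).mono hsa)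
          (Filter.Eventually.of_forall fun N => (hcon _ _).continuousOn)
      have h2 : Filter.Tendsto (fun N => cfc (ap c N (g i)) b) Filter.atTop (nhds (cfc (g i) b)) :=
        tendsto_cfc_fun ((ap_tendsto hc (g i) (hg i hi)).mono hsb)
          (Filter.Eventually.of_forall fun N => (hcon _ _).continuousOn)
      exact ((h1.mul tendsto_const_nhds).mul h2).mul tendsto_const_nhds
    refine ge_of_tendsto' hlim fun N => ?_
    have e1 : ∀ i ∈ s, T (cfc (ap c N (f i)) a * y * cfc (ap c N (g i)) b * star y) =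
        ∑ k : Fin (N + 1), ∑ k' : Fin (N + 1), (f i (c * (bernstein.z k : ℝ)) * g i (c * (bernstein.z k' : ℝ))) *
          T (cfc (be c N k) a * y * cfc (be c N k') b * star y) := by
      intro i _
      rw [ap_cfc, ap_cfc, Finset.sum_mul, Finset.sum_mul, Finset.sum_mul, map_sum]
      refine Finset.sum_congr rfl fun k _ => ?_
      rw [Finset.mul_sum, Finset.sum_mul, map_sum]
      refine Finset.sum_congr rfl fun k' _ => ?_
      rw [smul_mul_assoc, smul_mul_assoc, smul_mul_assoc, mul_smul_comm, smul_mul_assoc, smul_smul, map_smul,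
        smul_eq_mul]
    rw [Finset.sum_congr rfl e1, Finset.sum_comm]
    refine Finset.sum_nonneg fun k _ => ?_
    rw [Finset.sum_comm]
    refine Finset.sum_nonneg fun k' _ => ?_
    rw [← Finset.sum_mul]
    refine mul_nonneg (h _ (pt_mem hc _) _ (pt_mem hc _)) ?_
    rw [mul_assoc, mul_assoc, ← mul_assoc y]
    refine hT.nonneg_mul (cfc_nonneg fun x hx => be_nonneg hc (hsa hx) N k) ?_
    exact star_right_conjugate_nonneg (cfc_nonneg fun x hx => be_nonneg hc (hsb hx) N k') y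

end Pool.Agent.Lib.EqM
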