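import Pool.Agent.Lib.EqGamma.Defs

/-!
# Definitions for the tracial McDuff theorem

Local forms of the (equivariant) uniform McDuff property, the `L^1` and `L^2` seminorms of a tracial
functional, threshold functions and overlap systems.
-/

open scoped ComplexOrder

namespace Pool.Agent.Lib.EqM

open Pool.Agent.Lib.EqGamma

/-- `k` by `k` complex matrices -/
abbrev Mat (k : ℕ) := Matrix (Fin k) (Fin k) ℂ

/-- Local form of the uniform McDuff property for `k` by `k` matrices: approximately central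
approximate matrix units, in the seminorms `norm2 τ`, uniformly over all tracial states. -/
def UMat (k : ℕ) (A : Type*) [CStarAlgebra A] : Prop :=
  ∀ (F : Finset A) (ε : ℝ), 0 < ε → ∃ e : Fin k → Fin k → A,
    (∀ i j, ‖e i j‖ ≤ 1) ∧
    ∀ τ : A →ₗ[ℂ] ℂ, TracialState τ →
      (∀ i j, norm2 τ (star (e i j) - e j i) < ε) ∧
      (∀ i j l m, norm2 τ (e i j * e l m - if j = l then e i m else 0) < ε) ∧
      norm2 τ (1 - ∑ i, e i i) < ε ∧
      ∀ i j, ∀ a ∈ F, norm2 τ (a * e i j - e i j * a) < ε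

/-- Local form of the equivariant uniform McDuff property for `k` by `k` matrices. -/
def EqUMat {G : Type*} [Group G] (k : ℕ) {A : Type*} [CStarAlgebra A]
    (α : G →* (A ≃⋆ₐ[ℂ] A)) : Prop :=
  ∀ (H : Finset G) (F : Finset A) (ε : ℝ), 0 < ε → ∃ e : Fin k → Fin k → A,
    (∀ i j, ‖e i j‖ ≤ 1) ∧
    ∀ τ : A →ₗ[ℂ] ℂ, TracialState τ →
      (∀ i j, norm2 τ (star (e i j) - e j i) < ε) ∧
      (∀ i j l m, norm2 τ (e i j * e l m - if j = l then e i m else 0) < ε) ∧
      norm2 τ (1 - ∑ i, e i i) < ε ∧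
      (∀ i j, ∀ a ∈ F, norm2 τ (a * e i j - e i j * a) < ε) ∧
      ∀ i j, ∀ h ∈ H, norm2 τ (α h (e i j) - e i j) < ε

/-- the sum of the absolute values of the entries -/
noncomputable def ms {k : ℕ} (x : Mat k) : ℝ := ∑ i, ∑ j, ‖x i j‖

section norms

variable {M : Type*} [CStarAlgebra M]

/-- the `L^2` seminorm of a real tracial functional -/
noncomputable def l2 (T : M →ₗ[ℝ] ℝ) (x : M) : ℝ := √(T (star x * x))

/-- the absolute value `(x* x)^{1/2}` -/
noncomputable def ab (x : M) : M := cfc Real.sqrt (star x * x)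

/-- the `L^1` seminorm of a real tracial functional -/
noncomputable def n1 (T : M →ₗ[ℝ] ℝ) (x : M) : ℝ := T (ab x)

end norms

section thresholds

/-- the `i`-th threshold function: `0` on `(-∞, s0 + i/S]`, `1` on `[s0 + (i+1)/S, ∞)`, linear in
between -/
noncomputable def rho (s0 : ℝ) (S i : ℕ) (t : ℝ) : ℝ := max 0 (min 1 (S * (t - s0) - i))

/-- the normalising function `rho / √t` -/
noncomputable def hh (s0 : ℝ) (S i : ℕ) (t : ℝ) : ℝ := rho s0 S i t / √t

/-- cutoff: `0` on `(-∞, η]`, `1` on `[2η, ∞)`, linear in between -/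
noncomputable def phi (η t : ℝ) : ℝ := max 0 (min 1 ((t - η) / η))

end thresholds

end Pool.Agent.Lib.EqM
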