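import Pool.Agent.Lib.EqGamma.GTr
import Pool.Agent.Lib.EqM.Defs

/-!
The `L^2` seminorm of a real tracial functional.
-/

open scoped ComplexOrder

namespace Pool.Agent.Lib.EqM

open Pool.Agent.Lib.EqGamma

variable {M : Type*} [CStarAlgebra M] {T : M →ₗ[ℝ] ℝ}

theorem l2_nonneg (T : M →ₗ[ℝ] ℝ) (x : M) : 0 ≤ l2 T x := Real.sqrt_nonneg _

theorem l2_sq (hT : RTr T) (x : M) : l2 T x ^ 2 = T (star x * x) :=
  Real.sq_sqrt (hT.nonneg' x)

theorem l2_zero (T : M →ₗ[ℝ] ℝ) : l2 T 0 = 0 := by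
  unfold l2
  rw [mul_zero, map_zero, Real.sqrt_zero]

theorem l2_le_iff (hT : RTr T) {x : M} {c : ℝ} (hc : 0 ≤ c) : l2 T x ≤ c ↔ T (star x * x) ≤ c ^ 2 := by
  unfold l2
  rw [Real.sqrt_le_left hc]

theorem l2_add_le (hT : RTr T) (x y : M) : l2 T (x + y) ≤ l2 T x + l2 T y := by
  rw [l2_le_iff hT (add_nonneg (l2_nonneg T x) (l2_nonneg T y)), add_sq, l2_sq hT, l2_sq hT]
  have h1 := hT.abs_cs x y
  have h2 : T (star (x + y) * (x + y)) = T (star x * x) + 2 * T (star x * y) + T (star y * y) := by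
    rw [star_add]
    simp only [add_mul, mul_add, map_add]
    rw [hT.symm y x]
    ring
  rw [h2]
  have h3 := (le_abs_self _).trans h1
  have h4 : T (star x * y) ≤ l2 T x * l2 T y := h3
  nlinarith

theorem l2_neg (T : M →ₗ[ℝ] ℝ) (x : M) : l2 T (-x) = l2 T x := by
  unfold l2
  rw [star_neg, neg_mul_neg]

theorem l2_sub_le (hT : RTr T) (x y : M) : l2 T (x - y) ≤ l2 T x + l2 T y := by
  rw [sub_eq_add_neg, ← l2_neg T y]
  exact l2_add_le hT x (-y)

theorem l2_sub_comm (T : M →ₗ[ℝ] ℝ) (x y : M) : l2 T (x - y) = l2 T (y - x) := by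
  rw [← neg_sub, l2_neg]

theorem l2_sum_le (hT : RTr T) {ι : Type*} (s : Finset ι) (f : ι → M) :
    l2 T (∑ i ∈ s, f i) ≤ ∑ i ∈ s, l2 T (f i) := by
  classical
  induction s using Finset.induction_on with
  | empty => simp [l2_zero]
  | insert a s ha ih =>
    rw [Finset.sum_insert ha, Finset.sum_insert ha]
    exact (l2_add_le hT _ _).trans (by linarith)

theorem l2_smul (T : M →ₗ[ℝ] ℝ) (c : ℂ) (x : M) : l2 T (c • x) = ‖c‖ * l2 T x := by
  unfold l2
  rw [star_smul, smul_mul_smul_comm]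
  have h1 : star c * c = ((‖c‖ ^ 2 : ℝ) : ℂ) := by
    rw [Complex.star_def, mul_comm, Complex.mul_conj, Complex.normSq_eq_norm_sq]
  rw [h1, Complex.coe_smul, map_smul, smul_eq_mul, Real.sqrt_mul (by positivity),
    Real.sqrt_sq (norm_nonneg c)]

theorem l2_rsmul (T : M →ₗ[ℝ] ℝ) (c : ℝ) (x : M) : l2 T (c • x) = |c| * l2 T x := by
  rw [← Complex.coe_smul, l2_smul, Complex.norm_real, Real.norm_eq_abs]

theorem l2_star (hT : RTr T) (x : M) : l2 T (star x) = l2 T x := by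
  unfold l2
  rw [star_star, hT.tracial]

theorem l2_mul_left_le (hT : RTr T) (y x : M) : l2 T (y * x) ≤ ‖y‖ * l2 T x := by
  let _ := CStarAlgebra.spectralOrder M
  have := CStarAlgebra.spectralOrderedRing M
  rw [l2_le_iff hT (mul_nonneg (norm_nonneg y) (l2_nonneg T x)), mul_pow, l2_sq hT]
  exact hT.sq_mul_le y x

theorem l2_mul_right_le (hT : RTr T) (x y : M) : l2 T (x * y) ≤ l2 T x * ‖y‖ := by
  let _ := CStarAlgebra.spectralOrder M
  have := CStarAlgebra.spectralOrderedRing M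
  rw [l2_le_iff hT (mul_nonneg (l2_nonneg T x) (norm_nonneg y)), mul_pow, l2_sq hT, mul_comm]
  exact hT.sq_mul_le' x y

/-- Cauchy-Schwarz -/
theorem abs_T_mul_le_l2 (hT : RTr T) (x y : M) : |T (x * y)| ≤ l2 T x * l2 T y := by
  have h1 := hT.abs_cs (star x) y
  rw [star_star] at h1
  refine h1.trans (le_of_eq ?_)
  rw [← hT.tracial]
  rfl

theorem abs_T_mul_mul_le_l2 (hT : RTr T) (x z y : M) :
    |T (x * z * y)| ≤ ‖z‖ * (l2 T x * l2 T y) := by
  refine (abs_T_mul_le_l2 hT (x * z) y).trans ?_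
  have := mul_le_mul_of_nonneg_right (l2_mul_right_le hT x z) (l2_nonneg T y)
  linarith

/-- the `L^2` seminorm of the square of a contraction -/
theorem l2_le_l2_of_norm_le_one (hT : RTr T) {x y : M} (hy : ‖y‖ ≤ 1) : l2 T (x * y) ≤ l2 T x :=
  (l2_mul_right_le hT x y).trans (mul_le_of_le_one_right (l2_nonneg T x) hy)

theorem l2_le_l2_of_norm_le_one' (hT : RTr T) {x y : M} (hy : ‖y‖ ≤ 1) : l2 T (y * x) ≤ l2 T x :=
  (l2_mul_left_le hT y x).trans (mul_le_of_le_one_left (l2_nonneg T x) hy)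

end Pool.Agent.Lib.EqM
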