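import Pool.Agent.Lib.EqGamma.GPoly
import Pool.Agent.Lib.EqGamma.GStep
import Pool.Agent.Lib.EqM.L2

/-!
The Powers-Stoermer inequality for comparable elements, through the operator monotonicity of the
square root.
-/

open scoped ComplexOrder

namespace Pool.Agent.Lib.EqM

open Pool.Agent.Lib.EqGamma

variable {M : Type*} [CStarAlgebra M] {T : M →ₗ[ℝ] ℝ}

theorem l2_sqrt_sub_sq_le [PartialOrder M] [StarOrderedRing M] (hT : RTr T) {b c : M}
    (hb : 0 ≤ b) (hbc : b ≤ c) :
    l2 T (cfc Real.sqrt c - cfc Real.sqrt b) ^ 2 ≤ T (c - b) := by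
  have hc : 0 ≤ c := hb.trans hbc
  have h1 : cfc Real.sqrt b ≤ cfc Real.sqrt c := GoodPoly.rt_mono hb hbc
  have h2 : 0 ≤ cfc Real.sqrt b := GoodPoly.rt_nonneg b
  have h3 : cfc Real.sqrt b * cfc Real.sqrt b = b := GoodPoly.rt_mul_self hb
  have h4 : cfc Real.sqrt c * cfc Real.sqrt c = c := GoodPoly.rt_mul_self hc
  have h5 : 0 ≤ cfc Real.sqrt c := GoodPoly.rt_nonneg c
  have h6 := hT.nonneg_mul h2 (sub_nonneg.2 h1)
  rw [l2_sq hT, star_sub, h2.isSelfAdjoint.star_eq, h5.isSelfAdjoint.star_eq]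
  rw [mul_sub, map_sub, h3] at h6
  have e : (cfc Real.sqrt c - cfc Real.sqrt b) * (cfc Real.sqrt c - cfc Real.sqrt b) =
      cfc Real.sqrt c * cfc Real.sqrt c - cfc Real.sqrt c * cfc Real.sqrt b -
        cfc Real.sqrt b * cfc Real.sqrt c + cfc Real.sqrt b * cfc Real.sqrt b := by
    noncomm_ring
  rw [e, h3, h4]
  simp only [map_sub, map_add]
  rw [hT.tracial (cfc Real.sqrt c)]
  linarith

/-- the resolvent type function `t ↦ t s / (t + s)` -/
noncomputable def psi (s t : ℝ) : ℝ := t * s / (|t| + s)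

theorem continuous_psi {s : ℝ} (hs : 0 < s) : Continuous (psi s) := by
  unfold psi
  refine Continuous.div (by fun_prop) (by fun_prop) fun t => ?_
  have := abs_nonneg t
  positivity

private theorem continuous_res {s : ℝ} (hs : 0 < s) :
    Continuous (fun t : ℝ => s / (|t| + s)) := by
  refine Continuous.div (by fun_prop) (by fun_prop) fun t => ?_
  have := abs_nonneg t
  positivity

private theorem res_le [PartialOrder M] [StarOrderedRing M] {q B : M} {r s : ℝ}
    (hq : q * q = q) (hqs : star q = q) (hr : 0 < r) (hs : 0 < s) (hB : r • q ≤ B) :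
    cfc (fun t : ℝ => s / (|t| + s)) B ≤ 1 - (r / (r + s)) • q := by
  have hq0 : 0 ≤ q := proj_nonneg hqs hq
  have hrq : 0 ≤ r • q := smul_nonneg hr.le hq0
  have hB0 : 0 ≤ B := hrq.trans hB
  have hBs : IsSelfAdjoint B := hB0.isSelfAdjoint
  have hrs : r + s ≠ 0 := by positivity
  set c := s⁻¹ * r with hc
  have hc0 : 0 < c := by positivity
  have hcc : r / (r + s) = c / (1 + c) := by
    rw [hc]
    field_simp
    ring
  rw [hcc]
  have ha : ∀ d : ℝ, c - d - c * d = 0 → (1 + c • q) * (1 - d • q) = 1 := by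
    intro d hd
    have e : (1 + c • q) * (1 - d • q) = 1 + c • q - d • q - (c * d) • (q * q) := by
      simp only [add_mul, mul_sub, one_mul, mul_one, smul_mul_assoc, mul_smul_comm]
      module
    rw [e, hq]
    have e2 : 1 + c • q - d • q - (c * d) • q = 1 + (c - d - c * d) • q := by module
    rw [e2, hd, zero_smul, add_zero]
  have ha' : ∀ d : ℝ, c - d - c * d = 0 → (1 - d • q) * (1 + c • q) = 1 := by
    intro d hd
    have e : (1 - d • q) * (1 + c • q) = 1 + c • q - d • q - (c * d) • (q * q) := by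
      simp only [sub_mul, mul_add, one_mul, mul_one, smul_mul_assoc, mul_smul_comm]
      module
    rw [e, hq]
    have e2 : 1 + c • q - d • q - (c * d) • q = 1 + (c - d - c * d) • q := by module
    rw [e2, hd, zero_smul, add_zero]
  have hd : c - c / (1 + c) - c * (c / (1 + c)) = 0 := by
    field_simp
    ring
  let a : Mˣ := ⟨1 + c • q, 1 - (c / (1 + c)) • q, ha _ hd, ha' _ hd⟩
  set R := cfc (fun t : ℝ => s / (|t| + s)) B with hR
  have hspec : ∀ x ∈ spectrum ℝ B, 0 ≤ x := fun x hx => spectrum_nonneg_of_nonneg hB0 hx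
  have e1 : (1 : M) + s⁻¹ • B = cfc (fun t : ℝ => 1 + s⁻¹ * t) B := by
    rw [cfc_add (a := B) (fun _ : ℝ => (1 : ℝ)) (fun t : ℝ => s⁻¹ * t) (by fun_prop) (by fun_prop),
      cfc_const_one ℝ B, cfc_const_mul_id s⁻¹ B]
  have hb1 : (1 + s⁻¹ • B) * R = 1 := by
    rw [e1, hR, ← cfc_mul _ _ B (by fun_prop) (continuous_res hs).continuousOn,
      ← cfc_const_one ℝ B]
    apply cfc_congr
    intro x hx
    have hx0 := hspec x hx
    have : x + s ≠ 0 := by positivity
    simp only [abs_of_nonneg hx0]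
    field_simp
    ring
  have hb2 : R * (1 + s⁻¹ • B) = 1 := by
    rw [e1, hR, ← cfc_mul _ _ B (continuous_res hs).continuousOn (by fun_prop),
      ← cfc_const_one ℝ B]
    apply cfc_congr
    intro x hx
    have hx0 := hspec x hx
    have : x + s ≠ 0 := by positivity
    simp only [abs_of_nonneg hx0]
    field_simp
    ring
  let b : Mˣ := ⟨1 + s⁻¹ • B, R, hb1, hb2⟩
  have h1 : (a : M) ≤ b := by
    change 1 + c • q ≤ 1 + s⁻¹ • B
    rw [hc, ← smul_smul]
    exact add_le_add_right (smul_le_smul_of_nonneg_left hB (inv_nonneg.2 hs.le)) 1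
  have h0 : (0 : M) ≤ a := by
    change 0 ≤ 1 + c • q
    exact add_nonneg zero_le_one (smul_nonneg hc0.le hq0)
  exact CStarAlgebra.inv_le_inv h0 h1

/-- for a sum of projections `B = r ∑ q_g` with `T (q_g) ≤ w` one has
`T (B s / (B + s)) ≤ s |K| w` -/
theorem T_psi_le [PartialOrder M] [StarOrderedRing M] (hT : RTr T) {G : Type*} (K : Finset G)
    {q : G → M} (hq : ∀ g ∈ K, q g * q g = q g) (hqs : ∀ g ∈ K, star (q g) = q g) {w : ℝ}
    (hw : ∀ g ∈ K, T (q g) ≤ w) {r s : ℝ} (hr : 0 < r) (hs : 0 < s) :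
    T (cfc (psi s) (r • ∑ g ∈ K, q g)) ≤ s * K.card * w := by
  have hp : ∀ g ∈ K, 0 ≤ q g := fun g hg => proj_nonneg (hqs g hg) (hq g hg)
  have hB0 : 0 ≤ r • ∑ g ∈ K, q g := smul_nonneg hr.le (Finset.sum_nonneg hp)
  set B := r • ∑ g ∈ K, q g with hBdef
  have hBs : IsSelfAdjoint B := hB0.isSelfAdjoint
  set R := cfc (fun t : ℝ => s / (|t| + s)) B with hR
  have e1 : cfc (psi s) B = B * R := by
    have e2 : psi s = fun t => id t * (s / (|t| + s)) := by
      funext t
      simp only [psi, id]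
      ring
    rw [e2, cfc_mul id (fun t : ℝ => s / (|t| + s)) B continuousOn_id
      (continuous_res hs).continuousOn, cfc_id ℝ B hBs]
  have e3 : B * R = r • ∑ g ∈ K, q g * R := by
    rw [hBdef, smul_mul_assoc, Finset.sum_mul]
  rw [e1, e3, map_smul, map_sum, smul_eq_mul]
  have h1 : ∀ g ∈ K, T (q g * R) ≤ s / (r + s) * w := by
    intro g hg
    have h2 : r • q g ≤ B := by
      rw [hBdef]
      exact smul_le_smul_of_nonneg_left (Finset.single_le_sum hp hg) hr.le
    have h3 := res_le (hq g hg) (hqs g hg) hr hs h2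
    have h4 := hT.mul_le_mul (hp g hg) h3
    refine h4.trans ?_
    rw [mul_sub, mul_one, mul_smul_comm, hq g hg, map_sub, map_smul, smul_eq_mul]
    have h5 : T (q g) - r / (r + s) * T (q g) = s / (r + s) * T (q g) := by
      have : r + s ≠ 0 := by positivity
      field_simp
      ring
    rw [h5]
    exact mul_le_mul_of_nonneg_left (hw g hg) (by positivity)
  rcases K.eq_empty_or_nonempty with hK | ⟨g0, hg0⟩
  · simp [hK]
  · have hw0 : 0 ≤ w := (hT.nonneg (hp g0 hg0)).trans (hw g0 hg0)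
    calc r * ∑ g ∈ K, T (q g * R) ≤ r * ∑ g ∈ K, s / (r + s) * w :=
          mul_le_mul_of_nonneg_left (Finset.sum_le_sum h1) hr.le
      _ = (r / (r + s)) * (s * K.card * w) := by
          rw [Finset.sum_const, nsmul_eq_mul]; ring
      _ ≤ 1 * (s * K.card * w) := by
          apply mul_le_mul_of_nonneg_right _ (by positivity)
          rw [div_le_one (by positivity)]
          linarith
      _ = _ := one_mul _

end Pool.Agent.Lib.EqM
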