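import Pool.Agent.Lib.EqM.ThrFun
import Pool.Agent.Lib.EqM.Joint
import Pool.Agent.Lib.EqM.SqrtMono

/-!
Connes' joint distribution trick for the threshold functions.
-/

open scoped ComplexOrder

namespace Pool.Agent.Lib.EqM

open Pool.Agent.Lib.EqGamma

variable {M : Type*} [CStarAlgebra M] {T : M →ₗ[ℝ] ℝ}

private theorem pointwise_ineq {lam : ℝ} (hlam : 0 < lam) {x y : ℝ} (hx : 0 ≤ x) (hy : 0 ≤ y) :
    |x - y| ≤ 1 / (2 * lam) * (√x - √y) ^ 2 + lam * (x + y) := by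
  obtain ⟨u, hu, rfl⟩ : ∃ u, 0 ≤ u ∧ x = u ^ 2 := ⟨√x, Real.sqrt_nonneg x, (Real.sq_sqrt hx).symm⟩
  obtain ⟨v, hv, rfl⟩ : ∃ v, 0 ≤ v ∧ y = v ^ 2 := ⟨√y, Real.sqrt_nonneg y, (Real.sq_sqrt hy).symm⟩
  rw [Real.sqrt_sq hu, Real.sqrt_sq hv]
  have h1 : |u ^ 2 - v ^ 2| = |u - v| * (u + v) := by
    rw [show u ^ 2 - v ^ 2 = (u - v) * (u + v) by ring, abs_mul, abs_of_nonneg (add_nonneg hu hv)]
  rw [h1, ← sq_abs (u - v)]
  set d := |u - v| with hd
  have h2 : 0 ≤ 1 / (2 * lam) * (d - lam * (u + v)) ^ 2 := by positivity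
  have h3 : 1 / (2 * lam) * (d - lam * (u + v)) ^ 2 =
      1 / (2 * lam) * d ^ 2 - d * (u + v) + lam / 2 * (u + v) ^ 2 := by
    field_simp
    ring
  have h4 : lam / 2 * (u + v) ^ 2 ≤ lam * (u ^ 2 + v ^ 2) := by
    nlinarith [sq_nonneg (u - v), mul_nonneg hlam.le (sq_nonneg (u - v))]
  linarith

private theorem l2_cfc_sub_sq [PartialOrder M] [StarOrderedRing M] (hT : RTr T) {b c : M}
    (hb : IsSelfAdjoint b) (hc : IsSelfAdjoint c) {f : ℝ → ℝ} (hf : Continuous f) :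
    l2 T (cfc f b - cfc f c) ^ 2 =
      T (cfc (fun t => f t ^ 2) b) - 2 * T (cfc f b * cfc f c) + T (cfc (fun t => f t ^ 2) c) := by
  rw [l2_sq hT]
  have h1 : star (cfc f b) = cfc f b := (cfc_predicate f b : IsSelfAdjoint (cfc f b))
  have h2 : star (cfc f c) = cfc f c := (cfc_predicate f c : IsSelfAdjoint (cfc f c))
  have h3 : cfc (fun t => f t ^ 2) b = cfc f b * cfc f b := by
    rw [← cfc_mul f f b hf.continuousOn hf.continuousOn]
    congr 1
    funext t
    ring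
  have h4 : cfc (fun t => f t ^ 2) c = cfc f c * cfc f c := by
    rw [← cfc_mul f f c hf.continuousOn hf.continuousOn]
    congr 1
    funext t
    ring
  rw [star_sub, h1, h2, h3, h4, sub_mul, mul_sub, mul_sub, map_sub, map_sub, map_sub,
    hT.tracial (cfc f c) (cfc f b)]
  ring

theorem sum_l2_rho_sub_sq_le [PartialOrder M] [StarOrderedRing M] (hT : RTr T) {b c : M}
    (hb : 0 ≤ b) (hbc : b ≤ c) (hc : c ≤ algebraMap ℝ M 2) {lam : ℝ} (hlam : 0 < lam)
    (s0 : ℝ) {S : ℕ} (hS : 0 < S) :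
    (1 / S : ℝ) * ∑ i ∈ Finset.range S, l2 T (cfc (rho s0 S i) b - cfc (rho s0 S i) c) ^ 2 ≤
      1 / (2 * lam) * T (c - b) + lam * (T b + T c) := by
  have hbs : IsSelfAdjoint b := IsSelfAdjoint.of_nonneg hb
  have hcs : IsSelfAdjoint c := IsSelfAdjoint.of_nonneg (hb.trans hbc)
  set al : ℝ := 1 / (2 * lam) with hal
  have hal0 : 0 < al := by rw [hal]; positivity
  let f : Fin 3 ⊕ (ℕ × Fin 3) → ℝ → ℝ := Sum.elim
    ![fun x => (al + lam) * x, fun _ => 1, fun x => (-2 * al) * √x]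
    (fun p => ![fun x => (-(1 / S : ℝ)) * rho s0 S p.1 x ^ 2, fun _ => 1,
      fun x => (2 / S : ℝ) * rho s0 S p.1 x] p.2)
  let g : Fin 3 ⊕ (ℕ × Fin 3) → ℝ → ℝ := Sum.elim
    ![fun _ => 1, fun y => (al + lam) * y, fun y => √y]
    (fun p => ![fun _ => 1, fun y => (-(1 / S : ℝ)) * rho s0 S p.1 y ^ 2,
      fun y => rho s0 S p.1 y] p.2)
  have hrc : ∀ i, Continuous (rho s0 S i) := continuous_rho s0 S
  have hf : ∀ i, Continuous (f i) := by
    rintro (i | ⟨i, j⟩)
    · fin_cases i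
      · show Continuous fun x => (al + lam) * x
        fun_prop
      · show Continuous fun _ => (1 : ℝ)
        fun_prop
      · show Continuous fun x => (-2 * al) * √x
        fun_prop
    · have := hrc i
      fin_cases j
      · show Continuous fun x => (-(1 / S : ℝ)) * rho s0 S i x ^ 2
        fun_prop
      · show Continuous fun _ => (1 : ℝ)
        fun_prop
      · show Continuous fun x => (2 / S : ℝ) * rho s0 S i x
        fun_prop
  have hg : ∀ i, Continuous (g i) := by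
    rintro (i | ⟨i, j⟩)
    · fin_cases i
      · show Continuous fun _ => (1 : ℝ)
        fun_prop
      · show Continuous fun x => (al + lam) * x
        fun_prop
      · show Continuous fun x => √x
        fun_prop
    · have := hrc i
      fin_cases j
      · show Continuous fun _ => (1 : ℝ)
        fun_prop
      · show Continuous fun x => (-(1 / S : ℝ)) * rho s0 S i x ^ 2
        fun_prop
      · show Continuous fun x => rho s0 S i x
        fun_prop
  let s : Finset (Fin 3 ⊕ (ℕ × Fin 3)) :=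
    Finset.disjSum Finset.univ (Finset.range S ×ˢ Finset.univ)
  have hpt : ∀ x ∈ Set.Icc (0 : ℝ) 2, ∀ y ∈ Set.Icc (0 : ℝ) 2, 0 ≤ ∑ i ∈ s, f i x * g i y := by
    intro x hx y hy
    have h1 : ∑ i ∈ s, f i x * g i y =
        ((al + lam) * x * 1 + 1 * ((al + lam) * y) + (-2 * al) * √x * √y) +
        ∑ i ∈ Finset.range S, ((-(1 / S : ℝ)) * rho s0 S i x ^ 2 * 1 +
          1 * ((-(1 / S : ℝ)) * rho s0 S i y ^ 2) +
          (2 / S : ℝ) * rho s0 S i x * rho s0 S i y) := by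
      rw [Finset.sum_disjSum, Fin.sum_univ_three, Finset.sum_product]
      congr 1
      refine Finset.sum_congr rfl fun i _ => ?_
      rw [Fin.sum_univ_three]
      rfl
    rw [h1]
    have h2 : ∑ i ∈ Finset.range S, ((-(1 / S : ℝ)) * rho s0 S i x ^ 2 * 1 +
          1 * ((-(1 / S : ℝ)) * rho s0 S i y ^ 2) +
          (2 / S : ℝ) * rho s0 S i x * rho s0 S i y) =
        -((1 / S : ℝ) * ∑ i ∈ Finset.range S, (rho s0 S i x - rho s0 S i y) ^ 2) := by
      rw [Finset.mul_sum, ← Finset.sum_neg_distrib]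
      refine Finset.sum_congr rfl fun i _ => ?_
      ring
    rw [h2]
    have h3 := sum_rho_sub_sq_le (s0 := s0) hS x y
    have h4 := pointwise_ineq hlam hx.1 hy.1
    have h5 : (√x - √y) ^ 2 = x + y - 2 * √x * √y := by
      rw [sub_sq, Real.sq_sqrt hx.1, Real.sq_sqrt hy.1]
      ring
    rw [h5, ← hal] at h4
    linarith
  have hJ := joint_nonneg hT (c := 2) hb (hbc.trans hc) (hb.trans hbc) hc s f g (fun i _ => hf i)
    (fun i _ => hg i) hpt 1
  have h6 : ∀ i, T (cfc (f i) b * 1 * cfc (g i) c * star 1) = T (cfc (f i) b * cfc (g i) c) := by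
    intro i
    rw [star_one, mul_one, mul_one]
  rw [Finset.sum_congr rfl fun i _ => h6 i, Finset.sum_disjSum, Fin.sum_univ_three,
    Finset.sum_product] at hJ
  have e1 : T (cfc (f (Sum.inl 0)) b * cfc (g (Sum.inl 0)) c) = (al + lam) * T b := by
    have a1 : cfc (f (Sum.inl 0)) b = (al + lam) • b := cfc_const_mul_id (al + lam) b
    have a2 : cfc (g (Sum.inl 0)) c = 1 := cfc_const_one ℝ c
    rw [a1, a2, mul_one, map_smul, smul_eq_mul]
  have e2 : T (cfc (f (Sum.inl 1)) b * cfc (g (Sum.inl 1)) c) = (al + lam) * T c := by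
    have a1 : cfc (g (Sum.inl 1)) c = (al + lam) • c := cfc_const_mul_id (al + lam) c
    have a2 : cfc (f (Sum.inl 1)) b = 1 := cfc_const_one ℝ b
    rw [a1, a2, one_mul, map_smul, smul_eq_mul]
  have e3 : T (cfc (f (Sum.inl 2)) b * cfc (g (Sum.inl 2)) c) =
      (-2 * al) * T (cfc Real.sqrt b * cfc Real.sqrt c) := by
    have a1 : cfc (f (Sum.inl 2)) b = (-2 * al) • cfc Real.sqrt b :=
      cfc_const_mul (-2 * al) Real.sqrt b Real.continuous_sqrt.continuousOn
    have a2 : cfc (g (Sum.inl 2)) c = cfc Real.sqrt c := rfl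
    rw [a1, a2, smul_mul_assoc, map_smul, smul_eq_mul]
  have e4 : ∀ i ∈ Finset.range S, ∑ j : Fin 3,
      T (cfc (f (Sum.inr (i, j))) b * cfc (g (Sum.inr (i, j))) c) =
      -((1 / S : ℝ) * l2 T (cfc (rho s0 S i) b - cfc (rho s0 S i) c) ^ 2) := by
    intro i _
    rw [Fin.sum_univ_three]
    have hsq : Continuous fun t => rho s0 S i t ^ 2 := (hrc i).pow 2
    have a1 : cfc (f (Sum.inr (i, 0))) b = (-(1 / S : ℝ)) • cfc (fun t => rho s0 S i t ^ 2) b :=
      cfc_const_mul (-(1 / S : ℝ)) (fun t => rho s0 S i t ^ 2) b hsq.continuousOn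
    have a2 : cfc (g (Sum.inr (i, 0))) c = 1 := cfc_const_one ℝ c
    have a3 : cfc (f (Sum.inr (i, 1))) b = 1 := cfc_const_one ℝ b
    have a4 : cfc (g (Sum.inr (i, 1))) c = (-(1 / S : ℝ)) • cfc (fun t => rho s0 S i t ^ 2) c :=
      cfc_const_mul (-(1 / S : ℝ)) (fun t => rho s0 S i t ^ 2) c hsq.continuousOn
    have a5 : cfc (f (Sum.inr (i, 2))) b = (2 / S : ℝ) • cfc (rho s0 S i) b :=
      cfc_const_mul (2 / S : ℝ) (rho s0 S i) b (hrc i).continuousOn
    have a6 : cfc (g (Sum.inr (i, 2))) c = cfc (rho s0 S i) c := rfl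
    rw [a1, a2, a3, a4, a5, a6, mul_one, one_mul, smul_mul_assoc, map_smul, map_smul, map_smul,
      smul_eq_mul, smul_eq_mul, smul_eq_mul, l2_cfc_sub_sq hT hbs hcs (hrc i)]
    ring
  rw [e1, e2, e3, Finset.sum_congr rfl e4, Finset.sum_neg_distrib, ← Finset.mul_sum] at hJ
  have h7 := l2_sqrt_sub_sq_le hT hb hbc
  rw [l2_cfc_sub_sq hT hcs hbs Real.continuous_sqrt] at h7
  have h8 : ∀ d : M, 0 ≤ d → cfc (fun t => √t ^ 2) d = d := by
    intro d hd
    have hds : IsSelfAdjoint d := IsSelfAdjoint.of_nonneg hd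
    conv_rhs => rw [← cfc_id ℝ d hds]
    refine cfc_congr fun t ht => ?_
    exact Real.sq_sqrt (spectrum_nonneg_of_nonneg hd ht)
  rw [h8 c (hb.trans hbc), h8 b hb, hT.tracial (cfc Real.sqrt c) (cfc Real.sqrt b), map_sub] at h7
  rw [map_sub]
  have h9 := mul_le_mul_of_nonneg_left h7 hal0.le
  linarith

end Pool.Agent.Lib.EqM
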