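import Pool.Agent.Lib.EqM.InvA
import Pool.Agent.Lib.EqM.ThrT

/-!
Comparison of the increments of `K ⊆ L`, step two.
-/

open scoped ComplexOrder

namespace Pool.Agent.Lib.EqM

open Pool.Agent.Lib.EqGamma

universe u v

namespace InvBAux

theorem norm_entry_le {k : ℕ} {u : Mat k} (hu : star u * u = 1) (i j : Fin k) : ‖u i j‖ ≤ 1 := by
  have h := congrFun (congrFun hu j) j
  rw [Matrix.mul_apply] at h
  simp only [Matrix.star_apply, Matrix.one_apply_eq] at h
  have h2 : ∑ l, ‖u l j‖ ^ 2 = (1 : ℝ) := by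
    have h3 : ((∑ l, ‖u l j‖ ^ 2 : ℝ) : ℂ) = 1 := by
      rw [← h]
      push_cast
      refine Finset.sum_congr rfl fun l _ => ?_
      rw [Complex.star_def, mul_comm, Complex.mul_conj, Complex.normSq_eq_norm_sq]
      push_cast
      rfl
    exact_mod_cast h3
  have h3 : ‖u i j‖ ^ 2 ≤ 1 := by
    rw [← h2]
    exact Finset.single_le_sum (f := fun l => ‖u l j‖ ^ 2) (fun l _ => by positivity)
      (Finset.mem_univ i)
  nlinarith [norm_nonneg (u i j)]

theorem ms_unitary_le {k : ℕ} {u : Mat k} (hu : star u * u = 1) : ms u ≤ (k : ℝ) ^ 2 := by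
  unfold ms
  calc ∑ i, ∑ j, ‖u i j‖ ≤ ∑ _i : Fin k, ∑ _j : Fin k, (1 : ℝ) :=
        Finset.sum_le_sum fun i _ => Finset.sum_le_sum fun j _ => norm_entry_le hu i j
    _ = (k : ℝ) ^ 2 := by
        simp
        ring

section alg

variable {N : Type*} [CStarAlgebra N] {G : Type*}

theorem star_BQ {q : G → N} (hq : ∀ g, star (q g) = q g) (r : ℝ) (K : Finset G) :
    star (BQ q r K) = BQ q r K := by
  unfold BQ
  rw [star_smul, star_sum]
  simp only [hq, star_trivial]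

theorem star_cfc (f : ℝ → ℝ) (a : N) : star (cfc f a) = cfc f a :=
  (cfc_predicate f a : IsSelfAdjoint (cfc f a))

theorem norm_rho_le (s0 : ℝ) (S i : ℕ) (a : N) : ‖cfc (rho s0 S i) a‖ ≤ 1 :=
  norm_cfc_le zero_le_one fun x _ => by
    rw [Real.norm_eq_abs, abs_of_nonneg (rho_nonneg _ _ _ _)]
    exact rho_le_one _ _ _ _

theorem norm_phi_le (η : ℝ) (a : N) : ‖cfc (phi η) a‖ ≤ 1 :=
  norm_cfc_le zero_le_one fun x _ => by
    rw [Real.norm_eq_abs, abs_of_nonneg (phi_nonneg _ _)]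
    exact phi_le_one _ _

theorem rho_mul_rho (s0 : ℝ) (S i : ℕ) (a : N) :
    cfc (rho s0 S i) a * cfc (rho s0 S i) a = cfc (fun t => rho s0 S i t ^ 2) a := by
  rw [← cfc_mul _ _ a (continuous_rho _ _ _).continuousOn (continuous_rho _ _ _).continuousOn]
  congr 1
  ext t
  ring

theorem l2_rho_sq {T : N →ₗ[ℝ] ℝ} (hT : RTr T) (s0 : ℝ) (S i : ℕ) (a : N) :
    l2 T (cfc (rho s0 S i) a) ^ 2 = T (cfc (fun t => rho s0 S i t ^ 2) a) := by
  rw [l2_sq hT, star_cfc, rho_mul_rho]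

end alg

theorem phi_div_nonneg {η : ℝ} (hη : 0 < η) (t : ℝ) : 0 ≤ phi η t / t := by
  rcases le_or_gt t η with h | h
  · rw [phi_of_le hη h, zero_div]
  · exact div_nonneg (phi_nonneg _ _) (hη.trans h).le

theorem phi_div_le {η : ℝ} (hη : 0 < η) (t : ℝ) : phi η t / t ≤ 1 / η := by
  rcases le_or_gt t η with h | h
  · rw [phi_of_le hη h, zero_div]
    positivity
  · exact div_le_div₀ zero_le_one (phi_le_one _ _) hη h.le

theorem phi_div_sq_lip {η : ℝ} (hη : 0 < η) (x y : ℝ) :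
    |phi η x / x * (phi η x / x) - phi η y / y * (phi η y / y)| ≤ 4 / η ^ 3 * |x - y| := by
  have h1 := phi_div_lip hη x y
  have h2 := phi_div_nonneg hη x
  have h3 := phi_div_nonneg hη y
  have h4 := phi_div_le hη x
  have h5 := phi_div_le hη y
  have e : phi η x / x * (phi η x / x) - phi η y / y * (phi η y / y) =
      (phi η x / x - phi η y / y) * (phi η x / x + phi η y / y) := by ring
  rw [e, abs_mul, abs_of_nonneg (add_nonneg h2 h3)]
  calc |phi η x / x - phi η y / y| * (phi η x / x + phi η y / y) ≤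
      (2 / η ^ 2 * |x - y|) * (1 / η + 1 / η) := by
        apply mul_le_mul h1 (add_le_add h4 h5) (add_nonneg h2 h3)
        positivity
    _ = 4 / η ^ 3 * |x - y| := by
        field_simp
        ring

theorem mul_phi_div {η : ℝ} (hη : 0 < η) (t : ℝ) : t * (phi η t / t) = phi η t := by
  rcases eq_or_ne t 0 with h | h
  · rw [h, phi_of_le hη hη.le, zero_mul]
  · field_simp

/-- the main decomposition -/
theorem l2_UU_le {k : ℕ} {η : ℝ} (hη : 0 < η) (N : Type u) [CStarAlgebra N] (G : Type v)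
    (T : N →ₗ[ℝ] ℝ) (ψ : G → Mat k →⋆ₐ[ℂ] N) (q : G → N) (w θ : ℝ) (h : OSys T ψ q w θ)
    (r : ℝ) (L : Finset G) (hr : 0 < r) (hL : r * L.card ≤ 2) (u : Mat k) (hu : star u * u = 1)
    (z : N) (hz : ‖z‖ ≤ 2) :
    l2 T (UU ψ q r η L u * z) ^ 2 ≤ l2 T z ^ 2 +
      (64 * (k : ℝ) ^ 3 / η ^ 3 + 8 * (k : ℝ) ^ 4 / η ^ 2) * √(θ * w) * l2 T z := by
  let _ := CStarAlgebra.spectralOrder N
  have := CStarAlgebra.spectralOrderedRing N
  have hT := h.tr
  set c : N := BQ q r L with hc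
  set Y : N := YY ψ q r L u with hY
  set Gm : N := cfc (fun t => phi η t / t) c with hG
  have hcs : star c = c := star_BQ h.star_eq r L
  have hcsa : IsSelfAdjoint c := hcs
  have hGs : star Gm = Gm := star_cfc _ _
  have hms : ms u ≤ (k : ℝ) ^ 2 := ms_unitary_le hu
  have hms0 := ms_nonneg u
  have hk0 : (0 : ℝ) ≤ k := Nat.cast_nonneg k
  have hc0 : 0 ≤ c := sumq_nonneg (fun g _ => h.idem g) (fun g _ => h.star_eq g) hr.le
  have hc2 : c ≤ algebraMap ℝ N 2 :=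
    sumq_le (fun g _ => h.idem g) (fun g _ => h.star_eq g) hr.le hL
  have hYn : ‖Y‖ ≤ 2 := h.norm_YY_le hr.le hL hu
  have hcphi : ContinuousOn (fun t => phi η t / t) (spectrum ℝ c) :=
    (continuous_phi_div hη).continuousOn
  have hcG : c * Gm = cfc (phi η) c := by
    have e1 : c * Gm = cfc (fun t : ℝ => t) c * cfc (fun t => phi η t / t) c := by
      rw [cfc_id' ℝ c]
    rw [e1, ← cfc_mul (fun t : ℝ => t) _ c (by fun_prop) hcphi]
    congr 1
    ext t
    exact mul_phi_div hη t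
  have hGc : Gm * c = cfc (phi η) c := by
    have e1 : Gm * c = cfc (fun t => phi η t / t) c * cfc (fun t : ℝ => t) c := by
      rw [cfc_id' ℝ c]
    rw [e1, ← cfc_mul _ (fun t : ℝ => t) c hcphi (by fun_prop)]
    congr 1
    ext t
    rw [mul_comm]
    exact mul_phi_div hη t
  have hGG : Gm * Gm = cfc (fun t => phi η t / t * (phi η t / t)) c := by
    rw [← cfc_mul _ _ c hcphi hcphi]
  have hGGn : ‖Gm * Gm‖ ≤ 1 / η ^ 2 := by
    have h1 : ‖Gm‖ ≤ 1 / η := norm_cfc_le (by positivity) fun x _ => by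
      rw [Real.norm_eq_abs, abs_of_nonneg (phi_div_nonneg hη x)]
      exact phi_div_le hη x
    calc ‖Gm * Gm‖ ≤ ‖Gm‖ * ‖Gm‖ := norm_mul_le _ _
      _ ≤ 1 / η * (1 / η) := mul_le_mul h1 h1 (norm_nonneg _) (by positivity)
      _ = 1 / η ^ 2 := by ring
  -- the three parts
  have hsY : star Y = YY ψ q r L (star u) := h.star_YY r L u
  have hE1 : l2 T (star Y * Y - c * c) ≤ 4 * (k : ℝ) ^ 4 * √(θ * w) := by
    have h1 := h.rel1 hr.le hL hL (star u) u
    rw [hu, OSys.YY_one, ← hsY, ms_star] at h1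
    refine h1.trans ?_
    have h2 : ms u * ms u ≤ (k : ℝ) ^ 2 * (k : ℝ) ^ 2 :=
      mul_le_mul hms hms hms0 (by positivity)
    have h3 := Real.sqrt_nonneg (θ * w)
    nlinarith [mul_le_mul_of_nonneg_right h2 h3]
  have hcomm : l2 T (c * Y - Y * c) ≤ 4 * (k : ℝ) ^ 3 * √(θ * w) := by
    have h1 := h.rel1 hr.le hL hL 1 u
    rw [OSys.YY_one, one_mul, ms_one] at h1
    refine h1.trans ?_
    have h3 := Real.sqrt_nonneg (θ * w)
    have h2 : (k : ℝ) * ms u ≤ (k : ℝ) * (k : ℝ) ^ 2 := mul_le_mul_of_nonneg_left hms hk0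
    nlinarith [mul_le_mul_of_nonneg_right h2 h3]
  have hE2 : l2 T (Gm * Gm * Y - Y * (Gm * Gm)) ≤ 4 / η ^ 3 * (4 * (k : ℝ) ^ 3 * √(θ * w)) := by
    rw [hGG]
    refine (l2_comm_cfc_le hT hc0 hc2
      ((continuous_phi_div hη).mul (continuous_phi_div hη)) (by positivity)
      (fun x _ y _ => phi_div_sq_lip hη x y) Y).trans ?_
    exact mul_le_mul_of_nonneg_left hcomm (by positivity)
  have hPP : c * c * (Gm * Gm) = star (cfc (phi η) c) * cfc (phi η) c := by
    rw [star_cfc]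
    have e1 : c * cfc (phi η) c = cfc (phi η) c * c := by
      rw [← hcG]
      rw [mul_assoc, hGc, hcG]
    calc c * c * (Gm * Gm) = c * (c * Gm) * Gm := by noncomm_ring
      _ = c * cfc (phi η) c * Gm := by rw [hcG]
      _ = cfc (phi η) c * (c * Gm) := by rw [e1, mul_assoc]
      _ = cfc (phi η) c * cfc (phi η) c := by rw [hcG]
  have hdec : star (UU ψ q r η L u * z) * (UU ψ q r η L u * z) =
      star (cfc (phi η) c * z) * (cfc (phi η) c * z) +
      (star z * (star Y * Y - c * c) * (Gm * Gm)) * z +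
      (star z * star Y * (Gm * Gm * Y - Y * (Gm * Gm))) * z := by
    have e1 : UU ψ q r η L u = Gm * Y := rfl
    have e2 : star (cfc (phi η) c * z) * (cfc (phi η) c * z) =
        star z * (c * c * (Gm * Gm)) * z := by
      rw [hPP, star_mul]
      noncomm_ring
    rw [e2, e1, star_mul, star_mul, hGs]
    noncomm_ring
  rw [l2_sq hT, hdec, map_add, map_add]
  have hz0 := l2_nonneg T z
  have ht := Real.sqrt_nonneg (θ * w)
  have p1 : T (star (cfc (phi η) c * z) * (cfc (phi η) c * z)) ≤ l2 T z ^ 2 := by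
    rw [← l2_sq hT]
    exact pow_le_pow_left₀ (l2_nonneg _ _) (l2_le_l2_of_norm_le_one' hT (norm_phi_le η c)) 2
  have p2 : T ((star z * (star Y * Y - c * c) * (Gm * Gm)) * z) ≤
      2 * (4 * (k : ℝ) ^ 4 * √(θ * w)) * (1 / η ^ 2) * l2 T z := by
    refine (le_abs_self _).trans ((abs_T_mul_le_l2 hT _ _).trans ?_)
    refine mul_le_mul_of_nonneg_right ?_ hz0
    refine (l2_mul_right_le hT _ _).trans ?_
    refine mul_le_mul ?_ hGGn (norm_nonneg _) (by positivity)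
    refine (l2_mul_left_le hT _ _).trans ?_
    rw [norm_star]
    exact mul_le_mul hz hE1 (l2_nonneg _ _) (by norm_num)
  have p3 : T ((star z * star Y * (Gm * Gm * Y - Y * (Gm * Gm))) * z) ≤
      4 * (4 / η ^ 3 * (4 * (k : ℝ) ^ 3 * √(θ * w))) * l2 T z := by
    refine (le_abs_self _).trans ((abs_T_mul_le_l2 hT _ _).trans ?_)
    refine mul_le_mul_of_nonneg_right ?_ hz0
    refine (l2_mul_left_le hT _ _).trans ?_
    refine mul_le_mul ?_ hE2 (l2_nonneg _ _) (by norm_num)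
    refine (norm_mul_le _ _).trans ?_
    rw [norm_star, norm_star]
    nlinarith [norm_nonneg z, norm_nonneg Y]
  have e3 : (64 * (k : ℝ) ^ 3 / η ^ 3 + 8 * (k : ℝ) ^ 4 / η ^ 2) * √(θ * w) * l2 T z =
      2 * (4 * (k : ℝ) ^ 4 * √(θ * w)) * (1 / η ^ 2) * l2 T z +
      4 * (4 / η ^ 3 * (4 * (k : ℝ) ^ 3 * √(θ * w))) * l2 T z := by ring
  rw [e3]
  linarith

end InvBAux

open InvBAux

/-- multiplication by `UU` almost does not increase the `L^2` seminorm of rare elements -/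
theorem UU_bound {k : ℕ} {η : ℝ} (hη : 0 < η) :
    ∃ C : ℝ, 0 ≤ C ∧ ∀ (N : Type u) [CStarAlgebra N] (G : Type v) (T : N →ₗ[ℝ] ℝ)
      (ψ : G → Mat k →⋆ₐ[ℂ] N) (q : G → N) (w θ : ℝ), OSys T ψ q w θ → 0 ≤ w → 0 ≤ θ → θ ≤ 1 →
      ∀ (r : ℝ) (L : Finset G), 0 < r → r * L.card ≤ 2 → ∀ u : Mat k, star u * u = 1 →
      ∀ z : N, ‖z‖ ≤ 2 → l2 T (UU ψ q r η L u * z) ^ 2 ≤ l2 T z ^ 2 + C * √(θ * w) * l2 T z :=
  ⟨64 * (k : ℝ) ^ 3 / η ^ 3 + 8 * (k : ℝ) ^ 4 / η ^ 2, by positivity,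
    fun N _ G T ψ q w θ h _ _ _ r L hr hL u hu z hz =>
      l2_UU_le hη N G T ψ q w θ h r L hr hL u hu z hz⟩

namespace InvBAux

theorem avg_add {S : ℕ} (f g : ℕ → ℝ) :
    (1 / S : ℝ) * ∑ i ∈ Finset.range S, (f i + g i) =
      (1 / S : ℝ) * ∑ i ∈ Finset.range S, f i + (1 / S : ℝ) * ∑ i ∈ Finset.range S, g i := by
  rw [Finset.sum_add_distrib, mul_add]

theorem avg_mul {S : ℕ} (c : ℝ) (f : ℕ → ℝ) :
    (1 / S : ℝ) * ∑ i ∈ Finset.range S, c * f i =
      c * ((1 / S : ℝ) * ∑ i ∈ Finset.range S, f i) := by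
  rw [← Finset.mul_sum]
  ring

theorem avg_const {S : ℕ} (hS : 0 < S) (c : ℝ) :
    (1 / S : ℝ) * ∑ _i ∈ Finset.range S, c = c := by
  have : (S : ℝ) ≠ 0 := by positivity
  rw [Finset.sum_const, Finset.card_range, nsmul_eq_mul]
  field_simp

theorem avg_mono {S : ℕ} {f g : ℕ → ℝ} (h : ∀ i ∈ Finset.range S, f i ≤ g i) :
    (1 / S : ℝ) * ∑ i ∈ Finset.range S, f i ≤ (1 / S : ℝ) * ∑ i ∈ Finset.range S, g i :=
  mul_le_mul_of_nonneg_left (Finset.sum_le_sum h) (by positivity)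

theorem le_of_avg {S : ℕ} (hS : 0 < S) {f : ℕ → ℝ} (hf : ∀ i, 0 ≤ f i) {c : ℝ}
    (h : (1 / S : ℝ) * ∑ i ∈ Finset.range S, f i ≤ c) {i : ℕ} (hi : i ∈ Finset.range S) :
    f i ≤ S * c := by
  have h1 : f i ≤ ∑ i ∈ Finset.range S, f i := Finset.single_le_sum (fun j _ => hf j) hi
  have h2 : (0 : ℝ) < S := by positivity
  have h3 : ∑ i ∈ Finset.range S, f i ≤ S * c := by
    rw [one_div, inv_mul_le_iff₀ h2] at h
    exact h
  linarith

/-- the root estimate -/
theorem le_add_sqrt {x a b : ℝ} (ha : 0 ≤ a) (hb : 0 ≤ b) (h : x ^ 2 ≤ a ^ 2 + b) :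
    x ≤ a + √b := by
  have h1 := Real.sqrt_nonneg b
  have h2 := Real.sq_sqrt hb
  by_contra h3
  push Not at h3
  nlinarith [mul_nonneg ha h1]

theorem err_le {C θ w s x y : ℝ} (hC : 0 ≤ C) (hθ : 0 ≤ θ) (hw : 0 ≤ w) (hs : 0 ≤ s)
    (hx : x ≤ 2 * √(s * w)) (hy0 : 0 ≤ y) (hy : y ≤ 2 * √(s * w)) :
    √(C * √(θ * w) * x) * y ≤ 2 * √(2 * C * √s) * √s * √√θ * w := by
  have h1 : √(θ * w) = √θ * √w := Real.sqrt_mul hθ w
  have h2 : √(s * w) = √s * √w := Real.sqrt_mul hs w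
  have h3 : √w * √w = w := Real.mul_self_sqrt hw
  have hs0 := Real.sqrt_nonneg s
  have hw0 := Real.sqrt_nonneg w
  have ht0 := Real.sqrt_nonneg θ
  have h4 : C * √(θ * w) * x ≤ 2 * C * √s * √θ * w := by
    calc C * √(θ * w) * x ≤ C * √(θ * w) * (2 * √(s * w)) :=
          mul_le_mul_of_nonneg_left hx (by positivity)
      _ = 2 * C * √s * √θ * (√w * √w) := by
          rw [h1, h2]
          ring
      _ = 2 * C * √s * √θ * w := by rw [h3]
  have h5 : √(C * √(θ * w) * x) ≤ √(2 * C * √s) * √√θ * √w := by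
    refine (Real.sqrt_le_sqrt h4).trans (le_of_eq ?_)
    rw [Real.sqrt_mul (by positivity), Real.sqrt_mul (by positivity)]
  calc √(C * √(θ * w) * x) * y ≤ (√(2 * C * √s) * √√θ * √w) * (2 * √(s * w)) :=
        mul_le_mul h5 hy hy0 (by positivity)
    _ = 2 * √(2 * C * √s) * √s * √√θ * (√w * √w) := by
        rw [h2]
        ring
    _ = 2 * √(2 * C * √s) * √s * √√θ * w := by rw [h3]

theorem T_BQ {N : Type*} [CStarAlgebra N] {G : Type*} {T : N →ₗ[ℝ] ℝ} {q : G → N} {w : ℝ}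
    (hw : ∀ g, T (q g) = w) (r : ℝ) (K : Finset G) : T (BQ q r K) = r * K.card * w := by
  unfold BQ
  rw [map_smul, map_sum]
  simp only [hw, Finset.sum_const, nsmul_eq_mul, smul_eq_mul]
  ring

end InvBAux

open InvBAux

theorem step_b {k : ℕ} {s0 : ℝ} (hs0 : 0 < s0) {S : ℕ} (hS : 0 < S) {η : ℝ} (hη : 0 < η) :
    ∃ C : ℝ, 0 ≤ C ∧ ∀ (N : Type u) [CStarAlgebra N] (G : Type v) (T : N →ₗ[ℝ] ℝ)
      (ψ : G → Mat k →⋆ₐ[ℂ] N) (q : G → N) (w θ : ℝ), OSys T ψ q w θ → 0 ≤ w → 0 ≤ θ → θ ≤ 1 →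
      ∀ (r : ℝ) (K K' L : Finset G) (ε : ℝ), 0 < r → r * K.card = 1 → r * K'.card = 1 → K ⊆ L →
      K' ⊆ L → 0 < ε → ε ≤ 1 → r * L.card ≤ 1 + ε → ∀ u : Mat k, star u * u = 1 →
      (1 / S : ℝ) * ∑ i ∈ Finset.range S,
        n1 T (UU ψ q r η L u * (cfc (fun t => rho s0 S i t ^ 2) (BQ q r K) -
          cfc (fun t => rho s0 S i t ^ 2) (BQ q r K'))) ≤
      (8 * √√ε + C * √√θ) * w := by
  obtain ⟨C, hC, hU⟩ := UU_bound.{u, v} (k := k) hη
  refine ⟨2 * (2 * √(2 * C * √(S : ℝ)) * √(S : ℝ)), by positivity, ?_⟩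
  intro N _ G T ψ q w θ h hw hθ hθ1 r K K' L ε hr hK hK' hKL hKL' hε hε1 hL u hu
  classical
  let _ := CStarAlgebra.spectralOrder N
  have := CStarAlgebra.spectralOrderedRing N
  have hT := h.tr
  have hL2 : r * L.card ≤ 2 := by linarith
  set c : N := BQ q r L with hc
  have hc2 : c ≤ algebraMap ℝ N 2 :=
    sumq_le (fun g _ => h.idem g) (fun g _ => h.star_eq g) hr.le hL2
  have hnn : ∀ J : Finset G, 0 ≤ BQ q r J := fun J =>
    sumq_nonneg (fun g _ => h.idem g) (fun g _ => h.star_eq g) hr.le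
  have hle : ∀ J : Finset G, J ⊆ L → BQ q r J ≤ c := by
    intro J hJ
    have e : c = BQ q r (L \ J) + BQ q r J := by
      rw [hc]
      unfold BQ
      rw [← smul_add, Finset.sum_sdiff hJ]
    rw [e]
    exact le_add_of_nonneg_left (hnn _)
  have hTc : T c ≤ 2 * w := by
    rw [hc, T_BQ h.mean]
    exact mul_le_mul_of_nonneg_right hL2 hw
  have hTJ : ∀ J : Finset G, r * J.card = 1 → T (BQ q r J) = w := by
    intro J hJ
    rw [T_BQ h.mean, hJ, one_mul]
  have hTd : ∀ J : Finset G, r * J.card = 1 → T (c - BQ q r J) ≤ ε * w := by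
    intro J hJ
    rw [map_sub, hTJ J hJ, hc, T_BQ h.mean]
    nlinarith
  set m : ℝ := √√ε with hm
  have hm0 : 0 < m := Real.sqrt_pos.2 (Real.sqrt_pos.2 hε)
  have hm2 : m ^ 2 = √ε := Real.sq_sqrt (Real.sqrt_nonneg ε)
  have hm4 : m ^ 2 * m ^ 2 = ε := by
    rw [hm2]
    exact Real.mul_self_sqrt hε.le
  -- comparison with the large set
  have hcmp : ∀ J : Finset G, J ⊆ L → r * J.card = 1 →
      (1 / S : ℝ) * ∑ i ∈ Finset.range S,
        l2 T (cfc (rho s0 S i) (BQ q r J) - cfc (rho s0 S i) c) ^ 2 ≤ 4 * m ^ 2 * w := by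
    intro J hJ hJ1
    refine (sum_l2_rho_sub_sq_le hT (hnn J) (hle J hJ) hc2 (lam := m ^ 2) (by positivity) s0
      hS).trans ?_
    rw [hTJ J hJ1]
    have h1 := hTd J hJ1
    have h2 : 1 / (2 * m ^ 2) * T (c - BQ q r J) ≤ 1 / (2 * m ^ 2) * (ε * w) :=
      mul_le_mul_of_nonneg_left h1 (by positivity)
    have h3 : 1 / (2 * m ^ 2) * (ε * w) = m ^ 2 / 2 * w := by
      rw [← hm4]
      field_simp
    have h4 : m ^ 2 * (w + T c) ≤ m ^ 2 * (w + 2 * w) :=
      mul_le_mul_of_nonneg_left (by linarith) (by positivity)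
    have h5 : 0 ≤ m ^ 2 * w := by positivity
    nlinarith
  set a : ℕ → N := fun i => cfc (rho s0 S i) (BQ q r K) with ha
  set a' : ℕ → N := fun i => cfc (rho s0 S i) (BQ q r K') with ha'
  set α : ℕ → ℝ := fun i => l2 T (a i) with hα
  set α' : ℕ → ℝ := fun i => l2 T (a' i) with hα'
  set β : ℕ → ℝ := fun i => l2 T (a i - a' i) with hβ
  have hα0 : ∀ i, 0 ≤ α i := fun i => l2_nonneg _ _
  have hα'0 : ∀ i, 0 ≤ α' i := fun i => l2_nonneg _ _
  have hβ0 : ∀ i, 0 ≤ β i := fun i => l2_nonneg _ _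
  have avα : (1 / S : ℝ) * ∑ i ∈ Finset.range S, α i ^ 2 ≤ w := by
    have h1 := T_rho_sq_le hT (K := K) (q := q) (fun g _ => h.idem g) (fun g _ => h.star_eq g)
      (fun g _ => h.mean g) hr hK hs0 hS
    refine le_trans (le_of_eq ?_) h1
    congr 1
    exact Finset.sum_congr rfl fun i _ => l2_rho_sq hT s0 S i _
  have avα' : (1 / S : ℝ) * ∑ i ∈ Finset.range S, α' i ^ 2 ≤ w := by
    have h1 := T_rho_sq_le hT (K := K') (q := q) (fun g _ => h.idem g) (fun g _ => h.star_eq g)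
      (fun g _ => h.mean g) hr hK' hs0 hS
    refine le_trans (le_of_eq ?_) h1
    congr 1
    exact Finset.sum_congr rfl fun i _ => l2_rho_sq hT s0 S i _
  have avβ : (1 / S : ℝ) * ∑ i ∈ Finset.range S, β i ^ 2 ≤ 16 * m ^ 2 * w := by
    have h1 := hcmp K hKL hK
    have h2 := hcmp K' hKL' hK'
    have h3 : ∀ i ∈ Finset.range S, β i ^ 2 ≤
        2 * l2 T (cfc (rho s0 S i) (BQ q r K) - cfc (rho s0 S i) c) ^ 2 +
        2 * l2 T (cfc (rho s0 S i) (BQ q r K') - cfc (rho s0 S i) c) ^ 2 := by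
      intro i _
      have h4 : β i ≤ l2 T (cfc (rho s0 S i) (BQ q r K) - cfc (rho s0 S i) c) +
          l2 T (cfc (rho s0 S i) (BQ q r K') - cfc (rho s0 S i) c) := by
        have e : a i - a' i = (cfc (rho s0 S i) (BQ q r K) - cfc (rho s0 S i) c) -
            (cfc (rho s0 S i) (BQ q r K') - cfc (rho s0 S i) c) := by
          simp only [ha, ha']
          abel
        change l2 T (a i - a' i) ≤ _
        rw [e]
        exact l2_sub_le hT _ _
      have h5 := hβ0 i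
      set x := l2 T (cfc (rho s0 S i) (BQ q r K) - cfc (rho s0 S i) c)
      set y := l2 T (cfc (rho s0 S i) (BQ q r K') - cfc (rho s0 S i) c)
      nlinarith [sq_nonneg (x - y), pow_le_pow_left₀ h5 h4 2]
    refine (avg_mono h3).trans ?_
    rw [avg_add, avg_mul, avg_mul]
    linarith
  -- individual bounds
  have hSw : √((S : ℝ) * w) ^ 2 = S * w := Real.sq_sqrt (by positivity)
  have hSw0 := Real.sqrt_nonneg ((S : ℝ) * w)
  have bα : ∀ i ∈ Finset.range S, α i ≤ √(S * w) := fun i hi => by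
    have := le_of_avg hS (fun i => sq_nonneg (α i)) avα hi
    exact Real.le_sqrt_of_sq_le this
  have bα' : ∀ i ∈ Finset.range S, α' i ≤ √(S * w) := fun i hi => by
    have := le_of_avg hS (fun i => sq_nonneg (α' i)) avα' hi
    exact Real.le_sqrt_of_sq_le this
  have bβ : ∀ i ∈ Finset.range S, β i ≤ 2 * √(S * w) := fun i hi => by
    have h1 : β i ≤ α i + α' i := l2_sub_le hT _ _
    have h2 := bα i hi
    have h3 := bα' i hi
    linarith
  have na : ∀ i, ‖a i‖ ≤ 2 := fun i => (norm_rho_le _ _ _ _).trans (by norm_num)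
  have nb : ∀ i, ‖a i - a' i‖ ≤ 2 := fun i => by
    refine (norm_sub_le _ _).trans ?_
    have h1 : ‖a i‖ ≤ 1 := norm_rho_le _ _ _ _
    have h2 : ‖a' i‖ ≤ 1 := norm_rho_le _ _ _ _
    linarith
  have hUl : ∀ z : N, ‖z‖ ≤ 2 →
      l2 T (UU ψ q r η L u * z) ≤ l2 T z + √(C * √(θ * w) * l2 T z) := by
    intro z hz
    have hz0 := l2_nonneg T z
    refine le_add_sqrt hz0 (by positivity) ?_
    exact hU N G T ψ q w θ h hw hθ hθ1 r L hr hL2 u hu z hz
  set E : ℝ := 2 * √(2 * C * √(S : ℝ)) * √(S : ℝ) * √√θ * w with hE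
  have key : ∀ i ∈ Finset.range S,
      n1 T (UU ψ q r η L u * (cfc (fun t => rho s0 S i t ^ 2) (BQ q r K) -
          cfc (fun t => rho s0 S i t ^ 2) (BQ q r K'))) ≤
      ((2 * m) * α i ^ 2 + (2 * m) * α' i ^ 2) + ((1 / (4 * m)) * β i ^ 2 + 2 * E) := by
    intro i hi
    have e : UU ψ q r η L u * (cfc (fun t => rho s0 S i t ^ 2) (BQ q r K) -
          cfc (fun t => rho s0 S i t ^ 2) (BQ q r K')) =
        (UU ψ q r η L u * a i) * (a i - a' i) + (UU ψ q r η L u * (a i - a' i)) * a' i := by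
      rw [← rho_mul_rho, ← rho_mul_rho]
      simp only [ha, ha']
      noncomm_ring
    rw [e]
    refine (n1_add_le hT _ _).trans ?_
    have h1 : n1 T ((UU ψ q r η L u * a i) * (a i - a' i)) ≤
        (α i + √(C * √(θ * w) * α i)) * β i :=
      (n1_mul_le hT _ _).trans (mul_le_mul_of_nonneg_right (hUl _ (na i)) (hβ0 i))
    have h2 : n1 T ((UU ψ q r η L u * (a i - a' i)) * a' i) ≤
        (β i + √(C * √(θ * w) * β i)) * α' i :=
      (n1_mul_le hT _ _).trans (mul_le_mul_of_nonneg_right (hUl _ (nb i)) (hα'0 i))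
    have h3 : √(C * √(θ * w) * α i) * β i ≤ E :=
      err_le hC hθ hw (by positivity) ((bα i hi).trans (by linarith)) (hβ0 i) (bβ i hi)
    have h4 : √(C * √(θ * w) * β i) * α' i ≤ E :=
      err_le hC hθ hw (by positivity) (bβ i hi) (hα'0 i) ((bα' i hi).trans (by linarith))
    have h5 : ∀ x y : ℝ, x * y ≤ 2 * m * x ^ 2 + 1 / (8 * m) * y ^ 2 := by
      intro x y
      have e1 : 2 * m * x ^ 2 + 1 / (8 * m) * y ^ 2 - x * y = (4 * m * x - y) ^ 2 / (8 * m) := by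
        field_simp
        ring
      have e2 : 0 ≤ (4 * m * x - y) ^ 2 / (8 * m) := by positivity
      linarith
    have h6 := h5 (α i) (β i)
    have h7 := h5 (α' i) (β i)
    have e2 : (1 / (4 * m)) * β i ^ 2 = 1 / (8 * m) * β i ^ 2 + 1 / (8 * m) * β i ^ 2 := by
      field_simp
      ring
    rw [e2]
    nlinarith
  refine (avg_mono key).trans ?_
  rw [avg_add, avg_add, avg_add, avg_mul, avg_mul, avg_mul, avg_const hS]
  have f1 : 2 * m * ((1 / S : ℝ) * ∑ i ∈ Finset.range S, α i ^ 2) ≤ 2 * m * w :=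
    mul_le_mul_of_nonneg_left avα (by positivity)
  have f2 : 2 * m * ((1 / S : ℝ) * ∑ i ∈ Finset.range S, α' i ^ 2) ≤ 2 * m * w :=
    mul_le_mul_of_nonneg_left avα' (by positivity)
  have f3 : 1 / (4 * m) * ((1 / S : ℝ) * ∑ i ∈ Finset.range S, β i ^ 2) ≤
      1 / (4 * m) * (16 * m ^ 2 * w) :=
    mul_le_mul_of_nonneg_left avβ (by positivity)
  have f4 : 1 / (4 * m) * (16 * m ^ 2 * w) = 4 * m * w := by
    field_simp
    ring
  have f5 : (8 * m + 2 * (2 * √(2 * C * √(S : ℝ)) * √(S : ℝ)) * √√θ) * w =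
      8 * m * w + 2 * E := by
    rw [hE]
    ring
  rw [f5]
  linarith

namespace InvBAux

/-- the increment as a linear map -/
noncomputable def DIL {N : Type*} [CStarAlgebra N] {G : Type*} {k : ℕ} (ψ : G → Mat k →⋆ₐ[ℂ] N)
    (q : G → N) (r s0 : ℝ) (S : ℕ) (K : Finset G) (i : ℕ) : Mat k →ₗ[ℂ] N where
  toFun x := DI ψ q r s0 S K i x
  map_add' x y := by
    unfold DI YY
    simp only [map_add, add_mul, Finset.sum_add_distrib, smul_add, mul_add]
  map_smul' c x := by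
    unfold DI YY
    simp only [map_smul, smul_mul_assoc, ← Finset.smul_sum, RingHom.id_apply]
    rw [smul_comm r c, mul_smul_comm, smul_mul_assoc]

end InvBAux

/-- almost invariance of the increments -/
theorem inv_bound {k : ℕ} {s0 : ℝ} (hs0 : 0 < s0) {S : ℕ} (hS : 0 < S) {η : ℝ} (hη : 0 < η) :
    ∃ C : ℝ, 0 ≤ C ∧ ∀ (N : Type u) [CStarAlgebra N] (G : Type v) (T : N →ₗ[ℝ] ℝ)
      (ψ : G → Mat k →⋆ₐ[ℂ] N) (q : G → N) (w θ : ℝ), OSys T ψ q w θ → 0 ≤ w → 0 ≤ θ → θ ≤ 1 →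
      ∀ (r : ℝ) (K K' L : Finset G) (ε : ℝ), 0 < r → r * K.card = 1 → r * K'.card = 1 → K ⊆ L →
      K' ⊆ L → 0 < ε → ε ≤ 1 → r * L.card ≤ 1 + ε → η * L.card ≤ 1 → ∀ x : Mat k,
      (1 / S : ℝ) * ∑ i ∈ Finset.range S,
        n1 T (DI ψ q r s0 S K i x - DI ψ q r s0 S K' i x) ≤
      ms x * (8 * √√ε + 4 * √(η * L.card) / s0 + C * √√θ) * w := by
  obtain ⟨Ca, hCa, hA⟩ := step_a.{u, v} (k := k) hs0 hS hη
  obtain ⟨Cb, hCb, hB⟩ := step_b.{u, v} (k := k) hs0 hS hη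
  refine ⟨2 * Ca + Cb, by positivity, ?_⟩
  intro N _ G T ψ q w θ h hw hθ hθ1 r K K' L ε hr hK hK' hKL hKL' hε hε1 hL hηL x
  have hT := h.tr
  have hL2 : r * L.card ≤ 2 := by linarith
  set p : (ℕ → N) → ℝ := fun a => (1 / S : ℝ) * ∑ i ∈ Finset.range S, n1 T (a i) with hp
  have main := seminorm_le_of_unitary (V := ℕ → N) (k := k)
    (c := (8 * √√ε + 4 * √(η * L.card) / s0 + (2 * Ca + Cb) * √√θ) * w) p
    (by simp [hp, n1_zero])
    (by
      intro a b
      simp only [hp]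
      rw [← avg_add]
      exact avg_mono fun i _ => n1_add_le hT _ _)
    (by
      intro z a
      simp only [hp]
      rw [← avg_mul]
      exact avg_mono fun i _ => le_of_eq (n1_smul hT _ _))
    (LinearMap.pi fun i => DIL ψ q r s0 S K i - DIL ψ q r s0 S K' i)
    (by
      intro u hu
      have h1 : ∀ i ∈ Finset.range S, n1 T (DI ψ q r s0 S K i u - DI ψ q r s0 S K' i u) ≤
          2 * ((2 * √(η * L.card) / s0 + Ca * √√θ) * w) +
          n1 T (UU ψ q r η L u * (cfc (fun t => rho s0 S i t ^ 2) (BQ q r K) -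
            cfc (fun t => rho s0 S i t ^ 2) (BQ q r K'))) := by
        intro i hi
        have hi' : i < S := Finset.mem_range.1 hi
        have e : DI ψ q r s0 S K i u - DI ψ q r s0 S K' i u =
            (DI ψ q r s0 S K i u -
              UU ψ q r η L u * cfc (fun t => rho s0 S i t ^ 2) (BQ q r K)) -
            (DI ψ q r s0 S K' i u -
              UU ψ q r η L u * cfc (fun t => rho s0 S i t ^ 2) (BQ q r K')) +
            UU ψ q r η L u * (cfc (fun t => rho s0 S i t ^ 2) (BQ q r K) -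
              cfc (fun t => rho s0 S i t ^ 2) (BQ q r K')) := by
          rw [mul_sub]
          abel
        rw [e]
        refine (n1_add_le hT _ _).trans ?_
        refine add_le_add ((n1_sub_le hT _ _).trans ?_) le_rfl
        have h2 := hA N G T ψ q w θ h hw hθ hθ1 r K L hr hK hKL hL2 hηL i hi' u hu
        have h3 := hA N G T ψ q w θ h hw hθ hθ1 r K' L hr hK' hKL' hL2 hηL i hi' u hu
        linarith
      have h2 := hB N G T ψ q w θ h hw hθ hθ1 r K K' L ε hr hK hK' hKL hKL' hε hε1 hL u hu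
      have h3 := avg_mono h1
      rw [avg_add, avg_const hS] at h3
      refine h3.trans ?_
      refine (add_le_add le_rfl h2).trans (le_of_eq ?_)
      ring) x
  rw [← mul_assoc] at main
  exact main

end Pool.Agent.Lib.EqM
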