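import Pool.Agent.Lib.EqM.Mult
import Pool.Agent.Lib.EqM.InvB
import Pool.Agent.Lib.EqGamma.GGood

/-!
Choice of the parameters.
-/

open scoped ComplexOrder

namespace Pool.Agent.Lib.EqM

open Pool.Agent.Lib.EqGamma

universe u v

theorem sqrt_sqrt_pow_four {x : ℝ} (hx : 0 ≤ x) : √√(x ^ 4) = x := by
  have h1 : x ^ 4 = (x ^ 2) ^ 2 := by ring
  rw [h1, Real.sqrt_sq (by positivity), Real.sqrt_sq hx]

theorem sqrt_sqrt_le {x c : ℝ} (hc : 0 ≤ c) (h : x ≤ c ^ 4) : √√x ≤ c := by
  calc √√x ≤ √√(c ^ 4) := Real.sqrt_le_sqrt (Real.sqrt_le_sqrt h)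
    _ = c := sqrt_sqrt_pow_four hc

theorem mul_sqrt_sqrt_le {C c d x : ℝ} (hC : 0 ≤ C) (hd : 0 ≤ d)
    (hc : c = d / (C + 1)) (h : x ≤ c ^ 4) : C * √√x ≤ d := by
  have hc0 : 0 ≤ c := by rw [hc]; positivity
  calc C * √√x ≤ C * c := mul_le_mul_of_nonneg_left (sqrt_sqrt_le hc0 h) hC
    _ ≤ (C + 1) * c := by nlinarith
    _ = d := by rw [hc]; field_simp

/-- existence of good parameters for overlap systems -/
theorem exists_par {G : Type v} [Group G] [DecidableEq G] (hG : FolnerCond G) {k : ℕ} (H : Finset G)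
    {δ : ℝ} (hδ : 0 < δ) : ∃ (S : ℕ) (K : Finset G) (r s0 θ0 : ℝ), 0 < S ∧ 0 < r ∧
      r * K.card = 1 ∧ 0 < s0 ∧ s0 * K.card ≤ 1 / 8 ∧ 8 ≤ s0 * S ∧ 0 < θ0 ∧
      ∀ (N : Type u) [CStarAlgebra N] (T : N →ₗ[ℝ] ℝ) (ψ : G → Mat k →⋆ₐ[ℂ] N) (q : G → N)
        (w θ : ℝ), OSys T ψ q w θ → 0 ≤ w → 0 ≤ θ → θ ≤ θ0 →
        (∀ g0 : G, ∀ x y : Mat k, (1 / S : ℝ) * ∑ i ∈ Finset.range S,
          n1 T (DI ψ q r s0 S (K.image fun g => g0 * g) i x *
            DI ψ q r s0 S (K.image fun g => g0 * g) i y -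
            DI ψ q r s0 S (K.image fun g => g0 * g) i (x * y)) ≤ δ * w * (ms x * ms y)) ∧
        ∀ h ∈ H, ∀ x : Mat k, (1 / S : ℝ) * ∑ i ∈ Finset.range S,
          n1 T (DI ψ q r s0 S K i x - DI ψ q r s0 S (K.image fun g => h * g) i x) ≤
            δ * w * ms x := by
  set ε : ℝ := min 1 ((δ / 32) ^ 4) with hεdef
  have hε : 0 < ε := lt_min one_pos (by positivity)
  have hε1 : ε ≤ 1 := min_le_left _ _
  have hε8 : 8 * √√ε ≤ δ / 4 := by
    have := sqrt_sqrt_le (x := ε) (c := δ / 32) (by positivity) (min_le_right _ _)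
    linarith
  obtain ⟨K, hK, hKH0⟩ := hG H ε hε
  have hKH : ∀ h ∈ H, ((K \ K.image fun g => h * g).card : ℝ) ≤ ε * K.card := by
    intro h hh
    have h1 := hKH0 h hh
    refine le_trans (le_of_eq ?_) h1
    have e : ∀ d1 d2 : DecidableEq G,
        (@SDiff.sdiff _ (@Finset.instSDiff G d1) K (@Finset.image G G d1 (fun g => h * g) K)).card =
        (@SDiff.sdiff _ (@Finset.instSDiff G d2) K (@Finset.image G G d2 (fun g => h * g) K)).card := by
      intro d1 d2
      rw [Subsingleton.elim d1 d2]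
    rw [e]
  have hKc : 0 < (K.card : ℝ) := by exact_mod_cast hK.card_pos
  have hK1 : (1 : ℝ) ≤ K.card := by exact_mod_cast hK.card_pos
  set r : ℝ := 1 / K.card with hrdef
  have hr : 0 < r := by positivity
  have hrK : r * K.card = 1 := by rw [hrdef]; field_simp
  set s0 : ℝ := 1 / (8 * K.card) with hs0def
  have hs0 : 0 < s0 := by positivity
  have hs0K : s0 * K.card ≤ 1 / 8 := by
    rw [hs0def]; apply le_of_eq; field_simp
  obtain ⟨S, hS⟩ := exists_nat_ge (8 / s0 + 2 / (δ * s0) + 1)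
  have hSpos : (0 : ℝ) < S := lt_of_lt_of_le (by positivity) hS
  have hS0 : 0 < S := by exact_mod_cast hSpos
  have hS8 : 8 ≤ s0 * S := by
    have : s0 * (8 / s0) ≤ s0 * S := by
      apply mul_le_mul_of_nonneg_left _ hs0.le
      have : (0 : ℝ) ≤ 2 / (δ * s0) := by positivity
      linarith
    rwa [mul_div_cancel₀ _ hs0.ne'] at this
  have hSd : 1 / (s0 * S) ≤ δ / 2 := by
    have h1 : 2 / δ ≤ s0 * S := by
      have h2 : s0 * (2 / (δ * s0)) ≤ s0 * S := by
        apply mul_le_mul_of_nonneg_left _ hs0.le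
        have : (0 : ℝ) ≤ 8 / s0 := by positivity
        linarith
      have h3 : s0 * (2 / (δ * s0)) = 2 / δ := by field_simp
      rwa [h3] at h2
    rw [div_le_iff₀ (by positivity)]
    rw [div_le_iff₀ hδ] at h1
    linarith
  set η : ℝ := min 1 ((δ * s0 / 16) ^ 2) / (2 * K.card) with hηdef
  have hη : 0 < η := by
    apply div_pos (lt_min one_pos (by positivity)) (by positivity)
  obtain ⟨C1, hC1, hmult⟩ := mult_bound.{u, v} (k := k) hs0 hS0
  obtain ⟨C2, hC2, hinv⟩ := inv_bound.{u, v} (k := k) hs0 hS0 hη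
  set c1 : ℝ := δ / 4 / (C1 + 1) with hc1
  set c2 : ℝ := δ / 4 / (C2 + 1) with hc2
  have hc1p : 0 < c1 := by positivity
  have hc2p : 0 < c2 := by positivity
  refine ⟨S, K, r, s0, min 1 (min (c1 ^ 4) (c2 ^ 4)), hS0, hr, hrK, hs0, hs0K, hS8,
    lt_min one_pos (lt_min (by positivity) (by positivity)), ?_⟩
  intro N _ T ψ q w θ hsys hw hθ hθ0
  have hθ1 : θ ≤ 1 := hθ0.trans (min_le_left _ _)
  have hθc1 : C1 * √√θ ≤ δ / 4 :=
    mul_sqrt_sqrt_le hC1 (by positivity) hc1
      (hθ0.trans ((min_le_right _ _).trans (min_le_left _ _)))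
  have hθc2 : C2 * √√θ ≤ δ / 4 :=
    mul_sqrt_sqrt_le hC2 (by positivity) hc2
      (hθ0.trans ((min_le_right _ _).trans (min_le_right _ _)))
  have hcard : ∀ g0 : G, (K.image fun g => g0 * g).card = K.card := fun g0 =>
    Finset.card_image_of_injective _ (mul_right_injective g0)
  constructor
  · intro g0 x y
    have h1 := hmult N G T ψ q w θ hsys hw hθ hθ1 r (K.image fun g => g0 * g) hr
      (by rw [hcard]; exact hrK) x y
    refine h1.trans ?_
    have h2 : ms x * ms y * (1 / (s0 * S) + C1 * √√θ) ≤ ms x * ms y * δ := by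
      apply mul_le_mul_of_nonneg_left _ (mul_nonneg (ms_nonneg x) (ms_nonneg y))
      linarith
    calc ms x * ms y * (1 / (s0 * S) + C1 * √√θ) * w ≤ ms x * ms y * δ * w :=
          mul_le_mul_of_nonneg_right h2 hw
      _ = _ := by ring
  · intro h hh x
    set L : Finset G := K ∪ K.image fun g => h * g with hL
    have hLcard : (L.card : ℝ) ≤ (1 + ε) * K.card := by
      have h1 : L.card + (K ∩ K.image fun g => h * g).card
          = K.card + (K.image fun g => h * g).card := Finset.card_union_add_card_inter _ _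
      have h2 : (K \ K.image fun g => h * g).card + (K ∩ K.image fun g => h * g).card
          = K.card := Finset.card_sdiff_add_card_inter _ _
      have h3 := hKH h hh
      have h4 : L.card = K.card + (K \ K.image fun g => h * g).card := by
        have := hcard h
        omega
      rw [h4]
      push_cast
      linarith
    have hL2 : (L.card : ℝ) ≤ 2 * K.card := by nlinarith
    have hrL : r * L.card ≤ 1 + ε := by
      calc r * L.card ≤ r * ((1 + ε) * K.card) := mul_le_mul_of_nonneg_left hLcard hr.le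
        _ = (1 + ε) * (r * K.card) := by ring
        _ = 1 + ε := by rw [hrK, mul_one]
    have hηL0 : η * L.card ≤ min 1 ((δ * s0 / 16) ^ 2) := by
      calc η * L.card ≤ η * (2 * K.card) := mul_le_mul_of_nonneg_left hL2 hη.le
        _ = min 1 ((δ * s0 / 16) ^ 2) := by rw [hηdef]; field_simp
    have hηL : η * L.card ≤ 1 := hηL0.trans (min_le_left _ _)
    have hηs : 4 * √(η * L.card) / s0 ≤ δ / 4 := by
      have h5 : √(η * L.card) ≤ δ * s0 / 16 := by
        calc √(η * L.card) ≤ √((δ * s0 / 16) ^ 2) :=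
              Real.sqrt_le_sqrt (hηL0.trans (min_le_right _ _))
          _ = δ * s0 / 16 := Real.sqrt_sq (by positivity)
      rw [div_le_iff₀ hs0]
      linarith
    have h1 := hinv N G T ψ q w θ hsys hw hθ hθ1 r K (K.image fun g => h * g) L ε hr hrK
      (by rw [hcard]; exact hrK) Finset.subset_union_left Finset.subset_union_right hε hε1 hrL
      hηL x
    refine h1.trans ?_
    have h2 : ms x * (8 * √√ε + 4 * √(η * L.card) / s0 + C2 * √√θ) ≤ ms x * δ := by
      apply mul_le_mul_of_nonneg_left _ (ms_nonneg x)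
      linarith
    calc ms x * (8 * √√ε + 4 * √(η * L.card) / s0 + C2 * √√θ) * w ≤ ms x * δ * w :=
          mul_le_mul_of_nonneg_right h2 hw
      _ = _ := by ring

/-- choice of the number of blocks -/
theorem exists_J {δ : ℝ} (hδ : 0 < δ) : ∃ Λ : ℝ, 1 ≤ Λ ∧ ∀ w : ℝ, 0 < w → w ≤ 1 → ∃ J : ℕ,
    (1 - w / 2) ^ J ≤ δ ∧ J * w ≤ Λ := by
  refine ⟨2 * |Real.log δ| + 1, by have := abs_nonneg (Real.log δ); linarith, ?_⟩
  intro w hw hw1
  rcases le_or_gt 1 δ with h1 | h1
  · refine ⟨0, by simpa using h1, ?_⟩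
    have := abs_nonneg (Real.log δ)
    simp only [Nat.cast_zero, zero_mul]
    linarith
  · have hlog : Real.log δ < 0 := Real.log_neg hδ h1
    have habs : |Real.log δ| = - Real.log δ := abs_of_neg hlog
    refine ⟨⌈2 / w * |Real.log δ|⌉₊, ?_, ?_⟩
    · set J := ⌈2 / w * |Real.log δ|⌉₊ with hJ
      have hJ1 : 2 / w * |Real.log δ| ≤ J := Nat.le_ceil _
      have h0 : 0 ≤ 1 - w / 2 := by linarith
      have h2 : 1 - w / 2 ≤ Real.exp (-(w / 2)) := by
        have := Real.add_one_le_exp (-(w / 2))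
        linarith
      calc (1 - w / 2) ^ J ≤ Real.exp (-(w / 2)) ^ J := pow_le_pow_left₀ h0 h2 J
        _ = Real.exp (J * (-(w / 2))) := (Real.exp_nat_mul _ _).symm
        _ ≤ Real.exp (Real.log δ) := by
            apply Real.exp_le_exp.2
            have h3 : w / 2 * (2 / w * |Real.log δ|) ≤ w / 2 * J :=
              mul_le_mul_of_nonneg_left hJ1 (by positivity)
            have h4 : w / 2 * (2 / w * |Real.log δ|) = |Real.log δ| := by field_simp
            rw [h4, habs] at h3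
            linarith
        _ = δ := Real.exp_log hδ
    · have h5 : (⌈2 / w * |Real.log δ|⌉₊ : ℝ) < 2 / w * |Real.log δ| + 1 :=
        Nat.ceil_lt_add_one (by positivity)
      have h6 : (⌈2 / w * |Real.log δ|⌉₊ : ℝ) * w ≤ (2 / w * |Real.log δ| + 1) * w :=
        mul_le_mul_of_nonneg_right h5.le hw.le
      have h7 : (2 / w * |Real.log δ| + 1) * w = 2 * |Real.log δ| + w := by field_simp
      rw [h7] at h6
      linarith

end Pool.Agent.Lib.EqM
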