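import Pool.Agent.Lib.EqM.Sum

/-!
Summation of independent rare increments: the two main estimates.
-/

open scoped ComplexOrder

namespace Pool.Agent.Lib.EqM

open Pool.Agent.Lib.EqGamma

section

variable {M : Type*} [CStarAlgebra M] {k : ℕ} {T : M →ₗ[ℝ] ℝ} {Q : ℕ → StarSubalgebra ℂ M}
  {J : ℕ} {D D' : ℕ → Mat k → M} {w δ : ℝ}

theorem Incs.Q_mono (h : Incs T Q J D w δ) {i j : ℕ} (hij : i ≤ j) (hj : j ≤ J) : Q i ≤ Q j := by
  induction j with
  | zero =>
    have : i = 0 := by omega
    subst this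
    exact le_rfl
  | succ j ih =>
    rcases Nat.lt_or_ge i (j + 1) with h1 | h1
    · exact (ih (by omega) (by omega)).trans (h.mono j (by omega))
    · have : i = j + 1 := by omega
      subst this
      exact le_rfl

theorem Incs.norm_one_sub (h : Incs T Q J D w δ) {j : ℕ} (hj : j < J) : ‖1 - D j 1‖ ≤ 1 := by
  let _ := CStarAlgebra.spectralOrder M
  have := CStarAlgebra.spectralOrderedRing M
  obtain ⟨y, hy⟩ := h.pos j hj 1
  obtain ⟨y', hy'⟩ := h.one_le j hj
  rw [star_one, one_mul] at hy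
  have h0 : 0 ≤ 1 - D j 1 := by rw [hy']; exact star_mul_self_nonneg y'
  have h1 : 1 - D j 1 ≤ 1 := by rw [hy]; exact sub_le_self _ (star_mul_self_nonneg y)
  exact (CStarAlgebra.norm_le_one_iff_of_nonneg _ h0).2 h1

theorem Incs.zz_tail (h : Incs T Q J D w δ) {i j : ℕ} (hij : i < j) (hj : j ≤ J) :
    ∃ b ∈ Q j, ‖b‖ ≤ 1 ∧ zz D j = zz D (i + 1) * b ∧ ∀ z ∈ Q (i + 1), Commute z b := by
  induction j with
  | zero => omega
  | succ j ih =>
    rcases Nat.lt_or_ge i j with h1 | h1
    · obtain ⟨b, hb, hb1, hb2, hb3⟩ := ih h1 (by omega)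
      have hj' : j < J := by omega
      refine ⟨b * (1 - D j 1), mul_mem (h.mono j hj' hb) (sub_mem (one_mem _) (h.mem j hj' 1)),
        ?_, ?_, ?_⟩
      · exact (norm_mul_le _ _).trans (mul_le_one₀ hb1 (norm_nonneg _) (h.norm_one_sub hj'))
      · rw [zz, hb2, mul_assoc]
      · intro z hz
        have hz' : z ∈ Q j := h.Q_mono (by omega) (by omega) hz
        exact (hb3 z hz).mul_right ((Commute.one_right z).sub_right (h.comm j hj' 1 z hz'))
    · have : i = j := by omega
      subst this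
      have h0 : ‖zz D 0‖ ≤ 1 := (h.zz_norm (Nat.zero_le J)).2.2.2
      exact ⟨1, one_mem _, h0, (mul_one _).symm, fun z _ => Commute.one_right z⟩

private theorem aux1 {R : Type*} [Ring R] {a d e b y : R} (h1 : Commute a d) (h2 : Commute d b)
    (h3 : Commute e b) : a * d * (a * e * b * y) = a * a * b * (d * e) * y := by
  calc a * d * (a * e * b * y) = a * (d * a) * (e * b) * y := by noncomm_ring
    _ = a * (a * d) * (b * e) * y := by rw [h1.eq.symm, h3.eq]
    _ = a * a * (d * b) * e * y := by noncomm_ring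
    _ = a * a * (b * d) * e * y := by rw [h2.eq]
    _ = _ := by noncomm_ring

private theorem aux2 {R : Type*} [Ring R] {a d e b y : R} (h1 : Commute a y) (h2 : Commute d y)
    (h3 : Commute a b) (h4 : Commute d b) (h5 : Commute e b) (h6 : Commute a e) :
    a * e * b * y * (a * d) = a * a * b * (e * d) * y := by
  calc a * e * b * y * (a * d) = a * e * b * (y * a) * d := by noncomm_ring
    _ = a * e * b * (a * y) * d := by rw [h1.eq]
    _ = a * e * (b * a) * (y * d) := by noncomm_ring
    _ = a * e * (a * b) * (d * y) := by rw [h3.eq, h2.eq]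
    _ = a * (e * a) * (b * d) * y := by noncomm_ring
    _ = a * (a * e) * (d * b) * y := by rw [h6.eq, h4.eq]
    _ = a * a * (e * (d * b)) * y := by noncomm_ring
    _ = a * a * (e * (b * d)) * y := by rw [h4.eq]
    _ = a * a * ((e * b) * d) * y := by noncomm_ring
    _ = a * a * ((b * e) * d) * y := by rw [h5.eq]
    _ = _ := by noncomm_ring

/-- the two products of increments at different levels -/
theorem Incs.off (hT : RTr T) (h : Incs T Q J D w δ) (hw : 0 ≤ w)
    {i j : ℕ} (hij : i < j) (hj : j < J) (x y : Mat k) :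
    n1 T (zz D i * D i x * (zz D j * D j y)) ≤ 4 * k * δ * w ^ 2 * (ms x * ms y) ∧
    n1 T (zz D j * D j x * (zz D i * D i y)) ≤ 4 * k * δ * w ^ 2 * (ms x * ms y) := by
  have hi : i < J := by omega
  obtain ⟨b, hb, hb1, hb2, hb3⟩ := h.zz_tail hij hj.le
  have hzi : zz D i ∈ Q i := (h.zz_norm hi.le).1
  have hzn : ‖zz D i‖ ≤ 1 := (h.zz_norm hi.le).2.2.2
  have hzi' : zz D i ∈ Q (i + 1) := h.mono i hi hzi
  have hP : 1 - D i 1 ∈ Q (i + 1) := sub_mem (one_mem _) (h.mem i hi 1)
  have hle : Q (i + 1) ≤ Q j := h.Q_mono (by omega) hj.le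
  have hzj : zz D j = zz D i * (1 - D i 1) * b := by rw [hb2, zz]
  have hcn : ‖zz D i * zz D i * b‖ ≤ 1 :=
    (norm_mul_le _ _).trans (mul_le_one₀ ((norm_mul_le _ _).trans
      (mul_le_one₀ hzn (norm_nonneg _) hzn)) (norm_nonneg _) hb1)
  have hc : zz D i * zz D i * b ∈ Q j := mul_mem (mul_mem (hle hzi') (hle hzi')) hb
  have hmul0 : ∀ u v : M, n1 T (zz D i * zz D i * b * u) ≤ n1 T u := by
    intro u _
    exact (n1_mul_left_le hT _ _).trans (mul_le_of_le_one_left (n1_nonneg hT u) hcn)
  have hk1 : (ms (1 : Mat k)) = k := ms_one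
  constructor
  · have e1 : zz D i * D i x * (zz D j * D j y) =
        zz D i * zz D i * b * (D i x * (1 - D i 1)) * D j y := by
      rw [hzj]
      exact aux1 (h.comm i hi x _ hzi) (hb3 _ (h.mem i hi x)) (hb3 _ hP)
    rw [e1]
    have hmem : zz D i * zz D i * b * (D i x * (1 - D i 1)) ∈ Q j :=
      mul_mem hc (mul_mem (hle (h.mem i hi x)) (hle hP))
    have h1 := h.n1_mul_le hT hw hj hmem y
    have h2 := hmul0 (D i x * (1 - D i 1)) 0
    have h3 : n1 T (D i x * (1 - D i 1)) ≤ δ * w * (ms x * k) := by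
      have h4 := h.mul i hi x 1
      rw [mul_one, hk1] at h4
      have h5 : D i x * (1 - D i 1) = -(D i x * D i 1 - D i x) := by noncomm_ring
      rw [h5, n1_neg]
      exact h4
    calc n1 T (zz D i * zz D i * b * (D i x * (1 - D i 1)) * D j y) ≤ _ := h1
      _ ≤ 4 * ms y * w * (δ * w * (ms x * k)) :=
        mul_le_mul_of_nonneg_left (h2.trans h3) (mul_nonneg (mul_nonneg (by norm_num)
          (ms_nonneg y)) hw)
      _ = _ := by ring
  · have e1 : zz D j * D j x * (zz D i * D i y) =
        zz D i * zz D i * b * ((1 - D i 1) * D i y) * D j x := by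
      rw [hzj]
      exact aux2 (h.comm j hj x _ (hle hzi')) (h.comm j hj x _ (hle (h.mem i hi y)))
        (hb3 _ hzi') (hb3 _ (h.mem i hi y)) (hb3 _ hP)
        ((Commute.one_right _).sub_right (h.comm i hi 1 _ hzi))
    rw [e1]
    have hmem : zz D i * zz D i * b * ((1 - D i 1) * D i y) ∈ Q j :=
      mul_mem hc (mul_mem (hle hP) (hle (h.mem i hi y)))
    have h1 := h.n1_mul_le hT hw hj hmem x
    have h2 := hmul0 ((1 - D i 1) * D i y) 0
    have h3 : n1 T ((1 - D i 1) * D i y) ≤ δ * w * (k * ms y) := by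
      have h4 := h.mul i hi 1 y
      rw [one_mul, hk1] at h4
      have h5 : (1 - D i 1) * D i y = -(D i 1 * D i y - D i y) := by noncomm_ring
      rw [h5, n1_neg]
      exact h4
    calc n1 T (zz D i * zz D i * b * ((1 - D i 1) * D i y) * D j x) ≤ _ := h1
      _ ≤ 4 * ms x * w * (δ * w * (k * ms y)) :=
        mul_le_mul_of_nonneg_left (h2.trans h3) (mul_nonneg (mul_nonneg (by norm_num)
          (ms_nonneg x)) hw)
      _ = _ := by ring

/-- the product of increments at the same level -/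
theorem Incs.diag (hT : RTr T) (hk : 0 < k) (h : Incs T Q J D w δ) (hw : 0 ≤ w) (hδ : 0 ≤ δ)
    {j : ℕ} (hj : j < J) (x y : Mat k) :
    n1 T (zz D j * D j x * (zz D j * D j y) - zz D j * D j (x * y)) ≤
      (δ * w + 4 * w * (J * (δ * w * k ^ 2))) * (ms x * ms y) := by
  have hz : zz D j ∈ Q j := (h.zz_norm hj.le).1
  have hzn : ‖zz D j‖ ≤ 1 := (h.zz_norm hj.le).2.2.2
  have e1 : zz D j * D j x * (zz D j * D j y) - zz D j * D j (x * y) =
      zz D j * zz D j * (D j x * D j y - D j (x * y)) -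
        (zz D j - zz D j * zz D j) * D j (x * y) := by
    have h1 : D j x * zz D j = zz D j * D j x := (h.comm j hj x _ hz).eq.symm
    calc zz D j * D j x * (zz D j * D j y) - zz D j * D j (x * y)
        = zz D j * (D j x * zz D j) * D j y - zz D j * D j (x * y) := by noncomm_ring
      _ = zz D j * (zz D j * D j x) * D j y - zz D j * D j (x * y) := by rw [h1]
      _ = _ := by noncomm_ring
  rw [e1]
  have h2 : n1 T (zz D j * zz D j * (D j x * D j y - D j (x * y))) ≤ δ * w * (ms x * ms y) := by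
    refine (n1_mul_left_le hT _ _).trans ?_
    have h3 : ‖zz D j * zz D j‖ ≤ 1 :=
      (norm_mul_le _ _).trans (mul_le_one₀ hzn (norm_nonneg _) hzn)
    exact (mul_le_of_le_one_left (n1_nonneg hT _) h3).trans (h.mul j hj x y)
  have h3 : n1 T ((zz D j - zz D j * zz D j) * D j (x * y)) ≤
      4 * (ms x * ms y) * w * (J * (δ * w * k ^ 2)) := by
    refine (h.n1_mul_le hT hw hj (sub_mem hz (mul_mem hz hz)) (x * y)).trans ?_
    have h4 := h.zz_idem hT hk hw hδ hj.le
    have h5 : (j : ℝ) * (δ * w * k ^ 2) ≤ J * (δ * w * k ^ 2) := by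
      have : (j : ℝ) ≤ J := by exact_mod_cast hj.le
      exact mul_le_mul_of_nonneg_right this (by positivity)
    have h6 := ms_mul_le x y
    have h7 := ms_nonneg (x * y)
    have h8 : (0 : ℝ) ≤ J * (δ * w * k ^ 2) := by positivity
    have h9 := ms_nonneg x
    have h10 := ms_nonneg y
    refine mul_le_mul ?_ (h4.trans h5) (n1_nonneg hT _) (by positivity)
    exact mul_le_mul_of_nonneg_right (by linarith) hw
  refine (n1_sub_le hT _ _).trans ?_
  calc _ ≤ δ * w * (ms x * ms y) + 4 * (ms x * ms y) * w * (J * (δ * w * k ^ 2)) :=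
        add_le_add h2 h3
    _ = _ := by ring

/-- the sum is almost multiplicative -/
theorem Incs.mul_bound (hT : RTr T) (hk : 0 < k) (h : Incs T Q J D w δ) (hw : 0 ≤ w) (hδ : 0 ≤ δ)
    (x y : Mat k) :
    n1 T (SS D J x * SS D J y - SS D J (x * y)) ≤
      δ * (J * w + 12 * k ^ 2 * (J * w) ^ 2) * (ms x * ms y) := by
  have hm : 0 ≤ ms x * ms y := mul_nonneg (ms_nonneg x) (ms_nonneg y)
  have hk1 : (1 : ℝ) ≤ k := by exact_mod_cast hk
  have e1 : SS D J x * SS D J y - SS D J (x * y) =
      ∑ i ∈ Finset.range J, ∑ j ∈ Finset.range J, (zz D i * D i x * (zz D j * D j y) -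
        if i = j then zz D j * D j (x * y) else 0) := by
    unfold SS
    rw [Finset.sum_mul_sum]
    simp only [Finset.sum_sub_distrib]
    congr 1
    rw [Finset.sum_congr rfl]
    intro i hi
    rw [Finset.sum_ite_eq (Finset.range J) i, if_pos hi]
  rw [e1]
  refine (n1_sum_le hT _ _).trans ?_
  have h1 : ∀ i ∈ Finset.range J, n1 T (∑ j ∈ Finset.range J, (zz D i * D i x * (zz D j * D j y) -
        if i = j then zz D j * D j (x * y) else 0)) ≤
      (δ * w + 4 * w * (J * (δ * w * k ^ 2))) * (ms x * ms y) +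
        J * (4 * k * δ * w ^ 2 * (ms x * ms y)) := by
    intro i hi
    rw [Finset.mem_range] at hi
    refine (n1_sum_le hT _ _).trans ?_
    have h2 : ∀ j ∈ Finset.range J, n1 T (zz D i * D i x * (zz D j * D j y) -
        if i = j then zz D j * D j (x * y) else 0) ≤
        (if i = j then (δ * w + 4 * w * (J * (δ * w * k ^ 2))) * (ms x * ms y) else 0) +
          4 * k * δ * w ^ 2 * (ms x * ms y) := by
      intro j hj
      rw [Finset.mem_range] at hj
      have h0 : 0 ≤ 4 * k * δ * w ^ 2 * (ms x * ms y) := by positivity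
      rcases lt_trichotomy i j with h3 | h3 | h3
      · rw [if_neg h3.ne, if_neg h3.ne, sub_zero, zero_add]
        exact (h.off hT hw h3 hj x y).1
      · subst h3
        rw [if_pos rfl, if_pos rfl]
        have := h.diag hT hk hw hδ hi x y
        linarith
      · rw [if_neg h3.ne', if_neg h3.ne', sub_zero, zero_add]
        exact (h.off hT hw h3 hi x y).2
    refine (Finset.sum_le_sum h2).trans ?_
    rw [Finset.sum_add_distrib, Finset.sum_ite_eq (Finset.range J) i,
      if_pos (Finset.mem_range.2 hi), Finset.sum_const, Finset.card_range, nsmul_eq_mul]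
  refine (Finset.sum_le_sum h1).trans ?_
  rw [Finset.sum_const, Finset.card_range, nsmul_eq_mul]
  have h3 : (J : ℝ) * ((δ * w + 4 * w * (J * (δ * w * k ^ 2))) * (ms x * ms y) +
        J * (4 * k * δ * w ^ 2 * (ms x * ms y))) =
      δ * (J * w + (4 * k ^ 2 + 4 * k) * (J * w) ^ 2) * (ms x * ms y) := by ring
  rw [h3]
  refine mul_le_mul_of_nonneg_right (mul_le_mul_of_nonneg_left ?_ hδ) hm
  have h4 : (4 * (k : ℝ) ^ 2 + 4 * k) ≤ 12 * k ^ 2 := by nlinarith
  have h5 : 0 ≤ ((J : ℝ) * w) ^ 2 := sq_nonneg _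
  nlinarith [mul_le_mul_of_nonneg_right h4 h5]

/-- two close families of increments have close sums -/
theorem Incs.sub_bound (hT : RTr T) (hk : 0 < k) (h : Incs T Q J D w δ) (h' : Incs T Q J D' w δ)
    (hw : 0 ≤ w) (hδ : 0 ≤ δ)
    (hD : ∀ j < J, ∀ x, n1 T (D j x - D' j x) ≤ δ * w * ms x) (x : Mat k) :
    n1 T (SS D J x - SS D' J x) ≤ δ * (J * w + 4 * k * (J * w) ^ 2) * ms x := by
  have hm : 0 ≤ ms x := ms_nonneg x
  have hzz : ∀ j ≤ J, n1 T (zz D j - zz D' j) ≤ j * (δ * w * k) := by
    intro j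
    induction j with
    | zero =>
      intro _
      simp [zz, n1_zero]
    | succ j ih =>
      intro hj
      have hj' : j < J := by omega
      have h1 := ih hj'.le
      have e1 : zz D (j + 1) - zz D' (j + 1) = (zz D j - zz D' j) * (1 - D j 1) -
          zz D' j * (D j 1 - D' j 1) := by
        rw [zz, zz]
        noncomm_ring
      rw [e1]
      refine (n1_sub_le hT _ _).trans ?_
      have h2 : n1 T ((zz D j - zz D' j) * (1 - D j 1)) ≤ n1 T (zz D j - zz D' j) :=
        (n1_mul_right_le hT _ _).trans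
          (mul_le_of_le_one_right (n1_nonneg hT _) (h.norm_one_sub hj'))
      have h3 : n1 T (zz D' j * (D j 1 - D' j 1)) ≤ δ * w * k := by
        have h4 := hD j hj' 1
        rw [ms_one] at h4
        exact (n1_mul_left_le hT _ _).trans ((mul_le_of_le_one_left (n1_nonneg hT _)
          (h'.zz_norm hj'.le).2.2.2).trans h4)
      push_cast
      linarith
  have e1 : SS D J x - SS D' J x = ∑ j ∈ Finset.range J, (zz D j * (D j x - D' j x) +
      (zz D j - zz D' j) * D' j x) := by
    unfold SS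
    rw [← Finset.sum_sub_distrib]
    apply Finset.sum_congr rfl
    intro j _
    noncomm_ring
  rw [e1]
  refine (n1_sum_le hT _ _).trans ?_
  have h1 : ∀ j ∈ Finset.range J, n1 T (zz D j * (D j x - D' j x) +
      (zz D j - zz D' j) * D' j x) ≤ δ * w * ms x + 4 * ms x * w * (J * (δ * w * k)) := by
    intro j hj
    rw [Finset.mem_range] at hj
    refine (n1_add_le hT _ _).trans (add_le_add ?_ ?_)
    · exact (n1_mul_left_le hT _ _).trans ((mul_le_of_le_one_left (n1_nonneg hT _)
          (h.zz_norm hj.le).2.2.2).trans (hD j hj x))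
    · refine (h'.n1_mul_le hT hw hj (sub_mem (h.zz_norm hj.le).1 (h'.zz_norm hj.le).1) x).trans ?_
      refine mul_le_mul_of_nonneg_left ((hzz j hj.le).trans ?_) (by positivity)
      have : (j : ℝ) ≤ J := by exact_mod_cast hj.le
      exact mul_le_mul_of_nonneg_right this (by positivity)
  refine (Finset.sum_le_sum h1).trans ?_
  rw [Finset.sum_const, Finset.card_range, nsmul_eq_mul]
  refine le_of_eq ?_
  ring

end

end Pool.Agent.Lib.EqM
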