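import Pool.Agent.Lib.EqM.BlockB
import Pool.Agent.Lib.EqM.Par
import Pool.Agent.Lib.EqM.SumB

/-!
The universal construction of almost invariant approximate matrix units.
-/

open scoped ComplexOrder

namespace Pool.Agent.Lib.EqM

open Pool.Agent.Lib.EqGamma

universe u v

namespace UniAux

section

variable {M : Type u} [CStarAlgebra M] {G : Type v} [Group G] [DecidableEq G] {k n c S : ℕ}
  {T : M →ₗ[ℝ] ℝ} {A : StarSubalgebra ℂ M} {ψ : ℕ → G → Mat k →⋆ₐ[ℂ] M}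
  {p : ℕ → Ch n c × Fin S → M} {J : ℕ} {P : Fin c → Mat k}

theorem card_shift (K : Finset G) (g0 : G) : (K.image fun g => g0 * g).card = K.card :=
  Finset.card_image_of_injective _ (mul_right_injective g0)

theorem osys_block (h : MSys T A ψ p (J * n)) (hk : 0 < k) (hn : 0 < n)
    (hP : ∀ a, P a * P a = P a) (hPs : ∀ a, star (P a) = P a) (hP1 : ∀ a, (P a).trace = 1)
    (hspan : ∀ i j, ∃ lam : Fin c → ℂ, (∀ a, ‖lam a‖ ≤ 1) ∧
      Matrix.single i j (1 : ℂ) = ∑ a, lam a • P a) {j : ℕ} (hj : j < J) :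
    OSys (avT T) (cψ c fun (l : Fin n) => ψ (j * n + l))
      (cq hP hPs fun (l : Fin n) => ψ (j * n + l)) ((1 / k : ℝ) ^ (n - 1)) (2 * c ^ 3 / n) := by
  have hb : ∀ l : Fin n, j * n + l < J * n := by
    intro l
    have h1 := l.2
    have h2 : (j + 1) * n ≤ J * n := Nat.mul_le_mul_right _ hj
    have h3 : (j + 1) * n = j * n + n := by ring
    omega
  refine conc_osys hk h.tr h.one hn hP hPs hP1 hspan ?_
  intro l l' hl g g' x x'
  refine h.comm _ (hb l) _ (hb l') ?_ g g' x x'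
  intro he
  apply hl
  apply Fin.ext
  omega

theorem incs_block (h : MSys T A ψ p (J * n)) (hk : 0 < k) (hn : 0 < n) (hS : 0 < S) (hc : 0 < c)
    (hP : ∀ a, P a * P a = P a) (hPs : ∀ a, star (P a) = P a) (hP1 : ∀ a, (P a).trace = 1)
    {r s0 δ : ℝ} {K : Finset G} (hr : 0 < r) (hrK : r * K.card = 1)
    (hs0 : 0 < s0) (h1 : s0 * K.card ≤ 1 / 8) (h2 : 8 ≤ s0 * S)
    (hmul : ∀ j < J, ∀ x y : Mat k, (1 / S : ℝ) * ∑ i ∈ Finset.range S,
      n1 (avT T) (DI (cψ c fun (l : Fin n) => ψ (j * n + l)) (cq hP hPs fun (l : Fin n) =>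
          ψ (j * n + l)) r s0 S K i x *
        DI (cψ c fun (l : Fin n) => ψ (j * n + l)) (cq hP hPs fun (l : Fin n) =>
          ψ (j * n + l)) r s0 S K i y -
        DI (cψ c fun (l : Fin n) => ψ (j * n + l)) (cq hP hPs fun (l : Fin n) =>
          ψ (j * n + l)) r s0 S K i (x * y)) ≤ δ * (1 / k : ℝ) ^ (n - 1) * (ms x * ms y)) :
    Incs T (fun j => Qs A ψ p (j * n) j) J (BI P r s0 K ψ p) ((1 / k : ℝ) ^ (n - 1)) δ := by
  have hb := fun (j : ℕ) (hj : j < J) => block_incs_basic h hk hn hS hP hPs hP1 hr hrK hs0 hj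
  have ht := fun (j : ℕ) (hj : j < J) =>
    block_incs_trace h hk hn hS hc hP hPs hP1 hr hrK hs0 h1 h2 hj
  exact {
    add := fun j hj => (hb j hj).1
    smul := fun j hj => (hb j hj).2.1
    pos := fun j hj => (hb j hj).2.2.1
    one_le := fun j hj => (hb j hj).2.2.2.1
    closed := fun j _ => isClosed_Qs _ _
    mono := fun j _ => Qs_mono (Nat.mul_le_mul_right _ (Nat.le_succ j)) (Nat.le_succ j)
    mem := fun j hj => (hb j hj).2.2.2.2.1
    comm := fun j hj x z hz => (hb j hj).2.2.2.2.2 x z hz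
    le := fun j hj z hz => (ht j hj z hz).1
    ge := fun j hj z hz => (ht j hj z hz).2
    mul := fun j hj x y => (block_incs_mul h hk hn hS hP hPs hs0 hj x y).trans (hmul j hj x y) }

end

theorem commute_zz {M : Type*} [Ring M] {X : Type*} [One X] {D : ℕ → X → M} {J : ℕ} {a : M}
    (h : ∀ j < J, ∀ x, Commute a (D j x)) : ∀ j ≤ J, Commute a (zz D j) := by
  intro j
  induction j with
  | zero =>
    intro _
    exact Commute.one_right a
  | succ j ih =>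
    intro hj
    rw [zz]
    exact (ih (by omega)).mul_right ((Commute.one_right a).sub_right (h j (by omega) 1))

theorem commute_SS {M : Type*} [Ring M] {X : Type*} [One X] {D : ℕ → X → M} {J : ℕ} {a : M}
    (h : ∀ j < J, ∀ x, Commute a (D j x)) (x : X) : Commute a (SS D J x) := by
  unfold SS
  apply Commute.sum_right
  intro j hj
  rw [Finset.mem_range] at hj
  exact (commute_zz h j hj.le).mul_right (h j hj x)

end UniAux

open UniAux

theorem exists_goodM {G : Type v} [Group G] [DecidableEq G] (hG : FolnerCond G) {k : ℕ}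
    (hk : 0 < k) (H : Finset G) {δ : ℝ} (hδ : 0 < δ) :
    ∃ (n c S J : ℕ) (P : Fin c → Mat k) (K : Finset G) (r s0 : ℝ), 0 < n ∧ 0 < c ∧ 0 < S ∧
      0 < s0 ∧
      ∀ (M : Type u) [CStarAlgebra M] (T : M →ₗ[ℝ] ℝ) (A : StarSubalgebra ℂ M)
        (ψ : ℕ → G → Mat k →⋆ₐ[ℂ] M) (p : ℕ → Ch n c × Fin S → M), MSys T A ψ p (J * n) →
        (T (1 - RS P r s0 K J (fun l g x => ψ l g x) p 1) ≤ δ) ∧
        (∀ x y, n1 T (RS P r s0 K J (fun l g x => ψ l g x) p x *
          RS P r s0 K J (fun l g x => ψ l g x) p y -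
          RS P r s0 K J (fun l g x => ψ l g x) p (x * y)) ≤ δ * (ms x * ms y)) ∧
        (∀ x, star (RS P r s0 K J (fun l g x => ψ l g x) p x) =
          RS P r s0 K J (fun l g x => ψ l g x) p (star x)) ∧
        (∀ x, ‖RS P r s0 K J (fun l g x => ψ l g x) p x‖ ≤ 2 * ms x) ∧
        (∀ x, ∀ a ∈ A, Commute a (RS P r s0 K J (fun l g x => ψ l g x) p x)) ∧
        (∃ y, 1 - RS P r s0 K J (fun l g x => ψ l g x) p 1 = star y * y) ∧
        ∀ h ∈ H, ∀ x, n1 T (RS P r s0 K J (fun l g x => ψ l g x) p x -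
          RS P r s0 K J (fun l g x => ψ l (h * g) x) p x) ≤ δ * ms x := by
  obtain ⟨Λ, hΛ, hJ⟩ := exists_J hδ
  obtain ⟨δ', hδ'⟩ : ∃ δ' : ℝ, δ' = δ / (Λ + 12 * (k : ℝ) ^ 2 * Λ ^ 2 + 4 * k * Λ ^ 2) := ⟨_, rfl⟩
  have hden : 0 < Λ + 12 * (k : ℝ) ^ 2 * Λ ^ 2 + 4 * k * Λ ^ 2 := by positivity
  have hδ'0 : 0 < δ' := by
    rw [hδ']
    exact div_pos hδ hden
  have hδ'e : δ' * (Λ + 12 * (k : ℝ) ^ 2 * Λ ^ 2 + 4 * k * Λ ^ 2) = δ := by
    rw [hδ', div_mul_cancel₀ _ hden.ne']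
  obtain ⟨c, P, hPi, hPs, hP1, hspan⟩ := exists_projections k
  have hc : 0 < c := by
    rcases Nat.eq_zero_or_pos c with h0 | h0
    · exfalso
      subst h0
      obtain ⟨lam, _, hl⟩ := hspan ⟨0, hk⟩ ⟨0, hk⟩
      have h1 := congrFun (congrFun hl ⟨0, hk⟩) ⟨0, hk⟩
      simp at h1
    · exact h0
  obtain ⟨S, K, r, s0, θ0, hS, hr, hrK, hs0, hsK, hsS, hθ0, hpar⟩ :=
    exists_par.{u, v} hG (k := k) H hδ'0
  obtain ⟨n, hn⟩ := exists_nat_gt (2 * (c : ℝ) ^ 3 / θ0)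
  have hn0 : (0 : ℝ) < n := lt_of_le_of_lt (by positivity) hn
  have hn1 : 0 < n := by exact_mod_cast hn0
  have hθ : 2 * (c : ℝ) ^ 3 / n ≤ θ0 := by
    rw [div_lt_iff₀ hθ0] at hn
    rw [div_le_iff₀ hn0]
    linarith
  have hkr : (0 : ℝ) < k := by exact_mod_cast hk
  have hk1 : (1 : ℝ) ≤ k := by exact_mod_cast hk
  obtain ⟨w, hw⟩ : ∃ w : ℝ, w = (1 / k : ℝ) ^ (n - 1) := ⟨_, rfl⟩
  have hw0 : 0 < w := by
    rw [hw]
    positivity
  have hw1 : w ≤ 1 := by
    rw [hw]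
    apply pow_le_one₀ (by positivity)
    rw [div_le_one hkr]
    exact hk1
  obtain ⟨J, hJ1, hJ2⟩ := hJ w hw0 hw1
  refine ⟨n, c, S, J, P, K, r, s0, hn1, hc, hS, hs0, ?_⟩
  intro M _ T A ψ p h
  have hJw : 0 ≤ (J : ℝ) * w := by positivity
  have hJw2 : ((J : ℝ) * w) ^ 2 ≤ Λ ^ 2 := pow_le_pow_left₀ hJw hJ2 2
  have hos := fun (j : ℕ) (hj : j < J) => osys_block h hk hn1 hPi hPs hP1 hspan hj
  have hgen : ∀ g0 : G, Incs T (fun j => Qs A ψ p (j * n) j) J
      (BI P r s0 (K.image fun g => g0 * g) ψ p) w δ' := by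
    intro g0
    rw [hw]
    refine incs_block h hk hn1 hS hc hPi hPs hP1 hr ?_ hs0 ?_ hsS ?_
    · rw [card_shift]
      exact hrK
    · rw [card_shift]
      exact hsK
    · intro j hj x y
      exact (hpar _ _ _ _ _ _ (hos j hj) (by positivity) (by positivity) hθ).1 g0 x y
  have hK1 : (K.image fun g => (1 : G) * g) = K := by simp
  have hI : Incs T (fun j => Qs A ψ p (j * n) j) J (BI P r s0 K ψ p) w δ' := by
    have := hgen 1
    rwa [hK1] at this
  have hRS : ∀ K' : Finset G, ∀ x, RS P r s0 K' J (fun l g x => ψ l g x) p x =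
      SS (BI P r s0 K' ψ p) J x := fun _ _ => rfl
  have hzz : 1 - SS (BI P r s0 K ψ p) J 1 = zz (BI P r s0 K ψ p) J := by
    rw [SS_one, sub_sub_cancel]
  simp only [hRS]
  refine ⟨?_, ?_, ?_, ?_, ?_, ?_, ?_⟩
  · rw [hzz]
    exact (hI.zz_trace h.tr h.one hw0.le hw1).trans hJ1
  · intro x y
    refine (hI.mul_bound h.tr hk hw0.le hδ'0.le x y).trans ?_
    refine mul_le_mul_of_nonneg_right ?_ (mul_nonneg (ms_nonneg x) (ms_nonneg y))
    rw [← hδ'e]
    refine mul_le_mul_of_nonneg_left ?_ hδ'0.le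
    have h3 : 12 * (k : ℝ) ^ 2 * (J * w) ^ 2 ≤ 12 * (k : ℝ) ^ 2 * Λ ^ 2 :=
      mul_le_mul_of_nonneg_left hJw2 (by positivity)
    have h4 : 0 ≤ 4 * (k : ℝ) * Λ ^ 2 := by positivity
    linarith
  · intro x
    exact hI.SS_star x
  · intro x
    exact hI.SS_norm x
  · intro x a ha
    apply commute_SS
    intro j hj y
    exact hI.comm j hj y a (A_le_Qs _ _ ha)
  · obtain ⟨y, _, hy⟩ := (hI.zz_norm le_rfl).2.1
    exact ⟨y, hzz.trans hy⟩
  · intro g hg x
    have hsh := RS_shift P r s0 K J (fun l g x => ψ l g x) p g x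
    have hsh' : RS P r s0 K J (fun l g' x => ψ l (g * g') x) p x =
        SS (BI P r s0 (K.image fun g' => g * g') ψ p) J x := hsh
    rw [hsh']
    refine (hI.sub_bound h.tr hk (hgen g) hw0.le hδ'0.le ?_ x).trans ?_
    · intro j hj y
      refine (block_incs_sub h hk hn1 hS hPi hPs hs0 hj y).trans ?_
      rw [hw]
      exact (hpar _ _ _ _ _ _ (hos j hj) (by positivity) (by positivity) hθ).2 g hg y
    · refine mul_le_mul_of_nonneg_right ?_ (ms_nonneg x)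
      rw [← hδ'e]
      refine mul_le_mul_of_nonneg_left ?_ hδ'0.le
      have h3 : 4 * (k : ℝ) * (J * w) ^ 2 ≤ 4 * (k : ℝ) * Λ ^ 2 :=
        mul_le_mul_of_nonneg_left hJw2 (by positivity)
      have h4 : 0 ≤ 12 * (k : ℝ) ^ 2 * Λ ^ 2 := by positivity
      linarith

end Pool.Agent.Lib.EqM
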