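import Pool.Agent.Lib.EqM.Lim
import Pool.Agent.Lib.EqM.Uni
import Pool.Agent.Lib.EqM.Cut

/-!
The equivariant uniform McDuff property.
-/

open scoped ComplexOrder
open Filter Topology

namespace Pool.Agent.Lib.EqM

open Pool.Agent.Lib.EqGamma

universe u v

section est

variable {M : Type*} [CStarAlgebra M] {T : M →ₗ[ℝ] ℝ} {k : ℕ}

theorem ms_single (i j : Fin k) : ms (Matrix.single i j (1 : ℂ)) = 1 := by
  unfold ms
  rw [Finset.sum_eq_single i, Finset.sum_eq_single j]
  · simp
  · intro b _ hb
    rw [Matrix.single_apply_of_col_ne]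
    · simp
    · exact hb.symm
  · simp
  · intro b _ hb
    apply Finset.sum_eq_zero
    intro c _
    rw [Matrix.single_apply_of_row_ne]
    · simp
    · exact hb.symm
  · simp

/-- `L^2` consequences of the `L^1` estimates, after truncation -/
theorem cut_estimates (hT : RTr T) {δ : ℝ} (hδ : 0 ≤ δ) {Φ : Mat k → M}
    (hadd : ∀ x y, n1 T (Φ x * Φ y - Φ (x * y)) ≤ δ * (ms x * ms y))
    (hstar : ∀ x, star (Φ x) = Φ (star x)) (hnorm : ∀ x, ‖Φ x‖ ≤ 2 * ms x) (i j l m : Fin k) :
    l2 T (Φ (Matrix.single i j 1) - cut (Φ (Matrix.single i j 1))) ≤ 4 * √δ ∧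
    l2 T (star (cut (Φ (Matrix.single i j 1))) - cut (Φ (Matrix.single j i 1))) ≤ 8 * √δ ∧
    l2 T (cut (Φ (Matrix.single i j 1)) * cut (Φ (Matrix.single l m 1)) -
      if j = l then cut (Φ (Matrix.single i m 1)) else 0) ≤ 19 * √δ := by
  have hv : ∀ i j, ‖Φ (Matrix.single i j 1)‖ ≤ 2 := fun i j => by
    have := hnorm (Matrix.single i j 1)
    rwa [ms_single, mul_one] at this
  have hmul : ∀ i j l m, n1 T (Φ (Matrix.single i j 1) * Φ (Matrix.single l m 1) -
      Φ (Matrix.single i j 1 * Matrix.single l m 1)) ≤ δ := fun i j l m => by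
    have := hadd (Matrix.single i j 1) (Matrix.single l m 1)
    rwa [ms_single, ms_single, mul_one, mul_one] at this
  have hst : ∀ i j : Fin k, star (Matrix.single i j (1 : ℂ)) = Matrix.single j i 1 := fun i j => by
    rw [Matrix.star_eq_conjTranspose, Matrix.conjTranspose_single]
    simp
  have hss : ∀ i j, star (Φ (Matrix.single i j 1)) = Φ (Matrix.single j i 1) := fun i j => by
    rw [hstar, hst]
  have hΦ0 : Φ 0 = 0 := by
    have := hnorm 0
    rw [show ms (0 : Mat k) = 0 by simp [ms], mul_zero] at this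
    exact norm_le_zero_iff.1 this
  have hd : ∀ i j, l2 T (Φ (Matrix.single i j 1) - cut (Φ (Matrix.single i j 1))) ≤ 4 * √δ := by
    intro i j
    have h1 : n1 T (star (Φ (Matrix.single i j 1)) * Φ (Matrix.single i j 1) -
        Φ (Matrix.single j j 1)) ≤ δ := by
      rw [hss]
      have := hmul j i i j
      rwa [Matrix.single_mul_single_same, mul_one] at this
    have h2 : n1 T (Φ (Matrix.single j j 1) * Φ (Matrix.single j j 1) -
        Φ (Matrix.single j j 1)) ≤ δ := by
      have := hmul j j j j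
      rwa [Matrix.single_mul_single_same, mul_one] at this
    have h3 := l2_sub_cut_sq_le hT (hv i j) (hv j j) (by norm_num : (1 : ℝ) ≤ 2) h1 h2
    have h4 : (4 * √δ) ^ 2 = 4 * 2 ^ 2 * δ := by
      rw [mul_pow, Real.sq_sqrt hδ]; ring
    rw [← h4] at h3
    exact abs_le_of_sq_le_sq' h3 (by positivity) |>.2
  refine ⟨hd i j, ?_, ?_⟩
  · have e : star (cut (Φ (Matrix.single i j 1))) - cut (Φ (Matrix.single j i 1)) =
        (Φ (Matrix.single j i 1) - cut (Φ (Matrix.single j i 1))) -
        star (Φ (Matrix.single i j 1) - cut (Φ (Matrix.single i j 1))) := by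
      rw [star_sub, hss]; abel
    rw [e]
    refine (l2_sub_le hT _ _).trans ?_
    rw [l2_star hT]
    have := hd i j
    have := hd j i
    linarith
  · set v := Φ (Matrix.single i j 1)
    set v' := Φ (Matrix.single l m 1)
    set w := Φ (Matrix.single i j 1 * Matrix.single l m 1) with hw
    have hw2 : ‖w‖ ≤ 2 := by
      by_cases h : j = l
      · subst h
        rw [hw, Matrix.single_mul_single_same, mul_one]
        exact hv i m
      · rw [hw, Matrix.single_mul_single_of_ne _ _ _ _ h, hΦ0]
        simp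
    have hcw : l2 T (w - if j = l then cut (Φ (Matrix.single i m 1)) else 0) ≤ 4 * √δ := by
      by_cases h : j = l
      · subst h
        rw [if_pos rfl, hw, Matrix.single_mul_single_same, mul_one]
        exact hd i m
      · rw [if_neg h, hw, Matrix.single_mul_single_of_ne _ _ _ _ h, hΦ0, sub_zero, l2_zero]
        positivity
    have h1 : l2 T (v * v' - w) ≤ 3 * √δ := by
      have h2 := l2_sq_le_n1 hT (v * v' - w)
      have h3 : ‖v * v' - w‖ ≤ 6 := by
        refine (norm_sub_le _ _).trans ?_
        have : ‖v * v'‖ ≤ 2 * 2 := (norm_mul_le _ _).trans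
          (mul_le_mul (hv i j) (hv l m) (norm_nonneg _) (by norm_num))
        linarith
      have h4 : l2 T (v * v' - w) ^ 2 ≤ (3 * √δ) ^ 2 := by
        rw [mul_pow, Real.sq_sqrt hδ]
        calc l2 T (v * v' - w) ^ 2 ≤ ‖v * v' - w‖ * n1 T (v * v' - w) := h2
          _ ≤ 6 * δ := mul_le_mul h3 (hmul i j l m) (n1_nonneg hT _) (by norm_num)
          _ ≤ 3 ^ 2 * δ := by nlinarith
      exact abs_le_of_sq_le_sq' h4 (by positivity) |>.2
    have e : cut v * cut v' - (if j = l then cut (Φ (Matrix.single i m 1)) else 0) =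
        (v * v' - w) - (v - cut v) * cut v' - v * (v' - cut v') +
        (w - if j = l then cut (Φ (Matrix.single i m 1)) else 0) := by
      noncomm_ring
    rw [e]
    refine (l2_add_le hT _ _).trans ?_
    have h5 := l2_sub_le hT ((v * v' - w) - (v - cut v) * cut v') (v * (v' - cut v'))
    have h6 := l2_sub_le hT (v * v' - w) ((v - cut v) * cut v')
    have h7 := l2_le_l2_of_norm_le_one hT (x := v - cut v) (norm_cut_le v')
    have h8 := l2_mul_left_le hT v (v' - cut v')
    have h9 : ‖v‖ * l2 T (v' - cut v') ≤ 2 * (4 * √δ) :=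
      mul_le_mul (hv i j) (hd l m) (l2_nonneg _ _) (by norm_num)
    have h10 := hd i j
    linarith

end est

/-- the transfer of the universal construction to `A` -/
theorem eqUMat_of {G : Type v} [Group G] {A : Type u} [CStarAlgebra A] [PartialOrder A]
    [StarOrderedRing A] (hG : FolnerCond G) {k : ℕ} (hk : 0 < k) {α : G →* (A ≃⋆ₐ[ℂ] A)}
    (h1 : UMat k A) (h2 : EquivUniformGamma α) : EqUMat k α := by
  classical
  intro H F ε hε
  by_contra hcon
  have key : ∀ e : Fin k → Fin k → A, (∀ i j, ‖e i j‖ ≤ 1) → ∃ τ : A →ₗ[ℂ] ℂ, TracialState τ ∧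
      ¬ ((∀ i j, norm2 τ (star (e i j) - e j i) < ε) ∧
      (∀ i j l m, norm2 τ (e i j * e l m - if j = l then e i m else 0) < ε) ∧
      norm2 τ (1 - ∑ i, e i i) < ε ∧
      (∀ i j, ∀ a ∈ F, norm2 τ (a * e i j - e i j * a) < ε) ∧
      ∀ i j, ∀ h ∈ H, norm2 τ (α h (e i j) - e i j) < ε) := by
    intro e he
    by_contra hc
    push Not at hc
    exact hcon ⟨e, he, fun τ hτ => hc τ hτ⟩
  -- constants
  set Ck : ℝ := 19 + 6 * k with hCk
  have hCk0 : 0 < Ck := by positivity
  set δ : ℝ := (ε / (2 * Ck)) ^ 2 with hδ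
  have hδ0 : 0 < δ := by positivity
  have hδs : √δ = ε / (2 * Ck) := Real.sqrt_sq (by positivity)
  have hCδ : Ck * √δ < ε := by
    rw [hδs]
    have : Ck * (ε / (2 * Ck)) = ε / 2 := by field_simp
    linarith
  obtain ⟨n, c, S, J, P, K, r, s0, hn, hc, hS, hs0, hgood⟩ := exists_goodM.{max u v, v} hG hk H hδ0
  have : Nonempty (Fin n) := ⟨⟨0, hn⟩⟩
  have : Nonempty (Fin c) := ⟨⟨0, hc⟩⟩
  have : Nonempty (Fin S) := ⟨⟨0, hS⟩⟩
  obtain ⟨I, U, e, q, hF⟩ := exists_AFam (ι := Ch n c × Fin S) h1 h2
  set R := J * n + 1 with hR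
  have hRpos : 0 < R := Nat.succ_pos _
  set Ψ : ℕ → G → Mat k → BF (Fin (2 * R) → I) A := eh R α e hF.ebdd with hΨ
  set pp : ℕ → Ch n c × Fin S → BF (Fin (2 * R) → I) A := qh R q hF.qbdd with hpp
  set Φ : Mat k → BF (Fin (2 * R) → I) A := RS P r s0 K J Ψ pp with hΦ
  set E : Fin k → Fin k → BF (Fin (2 * R) → I) A := fun i j => cut (Φ (Matrix.single i j 1)) with hE
  choose τ hτ hbad using fun ν : Fin (2 * R) → I => key (fun i j => BF.ev ν (E i j))
    (fun i j => (BF.norm_ev_le _ ν).trans (norm_cut_le _))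
  obtain ⟨M, inst, π, T, ψ, p, hsys, hTπ, hψ, hp, hpinv⟩ := exists_msys hF hk hRpos τ hτ
  have hsys' : MSys T (π.comp (BF.cstHom (Fin (2 * R) → I) A)).range ψ p (J * n) :=
    hsys.mono_R (Nat.le_succ _)
  obtain ⟨g1, g2, g3, g4, g5, g6, g7⟩ := hgood M T _ ψ p hsys'
  set Φ₀ : Mat k → M := RS P r s0 K J (fun l g x => ψ l g x) p with hΦ₀
  have hT := hsys.tr
  have hT1 := hsys.one
  -- the image of the construction
  have hJR : ∀ l, l < J * n → l < R := fun l hl => hl.trans (Nat.lt_succ_self _)
  have hJR' : ∀ j, j < J → j < R := fun j hj => hJR j (hj.trans_le (Nat.le_mul_of_pos_right J hn))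
  have hπΦ : ∀ x, π (Φ x) = Φ₀ x := by
    intro x
    rw [hΦ, map_RS π P r hs0]
    exact RS_congr P r s0 K J (fun l hl g y => (hψ l (hJR l hl) g y).symm)
      (fun j hj b => (hp j (hJR' j hj) b).symm) x
  have hπE : ∀ i j, π (E i j) = cut (Φ₀ (Matrix.single i j 1)) := by
    intro i j
    rw [hE]
    simp only
    rw [map_cut, hπΦ]
  have hest := fun i j l m => cut_estimates hT hδ0.le g2 g3 g4 i j l m
  -- limits
  have hlim : ∀ z : BF (Fin (2 * R) → I) A, l2 T (π z) < ε →
      ∀ᶠ ν in (UP U (2 * R) : Filter (Fin (2 * R) → I)), norm2 (τ ν) (BF.ev ν z) < ε := by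
    intro z hz
    have h3 : T (π (star z * z)) < ε ^ 2 := by
      rw [map_mul, map_star, ← l2_sq hT]
      exact pow_lt_pow_left₀ hz (l2_nonneg _ _) two_ne_zero
    have h4 := (Complex.continuous_re.tendsto _).comp (tendsto_Tlim (UP U (2 * R)) τ hτ
      (star z * z))
    rw [hTπ] at h3
    filter_upwards [h4.eventually (gt_mem_nhds h3)] with ν hν
    rw [norm2_lt_iff hε, reT_apply]
    rw [Function.comp_apply, map_mul, map_star] at hν
    exact hν
  have hk1 : (1 : ℝ) ≤ k := by exact_mod_cast hk
  have hsq0 : 0 ≤ √δ := Real.sqrt_nonneg _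
  have c1 : ∀ i j, ∀ᶠ ν in (UP U (2 * R) : Filter (Fin (2 * R) → I)),
      norm2 (τ ν) (star (BF.ev ν (E i j)) - BF.ev ν (E j i)) < ε := by
    intro i j
    have h3 : l2 T (π (star (E i j) - E j i)) < ε := by
      rw [map_sub, map_star, hπE, hπE]
      have := (hest i j i j).2.1
      nlinarith
    filter_upwards [hlim _ h3] with ν hν
    rwa [map_sub, map_star] at hν
  have c2 : ∀ i j l m, ∀ᶠ ν in (UP U (2 * R) : Filter (Fin (2 * R) → I)),
      norm2 (τ ν) (BF.ev ν (E i j) * BF.ev ν (E l m) -
        if j = l then BF.ev ν (E i m) else 0) < ε := by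
    intro i j l m
    have h3 : l2 T (π (E i j * E l m - if j = l then E i m else 0)) < ε := by
      have h4 := (hest i j l m).2.2
      have e4 : π (E i j * E l m - if j = l then E i m else 0) =
          cut (Φ₀ (Matrix.single i j 1)) * cut (Φ₀ (Matrix.single l m 1)) -
            if j = l then cut (Φ₀ (Matrix.single i m 1)) else 0 := by
        rw [map_sub, map_mul, hπE, hπE]
        split_ifs
        · rw [hπE]
        · rw [map_zero]
      rw [e4]
      nlinarith
    filter_upwards [hlim _ h3] with ν hν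
    rw [map_sub, map_mul] at hν
    split_ifs at hν ⊢
    · exact hν
    · rwa [map_zero] at hν
  have c3 : ∀ᶠ ν in (UP U (2 * R) : Filter (Fin (2 * R) → I)),
      norm2 (τ ν) (1 - ∑ i, BF.ev ν (E i i)) < ε := by
    have h3 : l2 T (π (1 - ∑ i, E i i)) < ε := by
      have hsum : Φ₀ 1 = ∑ i, Φ₀ (Matrix.single i i 1) := by
        have hadd := RS_add P r s0 K J (Ψ := fun l g x => ψ l g x) p
          (fun l g x y => map_add (ψ l g) x y)
        have h0 : Φ₀ 0 = 0 := by
          have := g4 0
          rw [show ms (0 : Mat k) = 0 by simp [ms], mul_zero] at this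
          exact norm_le_zero_iff.1 this
        let f : Mat k →+ M := ⟨⟨Φ₀, h0⟩, hadd⟩
        have h4 : (1 : Mat k) = ∑ i, Matrix.single i i (1 : ℂ) := by
          ext a b
          rw [Matrix.sum_apply, Matrix.one_apply]
          by_cases hab : a = b
          · subst hab
            rw [if_pos rfl, Finset.sum_eq_single a]
            · simp
            · intro i _ hi
              rw [Matrix.single_apply_of_row_ne hi]
            · simp
          · rw [if_neg hab, Finset.sum_eq_zero]
            intro i _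
            rw [Matrix.single_apply]
            rw [if_neg]
            rintro ⟨rfl, rfl⟩
            exact hab rfl
        rw [h4]
        exact map_sum f _ _
      have e4 : π (1 - ∑ i, E i i) = (1 - Φ₀ 1) + ∑ i, (Φ₀ (Matrix.single i i 1) -
          cut (Φ₀ (Matrix.single i i 1))) := by
        rw [map_sub, map_one, map_sum, Finset.sum_sub_distrib, ← hsum]
        simp only [hπE]
        abel
      rw [e4]
      refine (l2_add_le hT _ _).trans_lt ?_
      have h5 : l2 T (∑ i, (Φ₀ (Matrix.single i i 1) - cut (Φ₀ (Matrix.single i i 1)))) ≤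
          k * (4 * √δ) := by
        refine (l2_sum_le hT _ _).trans ?_
        refine (Finset.sum_le_sum fun i _ => (hest i i i i).1).trans (le_of_eq ?_)
        rw [Finset.sum_const, Finset.card_univ, Fintype.card_fin, nsmul_eq_mul]
      have h6 : l2 T (1 - Φ₀ 1) ≤ (2 + k) * √δ := by
        have h7 := l2_sq_le_n1 hT (1 - Φ₀ 1)
        have h8 : n1 T (1 - Φ₀ 1) = T (1 - Φ₀ 1) := by
          let _ := CStarAlgebra.spectralOrder M
          have := CStarAlgebra.spectralOrderedRing M
          obtain ⟨y, hy⟩ := g6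
          apply n1_of_nonneg
          rw [hy]
          exact star_mul_self_nonneg y
        have h9 : ‖1 - Φ₀ 1‖ ≤ 1 + 2 * k := by
          have h10 : ‖(1 : M)‖ ≤ 1 := by
            rcases subsingleton_or_nontrivial M with h | h
            · rw [Subsingleton.elim (1 : M) 0, norm_zero]; exact zero_le_one
            · rw [CStarRing.norm_one]
          have h11 := g4 1
          rw [ms_one] at h11
          exact (norm_sub_le _ _).trans (by linarith)
        have h12 : l2 T (1 - Φ₀ 1) ^ 2 ≤ ((2 + k) * √δ) ^ 2 := by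
          rw [mul_pow, Real.sq_sqrt hδ0.le]
          calc l2 T (1 - Φ₀ 1) ^ 2 ≤ ‖1 - Φ₀ 1‖ * n1 T (1 - Φ₀ 1) := h7
            _ ≤ (1 + 2 * k) * δ := by
              rw [h8]
              exact mul_le_mul h9 g1 (by rw [← h8]; exact n1_nonneg hT _) (by positivity)
            _ ≤ (2 + k) ^ 2 * δ := by
              apply mul_le_mul_of_nonneg_right _ hδ0.le
              nlinarith
        exact abs_le_of_sq_le_sq' h12 (by positivity) |>.2
      have h13 : (2 + (k : ℝ)) * √δ + k * (4 * √δ) ≤ Ck * √δ := by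
        rw [hCk]; nlinarith
      linarith
    filter_upwards [hlim _ h3] with ν hν
    rwa [map_sub, map_one, map_sum] at hν
  have c4 : ∀ i j, ∀ a ∈ F, ∀ᶠ ν in (UP U (2 * R) : Filter (Fin (2 * R) → I)),
      norm2 (τ ν) (a * BF.ev ν (E i j) - BF.ev ν (E i j) * a) < ε := by
    intro i j a _
    have h3 : l2 T (π (BF.cst a * E i j - E i j * BF.cst a)) < ε := by
      have h4 : Commute (π (BF.cst a)) (Φ₀ (Matrix.single i j 1)) := g5 _ _ ⟨a, rfl⟩
      have h5 : Commute (π (BF.cst a)) (star (Φ₀ (Matrix.single i j 1))) := by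
        rw [g3]
        exact g5 _ _ ⟨a, rfl⟩
      have h6 : Commute (π (BF.cst a)) (cut (Φ₀ (Matrix.single i j 1))) := by
        unfold cut
        refine h4.mul_right ?_
        exact ((h5.mul_right h4).symm.cfc_real _).symm
      rw [map_sub, map_mul, map_mul, hπE, h6.eq, sub_self, l2_zero]
      exact hε
    filter_upwards [hlim _ h3] with ν hν
    rwa [map_sub, map_mul, map_mul, BF.ev_cst] at hν
  have c5 : ∀ i j, ∀ h ∈ H, ∀ᶠ ν in (UP U (2 * R) : Filter (Fin (2 * R) → I)),
      norm2 (τ ν) (α h (BF.ev ν (E i j)) - BF.ev ν (E i j)) < ε := by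
    intro i j h hh
    -- the translated system
    set Φh : Mat k → M := RS P r s0 K J (fun l g x => ψ l (h * g) x) p with hΦh
    obtain ⟨-, f2, f3, f4, -⟩ := hgood M T _ _ p (hsys'.shift h)
    have hest' := fun i j l m => cut_estimates hT hδ0.le f2 f3 f4 i j l m
    set πh : BF (Fin (2 * R) → I) A →⋆ₐ[ℂ] M := π.comp (BF.app (au (α h))) with hπh
    have e1 : πh (E i j) = cut (Φh (Matrix.single i j 1)) := by
      rw [hE]
      simp only
      rw [map_cut, hΦ, map_RS πh P r hs0]
      congr 1
      apply RS_congr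
      · intro l hl g y
        rw [hψ l (hJR l hl), hπh, StarAlgHom.comp_apply]
        congr 1
        rw [hΨ]
        unfold eh
        rw [dif_pos (hJR l hl), dif_pos (hJR l hl), map_sum]
        refine Finset.sum_congr rfl fun a _ => ?_
        rw [map_sum]
        refine Finset.sum_congr rfl fun b _ => ?_
        rw [map_smul]
        congr 1
        apply BF.ext
        intro ν
        rw [BF.ev_app, BF.ev_app, BF.ev_app, au_apply, au_apply, au_apply,
          ← StarAlgEquiv.mul_apply, ← map_mul]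
      · intro j' hj b
        exact hpinv j' (hJR' j' hj) b h
    have h3 : l2 T (π (BF.app (au (α h)) (E i j) - E i j)) < ε := by
      have e2 : π (BF.app (au (α h)) (E i j)) = cut (Φh (Matrix.single i j 1)) := e1
      rw [map_sub, e2, hπE]
      have e3 : cut (Φh (Matrix.single i j 1)) - cut (Φ₀ (Matrix.single i j 1)) =
          (Φ₀ (Matrix.single i j 1) - cut (Φ₀ (Matrix.single i j 1))) -
          (Φh (Matrix.single i j 1) - cut (Φh (Matrix.single i j 1))) -
          (Φ₀ (Matrix.single i j 1) - Φh (Matrix.single i j 1)) := by abel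
      rw [e3]
      have h5 := l2_sub_le hT ((Φ₀ (Matrix.single i j 1) - cut (Φ₀ (Matrix.single i j 1))) -
          (Φh (Matrix.single i j 1) - cut (Φh (Matrix.single i j 1))))
          (Φ₀ (Matrix.single i j 1) - Φh (Matrix.single i j 1))
      have h6 := l2_sub_le hT (Φ₀ (Matrix.single i j 1) - cut (Φ₀ (Matrix.single i j 1)))
          (Φh (Matrix.single i j 1) - cut (Φh (Matrix.single i j 1)))
      have h7 := (hest i j i j).1
      have h8 := (hest' i j i j).1
      have h9 : l2 T (Φ₀ (Matrix.single i j 1) - Φh (Matrix.single i j 1)) ≤ 2 * √δ := by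
        have h10 := l2_sq_le_n1 hT (Φ₀ (Matrix.single i j 1) - Φh (Matrix.single i j 1))
        have h11 := g7 h hh (Matrix.single i j 1)
        rw [ms_single, mul_one] at h11
        have h12 : ‖Φ₀ (Matrix.single i j 1) - Φh (Matrix.single i j 1)‖ ≤ 4 := by
          have a1 := g4 (Matrix.single i j 1)
          have a2 := f4 (Matrix.single i j 1)
          rw [ms_single, mul_one] at a1 a2
          exact (norm_sub_le _ _).trans (by linarith)
        have h13 : l2 T (Φ₀ (Matrix.single i j 1) - Φh (Matrix.single i j 1)) ^ 2 ≤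
            (2 * √δ) ^ 2 := by
          rw [mul_pow, Real.sq_sqrt hδ0.le]
          refine h10.trans ?_
          have := mul_le_mul h12 h11 (n1_nonneg hT _) (by norm_num)
          linarith
        exact abs_le_of_sq_le_sq' h13 (by positivity) |>.2
      nlinarith
    filter_upwards [hlim _ h3] with ν hν
    rw [map_sub, BF.ev_app] at hν
    exact hν
  have hall : ∀ᶠ ν in (UP U (2 * R) : Filter (Fin (2 * R) → I)), False := by
    filter_upwards [Filter.eventually_all.2 fun i => Filter.eventually_all.2 fun j => c1 i j,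
      Filter.eventually_all.2 fun i => Filter.eventually_all.2 fun j =>
        Filter.eventually_all.2 fun l => Filter.eventually_all.2 fun m => c2 i j l m, c3,
      Filter.eventually_all.2 fun i => Filter.eventually_all.2 fun j =>
        (Finset.eventually_all F).2 (c4 i j),
      Filter.eventually_all.2 fun i => Filter.eventually_all.2 fun j =>
        (Finset.eventually_all H).2 (c5 i j)] with ν k1 k2 k3 k4 k5
    exact hbad ν ⟨k1, k2, k3, k4, k5⟩
  obtain ⟨ν, hν⟩ := hall.exists
  exact hν

/-- **Tracial McDuff theorem for amenable group actions.** -/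
theorem eqUMat {G : Type v} [Group G] (hG : AmenableGroup G) {A : Type u} [CStarAlgebra A]
    [PartialOrder A] [StarOrderedRing A] (hA : UniformGamma A) {k : ℕ} (hk : 0 < k)
    (h1 : UMat k A) (α : G →* (A ≃⋆ₐ[ℂ] A)) : EqUMat k α :=
  eqUMat_of hG.folner hk h1 (equivUniformGamma hG hA α)

end Pool.Agent.Lib.EqM
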