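import Pool.Agent.Lib.EqGamma.GFinal
import Pool.Agent.Lib.EqM.Defs

/-!
Asymptotic families of approximate matrix units and invariant partitions of unity.
-/

open scoped ComplexOrder
open Filter Topology

namespace Pool.Agent.Lib.EqM

open Pool.Agent.Lib.EqGamma

universe u v w

/-- families in `A` that are null uniformly over the tracial states -/
def NF {I A : Type*} [CStarAlgebra A] (U : Filter I) (f : I → A) : Prop :=
  ∀ ε : ℝ, 0 < ε → ∀ᶠ i in U, ∀ τ : A →ₗ[ℂ] ℂ, TracialState τ → reT τ (star (f i) * f i) ≤ ε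

/-- an asymptotically central family of approximate matrix units together with an asymptotically
central and invariant family of partitions of unity -/
structure AFam {I A G ι : Type*} [CStarAlgebra A] [Group G] [Fintype ι] [DecidableEq ι] {k : ℕ}
    (α : G →* (A ≃⋆ₐ[ℂ] A)) (U : Filter I) (e : I → Fin k → Fin k → A) (q : I → ι → A) :
    Prop where
  ebdd : ∀ i a b, ‖e i a b‖ ≤ 1
  estar : ∀ a b, NF U fun i => star (e i a b) - e i b a
  emul : ∀ a b c d, NF U fun i => e i a b * e i c d - if b = c then e i a d else 0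
  esum : NF U fun i => 1 - ∑ a, e i a a
  ecen : ∀ a b, ∀ x : A, NF U fun i => x * e i a b - e i a b * x
  qbdd : ∀ i a, ‖q i a‖ ≤ 1
  qstar : ∀ i a, star (q i a) = q i a
  qmul : ∀ a b, NF U fun i => q i a * q i b - if a = b then q i a else 0
  qsum : NF U fun i => 1 - ∑ a, q i a
  qcen : ∀ a, ∀ x : A, NF U fun i => x * q i a - q i a * x
  qind : ∀ a, ∀ x : A, ∀ ε : ℝ, 0 < ε → ∀ᶠ i in U, ∀ τ : A →ₗ[ℂ] ℂ, TracialState τ →
    ‖τ (x * q i a) - (Fintype.card ι : ℂ)⁻¹ * τ x‖ ≤ ε
  qinv : ∀ a, ∀ h, NF U fun i => α h (q i a) - q i a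

section gam

variable {A : Type*} [CStarAlgebra A] [PartialOrder A] [StarOrderedRing A]

/-- consequences of orthogonality and of the trace condition -/
theorem gamma_est {n : ℕ} (hn : 0 < n) {p : Fin n → A} (h1 : ∀ i, 0 ≤ p i ∧ ‖p i‖ ≤ 1)
    (h2 : ∀ i j, i ≠ j → p i * p j = 0) {τ : A →ₗ[ℂ] ℂ} (hτ : TracialState τ) {ε : ℝ}
    (h3 : ∀ i, ‖τ (1 * p i) - τ 1 / n‖ < ε) :
    reT τ (star (1 - ∑ i, p i) * (1 - ∑ i, p i)) ≤ n * ε ∧
    ∀ i, reT τ (star (p i * p i - p i) * (p i * p i - p i)) ≤ n * ε := by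
  have hn' : (0 : ℝ) < n := by exact_mod_cast hn
  obtain ⟨hS0, hS1⟩ := sum_orth_le_one h1 h2
  set S := ∑ i, p i with hS
  have hSs : star S = S := hS0.isSelfAdjoint.star_eq
  have h4 : ∀ i, (1 / n : ℝ) - ε ≤ reT τ (p i) := by
    intro i
    have h5 := h3 i
    rw [one_mul, hτ.map_one] at h5
    have h6 := (abs_le.1 ((Complex.abs_re_le_norm _).trans h5.le)).1
    rw [Complex.sub_re] at h6
    have h7 : ((1 : ℂ) / (n : ℂ)).re = 1 / n := by
      rw [show ((1 : ℂ) / (n : ℂ)) = ((1 / n : ℝ) : ℂ) by push_cast; rfl, Complex.ofReal_re]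
    rw [h7] at h6
    rw [reT_apply]
    linarith
  have h11 : reT τ 1 = 1 := by rw [reT_apply, hτ.map_one, Complex.one_re]
  have hmain : reT τ (1 - S) ≤ n * ε := by
    rw [map_sub, hS, map_sum]
    have h8 := Finset.sum_le_sum fun i (_ : i ∈ Finset.univ) => h4 i
    rw [Finset.sum_const, Finset.card_univ, Fintype.card_fin, nsmul_eq_mul] at h8
    have h9 : (n : ℝ) * (1 / n - ε) = 1 - n * ε := by field_simp
    rw [h9] at h8
    rw [h11]
    linarith
  constructor
  · have hd0 : 0 ≤ 1 - S := sub_nonneg.2 hS1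
    have hd1 : 1 - S ≤ 1 := sub_le_self _ hS0
    rw [star_sub, star_one, hSs]
    exact (hτ.rtr.mono (Block.mul_self_le hd0 hd1)).trans hmain
  · intro i
    set e := p i with he
    have hes : star e = e := (h1 i).1.isSelfAdjoint.star_eq
    have hele : e ≤ 1 := (norm_le_one_of hes (h1 i).2).2
    have e1 : e * S = e * e := by
      rw [hS, Finset.mul_sum, Finset.sum_eq_single i]
      · intro j _ hj
        exact h2 i j hj.symm
      · intro h; exact absurd (Finset.mem_univ i) h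
    have hd0 : 0 ≤ e - e * e := sub_nonneg.2 (Block.mul_self_le (h1 i).1 hele)
    have hd1 : e - e * e ≤ 1 := by
      refine (sub_le_self _ ?_).trans hele
      have := star_mul_self_nonneg e
      rwa [hes] at this
    have e2 : star (e * e - e) * (e * e - e) = (e - e * e) * (e - e * e) := by
      rw [star_sub, star_mul, hes]
      noncomm_ring
    rw [e2]
    refine (hτ.rtr.mono (Block.mul_self_le hd0 hd1)).trans ?_
    have e3 : e - e * e = e * (1 - S) := by rw [mul_sub, mul_one, e1]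
    rw [e3, hτ.rtr.tracial]
    exact (hτ.rtr.mul_le_of_le_one (sub_nonneg.2 hS1) hele).trans hmain

end gam

theorem exists_AFam {A : Type u} {G : Type v} {ι : Type w} [CStarAlgebra A] [PartialOrder A]
    [StarOrderedRing A] [Group G] [Fintype ι] [DecidableEq ι] [Nonempty ι] {k : ℕ}
    {α : G →* (A ≃⋆ₐ[ℂ] A)}
    (h1 : UMat k A) (h2 : EquivUniformGamma α) :
    ∃ (I : Type (max u v)) (U : Ultrafilter I) (e : I → Fin k → Fin k → A) (q : I → ι → A),
      AFam α (U : Filter I) e q := by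
  classical
  set n := Fintype.card ι with hn
  have hn0 : 0 < n := Fintype.card_pos
  have hn' : (0 : ℝ) < n := by exact_mod_cast hn0
  choose e he1 he2 using fun (i : Finset A × Finset G × ℕ) => h1 i.1 (1 / ((i.2.2 : ℝ) + 1))
    (by positivity)
  choose p hp1 hp2 hp3 using fun (i : Finset A × Finset G × ℕ) => h2 n hn0 i.2.1 (insert 1 i.1)
    (1 / ((i.2.2 : ℝ) + 1)) (by positivity)
  let U : Ultrafilter (Finset A × Finset G × ℕ) := Ultrafilter.of atTop
  have hU : (U : Filter (Finset A × Finset G × ℕ)) ≤ atTop := Ultrafilter.of_le _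
  have hev : ∀ (a : A) (h : G) (ε : ℝ), 0 < ε → ∀ᶠ i in (U : Filter (Finset A × Finset G × ℕ)),
      a ∈ i.1 ∧ h ∈ i.2.1 ∧ 1 / ((i.2.2 : ℝ) + 1) ≤ ε := by
    intro a h ε hε
    apply hU
    obtain ⟨N, hN⟩ := exists_nat_gt (1 / ε)
    rw [mem_atTop_sets]
    refine ⟨({a}, {h}, N), fun i hi => ?_⟩
    refine ⟨hi.1 (Finset.mem_singleton_self a), hi.2.1 (Finset.mem_singleton_self h), ?_⟩
    have h1 : (N : ℝ) ≤ i.2.2 := by exact_mod_cast hi.2.2
    rw [div_le_iff₀ (by positivity)]
    rw [div_lt_iff₀ hε] at hN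
    nlinarith
  -- from `norm2` to `reT`
  have hconv : ∀ {x : A} {τ : A →ₗ[ℂ] ℂ} {δ ε : ℝ}, 0 < δ → δ ≤ ε → δ ≤ 1 → norm2 τ x < δ →
      reT τ (star x * x) ≤ ε := by
    intro x τ δ ε hδ h h' hx
    rw [norm2_lt_iff hδ] at hx
    nlinarith
  have hone : ∀ N : ℕ, 1 / ((N : ℝ) + 1) ≤ 1 := fun N => by
    rw [div_le_one (by positivity)]
    have : (0 : ℝ) ≤ N := Nat.cast_nonneg N
    linarith
  let eqv := Fintype.equivFin ι
  refine ⟨Finset A × Finset G × ℕ, U, e, fun i a => p i (eqv a), ?_⟩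
  constructor
  · exact he1
  · intro a b ε hε
    filter_upwards [hev 0 1 ε hε] with i hi τ hτ
    exact hconv (by positivity) hi.2.2 (hone _) ((he2 i τ hτ).1 a b)
  · intro a b c d ε hε
    filter_upwards [hev 0 1 ε hε] with i hi τ hτ
    exact hconv (by positivity) hi.2.2 (hone _) ((he2 i τ hτ).2.1 a b c d)
  · intro ε hε
    filter_upwards [hev 0 1 ε hε] with i hi τ hτ
    exact hconv (by positivity) hi.2.2 (hone _) (he2 i τ hτ).2.2.1
  · intro a b x ε hε
    filter_upwards [hev x 1 ε hε] with i hi τ hτ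
    exact hconv (by positivity) hi.2.2 (hone _) ((he2 i τ hτ).2.2.2 a b x hi.1)
  · intro i a
    exact (hp1 i (eqv a)).2
  · intro i a
    exact (hp1 i (eqv a)).1.isSelfAdjoint.star_eq
  · intro a b ε hε
    by_cases hab : a = b
    · subst hab
      filter_upwards [hev 0 1 (ε / n) (by positivity)] with i hi τ hτ
      simp only [if_true]
      have h5 := (gamma_est hn0 (hp1 i) (hp2 i) hτ (fun j =>
        ((hp3 i τ hτ j).2 1 (Finset.mem_insert_self _ _)).2)).2 (eqv a)
      refine h5.trans ?_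
      calc (n : ℝ) * (1 / ((i.2.2 : ℝ) + 1)) ≤ n * (ε / n) :=
            mul_le_mul_of_nonneg_left hi.2.2 hn'.le
        _ = ε := by field_simp
    · refine Eventually.of_forall fun i τ hτ => ?_
      simp only [if_neg hab]
      rw [hp2 i _ _ (fun h => hab (eqv.injective h)), sub_zero, mul_zero, map_zero]
      exact hε.le
  · intro ε hε
    filter_upwards [hev 0 1 (ε / n) (by positivity)] with i hi τ hτ
    have h5 := (gamma_est hn0 (hp1 i) (hp2 i) hτ (fun j =>
      ((hp3 i τ hτ j).2 1 (Finset.mem_insert_self _ _)).2)).1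
    rw [show ∑ a, p i (eqv a) = ∑ j, p i j from Equiv.sum_comp eqv (p i)]
    refine h5.trans ?_
    calc (n : ℝ) * (1 / ((i.2.2 : ℝ) + 1)) ≤ n * (ε / n) :=
          mul_le_mul_of_nonneg_left hi.2.2 hn'.le
      _ = ε := by field_simp
  · intro a x ε hε
    filter_upwards [hev x 1 ε hε] with i hi τ hτ
    have h5 := ((hp3 i τ hτ (eqv a)).2 x (Finset.mem_insert_of_mem hi.1)).1
    have e1 : star (x * p i (eqv a) - p i (eqv a) * x) * (x * p i (eqv a) - p i (eqv a) * x) =
        star (p i (eqv a) * x - x * p i (eqv a)) * (p i (eqv a) * x - x * p i (eqv a)) := by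
      rw [← neg_sub (p i (eqv a) * x) (x * p i (eqv a)), star_neg, neg_mul_neg]
    rw [e1]
    exact hconv (by positivity) hi.2.2 (hone _) h5
  · intro a x ε hε
    filter_upwards [hev x 1 ε hε] with i hi τ hτ
    have h5 := ((hp3 i τ hτ (eqv a)).2 x (Finset.mem_insert_of_mem hi.1)).2
    rw [inv_mul_eq_div]
    exact h5.le.trans hi.2.2
  · intro a h ε hε
    filter_upwards [hev 0 h ε hε] with i hi τ hτ
    exact hconv (by positivity) hi.2.2 (hone _) ((hp3 i τ hτ (eqv a)).1 h hi.2.1)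

end Pool.Agent.Lib.EqM
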