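import Pool.Agent.Lib.EqM.L2

/-!
Overlap systems: copies `ψ g` of the `k` by `k` matrices, rare projections `q g`, and the relations
between the averages `YY ψ q r K x = r ∑_{g ∈ K} ψ g x q g`.
-/

open scoped ComplexOrder

namespace Pool.Agent.Lib.EqM

open Pool.Agent.Lib.EqGamma

/-- overlap system: wherever `q g` and `q h` overlap, `ψ g` and `ψ h` almost agree -/
structure OSys {N : Type*} [CStarAlgebra N] {G : Type*} {k : ℕ} (T : N →ₗ[ℝ] ℝ)
    (ψ : G → Mat k →⋆ₐ[ℂ] N) (q : G → N) (w θ : ℝ) : Prop where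
  tr : RTr T
  idem : ∀ g, q g * q g = q g
  star_eq : ∀ g, star (q g) = q g
  comm : ∀ g h x, Commute (ψ g x) (q h)
  mean : ∀ g, T (q g) = w
  ovl : ∀ g h x, l2 T ((ψ g x - ψ h x) * (q g * q h)) ^ 2 ≤ θ * ms x ^ 2 * w

section defs

variable {N : Type*} [CStarAlgebra N] {G : Type*} {k : ℕ}

/-- the average `r ∑_{g ∈ K} ψ g x q g` -/
noncomputable def YY (ψ : G → Mat k →⋆ₐ[ℂ] N) (q : G → N) (r : ℝ) (K : Finset G) (x : Mat k) : N :=
  r • ∑ g ∈ K, ψ g x * q g

/-- the average `r ∑_{g ∈ K} q g` -/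
noncomputable def BQ (q : G → N) (r : ℝ) (K : Finset G) : N := r • ∑ g ∈ K, q g

/-- the increment `h(B) Y_x h(B)` -/
noncomputable def DI (ψ : G → Mat k →⋆ₐ[ℂ] N) (q : G → N) (r s0 : ℝ) (S : ℕ) (K : Finset G) (i : ℕ)
    (x : Mat k) : N :=
  cfc (hh s0 S i) (BQ q r K) * YY ψ q r K x * cfc (hh s0 S i) (BQ q r K)

end defs

section mat

variable {N : Type*} [CStarAlgebra N] {k : ℕ}

theorem ms_nonneg (x : Mat k) : 0 ≤ ms x := by
  unfold ms
  positivity

theorem ms_mul_le (x y : Mat k) : ms (x * y) ≤ ms x * ms y := by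
  have hrow : ∀ l, ∑ j, ‖y l j‖ ≤ ms y := by
    intro l
    unfold ms
    exact Finset.single_le_sum (f := fun i => ∑ j, ‖y i j‖)
      (fun i _ => Finset.sum_nonneg fun j _ => norm_nonneg _) (Finset.mem_univ l)
  calc ms (x * y) = ∑ i, ∑ j, ‖∑ l, x i l * y l j‖ := by
        unfold ms
        simp only [Matrix.mul_apply]
    _ ≤ ∑ i, ∑ j, ∑ l, ‖x i l‖ * ‖y l j‖ := by
        refine Finset.sum_le_sum fun i _ => Finset.sum_le_sum fun j _ => ?_
        refine (norm_sum_le _ _).trans (le_of_eq ?_)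
        refine Finset.sum_congr rfl fun l _ => norm_mul _ _
    _ = ∑ i, ∑ l, ‖x i l‖ * ∑ j, ‖y l j‖ := by
        refine Finset.sum_congr rfl fun i _ => ?_
        rw [Finset.sum_comm]
        refine Finset.sum_congr rfl fun l _ => ?_
        rw [Finset.mul_sum]
    _ ≤ ∑ i, ∑ l, ‖x i l‖ * ms y := by
        refine Finset.sum_le_sum fun i _ => Finset.sum_le_sum fun l _ => ?_
        exact mul_le_mul_of_nonneg_left (hrow l) (norm_nonneg _)
    _ = ms x * ms y := by
        conv_rhs => rw [ms, Finset.sum_mul]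
        refine Finset.sum_congr rfl fun i _ => ?_
        rw [Finset.sum_mul]

theorem ms_star (x : Mat k) : ms (star x) = ms x := by
  unfold ms
  rw [Finset.sum_comm]
  refine Finset.sum_congr rfl fun i _ => Finset.sum_congr rfl fun j _ => ?_
  rw [Matrix.star_apply, norm_star]

theorem ms_one : ms (1 : Mat k) = k := by
  unfold ms
  have h : ∀ i : Fin k, ∑ j, ‖(1 : Mat k) i j‖ = 1 := by
    intro i
    rw [Finset.sum_eq_single i]
    · simp
    · intro j _ hj
      rw [Matrix.one_apply_ne' hj, norm_zero]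
    · intro hi
      exact absurd (Finset.mem_univ i) hi
  rw [Finset.sum_congr rfl fun i _ => h i]
  simp

theorem norm_le_one_of_star_mul {a : N} {e : N} (h : star a * a = e) (he : ‖e‖ ≤ 1) :
    ‖a‖ ≤ 1 := by
  have h1 : ‖a‖ * ‖a‖ ≤ 1 := by
    rw [← CStarRing.norm_star_mul_self, h]
    exact he
  nlinarith [norm_nonneg a]

theorem norm_proj_le {e : N} (h1 : e * e = e) (h2 : star e = e) : ‖e‖ ≤ 1 := by
  have h3 : ‖e‖ * ‖e‖ = ‖e‖ := by
    rw [← CStarRing.norm_star_mul_self, h2, h1]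
  rcases eq_or_ne ‖e‖ 0 with h | h
  · rw [h]
    exact zero_le_one
  · have := mul_right_cancel₀ h (h3.trans (one_mul _).symm)
    exact this.le

theorem norm_one_le : ‖(1 : N)‖ ≤ 1 := norm_proj_le (one_mul 1) (star_one N)

/-- images of unitaries are contractions -/
theorem norm_hom_unitary_le (φ : Mat k →⋆ₐ[ℂ] N) {u : Mat k} (hu : star u * u = 1) :
    ‖φ u‖ ≤ 1 := by
  refine norm_le_one_of_star_mul (e := 1) ?_ norm_one_le
  rw [← map_star, ← map_mul, hu, map_one]

/-- the permutation matrix of a transposition -/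
noncomputable def swm (i j : Fin k) : Mat k :=
  fun a b => if b = Equiv.swap i j a then 1 else 0

theorem star_swm_mul (i j : Fin k) : star (swm i j) * swm i j = 1 := by
  ext a b
  rw [Matrix.mul_apply]
  have h : ∀ l, (star (swm i j)) a l * swm i j l b =
      if l = Equiv.swap i j a then (if b = a then 1 else 0) else 0 := by
    intro l
    rw [Matrix.star_apply]
    unfold swm
    by_cases h1 : a = Equiv.swap i j l
    · have h2 : l = Equiv.swap i j a := by rw [h1, Equiv.swap_apply_self]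
      rw [if_pos h1, if_pos h2, star_one, one_mul, ← h1]
    · have h2 : ¬ l = Equiv.swap i j a := by
        intro h3
        exact h1 (by rw [h3, Equiv.swap_apply_self])
      rw [if_neg h1, if_neg h2, star_zero, zero_mul]
  rw [Finset.sum_congr rfl fun l _ => h l, Finset.sum_ite_eq' Finset.univ, if_pos (Finset.mem_univ _)]
  rw [Matrix.one_apply]
  by_cases h3 : a = b
  · rw [if_pos h3, if_pos h3.symm]
  · rw [if_neg h3, if_neg (Ne.symm h3)]

/-- the second unitary -/
noncomputable def swm' (i j : Fin k) : Mat k :=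
  fun a b => if b = Equiv.swap i j a then (if a = i then -1 else 1) else 0

theorem star_swm'_mul (i j : Fin k) : star (swm' i j) * swm' i j = 1 := by
  ext a b
  rw [Matrix.mul_apply]
  have h : ∀ l, (star (swm' i j)) a l * swm' i j l b =
      if l = Equiv.swap i j a then (if b = a then 1 else 0) else 0 := by
    intro l
    rw [Matrix.star_apply]
    unfold swm'
    by_cases h1 : a = Equiv.swap i j l
    · have h2 : l = Equiv.swap i j a := by rw [h1, Equiv.swap_apply_self]
      rw [if_pos h1, if_pos h2, ← h1]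
      by_cases hb : b = a
      · rw [if_pos hb, if_pos hb]
        by_cases hl : l = i
        · rw [if_pos hl, star_neg, star_one]
          norm_num
        · rw [if_neg hl, star_one, one_mul]
      · rw [if_neg hb, if_neg hb, mul_zero]
    · have h2 : ¬ l = Equiv.swap i j a := by
        intro h3
        exact h1 (by rw [h3, Equiv.swap_apply_self])
      rw [if_neg h1, if_neg h2, star_zero, zero_mul]
  rw [Finset.sum_congr rfl fun l _ => h l, Finset.sum_ite_eq' Finset.univ, if_pos (Finset.mem_univ _)]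
  rw [Matrix.one_apply]
  by_cases h3 : a = b
  · rw [if_pos h3, if_pos h3.symm]
  · rw [if_neg h3, if_neg (Ne.symm h3)]

theorem single_eq_swm (i j : Fin k) :
    Matrix.single i j (1 : ℂ) = (1 / 2 : ℂ) • swm i j + (-(1 / 2) : ℂ) • swm' i j := by
  ext a b
  rw [Matrix.add_apply, Matrix.smul_apply, Matrix.smul_apply, Matrix.single_apply]
  unfold swm swm'
  by_cases ha : a = i
  · rw [ha, Equiv.swap_apply_left]
    by_cases hb : b = j
    · rw [if_pos ⟨rfl, hb.symm⟩, if_pos hb, if_pos hb, if_pos rfl]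
      norm_num
    · rw [if_neg (fun h => hb h.2.symm), if_neg hb, if_neg hb]
      simp
  · rw [if_neg (fun h => ha h.1.symm), if_neg ha]
    by_cases hb : b = Equiv.swap i j a
    · rw [if_pos hb]
      simp
    · rw [if_neg hb]
      simp

theorem eq_sum_single' (x : Mat k) :
    x = ∑ i, ∑ j, x i j • Matrix.single i j (1 : ℂ) := by
  conv_lhs => rw [Matrix.matrix_eq_sum_single x]
  refine Finset.sum_congr rfl fun i _ => Finset.sum_congr rfl fun j _ => ?_
  rw [Matrix.smul_single, smul_eq_mul, mul_one]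

/-- a linear map on matrices is controlled by its values on unitaries, for a seminorm -/
theorem seminorm_le_of_unitary {V : Type*} [AddCommGroup V] [Module ℂ V] {c : ℝ} (p : V → ℝ)
    (hp0 : p 0 = 0) (hadd : ∀ a b, p (a + b) ≤ p a + p b)
    (hsmul : ∀ (z : ℂ) a, p (z • a) ≤ ‖z‖ * p a)
    (Lm : Mat k →ₗ[ℂ] V) (h : ∀ u : Mat k, star u * u = 1 → p (Lm u) ≤ c) (x : Mat k) :
    p (Lm x) ≤ ms x * c := by
  have hsum : ∀ (s : Finset (Fin k)) (f : Fin k → V), p (∑ i ∈ s, f i) ≤ ∑ i ∈ s, p (f i) := by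
    intro s f
    induction s using Finset.induction_on with
    | empty => simp [hp0]
    | insert a s ha ih =>
      rw [Finset.sum_insert ha, Finset.sum_insert ha]
      exact (hadd _ _).trans (by linarith)
  have hE : ∀ i j : Fin k, p (Lm (Matrix.single i j (1 : ℂ))) ≤ c := by
    intro i j
    rw [single_eq_swm, map_add, map_smul, map_smul]
    have h1 := h _ (star_swm_mul i j)
    have h2 := h _ (star_swm'_mul i j)
    have h3 := hsmul (1 / 2 : ℂ) (Lm (swm i j))
    have h4 := hsmul (-(1 / 2) : ℂ) (Lm (swm' i j))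
    have n1 : ‖(1 / 2 : ℂ)‖ = 1 / 2 := by norm_num
    have n2 : ‖(-(1 / 2) : ℂ)‖ = 1 / 2 := by
      rw [norm_neg, n1]
    rw [n1] at h3
    rw [n2] at h4
    refine (hadd _ _).trans ?_
    linarith
  conv_lhs => rw [eq_sum_single' x]
  rw [map_sum]
  refine (hsum _ _).trans ?_
  unfold ms
  rw [Finset.sum_mul]
  refine Finset.sum_le_sum fun i _ => ?_
  rw [map_sum]
  refine (hsum _ _).trans ?_
  rw [Finset.sum_mul]
  refine Finset.sum_le_sum fun j _ => ?_
  rw [map_smul]
  exact (hsmul _ _).trans (mul_le_mul_of_nonneg_left (hE i j) (norm_nonneg _))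

/-- star homs on matrices are bounded by `ms` -/
theorem norm_hom_le (φ : Mat k →⋆ₐ[ℂ] N) (x : Mat k) : ‖φ x‖ ≤ ms x := by
  have := seminorm_le_of_unitary (c := 1) (fun a : N => ‖a‖) norm_zero norm_add_le
    (fun z a => norm_smul_le z a) (φ : Mat k →ₐ[ℂ] N).toLinearMap
    (fun u hu => norm_hom_unitary_le φ hu) x
  rw [mul_one] at this
  exact this

end mat

namespace OSys

variable {N : Type*} [CStarAlgebra N] {G : Type*} {k : ℕ} {T : N →ₗ[ℝ] ℝ}
  {ψ : G → Mat k →⋆ₐ[ℂ] N} {q : G → N} {w θ : ℝ} (h : OSys T ψ q w θ)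

include h in
theorem w_nonneg [Nonempty G] : 0 ≤ w := by
  obtain ⟨g⟩ := ‹Nonempty G›
  have h1 := h.tr.nonneg' (q g)
  rwa [h.star_eq, h.idem, h.mean] at h1

theorem YY_one (ψ : G → Mat k →⋆ₐ[ℂ] N) (q : G → N) (r : ℝ) (K : Finset G) :
    YY ψ q r K 1 = BQ q r K := by
  unfold YY BQ
  simp

include h in
theorem star_YY (r : ℝ) (K : Finset G) (x : Mat k) :
    star (YY ψ q r K x) = YY ψ q r K (star x) := by
  unfold YY
  rw [star_smul, star_sum, star_trivial]
  congr 1
  refine Finset.sum_congr rfl fun g _ => ?_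
  rw [star_mul, h.star_eq, ← map_star, (h.comm g g (star x)).eq]

include h in
theorem norm_YY_le {r : ℝ} (hr : 0 ≤ r) {K : Finset G} {c : ℝ} (hc : r * K.card ≤ c) {u : Mat k}
    (hu : star u * u = 1) : ‖YY ψ q r K u‖ ≤ c := by
  unfold YY
  refine (norm_smul_le _ _).trans ?_
  rw [Real.norm_eq_abs, abs_of_nonneg hr]
  refine le_trans (mul_le_mul_of_nonneg_left ?_ hr) hc
  refine (norm_sum_le _ _).trans ?_
  calc ∑ g ∈ K, ‖ψ g u * q g‖ ≤ ∑ _g ∈ K, (1 : ℝ) := by
        refine Finset.sum_le_sum fun g _ => ?_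
        refine (norm_mul_le _ _).trans ?_
        exact mul_le_one₀ (norm_hom_unitary_le (ψ g) hu) (norm_nonneg _)
          (norm_proj_le (h.idem g) (h.star_eq g))
    _ = K.card := by simp

include h in
theorem ovl_le (g g' : G) (x : Mat k) :
    l2 T ((ψ g x - ψ g' x) * (q g * q g')) ≤ ms x * √(θ * w) := by
  have h1 := h.ovl g g' x
  have h2 : l2 T ((ψ g x - ψ g' x) * (q g * q g')) ≤ √(θ * ms x ^ 2 * w) :=
    Real.le_sqrt_of_sq_le h1
  have h3 : θ * ms x ^ 2 * w = ms x ^ 2 * (θ * w) := by ring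
  rw [h3, Real.sqrt_mul (sq_nonneg _), Real.sqrt_sq (ms_nonneg x)] at h2
  exact h2

theorem sum_bound {r c : ℝ} (hr : 0 ≤ r) {K L : Finset G} (hK : r * K.card ≤ 2)
    (hL : r * L.card ≤ 2) (hc : 0 ≤ c) (hT : RTr T) {f : G → G → N}
    (hf : ∀ g ∈ K, ∀ g' ∈ L, l2 T (f g g') ≤ c) :
    l2 T ((r * r) • ∑ g ∈ K, ∑ g' ∈ L, f g g') ≤ 4 * c := by
  rw [l2_rsmul, abs_of_nonneg (mul_nonneg hr hr)]
  have h1 : l2 T (∑ g ∈ K, ∑ g' ∈ L, f g g') ≤ (K.card : ℝ) * (L.card * c) := by
    refine (l2_sum_le hT _ _).trans ?_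
    calc ∑ g ∈ K, l2 T (∑ g' ∈ L, f g g') ≤ ∑ _g ∈ K, (L.card * c : ℝ) := by
          refine Finset.sum_le_sum fun g hg => ?_
          refine (l2_sum_le hT _ _).trans ?_
          calc ∑ g' ∈ L, l2 T (f g g') ≤ ∑ _g' ∈ L, c :=
                Finset.sum_le_sum fun g' hg' => hf g hg g' hg'
            _ = L.card * c := by simp
      _ = (K.card : ℝ) * (L.card * c) := by simp
  have hK0 : 0 ≤ r * K.card := by positivity
  have hL0 : 0 ≤ r * L.card := by positivity
  calc r * r * l2 T (∑ g ∈ K, ∑ g' ∈ L, f g g') ≤ r * r * ((K.card : ℝ) * (L.card * c)) :=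
        mul_le_mul_of_nonneg_left h1 (mul_nonneg hr hr)
    _ = (r * K.card) * (r * L.card) * c := by ring
    _ ≤ 2 * 2 * c := by
        refine mul_le_mul_of_nonneg_right ?_ hc
        exact mul_le_mul hK hL hL0 (by norm_num)
    _ = 4 * c := by ring

include h in
theorem YY_mul_YY (r : ℝ) (K L : Finset G) (x y : Mat k) :
    YY ψ q r K x * YY ψ q r L y =
      (r * r) • ∑ g ∈ K, ∑ g' ∈ L, ψ g x * ψ g' y * (q g * q g') := by
  unfold YY
  rw [smul_mul_smul_comm, Finset.sum_mul_sum]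
  congr 1
  refine Finset.sum_congr rfl fun g _ => Finset.sum_congr rfl fun g' _ => ?_
  have hc := (h.comm g' g y).eq
  calc ψ g x * q g * (ψ g' y * q g') = ψ g x * (q g * ψ g' y) * q g' := by
        simp only [mul_assoc]
    _ = ψ g x * (ψ g' y * q g) * q g' := by rw [hc]
    _ = ψ g x * ψ g' y * (q g * q g') := by simp only [mul_assoc]

theorem YY_mul_BQ (r : ℝ) (K L : Finset G) (x : Mat k) :
    YY ψ q r K x * BQ q r L =
      (r * r) • ∑ g ∈ K, ∑ g' ∈ L, ψ g x * (q g * q g') := by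
  unfold YY BQ
  rw [smul_mul_smul_comm, Finset.sum_mul_sum]
  congr 1
  refine Finset.sum_congr rfl fun g _ => Finset.sum_congr rfl fun g' _ => ?_
  rw [mul_assoc]

include h in
theorem BQ_mul_YY (r : ℝ) (K L : Finset G) (y : Mat k) :
    BQ q r K * YY ψ q r L y =
      (r * r) • ∑ g ∈ K, ∑ g' ∈ L, ψ g' y * (q g * q g') := by
  unfold YY BQ
  rw [smul_mul_smul_comm, Finset.sum_mul_sum]
  congr 1
  refine Finset.sum_congr rfl fun g _ => Finset.sum_congr rfl fun g' _ => ?_
  rw [← mul_assoc, ← (h.comm g' g y).eq, mul_assoc]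

include h in
/-- first relation -/
theorem rel1 {r : ℝ} (hr : 0 ≤ r) {K L : Finset G} (hK : r * K.card ≤ 2) (hL : r * L.card ≤ 2)
    (x y : Mat k) :
    l2 T (YY ψ q r K x * YY ψ q r L y - YY ψ q r K (x * y) * BQ q r L) ≤
      4 * ms x * ms y * √(θ * w) := by
  have e : YY ψ q r K x * YY ψ q r L y - YY ψ q r K (x * y) * BQ q r L =
      (r * r) • ∑ g ∈ K, ∑ g' ∈ L, (-(ψ g x * ((ψ g y - ψ g' y) * (q g * q g')))) := by
    rw [h.YY_mul_YY, YY_mul_BQ, ← smul_sub, ← Finset.sum_sub_distrib]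
    congr 1
    refine Finset.sum_congr rfl fun g _ => ?_
    rw [← Finset.sum_sub_distrib]
    refine Finset.sum_congr rfl fun g' _ => ?_
    rw [map_mul]
    noncomm_ring
  rw [e]
  have h1 := sum_bound (T := T) hr hK hL (c := ms x * (ms y * √(θ * w)))
    (mul_nonneg (ms_nonneg x) (mul_nonneg (ms_nonneg y) (Real.sqrt_nonneg _))) h.tr
    (f := fun g g' => -(ψ g x * ((ψ g y - ψ g' y) * (q g * q g')))) (by
      intro g _ g' _
      rw [l2_neg]
      refine (l2_mul_left_le h.tr _ _).trans ?_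
      exact mul_le_mul (norm_hom_le _ _) (h.ovl_le g g' y) (l2_nonneg _ _) (ms_nonneg x))
  refine h1.trans (le_of_eq ?_)
  ring

include h in
/-- second relation -/
theorem rel2 {r : ℝ} (hr : 0 ≤ r) {K L : Finset G} (hK : r * K.card ≤ 2) (hL : r * L.card ≤ 2)
    (x y : Mat k) :
    l2 T (YY ψ q r K x * YY ψ q r L y - BQ q r K * YY ψ q r L (x * y)) ≤
      4 * ms x * ms y * √(θ * w) := by
  have e : YY ψ q r K x * YY ψ q r L y - BQ q r K * YY ψ q r L (x * y) =
      (r * r) • ∑ g ∈ K, ∑ g' ∈ L, ((ψ g x - ψ g' x) * (q g * q g')) * ψ g' y := by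
    rw [h.YY_mul_YY, h.BQ_mul_YY, ← smul_sub, ← Finset.sum_sub_distrib]
    congr 1
    refine Finset.sum_congr rfl fun g _ => ?_
    rw [← Finset.sum_sub_distrib]
    refine Finset.sum_congr rfl fun g' _ => ?_
    have hc : q g * q g' * ψ g' y = ψ g' y * (q g * q g') := by
      rw [mul_assoc, ← (h.comm g' g' y).eq, ← mul_assoc, ← (h.comm g' g y).eq, mul_assoc]
    rw [map_mul, mul_assoc (ψ g x - ψ g' x), hc]
    noncomm_ring
  rw [e]
  have h1 := sum_bound (T := T) hr hK hL (c := ms x * √(θ * w) * ms y)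
    (mul_nonneg (mul_nonneg (ms_nonneg x) (Real.sqrt_nonneg _)) (ms_nonneg y)) h.tr
    (f := fun g g' => ((ψ g x - ψ g' x) * (q g * q g')) * ψ g' y) (by
      intro g _ g' _
      refine (l2_mul_right_le h.tr _ _).trans ?_
      exact mul_le_mul (h.ovl_le g g' x) (norm_hom_le _ _) (norm_nonneg _)
        (mul_nonneg (ms_nonneg x) (Real.sqrt_nonneg _)))
  refine h1.trans (le_of_eq ?_)
  ring

include h in
/-- positivity of the increments -/
theorem YY_nonneg [PartialOrder N] [StarOrderedRing N] {r : ℝ} (hr : 0 ≤ r) (K : Finset G)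
    (y : Mat k) : 0 ≤ YY ψ q r K (star y * y) := by
  unfold YY
  refine smul_nonneg hr (Finset.sum_nonneg fun g _ => ?_)
  have e : ψ g (star y * y) * q g = star (ψ g y * q g) * (ψ g y * q g) := by
    rw [star_mul, h.star_eq, map_mul, map_star]
    have h1 : q g * star (ψ g y) = star (ψ g y) * q g := by
      rw [← map_star]
      exact (h.comm g g (star y)).eq.symm
    have h2 : q g * ψ g y = ψ g y * q g := (h.comm g g y).eq.symm
    rw [h1, mul_assoc (star (ψ g y)) (q g), ← mul_assoc (q g), h2, mul_assoc (ψ g y), h.idem,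
      mul_assoc]
  rw [e]
  exact star_mul_self_nonneg _

end OSys

end Pool.Agent.Lib.EqM
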