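import Pool.Agent.Lib.EqM.N1Ind
import Pool.Agent.Lib.EqM.OSys

/-!
Summation of independent rare increments.
-/

open scoped ComplexOrder

namespace Pool.Agent.Lib.EqM

open Pool.Agent.Lib.EqGamma

namespace SumAux

section mats

variable {k : ℕ}

/-- matrix unit -/
def E (i j : Fin k) : Mat k := Matrix.single i j 1

theorem star_E (i j : Fin k) : star (E i j) = E j i := by
  unfold E
  rw [Matrix.star_eq_conjTranspose, Matrix.conjTranspose_single, star_one]

theorem E_mul_same (i j l : Fin k) : E i j * E j l = E i l := by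
  unfold E
  rw [Matrix.single_mul_single_same, mul_one]

theorem E_mul_ne (i : Fin k) {j j' : Fin k} (l : Fin k) (h : j ≠ j') : E i j * E j' l = 0 := by
  unfold E
  exact Matrix.single_mul_single_of_ne (c := (1 : ℂ)) i j j' h 1

/-- rank one projection -/
noncomputable def pj (i j : Fin k) (u : ℂ) : Mat k :=
  (1 / 2 : ℂ) • (E i i + E j j + u • E j i + star u • E i j)

theorem star_pj (i j : Fin k) (u : ℂ) : star (pj i j u) = pj i j u := by
  unfold pj
  simp only [star_smul, star_add, star_E, star_star]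
  have h : star (1 / 2 : ℂ) = 1 / 2 := by simp
  rw [h]
  congr 1
  abel

theorem pj_mul {i j : Fin k} (hij : i ≠ j) {u : ℂ} (hu : u * star u = 1) :
    pj i j u * pj i j u = pj i j u := by
  unfold pj
  simp only [add_mul, mul_add, smul_mul_assoc, mul_smul_comm, E_mul_same,
    E_mul_ne _ _ hij, E_mul_ne _ _ hij.symm, smul_zero, add_zero, zero_add]
  match_scalars <;> first | ring1 | linear_combination (1 / 4 : ℂ) * hu

theorem E_eq (i j : Fin k) : E i j = (1 / 2 : ℂ) • (pj i j 1 + Complex.I • pj i j Complex.I +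
    (-1 : ℂ) • pj i j (-1) + (-Complex.I) • pj i j (-Complex.I)) := by
  unfold pj
  have h1 : star (1 : ℂ) = 1 := star_one _
  have h2 : star Complex.I = -Complex.I := Complex.conj_I
  have h3 : star (-1 : ℂ) = -1 := by rw [star_neg, star_one]
  have h4 : star (-Complex.I) = Complex.I := by rw [star_neg, h2, neg_neg]
  rw [h1, h2, h3, h4]
  have h5 : Complex.I ^ 2 = -1 := Complex.I_sq
  match_scalars
  all_goals (ring_nf; try rw [h5]; try ring_nf)

theorem star_E_diag_mul (i : Fin k) : star (E i i : Mat k) = E i i ∧ (E i i : Mat k) * E i i = E i i :=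
  ⟨star_E i i, E_mul_same i i i⟩

theorem proj_bound {V : Type*} [AddCommGroup V] [Module ℂ V] {c : ℝ} (p : V → ℝ)
    (hp0 : p 0 = 0) (hadd : ∀ a b, p (a + b) ≤ p a + p b)
    (hsmul : ∀ (z : ℂ) a, p (z • a) ≤ ‖z‖ * p a)
    (Lm : Mat k →ₗ[ℂ] V) (h : ∀ P : Mat k, star P = P → P * P = P → p (Lm P) ≤ c) (x : Mat k) :
    p (Lm x) ≤ 2 * ms x * c := by
  have hc : 0 ≤ c := by
    have := h 0 (star_zero _) (zero_mul _)
    rwa [map_zero, hp0] at this
  have hE : ∀ i j, p (Lm (E i j)) ≤ 2 * c := by
    intro i j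
    by_cases hij : i = j
    · subst hij
      have := h _ (star_E_diag_mul i).1 (star_E_diag_mul i).2
      linarith
    · rw [E_eq i j]
      simp only [map_smul, map_add]
      have e : ∀ u : ℂ, u * star u = 1 → ‖u‖ = 1 → p (u • Lm (pj i j u)) ≤ c := by
        intro u hu hu1
        have h1 := hsmul u (Lm (pj i j u))
        have h2 := h _ (star_pj i j u) (pj_mul hij hu)
        rw [hu1, one_mul] at h1
        exact h1.trans h2
      have e1 : p (Lm (pj i j 1)) ≤ c := by
        have := e 1 (by simp) (by simp)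
        rwa [one_smul] at this
      have e2 := e Complex.I (by simp) (by simp)
      have e3 := e (-1) (by simp) (by simp)
      have e4 := e (-Complex.I) (by simp) (by simp)
      refine (hsmul _ _).trans ?_
      have h5 : ‖(1 / 2 : ℂ)‖ = 1 / 2 := by simp
      rw [h5]
      have h6 := hadd (Lm (pj i j 1) + Complex.I • Lm (pj i j Complex.I) +
        (-1 : ℂ) • Lm (pj i j (-1))) ((-Complex.I) • Lm (pj i j (-Complex.I)))
      have h7 := hadd (Lm (pj i j 1) + Complex.I • Lm (pj i j Complex.I))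
        ((-1 : ℂ) • Lm (pj i j (-1)))
      have h8 := hadd (Lm (pj i j 1)) (Complex.I • Lm (pj i j Complex.I))
      linarith
  have hsum : ∀ (s : Finset (Fin k)) (f : Fin k → V), p (∑ i ∈ s, f i) ≤ ∑ i ∈ s, p (f i) := by
    classical
    intro s f
    induction s using Finset.induction_on with
    | empty => simp [hp0]
    | insert a s ha ih =>
      rw [Finset.sum_insert ha, Finset.sum_insert ha]
      exact (hadd _ _).trans (by linarith)
  have hx : x = ∑ i, ∑ j, x i j • E i j := by
    conv_lhs => rw [Matrix.matrix_eq_sum_single x]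
    refine Finset.sum_congr rfl fun i _ => Finset.sum_congr rfl fun j _ => ?_
    unfold E
    rw [Matrix.smul_single, smul_eq_mul, mul_one]
  have hL : Lm x = ∑ i, ∑ j, x i j • Lm (E i j) := by
    conv_lhs => rw [hx]
    simp only [map_sum, map_smul]
  rw [hL]
  calc p (∑ i, ∑ j, x i j • Lm (E i j)) ≤ ∑ i, ∑ j, p (x i j • Lm (E i j)) :=
        (hsum _ _).trans (Finset.sum_le_sum fun i _ => hsum _ _)
    _ ≤ ∑ i, ∑ j, ‖x i j‖ * (2 * c) := by
        refine Finset.sum_le_sum fun i _ => Finset.sum_le_sum fun j _ => ?_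
        exact (hsmul _ _).trans (mul_le_mul_of_nonneg_left (hE i j) (norm_nonneg _))
    _ = 2 * ms x * c := by
        unfold ms
        simp only [← Finset.sum_mul]
        ring

end mats

end SumAux

open SumAux

section defs

variable {M : Type*} [Ring M] {X : Type*} [One X]

/-- the defect after `j` steps -/
def zz (D : ℕ → X → M) : ℕ → M
  | 0 => 1
  | j + 1 => zz D j * (1 - D j 1)

/-- the sum of the increments -/
def SS (D : ℕ → X → M) (J : ℕ) (x : X) : M := ∑ j ∈ Finset.range J, zz D j * D j x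

theorem map_zz {N F : Type*} [Ring N] [FunLike F M N] [RingHomClass F M N] (f : F)
    (D : ℕ → X → M) (j : ℕ) : f (zz D j) = zz (fun i x => f (D i x)) j := by
  induction j with
  | zero => simp [zz]
  | succ j ih => simp [zz, ih]

theorem map_SS {N F : Type*} [Ring N] [FunLike F M N] [RingHomClass F M N] (f : F)
    (D : ℕ → X → M) (J : ℕ) (x : X) : f (SS D J x) = SS (fun i x => f (D i x)) J x := by
  unfold SS
  rw [map_sum]
  apply Finset.sum_congr rfl
  intro j _
  rw [map_mul, map_zz]

theorem SS_one (D : ℕ → X → M) (J : ℕ) : SS D J 1 = 1 - zz D J := by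
  unfold SS
  induction J with
  | zero => simp [zz]
  | succ J ih =>
    rw [Finset.sum_range_succ, ih, zz]
    noncomm_ring

end defs

/-- hypotheses on the increments: `Q j` is the past of the `j`-th increment -/
structure Incs {M : Type*} [CStarAlgebra M] {k : ℕ} (T : M →ₗ[ℝ] ℝ) (Q : ℕ → StarSubalgebra ℂ M)
    (J : ℕ) (D : ℕ → Mat k → M) (w δ : ℝ) : Prop where
  add : ∀ j < J, ∀ x y, D j (x + y) = D j x + D j y
  smul : ∀ j < J, ∀ (c : ℂ) x, D j (c • x) = c • D j x
  pos : ∀ j < J, ∀ x, ∃ y, D j (star x * x) = star y * y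
  one_le : ∀ j < J, ∃ y, 1 - D j 1 = star y * y
  closed : ∀ j ≤ J, IsClosed (Q j : Set M)
  mono : ∀ j < J, Q j ≤ Q (j + 1)
  mem : ∀ j < J, ∀ x, D j x ∈ Q (j + 1)
  comm : ∀ j < J, ∀ x, ∀ z ∈ Q j, Commute z (D j x)
  le : ∀ j < J, ∀ z ∈ Q j, T (star z * z * D j 1) ≤ w * T (star z * z)
  ge : ∀ j < J, ∀ z ∈ Q j, w / 2 * T (star z * z) ≤ T (star z * z * D j 1)
  mul : ∀ j < J, ∀ x y, n1 T (D j x * D j y - D j (x * y)) ≤ δ * w * (ms x * ms y)

section

variable {M : Type*} [CStarAlgebra M] {k : ℕ} {T : M →ₗ[ℝ] ℝ} {Q : ℕ → StarSubalgebra ℂ M}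
  {J : ℕ} {D D' : ℕ → Mat k → M} {w δ : ℝ}

namespace SumAux

/-- the increment as a linear map -/
def lin (h : Incs T Q J D w δ) {j : ℕ} (hj : j < J) : Mat k →ₗ[ℂ] M where
  toFun := D j
  map_add' := h.add j hj
  map_smul' := h.smul j hj

theorem proj_pos (h : Incs T Q J D w δ) {j : ℕ} (hj : j < J) {P : Mat k} (hP : star P = P)
    (hP2 : P * P = P) : ∃ y, D j P = star y * y := by
  obtain ⟨y, hy⟩ := h.pos j hj P
  rw [hP, hP2] at hy
  exact ⟨y, hy⟩

theorem one_pos' (h : Incs T Q J D w δ) {j : ℕ} (hj : j < J) : ∃ y, D j 1 = star y * y :=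
  proj_pos h hj (star_one _) (one_mul _)

theorem map_sub' (h : Incs T Q J D w δ) {j : ℕ} (hj : j < J) (x y : Mat k) :
    D j (x - y) = D j x - D j y := (lin h hj).map_sub x y

theorem map_star' (h : Incs T Q J D w δ) {j : ℕ} (hj : j < J) (x : Mat k) :
    D j (star x) = star (D j x) := by
  have hsa : ∀ v : Mat k, star (D j (star v * v)) = D j (star v * v) := by
    intro v
    obtain ⟨y, hy⟩ := h.pos j hj v
    rw [hy, star_mul, star_star]
  set q : ℂ → Mat k := fun u => star (x + u • (1 : Mat k)) * (x + u • (1 : Mat k)) with hq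
  have e : ∀ u : ℂ, q u = star x * x + u • star x + star u • x + (star u * u) • (1 : Mat k) := by
    intro u
    simp only [hq, star_add, star_smul, star_one, add_mul, mul_add, smul_mul_assoc, mul_smul_comm,
      one_mul, mul_one]
    module
  have h2 : star Complex.I = -Complex.I := Complex.conj_I
  have h5 : Complex.I ^ 2 = -1 := Complex.I_sq
  have e1 : x = (1 / 4 : ℂ) • (q 1 + Complex.I • q Complex.I + (-1 : ℂ) • q (-1) +
      (-Complex.I) • q (-Complex.I)) := by
    simp only [e, star_one, star_neg, h2]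
    match_scalars
    all_goals (ring_nf; try rw [h5]; try ring_nf)
  have e2 : star x = (1 / 4 : ℂ) • (q 1 + (-Complex.I) • q Complex.I + (-1 : ℂ) • q (-1) +
      Complex.I • q (-Complex.I)) := by
    simp only [e, star_one, star_neg, h2]
    match_scalars
    all_goals (ring_nf; try rw [h5]; try ring_nf)
  have hstar : ∀ u : ℂ, star (D j (q u)) = D j (q u) := fun u => hsa _
  have h4 : star (1 / 4 : ℂ) = 1 / 4 := by simp
  rw [e2]
  conv_rhs => rw [e1]
  simp only [h.add j hj, h.smul j hj, star_smul, star_add, hstar, star_neg, star_one, h2, h4,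
    neg_neg]

/-- `z` in the past, `e` positive in the present: the product is positive -/
theorem mul_pos' (h : Incs T Q J D w δ) {j : ℕ} (hj : j < J) {z : M} (hz : z ∈ Q j) {P : Mat k}
    (hP : star P = P) (hP2 : P * P = P) : ∃ y, star z * z * D j P = star y * y := by
  obtain ⟨y, hy⟩ := proj_pos h hj hP hP2
  refine ⟨y * z, ?_⟩
  have hc := h.comm j hj P z hz
  rw [mul_assoc, hc.eq, hy, star_mul]
  simp only [mul_assoc]

end SumAux

/-- multiplication with an increment -/
theorem Incs.n1_mul_le (hT : RTr T) (h : Incs T Q J D w δ) (hw : 0 ≤ w) {j : ℕ} (hj : j < J)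
    {a : M} (ha : a ∈ Q j) (x : Mat k) : n1 T (a * D j x) ≤ 4 * ms x * w * n1 T a := by
  let _ := CStarAlgebra.spectralOrder M
  have := CStarAlgebra.spectralOrderedRing M
  have hn := n1_nonneg hT a
  have hms := ms_nonneg x
  have key : ∀ P : Mat k, star P = P → P * P = P → n1 T (a * D j P) ≤ w * n1 T a := by
    intro P hP hP2
    have hD : 0 ≤ D j P := by
      obtain ⟨y, hy⟩ := proj_pos h hj hP hP2
      rw [hy]
      exact star_mul_self_nonneg y
    refine n1_mul_pos_le hT (h.closed j hj.le) hD (h.comm j hj P) hw ?_ ha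
    intro z hz
    have hP' : star (1 - P) = 1 - P := by rw [star_sub, star_one, hP]
    have hP2' : (1 - P) * (1 - P) = 1 - P := by
      rw [mul_sub, mul_one, sub_mul, one_mul, hP2, sub_self, sub_zero]
    obtain ⟨y, hy⟩ := mul_pos' h hj hz hP' hP2'
    have h1 : 0 ≤ T (star z * z * D j (1 - P)) := by
      rw [hy]
      exact hT.nonneg' y
    rw [map_sub' h hj, mul_sub, map_sub] at h1
    have h2 := h.le j hj z hz
    linarith
  have hb := proj_bound (n1 T) (n1_zero T) (n1_add_le hT) (fun z b => (n1_smul hT z b).le)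
    ((LinearMap.mulLeft ℂ a).comp (lin h hj)) (c := w * n1 T a) (fun P hP hP2 => key P hP hP2) x
  have hb' : n1 T (a * D j x) ≤ 2 * ms x * (w * n1 T a) := hb
  have : 0 ≤ ms x * (w * n1 T a) := by positivity
  nlinarith

theorem Incs.zz_norm (h : Incs T Q J D w δ) {j : ℕ} (hj : j ≤ J) :
    zz D j ∈ Q j ∧ (∃ y ∈ Q j, zz D j = star y * y) ∧ (∃ y, 1 - zz D j = star y * y) ∧
      ‖zz D j‖ ≤ 1 := by
  let _ := CStarAlgebra.spectralOrder M
  have := CStarAlgebra.spectralOrderedRing M
  have hnorm : ∀ z : M, 0 ≤ z → 0 ≤ 1 - z → ‖z‖ ≤ 1 := by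
    intro z hz hz1
    exact (CStarAlgebra.norm_le_one_iff_of_nonneg z hz).2 (sub_nonneg.1 hz1)
  induction j with
  | zero =>
    refine ⟨one_mem _, ⟨1, one_mem _, by simp [zz]⟩, ⟨0, by simp [zz]⟩, ?_⟩
    exact hnorm _ (by simp [zz]) (by simp [zz])
  | succ j ih =>
    have hj' : j < J := hj
    obtain ⟨h1, ⟨y, hyQ, hy⟩, ⟨y', hy'⟩, h4⟩ := ih hj'.le
    obtain ⟨v, hv⟩ := one_pos' h hj'
    obtain ⟨v', hv'⟩ := h.one_le j hj'
    have hmem : zz D (j + 1) ∈ Q (j + 1) := by
      simp only [zz]
      exact mul_mem (h.mono j hj' h1) (sub_mem (one_mem _) (h.mem j hj' 1))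
    have hc : Commute y (D j 1) := h.comm j hj' 1 y hyQ
    have hpos : 0 ≤ zz D (j + 1) := by
      simp only [zz]
      rw [hy, mul_assoc, ((Commute.one_right y).sub_right hc).eq, hv']
      have e : star y * (star v' * v' * y) = star (v' * y) * (v' * y) := by
        rw [star_mul]
        simp only [mul_assoc]
      rw [e]
      exact star_mul_self_nonneg _
    have hle : 0 ≤ 1 - zz D (j + 1) := by
      have e : 1 - zz D (j + 1) = (1 - zz D j) + zz D j * D j 1 := by
        simp only [zz]
        noncomm_ring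
      have e2 : zz D j * D j 1 = star (v * y) * (v * y) := by
        rw [hy, mul_assoc, hc.eq, hv, star_mul]
        simp only [mul_assoc]
      rw [e, hy', e2]
      exact add_nonneg (star_mul_self_nonneg _) (star_mul_self_nonneg _)
    refine ⟨hmem, ?_, ?_, hnorm _ hpos hle⟩
    · refine ⟨cfc Real.sqrt (zz D (j + 1)), ?_, ?_⟩
      · exact cfc_mem (hs := h.closed (j + 1) hj) Real.sqrt hmem
      · have hs : star (cfc Real.sqrt (zz D (j + 1))) = cfc Real.sqrt (zz D (j + 1)) :=
          cfc_predicate Real.sqrt (zz D (j + 1))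
        have hsa : IsSelfAdjoint (zz D (j + 1)) := hpos.isSelfAdjoint
        rw [hs, ← cfc_mul Real.sqrt Real.sqrt (zz D (j + 1))]
        have e : cfc (fun x => Real.sqrt x * Real.sqrt x) (zz D (j + 1)) =
            cfc (fun x : ℝ => x) (zz D (j + 1)) := by
          refine cfc_congr fun x hx => ?_
          exact Real.mul_self_sqrt (spectrum_nonneg_of_nonneg hpos hx)
        rw [e, cfc_id' ℝ (zz D (j + 1))]
    · exact CStarAlgebra.nonneg_iff_eq_star_mul_self.1 hle

theorem Incs.zz_trace (hT : RTr T) (h1 : T 1 = 1) (h : Incs T Q J D w δ) (hw : 0 ≤ w)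
    (hw1 : w ≤ 1) : T (zz D J) ≤ (1 - w / 2) ^ J := by
  have key : ∀ j ≤ J, T (zz D j) ≤ (1 - w / 2) ^ j := by
    intro j
    induction j with
    | zero =>
      intro _
      simp [zz, h1]
    | succ j ih =>
      intro hj
      have hj' : j < J := hj
      have ih' := ih hj'.le
      obtain ⟨-, ⟨y, hyQ, hy⟩, -, -⟩ := h.zz_norm hj'.le
      have h2 := h.ge j hj' y hyQ
      rw [← hy] at h2
      simp only [zz, mul_sub, mul_one, map_sub]
      rw [pow_succ]
      nlinarith
  exact key J le_rfl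

theorem Incs.zz_idem (hT : RTr T) (hk : 0 < k) (h : Incs T Q J D w δ) (hw : 0 ≤ w) (hδ : 0 ≤ δ)
    {j : ℕ} (hj : j ≤ J) : n1 T (zz D j - zz D j * zz D j) ≤ j * (δ * w * k ^ 2) := by
  let _ := CStarAlgebra.spectralOrder M
  have := CStarAlgebra.spectralOrderedRing M
  induction j with
  | zero =>
    have : zz D 0 - zz D 0 * zz D 0 = 0 := by simp [zz]
    rw [this, n1_zero]
    simp
  | succ j ih =>
    have hj' : j < J := hj
    have ih' := ih hj'.le
    obtain ⟨hmem, -, -, hn⟩ := h.zz_norm hj'.le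
    have hc : Commute (zz D j) (D j 1) := h.comm j hj' 1 _ hmem
    obtain ⟨v, hv⟩ := one_pos' h hj'
    obtain ⟨v', hv'⟩ := h.one_le j hj'
    have h1P : ‖1 - D j 1‖ ≤ 1 := by
      have h0 : 0 ≤ 1 - D j 1 := by
        rw [hv']
        exact star_mul_self_nonneg _
      refine (CStarAlgebra.norm_le_one_iff_of_nonneg _ h0).2 ?_
      rw [sub_le_self_iff, hv]
      exact star_mul_self_nonneg _
    have e : zz D (j + 1) - zz D (j + 1) * zz D (j + 1) =
        (zz D j - zz D j * zz D j) * (1 - D j 1) + zz D j * zz D j * (D j 1 - D j 1 * D j 1) := by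
      simp only [zz]
      have e1 : zz D j * (1 - D j 1) * (zz D j * (1 - D j 1)) =
          zz D j * zz D j * ((1 - D j 1) * (1 - D j 1)) := by
        have := ((Commute.one_right (zz D j)).sub_right hc).eq
        calc zz D j * (1 - D j 1) * (zz D j * (1 - D j 1))
            = zz D j * ((1 - D j 1) * zz D j) * (1 - D j 1) := by noncomm_ring
          _ = zz D j * (zz D j * (1 - D j 1)) * (1 - D j 1) := by rw [this]
          _ = _ := by noncomm_ring
      rw [e1]
      noncomm_ring
    have hm := h.mul j hj' 1 1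
    rw [mul_one (1 : Mat k), ms_one, n1_sub_comm] at hm
    rw [e]
    refine (n1_add_le hT _ _).trans ?_
    have h5 := n1_mul_right_le hT (zz D j - zz D j * zz D j) (1 - D j 1)
    have h6 := n1_mul_left_le hT (zz D j * zz D j) (D j 1 - D j 1 * D j 1)
    have h7 := n1_nonneg hT (zz D j - zz D j * zz D j)
    have h8 := n1_nonneg hT (D j 1 - D j 1 * D j 1)
    have h9 : ‖zz D j * zz D j‖ ≤ 1 := by
      refine (norm_mul_le _ _).trans ?_
      have := norm_nonneg (zz D j)
      nlinarith
    have h10 : n1 T (zz D j - zz D j * zz D j) * ‖1 - D j 1‖ ≤ n1 T (zz D j - zz D j * zz D j) :=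
      mul_le_of_le_one_right h7 h1P
    have h11 : ‖zz D j * zz D j‖ * n1 T (D j 1 - D j 1 * D j 1) ≤ n1 T (D j 1 - D j 1 * D j 1) :=
      mul_le_of_le_one_left h8 h9
    push_cast
    nlinarith

/-- the sum is compatible with the adjoint -/
theorem Incs.SS_star (h : Incs T Q J D w δ) (x : Mat k) : star (SS D J x) = SS D J (star x) := by
  unfold SS
  rw [star_sum]
  refine Finset.sum_congr rfl fun j hj => ?_
  have hj' : j < J := Finset.mem_range.1 hj
  obtain ⟨hmem, ⟨y, -, hy⟩, -, -⟩ := h.zz_norm hj'.le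
  have hs : star (zz D j) = zz D j := by rw [hy, star_mul, star_star]
  rw [star_mul, hs, ← map_star' h hj']
  exact (h.comm j hj' _ _ hmem).eq.symm

/-- the sum is bounded -/
theorem Incs.SS_norm (h : Incs T Q J D w δ) (x : Mat k) : ‖SS D J x‖ ≤ 2 * ms x := by
  let _ := CStarAlgebra.spectralOrder M
  have := CStarAlgebra.spectralOrderedRing M
  let L : Mat k →ₗ[ℂ] M :=
    { toFun := SS D J
      map_add' := fun a b => by
        unfold SS
        rw [← Finset.sum_add_distrib]
        refine Finset.sum_congr rfl fun j hj => ?_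
        rw [h.add j (Finset.mem_range.1 hj), mul_add]
      map_smul' := fun c a => by
        unfold SS
        rw [RingHom.id_apply, Finset.smul_sum]
        refine Finset.sum_congr rfl fun j hj => ?_
        rw [h.smul j (Finset.mem_range.1 hj), mul_smul_comm] }
  have hpos : ∀ P : Mat k, star P = P → P * P = P → 0 ≤ SS D J P := by
    intro P hP hP2
    unfold SS
    refine Finset.sum_nonneg fun j hj => ?_
    have hj' : j < J := Finset.mem_range.1 hj
    obtain ⟨-, ⟨y, hyQ, hy⟩, -, -⟩ := h.zz_norm hj'.le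
    obtain ⟨v, hv⟩ := mul_pos' h hj' hyQ hP hP2
    rw [hy, hv]
    exact star_mul_self_nonneg _
  have key : ∀ P : Mat k, star P = P → P * P = P → ‖L P‖ ≤ 1 := by
    intro P hP hP2
    have h0 : 0 ≤ SS D J P := hpos P hP hP2
    have hP' : star (1 - P) = 1 - P := by rw [star_sub, star_one, hP]
    have hP2' : (1 - P) * (1 - P) = 1 - P := by
      rw [mul_sub, mul_one, sub_mul, one_mul, hP2, sub_self, sub_zero]
    have h1 : 0 ≤ SS D J (1 - P) := hpos _ hP' hP2'
    have e : SS D J (1 - P) = SS D J 1 - SS D J P := L.map_sub 1 P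
    rw [e, SS_one] at h1
    obtain ⟨-, ⟨y, -, hy⟩, -, -⟩ := h.zz_norm le_rfl
    have h2 : 0 ≤ zz D J := by
      rw [hy]
      exact star_mul_self_nonneg _
    refine (CStarAlgebra.norm_le_one_iff_of_nonneg _ h0).2 ?_
    have h3 : SS D J P ≤ 1 - zz D J := sub_nonneg.1 h1
    exact h3.trans (sub_le_self _ h2)
  have hb := proj_bound (fun a : M => ‖a‖) norm_zero norm_add_le (fun z b => (norm_smul z b).le)
    L (c := 1) key x
  have hb' : ‖SS D J x‖ ≤ 2 * ms x * 1 := hb
  linarith

end

end Pool.Agent.Lib.EqM
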