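import Pool.Agent.Lib.EqM.Defs

/-!
Elementary inequalities for the threshold functions.
-/

namespace Pool.Agent.Lib.EqM

theorem continuous_rho (s0 : ℝ) (S i : ℕ) : Continuous (rho s0 S i) := by
  unfold rho
  fun_prop

theorem rho_nonneg (s0 : ℝ) (S i : ℕ) (t : ℝ) : 0 ≤ rho s0 S i t := le_max_left _ _

theorem rho_le_one (s0 : ℝ) (S i : ℕ) (t : ℝ) : rho s0 S i t ≤ 1 :=
  max_le zero_le_one (min_le_left _ _)

theorem clamp_lip (a b : ℝ) : |max 0 (min 1 a) - max 0 (min 1 b)| ≤ |a - b| := by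
  refine (abs_max_sub_max_le_max _ _ _ _).trans ?_
  refine max_le (by simp) ?_
  refine (abs_min_sub_min_le_max _ _ _ _).trans ?_
  exact max_le (by simp) le_rfl

theorem clamp_mono {a b : ℝ} (h : a ≤ b) : max 0 (min 1 a) ≤ max 0 (min 1 b) :=
  max_le_max le_rfl (min_le_min le_rfl h)

theorem sum_clamp (u : ℝ) (n : ℕ) :
    ∑ i ∈ Finset.range n, max 0 (min 1 (u - i)) = max 0 (min (n : ℝ) u) := by
  induction n with
  | zero =>
    rw [Finset.sum_range_zero, Nat.cast_zero, max_eq_left (min_le_left _ _)]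
  | succ n ih =>
    rw [Finset.sum_range_succ, ih]
    have hn : (0 : ℝ) ≤ n := Nat.cast_nonneg n
    push_cast
    rcases le_total u n with h | h
    · rw [min_eq_right h, min_eq_right (by linarith : u ≤ (n : ℝ) + 1),
        max_eq_left (le_trans (min_le_right _ _) (by linarith : u - n ≤ 0)), add_zero]
    · rw [min_eq_left h, max_eq_right hn]
      rcases le_total u (n + 1) with h1 | h1
      · rw [min_eq_right (by linarith : u - n ≤ 1), min_eq_right h1,
          max_eq_right (by linarith : 0 ≤ u - n), max_eq_right (by linarith : 0 ≤ u)]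
        ring
      · rw [min_eq_left (by linarith : 1 ≤ u - n), min_eq_left h1,
          max_eq_right zero_le_one, max_eq_right (by linarith)]

theorem clamp_diff (u : ℝ) (i : ℕ) :
    max 0 (min 1 (u - i)) * (1 - max 0 (min 1 (u - i))) ≤
      max 0 (min 1 (u - i)) - max 0 (min 1 (u - (i + 1 : ℕ))) ∧
    max 0 (min 1 (u - i)) ^ 2 * (1 - max 0 (min 1 (u - i)) ^ 2) ≤
      max 0 (min 1 (u - i)) - max 0 (min 1 (u - (i + 1 : ℕ))) := by
  push_cast
  rcases le_total (u - i) 1 with h | h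
  · have h1 : max 0 (min 1 (u - ((i : ℝ) + 1))) = 0 :=
      max_eq_left (le_trans (min_le_right _ _) (by linarith))
    rw [h1, sub_zero]
    have h0 : 0 ≤ max 0 (min 1 (u - i)) := le_max_left _ _
    have h2 : max 0 (min 1 (u - i)) ≤ 1 := max_le zero_le_one (min_le_left _ _)
    constructor
    · nlinarith
    · nlinarith [mul_nonneg h0 h0, mul_nonneg (mul_nonneg h0 h0) (mul_nonneg h0 h0)]
  · have h1 : max 0 (min 1 (u - i)) = 1 := by
      rw [min_eq_left h, max_eq_right zero_le_one]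
    have h2 : max 0 (min 1 (u - ((i : ℝ) + 1))) ≤ 1 := max_le zero_le_one (min_le_left _ _)
    rw [h1]
    constructor <;> linarith

theorem sum_tele (f : ℕ → ℝ) (n : ℕ) :
    ∑ i ∈ Finset.range n, (f i - f (i + 1)) = f 0 - f n := by
  induction n with
  | zero => simp
  | succ n ih => rw [Finset.sum_range_succ, ih]; ring

theorem sum_clamp_mul_le (u : ℝ) (n : ℕ) :
    ∑ i ∈ Finset.range n, max 0 (min 1 (u - i)) * (1 - max 0 (min 1 (u - i))) ≤ 1 ∧
    ∑ i ∈ Finset.range n, max 0 (min 1 (u - i)) ^ 2 * (1 - max 0 (min 1 (u - i)) ^ 2) ≤ 1 := by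
  have h := sum_tele (fun i : ℕ => max 0 (min 1 (u - i))) n
  have h1 : max 0 (min 1 (u - (0 : ℕ))) ≤ 1 := max_le zero_le_one (min_le_left _ _)
  have h2 : 0 ≤ max 0 (min 1 (u - (n : ℕ))) := le_max_left _ _
  constructor
  · refine (Finset.sum_le_sum fun i _ => (clamp_diff u i).1).trans ?_
    rw [h]
    exact le_trans (sub_le_self _ h2) h1
  · refine (Finset.sum_le_sum fun i _ => (clamp_diff u i).2).trans ?_
    rw [h]
    exact le_trans (sub_le_self _ h2) h1

theorem rho_of_le {s0 : ℝ} {S i : ℕ} {t : ℝ} (h : t ≤ s0) : rho s0 S i t = 0 := by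
  unfold rho
  refine max_eq_left (le_trans (min_le_right _ _) ?_)
  have h1 : (S : ℝ) * (t - s0) ≤ 0 :=
    mul_nonpos_of_nonneg_of_nonpos (Nat.cast_nonneg _) (by linarith)
  have h2 : (0 : ℝ) ≤ i := Nat.cast_nonneg i
  linarith

theorem rho_lip (s0 : ℝ) (S i : ℕ) (x y : ℝ) : |rho s0 S i x - rho s0 S i y| ≤ S * |x - y| := by
  unfold rho
  refine (clamp_lip _ _).trans (le_of_eq ?_)
  have h : (S : ℝ) * (x - s0) - i - (S * (y - s0) - i) = S * (x - y) := by ring
  rw [h, abs_mul, Nat.abs_cast]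

theorem sum_rho (s0 : ℝ) (S : ℕ) (t : ℝ) :
    ∑ i ∈ Finset.range S, rho s0 S i t = max 0 (min (S : ℝ) (S * (t - s0))) :=
  sum_clamp _ _

theorem sum_rho_sub_sq_le_aux {s0 : ℝ} {S : ℕ} (hS : 0 < S) {x y : ℝ} (h : y ≤ x) :
    (1 / S : ℝ) * ∑ i ∈ Finset.range S, (rho s0 S i x - rho s0 S i y) ^ 2 ≤ x - y := by
  have hS' : (0 : ℝ) < S := by exact_mod_cast hS
  have h1 : ∑ i ∈ Finset.range S, (rho s0 S i x - rho s0 S i y) ^ 2 ≤ S * (x - y) := by
    have h2 : ∀ i ∈ Finset.range S, (rho s0 S i x - rho s0 S i y) ^ 2 ≤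
        rho s0 S i x - rho s0 S i y := by
      intro i _
      have h3 : rho s0 S i y ≤ rho s0 S i x := by
        unfold rho
        refine clamp_mono ?_
        have := mul_le_mul_of_nonneg_left (sub_le_sub_right h s0) hS'.le
        linarith
      have h4 := rho_le_one s0 S i x
      have h5 := rho_nonneg s0 S i y
      nlinarith
    refine (Finset.sum_le_sum h2).trans ?_
    rw [Finset.sum_sub_distrib, sum_rho, sum_rho]
    have h6 : max 0 (min (S : ℝ) (S * (x - s0))) ≤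
        max 0 (min (S : ℝ) (S * (y - s0))) + S * (x - y) := by
      have h7 : 0 ≤ (S : ℝ) * (x - y) := mul_nonneg hS'.le (by linarith)
      refine max_le (add_nonneg (le_max_left _ _) h7) ?_
      rcases le_total (S : ℝ) (S * (y - s0)) with h8 | h8
      · have := le_max_right 0 (min (S : ℝ) (S * (y - s0)))
        rw [min_eq_left h8] at this ⊢
        exact (min_le_left _ _).trans (by linarith)
      · have := le_max_right 0 (min (S : ℝ) (S * (y - s0)))
        rw [min_eq_right h8] at this ⊢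
        refine (min_le_right _ _).trans ?_
        nlinarith
    linarith
  calc (1 / S : ℝ) * ∑ i ∈ Finset.range S, (rho s0 S i x - rho s0 S i y) ^ 2 ≤
      (1 / S : ℝ) * (S * (x - y)) := mul_le_mul_of_nonneg_left h1 (by positivity)
    _ = x - y := by field_simp

/-- the average of the squares of the increments -/
theorem sum_rho_sub_sq_le {s0 : ℝ} {S : ℕ} (hS : 0 < S) (x y : ℝ) :
    (1 / S : ℝ) * ∑ i ∈ Finset.range S, (rho s0 S i x - rho s0 S i y) ^ 2 ≤ |x - y| := by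
  rcases le_total y x with h | h
  · exact (sum_rho_sub_sq_le_aux hS h).trans (le_abs_self _)
  · have h1 := sum_rho_sub_sq_le_aux (s0 := s0) hS h
    have h2 : ∀ i ∈ Finset.range S, (rho s0 S i x - rho s0 S i y) ^ 2 =
        (rho s0 S i y - rho s0 S i x) ^ 2 := fun i _ => by ring
    rw [Finset.sum_congr rfl h2, abs_sub_comm]
    exact h1.trans (le_abs_self _)

/-- at every point at most one threshold function is strictly between `0` and `1` -/
theorem sum_rho_mul_le {s0 : ℝ} (hs0 : 0 < s0) {S : ℕ} (hS : 0 < S) {t : ℝ} (ht : 0 ≤ t) :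
    ∑ i ∈ Finset.range S, rho s0 S i t * (1 - rho s0 S i t) ≤ t / s0 := by
  rcases le_total t s0 with h | h
  · rw [Finset.sum_eq_zero fun i _ => by rw [rho_of_le h, zero_mul]]
    exact div_nonneg ht hs0.le
  · refine (sum_clamp_mul_le (S * (t - s0)) S).1.trans ?_
    rw [le_div_iff₀ hs0, one_mul]
    exact h

theorem sum_kappa_le {s0 : ℝ} (hs0 : 0 < s0) {S : ℕ} (hS : 0 < S) {t : ℝ} (ht : 0 ≤ t) :
    (1 / S : ℝ) * ∑ i ∈ Finset.range S, rho s0 S i t ^ 2 * (1 - rho s0 S i t ^ 2) ≤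
      t / s0 / S := by
  have hS' : (0 : ℝ) < S := by exact_mod_cast hS
  have h1 : ∑ i ∈ Finset.range S, rho s0 S i t ^ 2 * (1 - rho s0 S i t ^ 2) ≤ t / s0 := by
    rcases le_total t s0 with h | h
    · rw [Finset.sum_eq_zero fun i _ => by rw [rho_of_le h]; ring]
      exact div_nonneg ht hs0.le
    · refine (sum_clamp_mul_le (S * (t - s0)) S).2.trans ?_
      rw [le_div_iff₀ hs0, one_mul]
      exact h
  calc (1 / S : ℝ) * ∑ i ∈ Finset.range S, rho s0 S i t ^ 2 * (1 - rho s0 S i t ^ 2) ≤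
      (1 / S : ℝ) * (t / s0) := mul_le_mul_of_nonneg_left h1 (by positivity)
    _ = t / s0 / S := by ring

theorem sum_rho_sq_le {s0 : ℝ} (hs0 : 0 < s0) {S : ℕ} (hS : 0 < S) {t : ℝ} (ht : 0 ≤ t) :
    (1 / S : ℝ) * ∑ i ∈ Finset.range S, rho s0 S i t ^ 2 ≤ t := by
  have hS' : (0 : ℝ) < S := by exact_mod_cast hS
  have h1 : ∑ i ∈ Finset.range S, rho s0 S i t ^ 2 ≤ S * t := by
    have h2 : ∀ i ∈ Finset.range S, rho s0 S i t ^ 2 ≤ rho s0 S i t := by
      intro i _
      have h4 := rho_le_one s0 S i t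
      have h5 := rho_nonneg s0 S i t
      nlinarith
    refine (Finset.sum_le_sum h2).trans ?_
    rw [sum_rho]
    refine max_le (mul_nonneg hS'.le ht) ((min_le_right _ _).trans ?_)
    exact mul_le_mul_of_nonneg_left (by linarith) hS'.le
  calc (1 / S : ℝ) * ∑ i ∈ Finset.range S, rho s0 S i t ^ 2 ≤ (1 / S : ℝ) * (S * t) :=
      mul_le_mul_of_nonneg_left h1 (by positivity)
    _ = t := by field_simp

theorem sum_rho_sq_ge {s0 : ℝ} (hs0 : 0 < s0) {S : ℕ} (hS : 0 < S) {t : ℝ} (ht : 0 ≤ t)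
    (ht1 : t ≤ 1) :
    t - 2 * (t * s0 / (t + s0)) - t / s0 / S ≤
      (1 / S : ℝ) * ∑ i ∈ Finset.range S, rho s0 S i t ^ 2 := by
  have hS' : (0 : ℝ) < S := by exact_mod_cast hS
  have h1 : ∑ i ∈ Finset.range S, rho s0 S i t ^ 2 =
      ∑ i ∈ Finset.range S, rho s0 S i t -
        ∑ i ∈ Finset.range S, rho s0 S i t * (1 - rho s0 S i t) := by
    rw [← Finset.sum_sub_distrib]
    exact Finset.sum_congr rfl fun i _ => by ring
  have h2 := sum_rho_mul_le hs0 hS ht
  have h3 : S * (t - 2 * (t * s0 / (t + s0))) ≤ ∑ i ∈ Finset.range S, rho s0 S i t := by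
    rw [sum_rho]
    have h4 : min (S : ℝ) (S * (t - s0)) = S * (t - s0) := by
      refine min_eq_right ?_
      nlinarith
    rw [h4]
    have hts : 0 < t + s0 := by linarith
    rcases le_total t s0 with h | h
    · refine le_trans ?_ (le_max_left _ _)
      have h5 : t ≤ 2 * (t * s0 / (t + s0)) := by
        rw [← mul_div_assoc, le_div_iff₀ hts]
        nlinarith
      exact mul_nonpos_of_nonneg_of_nonpos hS'.le (by linarith)
    · refine le_trans ?_ (le_max_right _ _)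
      have h5 : s0 ≤ 2 * (t * s0 / (t + s0)) := by
        rw [← mul_div_assoc, le_div_iff₀ hts]
        nlinarith
      exact mul_le_mul_of_nonneg_left (by linarith) hS'.le
  rw [h1]
  have h6 : S * (t - 2 * (t * s0 / (t + s0)) - t / s0 / S) ≤
      ∑ i ∈ Finset.range S, rho s0 S i t -
        ∑ i ∈ Finset.range S, rho s0 S i t * (1 - rho s0 S i t) := by
    have h7 : (S : ℝ) * (t / s0 / S) = t / s0 := by field_simp
    rw [mul_sub, h7]
    linarith
  calc t - 2 * (t * s0 / (t + s0)) - t / s0 / S =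
      (1 / S : ℝ) * (S * (t - 2 * (t * s0 / (t + s0)) - t / s0 / S)) := by
        field_simp
    _ ≤ _ := mul_le_mul_of_nonneg_left h6 (by positivity)

theorem hh_eq {s0 : ℝ} (hs0 : 0 < s0) (S i : ℕ) (t : ℝ) :
    hh s0 S i t = rho s0 S i t * (1 / √(max t s0)) := by
  unfold hh
  rcases le_total t s0 with h | h
  · rw [rho_of_le h, zero_div, zero_mul]
  · rw [max_eq_left h]
    ring

theorem sqrt_max_pos {s0 : ℝ} (hs0 : 0 < s0) (t : ℝ) : √s0 ≤ √(max t s0) :=
  Real.sqrt_le_sqrt (le_max_right _ _)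

theorem continuous_hh {s0 : ℝ} (hs0 : 0 < s0) (S i : ℕ) : Continuous (hh s0 S i) := by
  have h : hh s0 S i = fun t => rho s0 S i t * (1 / √(max t s0)) := funext (hh_eq hs0 S i)
  rw [h]
  refine (continuous_rho s0 S i).mul (Continuous.div continuous_const (by fun_prop) ?_)
  intro t
  exact (lt_of_lt_of_le (Real.sqrt_pos.2 hs0) (sqrt_max_pos hs0 t)).ne'

theorem hh_nonneg (s0 : ℝ) (S i : ℕ) (t : ℝ) : 0 ≤ hh s0 S i t :=
  div_nonneg (rho_nonneg _ _ _ _) (Real.sqrt_nonneg _)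

theorem hh_le {s0 : ℝ} (hs0 : 0 < s0) (S i : ℕ) (t : ℝ) : hh s0 S i t ≤ 1 / √s0 := by
  rw [hh_eq hs0]
  have h1 : 1 / √(max t s0) ≤ 1 / √s0 :=
    one_div_le_one_div_of_le (Real.sqrt_pos.2 hs0) (sqrt_max_pos hs0 t)
  have h2 : 0 ≤ 1 / √(max t s0) := by positivity
  calc rho s0 S i t * (1 / √(max t s0)) ≤ 1 * (1 / √(max t s0)) :=
      mul_le_mul_of_nonneg_right (rho_le_one _ _ _ _) h2
    _ ≤ 1 / √s0 := by rw [one_mul]; exact h1

theorem hh_sq_mul {s0 : ℝ} (hs0 : 0 < s0) (S i : ℕ) (t : ℝ) :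
    hh s0 S i t * t * hh s0 S i t = rho s0 S i t ^ 2 := by
  unfold hh
  rcases le_total t s0 with h | h
  · rw [rho_of_le h]
    ring
  · have ht : 0 < t := by linarith
    have h1 : √t ≠ 0 := (Real.sqrt_pos.2 ht).ne'
    have h2 : √t * √t = t := Real.mul_self_sqrt ht.le
    calc rho s0 S i t / √t * t * (rho s0 S i t / √t) =
        rho s0 S i t / √t * (√t * √t) * (rho s0 S i t / √t) := by rw [h2]
      _ = rho s0 S i t ^ 2 := by field_simp

theorem inv_sqrt_lip {s0 : ℝ} (hs0 : 0 < s0) (x y : ℝ) :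
    |1 / √(max x s0) - 1 / √(max y s0)| ≤ 1 / (s0 * √s0) * |x - y| := by
  set X := max x s0 with hX
  set Y := max y s0 with hY
  have hX0 : s0 ≤ X := le_max_right _ _
  have hY0 : s0 ≤ Y := le_max_right _ _
  have hs : 0 < √s0 := Real.sqrt_pos.2 hs0
  have hXs : √s0 ≤ √X := Real.sqrt_le_sqrt hX0
  have hYs : √s0 ≤ √Y := Real.sqrt_le_sqrt hY0
  have hXp : 0 < √X := lt_of_lt_of_le hs hXs
  have hYp : 0 < √Y := lt_of_lt_of_le hs hYs
  have h1 : |X - Y| ≤ |x - y| := by
    refine (abs_max_sub_max_le_max _ _ _ _).trans ?_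
    exact max_le le_rfl (by simp)
  have h2 : (√X + √Y) * (√X - √Y) = X - Y := by
    have e1 := Real.mul_self_sqrt (hs0.le.trans hX0)
    have e2 := Real.mul_self_sqrt (hs0.le.trans hY0)
    linear_combination e1 - e2
  have h3 : |√X - √Y| * √s0 ≤ |X - Y| := by
    rw [← h2, abs_mul, abs_of_pos (add_pos hXp hYp), mul_comm]
    exact mul_le_mul_of_nonneg_right (by linarith) (abs_nonneg _)
  have h4 : 1 / √X - 1 / √Y = -(√X - √Y) / (√X * √Y) := by
    field_simp
    ring
  rw [h4, abs_div, abs_neg, abs_of_pos (mul_pos hXp hYp), div_le_iff₀ (mul_pos hXp hYp)]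
  have h5 : s0 ≤ √X * √Y := by
    calc s0 = √s0 * √s0 := (Real.mul_self_sqrt hs0.le).symm
      _ ≤ √X * √Y := mul_le_mul hXs hYs hs.le hXp.le
  have h6 : |√X - √Y| ≤ |x - y| / √s0 := by
    rw [le_div_iff₀ hs]
    exact h3.trans h1
  calc |√X - √Y| ≤ |x - y| / √s0 := h6
    _ = 1 / (s0 * √s0) * |x - y| * s0 := by field_simp
    _ ≤ 1 / (s0 * √s0) * |x - y| * (√X * √Y) :=
      mul_le_mul_of_nonneg_left h5 (by positivity)

theorem hh_lip {s0 : ℝ} (hs0 : 0 < s0) (S i : ℕ) (x y : ℝ) :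
    |hh s0 S i x - hh s0 S i y| ≤ (S / √s0 + 1 / (s0 * √s0)) * |x - y| := by
  rw [hh_eq hs0, hh_eq hs0]
  have hs : 0 < √s0 := Real.sqrt_pos.2 hs0
  have h1 : rho s0 S i x * (1 / √(max x s0)) - rho s0 S i y * (1 / √(max y s0)) =
      (rho s0 S i x - rho s0 S i y) * (1 / √(max x s0)) +
        rho s0 S i y * (1 / √(max x s0) - 1 / √(max y s0)) := by ring
  rw [h1]
  refine (abs_add_le _ _).trans ?_
  rw [abs_mul, abs_mul, abs_of_nonneg (rho_nonneg s0 S i y)]
  have h2 : |1 / √(max x s0)| ≤ 1 / √s0 := by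
    rw [abs_of_nonneg (by positivity)]
    exact one_div_le_one_div_of_le hs (sqrt_max_pos hs0 x)
  have h3 : |rho s0 S i x - rho s0 S i y| * |1 / √(max x s0)| ≤ S * |x - y| * (1 / √s0) :=
    mul_le_mul (rho_lip s0 S i x y) h2 (abs_nonneg _) (by positivity)
  have h4 : rho s0 S i y * |1 / √(max x s0) - 1 / √(max y s0)| ≤
      1 * (1 / (s0 * √s0) * |x - y|) :=
    mul_le_mul (rho_le_one _ _ _ _) (inv_sqrt_lip hs0 x y) (abs_nonneg _) zero_le_one
  calc |rho s0 S i x - rho s0 S i y| * |1 / √(max x s0)| +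
      rho s0 S i y * |1 / √(max x s0) - 1 / √(max y s0)| ≤
      S * |x - y| * (1 / √s0) + 1 * (1 / (s0 * √s0) * |x - y|) := add_le_add h3 h4
    _ = (S / √s0 + 1 / (s0 * √s0)) * |x - y| := by ring

theorem hh_sq_lip {s0 : ℝ} (hs0 : 0 < s0) (S i : ℕ) (x y : ℝ) :
    |hh s0 S i x ^ 2 - hh s0 S i y ^ 2| ≤
      2 / √s0 * (S / √s0 + 1 / (s0 * √s0)) * |x - y| := by
  have h1 : hh s0 S i x ^ 2 - hh s0 S i y ^ 2 =
      (hh s0 S i x + hh s0 S i y) * (hh s0 S i x - hh s0 S i y) := by ring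
  have h2 : |hh s0 S i x + hh s0 S i y| ≤ 2 / √s0 := by
    rw [abs_of_nonneg (add_nonneg (hh_nonneg _ _ _ _) (hh_nonneg _ _ _ _))]
    calc hh s0 S i x + hh s0 S i y ≤ 1 / √s0 + 1 / √s0 :=
        add_le_add (hh_le hs0 _ _ _) (hh_le hs0 _ _ _)
      _ = 2 / √s0 := by ring
  rw [h1, abs_mul, mul_assoc]
  exact mul_le_mul h2 (hh_lip hs0 S i x y) (abs_nonneg _) (by positivity)

theorem continuous_phi {η : ℝ} (hη : 0 < η) : Continuous (phi η) := by
  unfold phi
  fun_prop

theorem phi_nonneg (η t : ℝ) : 0 ≤ phi η t := le_max_left _ _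

theorem phi_le_one (η t : ℝ) : phi η t ≤ 1 := max_le zero_le_one (min_le_left _ _)

theorem phi_of_le {η t : ℝ} (hη : 0 < η) (h : t ≤ η) : phi η t = 0 := by
  unfold phi
  refine max_eq_left (le_trans (min_le_right _ _) ?_)
  exact div_nonpos_of_nonpos_of_nonneg (by linarith) hη.le

theorem phi_of_ge {η t : ℝ} (hη : 0 < η) (h : 2 * η ≤ t) : phi η t = 1 := by
  unfold phi
  rw [min_eq_left, max_eq_right zero_le_one]
  rw [le_div_iff₀ hη]
  linarith

theorem phi_lip {η : ℝ} (hη : 0 < η) (x y : ℝ) : |phi η x - phi η y| ≤ 1 / η * |x - y| := by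
  unfold phi
  refine (clamp_lip _ _).trans (le_of_eq ?_)
  have h : (x - η) / η - (y - η) / η = 1 / η * (x - y) := by ring
  rw [h, abs_mul, abs_of_pos (by positivity)]

theorem phi_div_eq {η : ℝ} (hη : 0 < η) (t : ℝ) : phi η t / t = phi η t * (1 / max t η) := by
  rcases le_total t η with h | h
  · rw [phi_of_le hη h, zero_div, zero_mul]
  · rw [max_eq_left h]
    ring

theorem continuous_phi_div {η : ℝ} (hη : 0 < η) : Continuous fun t => phi η t / t := by
  have h : (fun t => phi η t / t) = fun t => phi η t * (1 / max t η) := funext (phi_div_eq hη)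
  rw [h]
  refine (continuous_phi hη).mul (Continuous.div continuous_const (by fun_prop) ?_)
  intro t
  exact (lt_of_lt_of_le hη (le_max_right _ _)).ne'

theorem phi_div_lip {η : ℝ} (hη : 0 < η) (x y : ℝ) :
    |phi η x / x - phi η y / y| ≤ 2 / η ^ 2 * |x - y| := by
  rw [phi_div_eq hη, phi_div_eq hη]
  set X := max x η with hX
  set Y := max y η with hY
  have hX0 : η ≤ X := le_max_right _ _
  have hY0 : η ≤ Y := le_max_right _ _
  have hXp : 0 < X := lt_of_lt_of_le hη hX0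
  have hYp : 0 < Y := lt_of_lt_of_le hη hY0
  have h1 : phi η x * (1 / X) - phi η y * (1 / Y) =
      (phi η x - phi η y) * (1 / X) + phi η y * (1 / X - 1 / Y) := by ring
  have h2 : |1 / X - 1 / Y| ≤ 1 / η ^ 2 * |x - y| := by
    have h3 : 1 / X - 1 / Y = -(X - Y) / (X * Y) := by
      field_simp
      ring
    have h4 : |X - Y| ≤ |x - y| := by
      refine (abs_max_sub_max_le_max _ _ _ _).trans ?_
      exact max_le le_rfl (by simp)
    rw [h3, abs_div, abs_neg, abs_of_pos (mul_pos hXp hYp), div_le_iff₀ (mul_pos hXp hYp)]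
    have h5 : η ^ 2 ≤ X * Y := by
      rw [sq]
      exact mul_le_mul hX0 hY0 hη.le hXp.le
    calc |X - Y| ≤ |x - y| := h4
      _ = 1 / η ^ 2 * |x - y| * η ^ 2 := by field_simp
      _ ≤ 1 / η ^ 2 * |x - y| * (X * Y) := mul_le_mul_of_nonneg_left h5 (by positivity)
  rw [h1]
  refine (abs_add_le _ _).trans ?_
  rw [abs_mul, abs_mul, abs_of_nonneg (phi_nonneg η y)]
  have h6 : |1 / X| ≤ 1 / η := by
    rw [abs_of_pos (by positivity)]
    exact one_div_le_one_div_of_le hη hX0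
  calc |phi η x - phi η y| * |1 / X| + phi η y * |1 / X - 1 / Y| ≤
      1 / η * |x - y| * (1 / η) + 1 * (1 / η ^ 2 * |x - y|) := by
        refine add_le_add ?_ ?_
        · exact mul_le_mul (phi_lip hη x y) h6 (abs_nonneg _) (by positivity)
        · exact mul_le_mul (phi_le_one _ _) h2 (abs_nonneg _) zero_le_one
    _ = 2 / η ^ 2 * |x - y| := by ring

end Pool.Agent.Lib.EqM
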