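import Pool.Agent.Lib.EqM.Conc
import Pool.Agent.Lib.EqM.Sum
import Pool.Agent.Lib.EqM.ThrFun

/-!
The construction as a formula in arbitrary functions, and its naturality.
-/

open scoped ComplexOrder

namespace Pool.Agent.Lib.EqM

open Pool.Agent.Lib.EqGamma

section defs

variable {N : Type*} [CStarAlgebra N] {G : Type*} {k n c S : ℕ}

/-- the rare products -/
noncomputable def Rq (P : Fin c → Mat k) (Ψ : Fin n → G → Mat k → N) (a : Ch n c) (g : G) : N :=
  skip (fun l => Ψ l g (P (a.2 l))) a.1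

/-- the increment of the choice `a` and the threshold `i` -/
noncomputable def RD (P : Fin c → Mat k) (r s0 : ℝ) (S : ℕ) (K : Finset G)
    (Ψ : Fin n → G → Mat k → N) (a : Ch n c) (i : ℕ) (x : Mat k) : N :=
  cfc (hh s0 S i) (rp (r • ∑ g ∈ K, Rq P Ψ a g)) * (r • ∑ g ∈ K, Ψ a.1 g x * Rq P Ψ a g) *
    cfc (hh s0 S i) (rp (r • ∑ g ∈ K, Rq P Ψ a g))

/-- the increment of block `j` -/
noncomputable def RB (P : Fin c → Mat k) (r s0 : ℝ) (K : Finset G) (Ψ : ℕ → G → Mat k → N)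
    (p : ℕ → Ch n c × Fin S → N) (j : ℕ) (x : Mat k) : N :=
  ∑ b : Ch n c × Fin S, p j b * RD P r s0 S K (fun (l : Fin n) => Ψ (j * n + l)) b.1 b.2 x

/-- the sum of `J` increments -/
noncomputable def RS (P : Fin c → Mat k) (r s0 : ℝ) (K : Finset G) (J : ℕ) (Ψ : ℕ → G → Mat k → N)
    (p : ℕ → Ch n c × Fin S → N) (x : Mat k) : N := SS (RB P r s0 K Ψ p) J x

end defs

section maps

variable {N N' : Type*} [CStarAlgebra N] [CStarAlgebra N'] {G : Type*} {k n c S : ℕ}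

theorem map_Rq (φ : N →⋆ₐ[ℂ] N') (P : Fin c → Mat k) (Ψ : Fin n → G → Mat k → N) (a : Ch n c)
    (g : G) : φ (Rq P Ψ a g) = Rq P (fun l g y => φ (Ψ l g y)) a g := by
  unfold Rq
  rw [map_skip]

theorem map_cfc_rp (φ : N →⋆ₐ[ℂ] N') {f : ℝ → ℝ} (hf : Continuous f) (x : N) :
    φ (cfc f (rp x)) = cfc f (rp (φ x)) := by
  rw [← map_rp φ x]
  have hφ : Continuous φ :=
    AddMonoidHomClass.continuous_of_bound φ 1 (fun a => by
      rw [one_mul]; exact NonUnitalStarAlgHom.norm_apply_le φ a)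
  exact StarAlgHomClass.map_cfc φ f (rp x) hf.continuousOn hφ
    (rp_isSelfAdjoint x) (by rw [map_rp]; exact rp_isSelfAdjoint _)

theorem map_RD (φ : N →⋆ₐ[ℂ] N') (P : Fin c → Mat k) (r : ℝ) {s0 : ℝ} (hs0 : 0 < s0)
    (K : Finset G) (Ψ : Fin n → G → Mat k → N) (a : Ch n c) (i : ℕ) (x : Mat k) :
    φ (RD P r s0 S K Ψ a i x) = RD P r s0 S K (fun l g y => φ (Ψ l g y)) a i x := by
  unfold RD
  rw [map_mul, map_mul, map_cfc_rp φ (continuous_hh hs0 S i), EqGamma.map_real_smul, EqGamma.map_real_smul,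
    map_sum, map_sum]
  simp only [map_mul, map_Rq]

theorem map_RB (φ : N →⋆ₐ[ℂ] N') (P : Fin c → Mat k) (r : ℝ) {s0 : ℝ} (hs0 : 0 < s0)
    (K : Finset G) (Ψ : ℕ → G → Mat k → N) (p : ℕ → Ch n c × Fin S → N) (j : ℕ) (x : Mat k) :
    φ (RB P r s0 K Ψ p j x) =
      RB P r s0 K (fun l g y => φ (Ψ l g y)) (fun j b => φ (p j b)) j x := by
  unfold RB
  rw [map_sum]
  apply Finset.sum_congr rfl
  intro b _
  rw [map_mul, map_RD φ P r hs0]

/-- naturality -/
theorem map_RS (φ : N →⋆ₐ[ℂ] N') (P : Fin c → Mat k) (r : ℝ) {s0 : ℝ} (hs0 : 0 < s0)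
    (K : Finset G) (J : ℕ) (Ψ : ℕ → G → Mat k → N) (p : ℕ → Ch n c × Fin S → N) (x : Mat k) :
    φ (RS P r s0 K J Ψ p x) =
      RS P r s0 K J (fun l g y => φ (Ψ l g y)) (fun j b => φ (p j b)) x := by
  unfold RS
  rw [map_SS]
  congr 1
  funext j y
  exact map_RB φ P r hs0 K Ψ p j y

theorem zz_congr {M X : Type*} [Ring M] [One X] {D D' : ℕ → X → M} {J : ℕ}
    (h : ∀ j < J, ∀ x, D j x = D' j x) : zz D J = zz D' J := by
  induction J with
  | zero => rfl
  | succ J ih =>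
    rw [zz, zz, ih (fun j hj x => h j (by omega) x), h J (by omega)]

theorem SS_congr {M X : Type*} [Ring M] [One X] {D D' : ℕ → X → M} {J : ℕ}
    (h : ∀ j < J, ∀ x, D j x = D' j x) (x : X) : SS D J x = SS D' J x := by
  unfold SS
  apply Finset.sum_congr rfl
  intro j hj
  rw [Finset.mem_range] at hj
  rw [zz_congr (fun i hi x => h i (by omega) x), h j hj]

/-- only the first `n * J` copies and the first `J` partitions are used -/
theorem RS_congr (P : Fin c → Mat k) (r s0 : ℝ) (K : Finset G) (J : ℕ)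
    {Ψ Ψ' : ℕ → G → Mat k → N} {p p' : ℕ → Ch n c × Fin S → N}
    (h1 : ∀ l < J * n, ∀ g y, Ψ l g y = Ψ' l g y) (h2 : ∀ j < J, ∀ b, p j b = p' j b)
    (x : Mat k) : RS P r s0 K J Ψ p x = RS P r s0 K J Ψ' p' x := by
  unfold RS
  apply SS_congr
  intro j hj y
  unfold RB
  have h3 : (fun l : Fin n => Ψ (j * n + l)) = fun l : Fin n => Ψ' (j * n + l) := by
    funext l g z
    apply h1
    calc j * n + l < j * n + n := by omega
      _ = (j + 1) * n := by ring
      _ ≤ J * n := Nat.mul_le_mul_right n hj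
  rw [h3]
  apply Finset.sum_congr rfl
  intro b _
  rw [h2 j hj]

/-- translation of the finite set -/
theorem RS_shift [Group G] [DecidableEq G] (P : Fin c → Mat k) (r s0 : ℝ) (K : Finset G) (J : ℕ)
    (Ψ : ℕ → G → Mat k → N) (p : ℕ → Ch n c × Fin S → N) (h : G) (x : Mat k) :
    RS P r s0 K J (fun l g => Ψ l (h * g)) p x =
      RS P r s0 (K.image fun g => h * g) J Ψ p x := by
  have hinj : Set.InjOn (fun g => h * g) (K : Set G) := fun a _ b _ hab => mul_left_cancel hab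
  unfold RS
  congr 1
  funext j y
  unfold RB
  apply Finset.sum_congr rfl
  intro b _
  congr 1
  unfold RD
  rw [Finset.sum_image hinj, Finset.sum_image hinj]
  rfl

/-- additivity -/
theorem RS_add (P : Fin c → Mat k) (r s0 : ℝ) (K : Finset G) (J : ℕ)
    {Ψ : ℕ → G → Mat k → N} (p : ℕ → Ch n c × Fin S → N)
    (hΨ : ∀ l g x y, Ψ l g (x + y) = Ψ l g x + Ψ l g y) (x y : Mat k) :
    RS P r s0 K J Ψ p (x + y) = RS P r s0 K J Ψ p x + RS P r s0 K J Ψ p y := by
  have h1 : ∀ (Ψ' : Fin n → G → Mat k → N) (_ : ∀ l g x y, Ψ' l g (x + y) = Ψ' l g x + Ψ' l g y)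
      (a : Ch n c) (i : ℕ), RD P r s0 S K Ψ' a i (x + y) =
        RD P r s0 S K Ψ' a i x + RD P r s0 S K Ψ' a i y := by
    intro Ψ' h a i
    unfold RD
    simp only [h, add_mul, Finset.sum_add_distrib, smul_add, mul_add]
  unfold RS SS
  rw [← Finset.sum_add_distrib]
  apply Finset.sum_congr rfl
  intro j _
  rw [← mul_add]
  congr 1
  unfold RB
  rw [← Finset.sum_add_distrib]
  apply Finset.sum_congr rfl
  intro b _
  rw [← mul_add, h1 _ (fun l g x y => hΨ _ g x y)]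

end maps

end Pool.Agent.Lib.EqM
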