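import Pool.Agent.Lib.EqM.MSys
import Pool.Agent.Lib.EqM.Raw

/-!
The increments of a block of copies satisfy the hypotheses of the summation lemma.
-/

open scoped ComplexOrder

namespace Pool.Agent.Lib.EqM

open Pool.Agent.Lib.EqGamma

universe u v

variable {M : Type u} [CStarAlgebra M] {G : Type v} {k n c S : ℕ} {T : M →ₗ[ℝ] ℝ}
  {A : StarSubalgebra ℂ M} {ψ : ℕ → G → Mat k →⋆ₐ[ℂ] M} {p : ℕ → Ch n c × Fin S → M} {J : ℕ}
  {P : Fin c → Mat k}

/-- the increment of block `j` in a system -/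
noncomputable def BI (P : Fin c → Mat k) (r s0 : ℝ) (K : Finset G) (ψ : ℕ → G → Mat k →⋆ₐ[ℂ] M)
    (p : ℕ → Ch n c × Fin S → M) (j : ℕ) (x : Mat k) : M :=
  RB P r s0 K (fun l g x => ψ l g x) p j x

namespace BlockAAux

theorem map_cfc_hom {N N' : Type*} [CStarAlgebra N] [CStarAlgebra N'] (φ : N →⋆ₐ[ℂ] N')
    {f : ℝ → ℝ} (hf : Continuous f) {a : N} (ha : star a = a) : φ (cfc f a) = cfc f (φ a) := by
  have hφ : Continuous φ :=
    AddMonoidHomClass.continuous_of_bound φ 1 (fun a => by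
      rw [one_mul]; exact NonUnitalStarAlgHom.norm_apply_le φ a)
  exact StarAlgHomClass.map_cfc φ f a hf.continuousOn hφ ha
    (by rw [isSelfAdjoint_iff, ← map_star, ha])

theorem star_Rq {ψ : Fin n → G → Mat k →⋆ₐ[ℂ] M}
    (hψ : ∀ l l', l ≠ l' → ∀ g g' x x', Commute (ψ l g x) (ψ l' g' x'))
    (hPs : ∀ a, star (P a) = P a) (a : Ch n c) (g : G) :
    star (Rq P (fun l g x => ψ l g x) a g) = Rq P (fun l g x => ψ l g x) a g :=
  skip_star (fun l m h => hψ l m h g g _ _) (fun _ => by rw [← map_star, hPs]) a.1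

theorem Rq_idem {ψ : Fin n → G → Mat k →⋆ₐ[ℂ] M}
    (hψ : ∀ l l', l ≠ l' → ∀ g g' x x', Commute (ψ l g x) (ψ l' g' x'))
    (hP : ∀ a, P a * P a = P a) (a : Ch n c) (g : G) :
    Rq P (fun l g x => ψ l g x) a g * Rq P (fun l g x => ψ l g x) a g =
      Rq P (fun l g x => ψ l g x) a g :=
  skip_idem (fun l m h => hψ l m h g g _ _) (fun _ => by rw [← map_mul, hP]) a.1

theorem star_B {ψ : Fin n → G → Mat k →⋆ₐ[ℂ] M}
    (hψ : ∀ l l', l ≠ l' → ∀ g g' x x', Commute (ψ l g x) (ψ l' g' x'))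
    (hPs : ∀ a, star (P a) = P a) (r : ℝ) (K : Finset G) (a : Ch n c) :
    star (r • ∑ g ∈ K, Rq P (fun l g x => ψ l g x) a g) =
      r • ∑ g ∈ K, Rq P (fun l g x => ψ l g x) a g := by
  rw [star_smul, star_sum, star_trivial]
  simp only [star_Rq hψ hPs]

/-- the carrier commutes with the rare projection -/
theorem commute_car {ψ : Fin n → G → Mat k →⋆ₐ[ℂ] M}
    (hψ : ∀ l l', l ≠ l' → ∀ g g' x x', Commute (ψ l g x) (ψ l' g' x')) (a : Ch n c) (g g' : G)
    (x : Mat k) : Commute (ψ a.1 g x) (Rq P (fun l g x => ψ l g x) a g') :=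
  commute_skip fun l hl => hψ _ _ (Ne.symm hl) _ _ _ _

theorem RD_nonneg [PartialOrder M] [StarOrderedRing M] {ψ : Fin n → G → Mat k →⋆ₐ[ℂ] M}
    (hψ : ∀ l l', l ≠ l' → ∀ g g' x x', Commute (ψ l g x) (ψ l' g' x'))
    (hP : ∀ a, P a * P a = P a) (hPs : ∀ a, star (P a) = P a) {r : ℝ} (hr : 0 ≤ r) (s0 : ℝ)
    (K : Finset G) (a : Ch n c) (i : ℕ) (y : Mat k) :
    0 ≤ RD P r s0 S K (fun l g x => ψ l g x) a i (star y * y) := by
  unfold RD
  set h := cfc (hh s0 S i) (rp (r • ∑ g ∈ K, Rq P (fun l g x => ψ l g x) a g)) with hh'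
  have hs : star h = h := by
    have : IsSelfAdjoint h := cfc_predicate _ _
    exact this
  have h1 : h * (r • ∑ g ∈ K, ψ a.1 g (star y * y) * Rq P (fun l g x => ψ l g x) a g) * h =
      star h * (r • ∑ g ∈ K, ψ a.1 g (star y * y) * Rq P (fun l g x => ψ l g x) a g) * h := by
    rw [hs]
  rw [h1]
  apply star_left_conjugate_nonneg
  apply smul_nonneg hr
  apply Finset.sum_nonneg
  intro g _
  have h2 : ψ a.1 g (star y * y) * Rq P (fun l g x => ψ l g x) a g =
      star (ψ a.1 g y * Rq P (fun l g x => ψ l g x) a g) *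
        (ψ a.1 g y * Rq P (fun l g x => ψ l g x) a g) := by
    rw [star_mul, star_Rq hψ hPs, ← map_star, mul_assoc, ← mul_assoc (ψ a.1 g (star y)),
      ← map_mul, (commute_car hψ a g g _).eq, ← mul_assoc, Rq_idem hψ hP]
  rw [h2]
  exact star_mul_self_nonneg _

theorem cfc_hh_sq {B : M} (hB : star B = B) {s0 : ℝ} (hs0 : 0 < s0) (i : ℕ) :
    cfc (hh s0 S i) B * B * cfc (hh s0 S i) B = cfc (fun t => rho s0 S i t ^ 2) B := by
  have hsa : IsSelfAdjoint B := hB
  have hc := continuous_hh hs0 S i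
  have h1 : cfc (hh s0 S i) B * B = cfc (fun t => hh s0 S i t * t) B := by
    conv_lhs => rw [← cfc_id ℝ B hsa, cfc_id ℝ B hsa]
    have := cfc_mul (hh s0 S i) (fun t : ℝ => t) B hc.continuousOn continuous_id.continuousOn
    rw [this]
    congr 1
    exact (cfc_id' ℝ B hsa).symm
  rw [h1, ← cfc_mul (fun t => hh s0 S i t * t) (hh s0 S i) B
    (hc.mul continuous_id).continuousOn hc.continuousOn]
  apply cfc_congr
  intro t _
  exact hh_sq_mul hs0 S i t

theorem RD_one {ψ : Fin n → G → Mat k →⋆ₐ[ℂ] M}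
    (hψ : ∀ l l', l ≠ l' → ∀ g g' x x', Commute (ψ l g x) (ψ l' g' x'))
    (hPs : ∀ a, star (P a) = P a) (r : ℝ) {s0 : ℝ} (hs0 : 0 < s0)
    (K : Finset G) (a : Ch n c) (i : ℕ) :
    RD P r s0 S K (fun l g x => ψ l g x) a i 1 =
      cfc (fun t => rho s0 S i t ^ 2) (r • ∑ g ∈ K, Rq P (fun l g x => ψ l g x) a g) := by
  unfold RD
  rw [rp_of_star_eq (star_B hψ hPs r K a)]
  simp only [map_one, one_mul]
  exact cfc_hh_sq (star_B hψ hPs r K a) hs0 i

theorem RD_one_le [PartialOrder M] [StarOrderedRing M] {ψ : Fin n → G → Mat k →⋆ₐ[ℂ] M}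
    (hψ : ∀ l l', l ≠ l' → ∀ g g' x x', Commute (ψ l g x) (ψ l' g' x'))
    (hPs : ∀ a, star (P a) = P a) (r : ℝ) {s0 : ℝ} (hs0 : 0 < s0)
    (K : Finset G) (a : Ch n c) (i : ℕ) :
    RD P r s0 S K (fun l g x => ψ l g x) a i 1 ≤ 1 := by
  rw [RD_one hψ hPs r hs0]
  apply cfc_le_one
  intro t _
  exact pow_le_one₀ (rho_nonneg _ _ _ _) (rho_le_one _ _ _ _)

theorem skip_mem {Q : StarSubalgebra ℂ M} {e : Fin n → M} (h : ∀ l, e l ∈ Q) (j : Fin n) :
    skip e j ∈ Q := by
  unfold skip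
  apply list_prod_mem
  intro x hx
  obtain ⟨l, -, rfl⟩ := List.mem_map.1 hx
  split_ifs
  · exact one_mem _
  · exact h l

theorem rsmul_mem {Q : StarSubalgebra ℂ M} {x : M} (h : x ∈ Q) (r : ℝ) : r • x ∈ Q := by
  rw [← Complex.coe_smul]
  exact Q.smul_mem h _

end BlockAAux

open BlockAAux

/-- in a system, the increments of a choice are those of the overlap system -/
theorem RD_eq (hT : RTr T) (hP : ∀ a, P a * P a = P a) (hPs : ∀ a, star (P a) = P a)
    {ψ : Fin n → G → Mat k →⋆ₐ[ℂ] M}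
    (hψ : ∀ l l', l ≠ l' → ∀ g g' x x', Commute (ψ l g x) (ψ l' g' x'))
    (r : ℝ) {s0 : ℝ} (hs0 : 0 < s0) (K : Finset G) (a : Ch n c) (i : ℕ) (x : Mat k) :
    RD P r s0 S K (fun l g x => ψ l g x) a i x =
      BF.ev a (DI (cψ c ψ) (cq hP hPs ψ) r s0 S K i x) := by
  have hev : ∀ g, BF.ev a (cq hP hPs ψ g) = Rq P (fun l g x => ψ l g x) a g := fun g => rfl
  have hev2 : ∀ g, BF.ev a (cψ c ψ g x) = ψ a.1 g x := fun g => rfl
  have hB : BF.ev a (BQ (cq hP hPs ψ) r K) = r • ∑ g ∈ K, Rq P (fun l g x => ψ l g x) a g := by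
    unfold BQ
    rw [EqGamma.map_real_smul, map_sum]
    simp only [hev]
  have hsB : star (BQ (cq hP hPs ψ) r K) = BQ (cq hP hPs ψ) r K := by
    unfold BQ
    rw [star_smul, star_sum, star_trivial]
    congr 1
    refine Finset.sum_congr rfl fun g _ => ?_
    apply BF.ext
    intro a'
    rw [map_star]
    exact star_Rq hψ hPs a' g
  unfold RD DI
  rw [map_mul, map_mul, map_cfc_hom (BF.ev a) (continuous_hh hs0 S i) hsB, hB,
    rp_of_star_eq (star_B hψ hPs r K a)]
  congr 2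
  unfold YY
  rw [EqGamma.map_real_smul, map_sum]
  simp only [map_mul, hev, hev2]

theorem block_incs_basic (h : MSys T A ψ p (J * n)) (hk : 0 < k) (hn : 0 < n) (hS : 0 < S)
    (hP : ∀ a, P a * P a = P a) (hPs : ∀ a, star (P a) = P a) (hP1 : ∀ a, (P a).trace = 1)
    {r s0 : ℝ} {K : Finset G} (hr : 0 < r) (hrK : r * K.card = 1) (hs0 : 0 < s0) {j : ℕ}
    (hj : j < J) :
    (∀ x y, BI P r s0 K ψ p j (x + y) = BI P r s0 K ψ p j x + BI P r s0 K ψ p j y) ∧
    (∀ (z : ℂ) x, BI P r s0 K ψ p j (z • x) = z • BI P r s0 K ψ p j x) ∧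
    (∀ x, ∃ y, BI P r s0 K ψ p j (star x * x) = star y * y) ∧
    (∃ y, 1 - BI P r s0 K ψ p j 1 = star y * y) ∧
    (∀ x, BI P r s0 K ψ p j x ∈ Qs A ψ p ((j + 1) * n) (j + 1)) ∧
    (∀ x, ∀ z ∈ Qs A ψ p (j * n) j, Commute z (BI P r s0 K ψ p j x)) := by
  let _ := CStarAlgebra.spectralOrder M
  have := CStarAlgebra.spectralOrderedRing M
  have hlt : ∀ l : Fin n, j * n + l < J * n := fun l => by
    have h1 : (j + 1) * n ≤ J * n := Nat.mul_le_mul_right n hj
    have h2 : (j + 1) * n = j * n + n := by ring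
    have := l.2
    omega
  have hjR : j < J * n := lt_of_lt_of_le hj (Nat.le_mul_of_pos_right J hn)
  -- the copies of the block
  set ψ' : Fin n → G → Mat k →⋆ₐ[ℂ] M := fun l => ψ (j * n + l) with hψ'
  have hψc : ∀ l l', l ≠ l' → ∀ g g' x x', Commute (ψ' l g x) (ψ' l' g' x') :=
    fun l l' hl g g' x x' => h.comm _ (hlt l) _ (hlt l')
      (fun hc => hl (Fin.ext (by omega))) g g' x x'
  have hBI : ∀ x, BI P r s0 K ψ p j x =
      ∑ b : Ch n c × Fin S, p j b * RD P r s0 S K (fun l g x => ψ' l g x) b.1 b.2 x := fun x => rfl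
  -- commutation of the partition with the increments
  have hcfc : ∀ (z B : M) (f : ℝ → ℝ), star B = B → Commute z B → Commute z (cfc f B) := by
    intro z B f hB hz
    exact (hz.symm.cfc_real f).symm
  have hcom : ∀ z : M, (∀ l g x, Commute z (ψ' l g x)) → ∀ (a : Ch n c) (i : ℕ) (x : Mat k),
      Commute z (RD P r s0 S K (fun l g x => ψ' l g x) a i x) := by
    intro z hz a i x
    have hq : ∀ g, Commute z (Rq P (fun l g x => ψ' l g x) a g) := fun g =>
      commute_skip fun l _ => hz l g _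
    have hB : Commute z (r • ∑ g ∈ K, Rq P (fun l g x => ψ' l g x) a g) :=
      (Commute.sum_right _ _ _ fun g _ => hq g).smul_right r
    unfold RD
    rw [rp_of_star_eq (star_B hψc hPs r K a)]
    have h1 := hcfc z _ (hh s0 S i) (star_B hψc hPs r K a) hB
    refine (h1.mul_right ?_).mul_right h1
    exact (Commute.sum_right _ _ _ fun g _ => (hz _ g x).mul_right (hq g)).smul_right r
  have hpc : ∀ (b : Ch n c × Fin S) (a : Ch n c) (i : ℕ) (x : Mat k),
      Commute (p j b) (RD P r s0 S K (fun l g x => ψ' l g x) a i x) := fun b a i x =>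
    hcom _ (fun l g x => h.pψ j hjR _ (hlt l) b g x) a i x
  have hconj : ∀ (b : Ch n c × Fin S) (y : M), Commute (p j b) y →
      p j b * y = star (p j b) * y * p j b := by
    intro b y hy
    rw [h.pstar j hjR b, hy.eq, mul_assoc, h.pidem j hjR b]
  refine ⟨?_, ?_, ?_, ?_, ?_, ?_⟩
  · intro x y
    rw [hBI, hBI, hBI, ← Finset.sum_add_distrib]
    refine Finset.sum_congr rfl fun b _ => ?_
    rw [← mul_add]
    congr 1
    unfold RD
    simp only [map_add, add_mul, Finset.sum_add_distrib, smul_add, mul_add]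
  · intro z x
    rw [hBI, hBI, Finset.smul_sum]
    refine Finset.sum_congr rfl fun b _ => ?_
    rw [← mul_smul_comm]
    congr 1
    unfold RD
    have h1 : ∀ g, ψ' b.1.1 g (z • x) * Rq P (fun l g x => ψ' l g x) b.1 g =
        z • (ψ' b.1.1 g x * Rq P (fun l g x => ψ' l g x) b.1 g) := fun g => by
      rw [map_smul, smul_mul_assoc]
    simp only [h1]
    rw [← Finset.smul_sum, smul_comm r z, mul_smul_comm, smul_mul_assoc]
  · intro x
    rw [← CStarAlgebra.nonneg_iff_eq_star_mul_self]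
    rw [hBI]
    apply Finset.sum_nonneg
    intro b _
    rw [hconj b _ (hpc b _ _ _)]
    exact star_left_conjugate_nonneg (RD_nonneg hψc hP hPs hr.le s0 K _ _ x) _
  · rw [← CStarAlgebra.nonneg_iff_eq_star_mul_self, sub_nonneg, hBI]
    calc ∑ b : Ch n c × Fin S, p j b * RD P r s0 S K (fun l g x => ψ' l g x) b.1 b.2 1
        ≤ ∑ b : Ch n c × Fin S, p j b := by
          apply Finset.sum_le_sum
          intro b _
          rw [hconj b _ (hpc b _ _ _)]
          have h1 := star_left_conjugate_le_conjugate (RD_one_le hψc hPs r hs0 K b.1 b.2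
            (S := S) (M := M) (P := P)) (p j b)
          refine h1.trans (le_of_eq ?_)
          rw [mul_one, h.pstar j hjR b, h.pidem j hjR b]
      _ = 1 := h.psum j hjR
  · intro x
    rw [hBI]
    apply sum_mem
    intro b _
    have hmem : ∀ l g y, ψ' l g y ∈ Qs A ψ p ((j + 1) * n) (j + 1) := fun l g y =>
      ψ_mem_Qs (by have := l.2; have h2 : (j + 1) * n = j * n + n := by ring
                   omega) g y
    have hq : ∀ g, Rq P (fun l g x => ψ' l g x) b.1 g ∈ Qs A ψ p ((j + 1) * n) (j + 1) := fun g =>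
      skip_mem (fun l => hmem l g _) _
    have hB : (r • ∑ g ∈ K, Rq P (fun l g x => ψ' l g x) b.1 g) ∈
        Qs A ψ p ((j + 1) * n) (j + 1) := rsmul_mem (sum_mem fun g _ => hq g) r
    refine mul_mem (p_mem_Qs (Nat.lt_succ_self j) b) ?_
    unfold RD
    rw [rp_of_star_eq (star_B hψc hPs r K b.1)]
    have h1 := cfc_mem_of_closed (isClosed_Qs ((j + 1) * n) (j + 1)) hB (star_B hψc hPs r K b.1)
      (hh s0 S b.2)
    refine mul_mem (mul_mem h1 ?_) h1
    exact rsmul_mem (sum_mem fun g _ => mul_mem (hmem _ g x) (hq g)) r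
  · intro x z hz
    rw [hBI]
    apply Commute.sum_right
    intro b _
    have hz1 : ∀ l g y, Commute z (ψ' l g y) := fun l g y =>
      h.commute_ψ (Nat.mul_le_mul_right n hj.le) hjR.le (Nat.le_add_right _ _) (hlt l) hz g y
    have hz2 : Commute z (p j b) :=
      h.commute_p (Nat.mul_le_mul_right n hj.le) hjR.le le_rfl hjR hz b
    exact hz2.mul_right (hcom z hz1 _ _ _)

end Pool.Agent.Lib.EqM
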