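import Pool.Agent.Lib.EqM.ThrFun
import Pool.Agent.Lib.EqM.SqrtMono

/-!
Trace bounds for the threshold functions of `B = r ∑ q_g`.
-/

open scoped ComplexOrder

namespace Pool.Agent.Lib.EqM

open Pool.Agent.Lib.EqGamma

variable {M : Type*} [CStarAlgebra M] {T : M →ₗ[ℝ] ℝ}

section basic

variable [PartialOrder M] [StarOrderedRing M] {G : Type*} {K : Finset G} {q : G → M} {r : ℝ}

theorem sumq_nonneg (hq : ∀ g ∈ K, q g * q g = q g) (hqs : ∀ g ∈ K, star (q g) = q g)
    (hr : 0 ≤ r) : 0 ≤ r • ∑ g ∈ K, q g :=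
  smul_nonneg hr (Finset.sum_nonneg fun g hg => proj_nonneg (hqs g hg) (hq g hg))

theorem sumq_le (hq : ∀ g ∈ K, q g * q g = q g) (hqs : ∀ g ∈ K, star (q g) = q g)
    (hr : 0 ≤ r) {c : ℝ} (hc : r * K.card ≤ c) : r • ∑ g ∈ K, q g ≤ algebraMap ℝ M c := by
  have h1 : ∑ g ∈ K, q g ≤ (K.card : ℝ) • (1 : M) := by
    refine (Finset.sum_le_sum fun g hg => proj_le_one (hqs g hg) (hq g hg)).trans (le_of_eq ?_)
    rw [Finset.sum_const, Nat.cast_smul_eq_nsmul]
  refine (smul_le_smul_of_nonneg_left h1 hr).trans ?_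
  rw [smul_smul, ← Algebra.algebraMap_eq_smul_one]
  exact algebraMap_mono M hc

private theorem T_cfc_mono (hT : RTr T) {B : M} (hB : 0 ≤ B) {f g : ℝ → ℝ} (hf : Continuous f)
    (hg : Continuous g) {c : ℝ} (hBc : B ≤ algebraMap ℝ M c) (h : ∀ t, 0 ≤ t → t ≤ c → f t ≤ g t) :
    T (cfc f B) ≤ T (cfc g B) := by
  apply hT.mono
  refine cfc_mono ?_ hf.continuousOn hg.continuousOn
  intro x hx
  exact h x (spectrum_nonneg_of_nonneg hB hx)
    ((le_algebraMap_iff_spectrum_le (R := ℝ) (a := B) hB.isSelfAdjoint).1 hBc x hx)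

omit [PartialOrder M] [StarOrderedRing M] in
private theorem T_avg (B : M) (S : ℕ) (f : ℕ → ℝ → ℝ) (hf : ∀ i, Continuous (f i)) :
    (1 / S : ℝ) * ∑ i ∈ Finset.range S, T (cfc (f i) B) =
      T (cfc (fun t => (1 / S : ℝ) * ∑ i ∈ Finset.range S, f i t) B) := by
  rw [cfc_const_mul (1 / S : ℝ) (fun t => ∑ i ∈ Finset.range S, f i t) B
    (continuous_finsetSum _ fun i _ => hf i).continuousOn]
  have e : (fun t => ∑ i ∈ Finset.range S, f i t) = ∑ i ∈ Finset.range S, f i := by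
    funext t
    rw [Finset.sum_apply]
  rw [e, cfc_sum f B (Finset.range S) fun i _ => (hf i).continuousOn, map_smul, map_sum,
    smul_eq_mul]

private theorem T_cfc_id {B : M} (hB : 0 ≤ B) : T (cfc (fun t : ℝ => t) B) = T B := by
  rw [cfc_id' ℝ B hB.isSelfAdjoint]

end basic

variable [PartialOrder M] [StarOrderedRing M] (hT : RTr T) {G : Type*} {K : Finset G} {q : G → M}
  (hq : ∀ g ∈ K, q g * q g = q g) (hqs : ∀ g ∈ K, star (q g) = q g) {w : ℝ}
  (hw : ∀ g ∈ K, T (q g) = w) {r s0 : ℝ} {S : ℕ}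

omit [PartialOrder M] [StarOrderedRing M] in
include hw in
private theorem T_sumq (hrK : r * K.card = 1) : T (r • ∑ g ∈ K, q g) = w := by
  rw [map_smul, map_sum, Finset.sum_congr rfl hw, Finset.sum_const, nsmul_eq_mul, smul_eq_mul,
    ← mul_assoc, hrK, one_mul]

include hT hq hqs hw in
private theorem w_nonneg' (hrK : r * K.card = 1) : 0 ≤ w := by
  rcases K.eq_empty_or_nonempty with hK | ⟨g0, hg0⟩
  · simp [hK] at hrK
  · rw [← hw g0 hg0]
    exact hT.nonneg (proj_nonneg (hqs g0 hg0) (hq g0 hg0))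

include hT hq hqs hw in
theorem T_rho_sq_le (hr : 0 < r) (hrK : r * K.card = 1) (hs0 : 0 < s0) (hS : 0 < S) :
    (1 / S : ℝ) * ∑ i ∈ Finset.range S, T (cfc (fun t => rho s0 S i t ^ 2) (r • ∑ g ∈ K, q g)) ≤
      w := by
  have hB := sumq_nonneg hq hqs hr.le
  have hB1 := sumq_le hq hqs hr.le hrK.le
  have hc : ∀ i, Continuous fun t => rho s0 S i t ^ 2 := fun i => (continuous_rho s0 S i).pow 2
  rw [T_avg _ S (fun i t => rho s0 S i t ^ 2) hc]
  refine (T_cfc_mono hT hB (g := fun t => t)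
    ((continuous_finsetSum _ fun i _ => hc i).const_mul _) continuous_id hB1
    fun t ht _ => sum_rho_sq_le hs0 hS ht).trans (le_of_eq ?_)
  rw [T_cfc_id hB, T_sumq hw hrK]

include hT hq hqs hw in
theorem T_rho_sq_ge (hr : 0 < r) (hrK : r * K.card = 1) (hs0 : 0 < s0) (hS : 0 < S)
    (h1 : s0 * K.card ≤ 1 / 8) (h2 : 8 ≤ s0 * S) :
    w / 2 ≤
    (1 / S : ℝ) * ∑ i ∈ Finset.range S, T (cfc (fun t => rho s0 S i t ^ 2) (r • ∑ g ∈ K, q g)) := by
  have hB := sumq_nonneg hq hqs hr.le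
  have hB1 := sumq_le hq hqs hr.le hrK.le
  have hw0 := w_nonneg' hT hq hqs hw hrK
  have hS' : (0 : ℝ) < S := by exact_mod_cast hS
  have hc : ∀ i, Continuous fun t => rho s0 S i t ^ 2 := fun i => (continuous_rho s0 S i).pow 2
  rw [T_avg _ S (fun i t => rho s0 S i t ^ 2) hc]
  have hp := continuous_psi hs0
  have h3 := T_cfc_mono hT hB (f := fun t => (t - 2 * psi s0 t) - (s0 * S)⁻¹ * t)
    (by fun_prop)
    ((continuous_finsetSum _ fun i _ => hc i).const_mul (1 / S : ℝ)) hB1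
    (fun t ht ht1 => by
      have := sum_rho_sq_ge hs0 hS ht ht1
      refine le_trans (le_of_eq ?_) this
      simp only [psi]
      rw [abs_of_nonneg ht]
      field_simp)
  refine le_trans ?_ h3
  rw [cfc_sub (fun t => t - 2 * psi s0 t) (fun t => (s0 * S)⁻¹ * t) _ (by fun_prop) (by fun_prop),
    cfc_sub (fun t => t) (fun t => 2 * psi s0 t) _ (by fun_prop) (by fun_prop),
    cfc_const_mul _ (psi s0) _ hp.continuousOn, cfc_const_mul_id _ _ hB.isSelfAdjoint,
    cfc_id' ℝ _ hB.isSelfAdjoint, map_sub, map_sub, T_sumq hw hrK, map_smul T (2 : ℝ),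
    map_smul T (s0 * (S : ℝ))⁻¹, T_sumq hw hrK, smul_eq_mul, smul_eq_mul]
  have h4 := T_psi_le hT K hq hqs (fun g hg => (hw g hg).le) hr hs0
  have h5 : s0 * K.card * w ≤ 1 / 8 * w := mul_le_mul_of_nonneg_right h1 hw0
  have h6 : (s0 * S)⁻¹ * w ≤ 1 / 8 * w := by
    apply mul_le_mul_of_nonneg_right _ hw0
    rw [inv_eq_one_div]
    exact one_div_le_one_div_of_le (by norm_num) h2
  linarith

include hT hq hqs hw in
theorem T_kappa_le (hr : 0 < r) (hrK : r * K.card = 1) (hs0 : 0 < s0) (hS : 0 < S) :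
    (1 / S : ℝ) * ∑ i ∈ Finset.range S,
      T (cfc (fun t => rho s0 S i t ^ 2 * (1 - rho s0 S i t ^ 2)) (r • ∑ g ∈ K, q g)) ≤
      w / (s0 * S) := by
  have hB := sumq_nonneg hq hqs hr.le
  have hB1 := sumq_le hq hqs hr.le hrK.le
  have hc : ∀ i, Continuous fun t => rho s0 S i t ^ 2 * (1 - rho s0 S i t ^ 2) := fun i => by
    have := continuous_rho s0 S i
    fun_prop
  rw [T_avg _ S (fun i t => rho s0 S i t ^ 2 * (1 - rho s0 S i t ^ 2)) hc]
  refine (T_cfc_mono hT hB (g := fun t => (s0 * S)⁻¹ * t)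
    ((continuous_finsetSum _ fun i _ => hc i).const_mul _) (by fun_prop) hB1
    fun t ht _ => ?_).trans (le_of_eq ?_)
  · refine (sum_kappa_le hs0 hS ht).trans (le_of_eq ?_)
    rw [div_div, div_eq_inv_mul]
  · rw [cfc_const_mul_id _ _ hB.isSelfAdjoint, map_smul, T_sumq hw hrK, smul_eq_mul,
      div_eq_inv_mul]

include hT hq hqs hw in
/-- crude bound for a single threshold -/
theorem T_rho_sq_le_single (hr : 0 < r) (hrK : r * K.card = 1) (hs0 : 0 < s0) (i : ℕ) :
    T (cfc (fun t => rho s0 S i t ^ 2) (r • ∑ g ∈ K, q g)) ≤ w / s0 := by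
  have hB := sumq_nonneg hq hqs hr.le
  have hB1 := sumq_le hq hqs hr.le hrK.le
  have hc : Continuous fun t => rho s0 S i t ^ 2 := (continuous_rho s0 S i).pow 2
  refine (T_cfc_mono hT hB (f := fun t => rho s0 S i t ^ 2) (g := fun t => s0⁻¹ * t)
    hc (by fun_prop) hB1 fun t ht _ => ?_).trans (le_of_eq ?_)
  · rcases le_or_gt t s0 with h | h
    · rw [rho_of_le h]
      have : 0 ≤ s0⁻¹ * t := by positivity
      linarith
    · have h1 := rho_le_one s0 S i t
      have h2 := rho_nonneg s0 S i t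
      have h3 : 1 ≤ s0⁻¹ * t := by
        rw [inv_mul_eq_div, one_le_div hs0]
        exact h.le
      nlinarith
  · rw [cfc_const_mul_id _ _ hB.isSelfAdjoint, map_smul, T_sumq hw hrK, smul_eq_mul,
      div_eq_inv_mul]

include hT hq hqs hw in
/-- the part of `B ≤ C` below the cutoff of `C` is small -/
theorem l2_phi_sqrt_le {L : Finset G} (hKL : K ⊆ L) (hq' : ∀ g ∈ L, q g * q g = q g)
    (hqs' : ∀ g ∈ L, star (q g) = q g) (hw' : ∀ g ∈ L, T (q g) = w) (hr : 0 < r) {η : ℝ}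
    (hη : 0 < η) :
    l2 T ((1 - cfc (phi η) (r • ∑ g ∈ L, q g)) * cfc Real.sqrt (r • ∑ g ∈ K, q g)) ^ 2 ≤
      4 * η * L.card * w := by
  have hB := sumq_nonneg hq hqs hr.le
  have hC := sumq_nonneg hq' hqs' hr.le
  have hC1 := sumq_le hq' hqs' hr.le (le_refl _)
  have hBC : r • ∑ g ∈ K, q g ≤ r • ∑ g ∈ L, q g := by
    apply smul_le_smul_of_nonneg_left _ hr.le
    exact Finset.sum_le_sum_of_subset_of_nonneg hKL
      fun g hg _ => proj_nonneg (hqs' g hg) (hq' g hg)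
  set B := r • ∑ g ∈ K, q g with hBdef
  set C := r • ∑ g ∈ L, q g with hCdef
  have hsq : cfc Real.sqrt B * cfc Real.sqrt B = B := GoodPoly.rt_mul_self hB
  have hs0 : 0 ≤ cfc Real.sqrt B := GoodPoly.rt_nonneg B
  have hph := continuous_phi hη
  have eF : 1 - cfc (phi η) C = cfc (fun t => 1 - phi η t) C := by
    rw [cfc_sub (fun _ => 1) (phi η) C (by fun_prop) hph.continuousOn,
      cfc_const_one ℝ C]
  rw [eF]
  set F := cfc (fun t => 1 - phi η t) C with hF
  have hFs : star F = F := (cfc_predicate (R := ℝ) (fun t => 1 - phi η t) C).star_eq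
  have hFF : F * F = cfc (fun t => (1 - phi η t) * (1 - phi η t)) C := by
    rw [hF, cfc_mul (fun t => 1 - phi η t) (fun t => 1 - phi η t) C (by fun_prop) (by fun_prop)]
  have hF0 : 0 ≤ F * F := by
    rw [hFF]
    exact cfc_nonneg fun x _ => mul_self_nonneg _
  rw [l2_sq hT, star_mul, hFs, hs0.isSelfAdjoint.star_eq]
  have e1 : cfc Real.sqrt B * F * (F * cfc Real.sqrt B) =
      cfc Real.sqrt B * (F * F * cfc Real.sqrt B) := by noncomm_ring
  rw [e1, hT.tracial]
  have e2 : F * F * cfc Real.sqrt B * cfc Real.sqrt B = F * F * B := by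
    rw [mul_assoc, hsq]
  rw [e2]
  refine (hT.mul_le_mul hF0 hBC).trans ?_
  have hp := continuous_psi (s := 2 * η) (by positivity)
  have e3 : F * F * C = cfc (fun t => (1 - phi η t) * (1 - phi η t) * t) C := by
    rw [cfc_mul (fun t => (1 - phi η t) * (1 - phi η t)) (fun t => t) C (by fun_prop) (by fun_prop),
      hFF, cfc_id' ℝ C hC.isSelfAdjoint]
  rw [e3]
  have h1 := T_psi_le hT L hq' hqs' (fun g hg => (hw' g hg).le) hr
    (s := 2 * η) (by positivity)
  have h2 : T (cfc (fun t => (1 - phi η t) * (1 - phi η t) * t) C) ≤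
      T (cfc (fun t => 2 * psi (2 * η) t) C) := by
    refine T_cfc_mono hT hC (by fun_prop) (by fun_prop) hC1 fun t ht _ => ?_
    have h3 := phi_nonneg η t
    have h4 := phi_le_one η t
    simp only [psi]
    rw [abs_of_nonneg ht]
    rcases le_or_gt (2 * η) t with h5 | h5
    · rw [phi_of_ge hη h5]
      have : 0 ≤ 2 * (t * (2 * η) / (t + 2 * η)) := by positivity
      linarith
    · have h6 : t ≤ 2 * (t * (2 * η) / (t + 2 * η)) := by
        rw [← mul_div_assoc, le_div_iff₀ (by positivity)]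
        nlinarith
      have h7 : (1 - phi η t) * (1 - phi η t) ≤ 1 := by nlinarith
      nlinarith
  refine h2.trans ?_
  rw [cfc_const_mul _ (psi (2 * η)) _ hp.continuousOn, map_smul, smul_eq_mul]
  linarith

end Pool.Agent.Lib.EqM
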