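import Pool.Agent.Lib.EqM.BlockC
import Pool.Agent.Lib.EqM.Tra

/-!
The increments of a block of copies satisfy the hypotheses of the summation lemma.
-/

open scoped ComplexOrder

namespace Pool.Agent.Lib.EqM

open Pool.Agent.Lib.EqGamma

universe u v

variable {M : Type u} [CStarAlgebra M] {G : Type v} {k n c S : ℕ} {T : M →ₗ[ℝ] ℝ}
  {A : StarSubalgebra ℂ M} {ψ : ℕ → G → Mat k →⋆ₐ[ℂ] M} {p : ℕ → Ch n c × Fin S → M} {J : ℕ}
  {P : Fin c → Mat k}

/-- the increment of a choice at the unit -/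
theorem blockB_RD_one (hP : ∀ a, P a * P a = P a) (hPs : ∀ a, star (P a) = P a)
    {ψ : Fin n → G → Mat k →⋆ₐ[ℂ] M}
    (hψ : ∀ l l', l ≠ l' → ∀ g g' x x', Commute (ψ l g x) (ψ l' g' x'))
    (r : ℝ) {s0 : ℝ} (hs0 : 0 < s0) (K : Finset G) (a : Ch n c) (i : ℕ) :
    RD P r s0 S K (fun l g x => ψ l g x) a i 1 =
      cfc (fun t => rho s0 S i t ^ 2) (r • ∑ g ∈ K, rq P ψ g a) := by
  have hq : ∀ g, star (rq P ψ g a) = rq P ψ g a := by
    intro g
    unfold rq
    refine skip_star (fun l m hlm => hψ l m hlm g g _ _) (fun l => ?_) a.1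
    rw [← StarHomClass.map_star (ψ l g), hPs]
  set B := r • ∑ g ∈ K, rq P ψ g a with hB
  have hBs : star B = B := by
    rw [hB, star_smul, star_sum, star_trivial]
    congr 1
    exact Finset.sum_congr rfl fun g _ => hq g
  have h1 : RD P r s0 S K (fun l g x => ψ l g x) a i 1 =
      cfc (hh s0 S i) (rp B) * B * cfc (hh s0 S i) (rp B) := by
    unfold RD
    have h2 : (fun g => ψ a.1 g 1 * Rq P (fun l g x => ψ l g x) a g) = fun g => rq P ψ g a := by
      funext g
      rw [map_one, one_mul]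
      rfl
    rw [h2]
    rfl
  rw [h1, rp_of_star_eq hBs]
  have hc := (continuous_hh hs0 S i).continuousOn (s := spectrum ℝ B)
  have hsa : IsSelfAdjoint B := hBs
  have hi : ContinuousOn (fun t : ℝ => t) (spectrum ℝ B) := continuousOn_id
  have h3 : cfc (hh s0 S i) B * B * cfc (hh s0 S i) B =
      cfc (fun t => hh s0 S i t * t * hh s0 S i t) B := by
    rw [cfc_mul (fun t => hh s0 S i t * t) (hh s0 S i) B (hc.mul hi) hc,
      cfc_mul (hh s0 S i) (fun t => t) B hc hi, cfc_id' ℝ B hsa]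
  rw [h3]
  congr 1
  funext t
  exact hh_sq_mul hs0 S i t

theorem blockB_commute_adjoin {S : Set M} {z : M} (h : ∀ y ∈ S, Commute y z) {y : M}
    (hy : y ∈ Algebra.adjoin ℝ S) : Commute y z := by
  induction hy using Algebra.adjoin_induction with
  | mem x hx => exact h x hx
  | algebraMap r => exact Algebra.commute_algebraMap_left r z
  | add x y _ _ hx hy => exact hx.add_left hy
  | mul x y _ _ hx hy => exact hx.mul_left hy

/-- the weighted trace of the functions of `B_a` -/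
theorem blockB_weight (hT : RTr T) (hP : ∀ a, P a * P a = P a)
    (hPs : ∀ a, star (P a) = P a) (hP1 : ∀ a, (P a).trace = 1)
    {ψ : Fin n → G → Mat k →⋆ₐ[ℂ] M}
    (hψ : ∀ l l', l ≠ l' → ∀ g g' x x', Commute (ψ l g x) (ψ l' g' x'))
    {r s0 : ℝ} {K : Finset G} (hr : 0 < r) (hrK : r * K.card = 1)
    (hs0 : 0 < s0) (hS : 0 < S) (h1 : s0 * K.card ≤ 1 / 8) (h2 : 8 ≤ s0 * S) {z : M}
    (hz : ∀ l g x, Commute z (ψ l g x)) (hz' : ∀ l g x, Commute (star z) (ψ l g x)) (a : Ch n c) :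
    (1 / S : ℝ) * ∑ i ∈ Finset.range S, T (star z * z *
      cfc (fun t => rho s0 S i t ^ 2) (r • ∑ g ∈ K, rq P ψ g a)) ≤
        (1 / k : ℝ) ^ (n - 1) * T (star z * z) ∧
    (1 / k : ℝ) ^ (n - 1) * T (star z * z) / 2 ≤ (1 / S : ℝ) * ∑ i ∈ Finset.range S,
      T (star z * z * cfc (fun t => rho s0 S i t ^ 2) (r • ∑ g ∈ K, rq P ψ g a)) := by
  let _ := CStarAlgebra.spectralOrder (cent z)
  have := CStarAlgebra.spectralOrderedRing (cent z)
  have hq1 : ∀ g, rq P ψ g a * rq P ψ g a = rq P ψ g a := by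
    intro g
    unfold rq
    refine skip_idem (fun l m hlm => hψ l m hlm g g _ _) (fun l => ?_) a.1
    rw [← map_mul (ψ l g), hP]
  have hq2 : ∀ g, star (rq P ψ g a) = rq P ψ g a := by
    intro g
    unfold rq
    refine skip_star (fun l m hlm => hψ l m hlm g g _ _) (fun l => ?_) a.1
    rw [← StarHomClass.map_star (ψ l g), hPs]
  have hqz : ∀ g, Commute z (rq P ψ g a) := fun g => commute_skip fun l _ => hz l g _
  have hqz' : ∀ g, Commute (star z) (rq P ψ g a) := fun g => commute_skip fun l _ => hz' l g _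
  let q' : G → cent z := fun g => ⟨rq P ψ g a, mem_cent (hqz g) (hqz' g)⟩
  have hq'c : ∀ g, ((q' g : cent z) : M) = rq P ψ g a := fun g => rfl
  have hw : ∀ g, wt T z (q' g) = (1 / k : ℝ) ^ (n - 1) * T (star z * z) := by
    intro g
    rw [wt_apply, hq'c, mul_assoc, ← (hqz g).eq, ← mul_assoc]
    unfold rq
    refine T_mul_skip (T := T) (n := n) (e := fun l => ψ l g (P (a.2 l))) (t := 1 / k)
        (x := star z * z) (fun l m hlm => hψ l m hlm g g _ _) (fun l y hy => ?_) a.1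
    refine T_mul_hom hT (ψ l g) (fun x => ?_) (hPs _) (hP1 _)
    refine blockB_commute_adjoin (fun y hy => ?_) hy
    rcases hy with hy | ⟨m, hm, rfl⟩
    · rw [Set.mem_singleton_iff] at hy
      rw [hy]
      exact (hz' l g x).mul_left (hz l g x)
    · exact hψ m l hm g g _ _
  have hsumc : ((r • ∑ g ∈ K, q' g : cent z) : M) = r • ∑ g ∈ K, rq P ψ g a := by
    have e : ((r • ∑ g ∈ K, q' g : cent z) : M) = r • ((∑ g ∈ K, q' g : cent z) : M) := rfl
    rw [e]
    congr 1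
    have e2 : ((∑ g ∈ K, q' g : cent z) : M) = (cent z).subtype (∑ g ∈ K, q' g) := rfl
    rw [e2, map_sum]
    rfl
  have hB's : IsSelfAdjoint (r • ∑ g ∈ K, q' g : cent z) := by
    rw [isSelfAdjoint_iff, star_smul, star_sum, star_trivial]
    congr 1
    exact Finset.sum_congr rfl fun g _ => Subtype.ext (hq2 g)
  have hBs : IsSelfAdjoint (r • ∑ g ∈ K, rq P ψ g a) := by
    rw [isSelfAdjoint_iff, star_smul, star_sum, star_trivial]
    congr 1
    exact Finset.sum_congr rfl fun g _ => hq2 g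
  have hcf : ∀ i, ((cfc (fun t => rho s0 S i t ^ 2) (r • ∑ g ∈ K, q' g) : cent z) : M) =
      cfc (fun t => rho s0 S i t ^ 2) (r • ∑ g ∈ K, rq P ψ g a) := by
    intro i
    have e := StarAlgHomClass.map_cfc (R := ℝ) (S := ℂ) (cent z).subtype
      (fun t => rho s0 S i t ^ 2) (r • ∑ g ∈ K, q' g)
      ((continuous_rho s0 S i).pow 2).continuousOn continuous_subtype_val hB's
      (by
        have e2 : (cent z).subtype (r • ∑ g ∈ K, q' g) = r • ∑ g ∈ K, rq P ψ g a := hsumc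
        rw [e2]
        exact hBs)
    have e2 : (cent z).subtype (r • ∑ g ∈ K, q' g) = r • ∑ g ∈ K, rq P ψ g a := hsumc
    rw [e2] at e
    exact e
  have hTi : ∀ i, wt T z (cfc (fun t => rho s0 S i t ^ 2) (r • ∑ g ∈ K, q' g)) =
      T (star z * z * cfc (fun t => rho s0 S i t ^ 2) (r • ∑ g ∈ K, rq P ψ g a)) := by
    intro i
    rw [wt_apply]
    have hcm := commute_of_mem_cent
      (cfc (fun t => rho s0 S i t ^ 2) (r • ∑ g ∈ K, q' g) : cent z).2
    rw [mul_assoc, ← hcm.eq, ← mul_assoc, hcf]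
  have r1 := T_rho_sq_le (S := S) (s0 := s0) (wt_rtr hT z) (K := K) (q := q')
    (fun g _ => Subtype.ext (hq1 g))
    (fun g _ => Subtype.ext (hq2 g)) (fun g _ => hw g) hr hrK hs0 hS
  have r2 := T_rho_sq_ge (S := S) (s0 := s0) (wt_rtr hT z) (K := K) (q := q')
    (fun g _ => Subtype.ext (hq1 g))
    (fun g _ => Subtype.ext (hq2 g)) (fun g _ => hw g) hr hrK hs0 hS h1 h2
  simp only [hTi] at r1 r2
  exact ⟨r1, r2⟩

theorem block_incs_trace (h : MSys T A ψ p (J * n)) (hk : 0 < k) (hn : 0 < n) (hS : 0 < S)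
    (hc : 0 < c) (hP : ∀ a, P a * P a = P a) (hPs : ∀ a, star (P a) = P a)
    (hP1 : ∀ a, (P a).trace = 1) {r s0 : ℝ} {K : Finset G} (hr : 0 < r) (hrK : r * K.card = 1)
    (hs0 : 0 < s0) (h1 : s0 * K.card ≤ 1 / 8) (h2 : 8 ≤ s0 * S) {j : ℕ} (hj : j < J) :
    ∀ z ∈ Qs A ψ p (j * n) j,
      T (star z * z * BI P r s0 K ψ p j 1) ≤ (1 / k : ℝ) ^ (n - 1) * T (star z * z) ∧
      (1 / k : ℝ) ^ (n - 1) / 2 * T (star z * z) ≤ T (star z * z * BI P r s0 K ψ p j 1) := by
  intro z hz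
  classical
  obtain ⟨i1, i2, i3⟩ := blockC_idx (J := J) hn hj
  have hcm := blockC_hψ h hn hj
  have hz' : star z ∈ Qs A ψ p (j * n) j := star_mem hz
  have hjn : j * n ≤ J * n := Nat.mul_le_mul_right n hj.le
  have hzc : ∀ y ∈ Qs A ψ p (j * n) j, ∀ (l : Fin n) g x, Commute y (ψ (j * n + l) g x) :=
    fun y hy l g x => h.commute_ψ hjn i2.le (Nat.le_add_right _ _) ((i3 l).trans_le i1) hy g x
  set w : ℝ := (1 / k : ℝ) ^ (n - 1) * T (star z * z) with hw
  have hW := blockB_weight (S := S) h.tr hP hPs hP1 (ψ := fun l : Fin n => ψ (j * n + l)) hcm hr hrK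
    hs0 hS h1 h2 (z := z) (hzc z hz) (hzc (star z) hz')
  -- the increment as an average
  have hzz : star z * z ∈ Qs A ψ p ((j + 1) * n) j :=
    Qs_mono (Nat.mul_le_mul_right n (Nat.le_succ j)) le_rfl (mul_mem hz' hz)
  have hmain : T (star z * z * BI P r s0 K ψ p j 1) = (Fintype.card (Ch n c) : ℝ)⁻¹ *
      ∑ a : Ch n c, (1 / S : ℝ) * ∑ i ∈ Finset.range S, T (star z * z *
        cfc (fun t => rho s0 S i t ^ 2)
          (r • ∑ g ∈ K, rq P (fun l : Fin n => ψ (j * n + l)) g a)) := by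
    have e1 : ∀ b : Ch n c × Fin S,
        T (star z * z * (p j b * RD P r s0 S K (fun (l : Fin n) g x => ψ (j * n + l) g x)
          b.1 b.2 1)) = (Fintype.card (Ch n c × Fin S) : ℝ)⁻¹ * T (star z * z *
            cfc (fun t => rho s0 S b.2 t ^ 2)
              (r • ∑ g ∈ K, rq P (fun l : Fin n => ψ (j * n + l)) g b.1)) := by
      intro b
      have hm := blockC_mem (P := P) (r := r) (s0 := s0) (K := K) h hn hj b 1
      have hmz := mul_mem hzz hm
      have hcp := h.commute_p i1 i2.le le_rfl i2 hm b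
      rw [← hcp.eq, ← mul_assoc, h.T_mul_p i1 i2.le le_rfl i2 hmz b,
        blockB_RD_one hP hPs hcm r hs0 K b.1 b.2]
    unfold BI RB
    rw [Finset.mul_sum, map_sum, Finset.sum_congr rfl fun b _ => e1 b, ← Finset.mul_sum,
      Fintype.sum_prod_type, Fintype.card_prod, Fintype.card_fin, Nat.cast_mul, mul_inv, mul_assoc,
      Finset.mul_sum]
    congr 1
    refine Finset.sum_congr rfl fun a _ => ?_
    rw [← Fin.sum_univ_eq_sum_range (fun i => T (star z * z * cfc (fun t => rho s0 S i t ^ 2)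
          (r • ∑ g ∈ K, rq P (fun l : Fin n => ψ (j * n + l)) g a))) S, one_div]
  have hcard : (0 : ℝ) < Fintype.card (Ch n c) := by
    have : Nonempty (Fin n) := ⟨⟨0, hn⟩⟩
    have : Nonempty (Fin c) := ⟨⟨0, hc⟩⟩
    exact_mod_cast Fintype.card_pos
  have hconst : ∀ t : ℝ, (Fintype.card (Ch n c) : ℝ)⁻¹ * ∑ _a : Ch n c, t = t := by
    intro t
    rw [Finset.sum_const, Finset.card_univ, nsmul_eq_mul, inv_mul_cancel_left₀ hcard.ne']
  constructor
  · rw [hmain, ← hconst w]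
    exact mul_le_mul_of_nonneg_left (Finset.sum_le_sum fun a _ => (hW a).1) (by positivity)
  · rw [hmain, show (1 / k : ℝ) ^ (n - 1) / 2 * T (star z * z) = w / 2 by rw [hw]; ring,
      ← hconst (w / 2)]
    exact mul_le_mul_of_nonneg_left (Finset.sum_le_sum fun a _ => (hW a).2) (by positivity)

end Pool.Agent.Lib.EqM
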