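import Pool.Agent.Lib.EqM.BlockA

/-!
The increments of a block of copies satisfy the hypotheses of the summation lemma.
-/

open scoped ComplexOrder

namespace Pool.Agent.Lib.EqM

open Pool.Agent.Lib.EqGamma

universe u v

variable {M : Type u} [CStarAlgebra M] {G : Type v} {k n c S : ℕ} {T : M →ₗ[ℝ] ℝ}
  {A : StarSubalgebra ℂ M} {ψ : ℕ → G → Mat k →⋆ₐ[ℂ] M} {p : ℕ → Ch n c × Fin S → M} {J : ℕ}
  {P : Fin c → Mat k}

theorem blockC_skip_mem {n : ℕ} {Q : StarSubalgebra ℂ M} {e : Fin n → M} (h : ∀ l, e l ∈ Q)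
    (j : Fin n) : skip e j ∈ Q := by
  unfold skip
  apply list_prod_mem
  intro x hx
  rw [List.mem_map] at hx
  obtain ⟨l, -, rfl⟩ := hx
  by_cases hl : l = j
  · simp only [hl, if_true]
    exact one_mem Q
  · simp only [hl, if_false]
    exact h l

theorem blockC_RD_mem {Q : StarSubalgebra ℂ M} (hQ : IsClosed (Q : Set M)) {P : Fin c → Mat k}
    {r s0 : ℝ} {K : Finset G} {Ψ : Fin n → G → Mat k → M} (h : ∀ l g x, Ψ l g x ∈ Q)
    (a : Ch n c) (i : ℕ) (x : Mat k) : RD P r s0 S K Ψ a i x ∈ Q := by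
  have h1 : ∀ g, Rq P Ψ a g ∈ Q := fun g => blockC_skip_mem (fun l => h l g _) a.1
  have hr : ∀ (t : ℝ) (y : M), y ∈ Q → t • y ∈ Q := by
    intro t y hy
    rw [← Complex.coe_smul]
    exact Q.smul_mem hy _
  have h2 : (r • ∑ g ∈ K, Rq P Ψ a g) ∈ Q := hr _ _ (sum_mem fun g _ => h1 g)
  have h3 : rp (r • ∑ g ∈ K, Rq P Ψ a g) ∈ Q := by
    unfold rp
    exact hr _ _ (add_mem h2 (star_mem h2))
  have h4 : cfc (hh s0 S i) (rp (r • ∑ g ∈ K, Rq P Ψ a g)) ∈ Q :=
    cfc_mem_of_closed hQ h3 (rp_isSelfAdjoint _).star_eq _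
  unfold RD
  exact mul_mem (mul_mem h4 (hr _ _ (sum_mem fun g _ => mul_mem (h _ _ _) (h1 g)))) h4

theorem blockC_sum_mul {ι : Type*} [Fintype ι] [DecidableEq ι] {q X Y : ι → M}
    (hq : ∀ i, q i * q i = q i) (hq0 : ∀ i j, i ≠ j → q i * q j = 0)
    (hc : ∀ i j, Commute (X i) (q j)) :
    (∑ i, q i * X i) * (∑ i, q i * Y i) = ∑ i, q i * (X i * Y i) := by
  rw [Finset.sum_mul]
  apply Finset.sum_congr rfl
  intro i _
  rw [Finset.mul_sum, Finset.sum_eq_single i]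
  · calc q i * X i * (q i * Y i) = q i * (X i * q i) * Y i := by noncomm_ring
      _ = q i * (q i * X i) * Y i := by rw [(hc i i).eq]
      _ = (q i * q i) * (X i * Y i) := by noncomm_ring
      _ = q i * (X i * Y i) := by rw [hq]
  · intro j _ hj
    calc q i * X i * (q j * Y j) = q i * (X i * q j) * Y j := by noncomm_ring
      _ = q i * (q j * X i) * Y j := by rw [(hc i j).eq]
      _ = (q i * q j) * (X i * Y j) := by noncomm_ring
      _ = 0 := by rw [hq0 i j (Ne.symm hj), zero_mul]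
  · intro hi
    exact absurd (Finset.mem_univ i) hi

theorem blockC_idx (hn : 0 < n) {j : ℕ} (hj : j < J) :
    (j + 1) * n ≤ J * n ∧ j < J * n ∧ ∀ l : Fin n, j * n + l < (j + 1) * n := by
  refine ⟨Nat.mul_le_mul_right n hj, ?_, ?_⟩
  · calc j < J := hj
      _ = J * 1 := (mul_one J).symm
      _ ≤ J * n := Nat.mul_le_mul_left J hn
  · intro l
    have := l.2
    rw [add_mul, one_mul]
    omega

theorem blockC_mem (_h : MSys T A ψ p (J * n)) {r s0 : ℝ} {K : Finset G} {j : ℕ} (hn : 0 < n)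
    (hj : j < J) (b : Ch n c × Fin S) (x : Mat k) :
    RD P r s0 S K (fun (l : Fin n) g x => ψ (j * n + l) g x) b.1 b.2 x ∈
      Qs A ψ p ((j + 1) * n) j :=
  blockC_RD_mem (isClosed_Qs _ _) (fun l g y => ψ_mem_Qs ((blockC_idx hn hj).2.2 l) g y) _ _ _

theorem blockC_avg (_hT : RTr T) (_hS : 0 < S) (Z : ℕ → BF (Ch n c) M) (X : Ch n c × Fin S → M)
    (hX : ∀ (a : Ch n c) (i : Fin S), X (a, i) = BF.ev a (Z i)) :
    (Fintype.card (Ch n c × Fin S) : ℝ)⁻¹ * ∑ b, n1 T (X b) =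
      (1 / S : ℝ) * ∑ i ∈ Finset.range S, n1 (avT T) (Z i) := by
  rw [Fintype.card_prod, Fintype.card_fin, Fintype.sum_prod_type_right, ← Fin.sum_univ_eq_sum_range
    (fun i => n1 (avT T) (Z i)) S, Nat.cast_mul, mul_inv]
  have h1 : ∀ i : Fin S, n1 (avT T) (Z i) =
      (Fintype.card (Ch n c) : ℝ)⁻¹ * ∑ a, n1 T (X (a, i)) := by
    intro i
    rw [n1_avT]
    congr 1
    apply Finset.sum_congr rfl
    intro a _
    rw [hX]
  simp only [h1]
  rw [← Finset.mul_sum]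
  ring

theorem blockC_hψ (h : MSys T A ψ p (J * n)) (hn : 0 < n) {j : ℕ} (hj : j < J) :
    ∀ l l' : Fin n, l ≠ l' → ∀ g g' x x', Commute (ψ (j * n + l) g x) (ψ (j * n + l') g' x') := by
  intro l l' hl g g' x x'
  obtain ⟨h1, -, h3⟩ := blockC_idx (J := J) hn hj
  refine h.comm _ ((h3 l).trans_le h1) _ ((h3 l').trans_le h1) ?_ g g' x x'
  intro h4
  apply hl
  apply Fin.ext
  omega

theorem block_incs_mul (h : MSys T A ψ p (J * n)) (hk : 0 < k) (hn : 0 < n) (hS : 0 < S)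
    (hP : ∀ a, P a * P a = P a) (hPs : ∀ a, star (P a) = P a) {r s0 : ℝ} (hs0 : 0 < s0)
    {K : Finset G} {j : ℕ} (hj : j < J) (x y : Mat k) :
    n1 T (BI P r s0 K ψ p j x * BI P r s0 K ψ p j y - BI P r s0 K ψ p j (x * y)) ≤
    (1 / S : ℝ) * ∑ i ∈ Finset.range S,
      n1 (avT T) (DI (cψ c fun (l : Fin n) => ψ (j * n + l)) (cq hP hPs fun (l : Fin n) =>
          ψ (j * n + l)) r s0 S K i x *
        DI (cψ c fun (l : Fin n) => ψ (j * n + l)) (cq hP hPs fun (l : Fin n) =>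
          ψ (j * n + l)) r s0 S K i y -
        DI (cψ c fun (l : Fin n) => ψ (j * n + l)) (cq hP hPs fun (l : Fin n) =>
          ψ (j * n + l)) r s0 S K i (x * y)) := by
  classical
  obtain ⟨h1, h2, h3⟩ := blockC_idx (J := J) hn hj
  have hc := blockC_hψ h hn hj
  have hm := fun (b : Ch n c × Fin S) (x : Mat k) =>
    blockC_mem (P := P) (r := r) (s0 := s0) (K := K) h hn hj b x
  have hjR : j ≤ J * n := h2.le
  have hcomm : ∀ (b b' : Ch n c × Fin S) (x : Mat k),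
      Commute (RD P r s0 S K (fun (l : Fin n) g x => ψ (j * n + l) g x) b.1 b.2 x) (p j b') :=
    fun b b' x => h.commute_p h1 hjR le_rfl h2 (hm b x) b'
  have hprod : BI P r s0 K ψ p j x * BI P r s0 K ψ p j y - BI P r s0 K ψ p j (x * y) =
      ∑ b : Ch n c × Fin S, p j b *
        (RD P r s0 S K (fun (l : Fin n) g x => ψ (j * n + l) g x) b.1 b.2 x *
          RD P r s0 S K (fun (l : Fin n) g x => ψ (j * n + l) g x) b.1 b.2 y -
          RD P r s0 S K (fun (l : Fin n) g x => ψ (j * n + l) g x) b.1 b.2 (x * y)) := by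
    unfold BI RB
    rw [blockC_sum_mul (h.pidem j h2) (h.porth j h2) (fun b b' => hcomm b b' x),
      ← Finset.sum_sub_distrib]
    apply Finset.sum_congr rfl
    intro b _
    rw [mul_sub]
  rw [hprod]
  refine (h.n1_sum_p_le h1 h2 (fun b => sub_mem (mul_mem (hm b x) (hm b y)) (hm b (x * y)))).trans
    (le_of_eq ?_)
  refine blockC_avg h.tr hS (fun i => DI (cψ c fun (l : Fin n) => ψ (j * n + l)) (cq hP hPs
      fun (l : Fin n) => ψ (j * n + l)) r s0 S K i x *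
        DI (cψ c fun (l : Fin n) => ψ (j * n + l)) (cq hP hPs fun (l : Fin n) =>
          ψ (j * n + l)) r s0 S K i y -
        DI (cψ c fun (l : Fin n) => ψ (j * n + l)) (cq hP hPs fun (l : Fin n) =>
          ψ (j * n + l)) r s0 S K i (x * y)) _ ?_
  intro a i
  simp only [map_sub, map_mul]
  rw [RD_eq h.tr hP hPs hc r hs0 K a i x, RD_eq h.tr hP hPs hc r hs0 K a i y,
    RD_eq h.tr hP hPs hc r hs0 K a i (x * y)]

theorem block_incs_sub (h : MSys T A ψ p (J * n)) (hk : 0 < k) (hn : 0 < n) (hS : 0 < S)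
    (hP : ∀ a, P a * P a = P a) (hPs : ∀ a, star (P a) = P a) {r s0 : ℝ} (hs0 : 0 < s0)
    {K K' : Finset G} {j : ℕ} (hj : j < J) (x : Mat k) :
    n1 T (BI P r s0 K ψ p j x - BI P r s0 K' ψ p j x) ≤
    (1 / S : ℝ) * ∑ i ∈ Finset.range S,
      n1 (avT T) (DI (cψ c fun (l : Fin n) => ψ (j * n + l)) (cq hP hPs fun (l : Fin n) =>
          ψ (j * n + l)) r s0 S K i x -
        DI (cψ c fun (l : Fin n) => ψ (j * n + l)) (cq hP hPs fun (l : Fin n) =>
          ψ (j * n + l)) r s0 S K' i x) := by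
  classical
  obtain ⟨h1, h2, h3⟩ := blockC_idx (J := J) hn hj
  have hc := blockC_hψ h hn hj
  have hm := fun (K : Finset G) (b : Ch n c × Fin S) (x : Mat k) =>
    blockC_mem (P := P) (r := r) (s0 := s0) (K := K) h hn hj b x
  have hdiff : BI P r s0 K ψ p j x - BI P r s0 K' ψ p j x =
      ∑ b : Ch n c × Fin S, p j b *
        (RD P r s0 S K (fun (l : Fin n) g x => ψ (j * n + l) g x) b.1 b.2 x -
          RD P r s0 S K' (fun (l : Fin n) g x => ψ (j * n + l) g x) b.1 b.2 x) := by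
    unfold BI RB
    rw [← Finset.sum_sub_distrib]
    apply Finset.sum_congr rfl
    intro b _
    rw [mul_sub]
  rw [hdiff]
  refine (h.n1_sum_p_le h1 h2 (fun b => sub_mem (hm K b x) (hm K' b x))).trans (le_of_eq ?_)
  refine blockC_avg h.tr hS (fun i => DI (cψ c fun (l : Fin n) => ψ (j * n + l)) (cq hP hPs
      fun (l : Fin n) => ψ (j * n + l)) r s0 S K i x -
        DI (cψ c fun (l : Fin n) => ψ (j * n + l)) (cq hP hPs fun (l : Fin n) =>
          ψ (j * n + l)) r s0 S K' i x) _ ?_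
  intro a i
  simp only [map_sub]
  rw [RD_eq h.tr hP hPs hc r hs0 K a i x, RD_eq h.tr hP hPs hc r hs0 K' a i x]

end Pool.Agent.Lib.EqM
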