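import Pool.Agent.Lib.EqM.AFam

/-!
Independence along iterated ultrafilters for bounded central families that need not consist of
projections (adaptation of `EqGamma.GInd`).
-/

open scoped ComplexOrder
open Filter Topology

namespace Pool.Agent.Lib.EqM

open Pool.Agent.Lib.EqGamma

variable {I A S : Type*} [CStarAlgebra A]

/-- the value of the family `f` at the coordinate `l` -/
noncomputable def hv {m : ℕ} (f : I → A) (hf : ∀ i, ‖f i‖ ≤ 1) (l : Fin m) :
    BF (Fin m → I) A := BF.mk (fun ν => f (ν l)) 1 (fun ν => hf (ν l))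

theorem ev_hv {m : ℕ} (f : I → A) (hf : ∀ i, ‖f i‖ ≤ 1) (l : Fin m) (ν : Fin m → I) :
    BF.ev ν (hv f hf l) = f (ν l) := rfl

variable {U : Ultrafilter I}

/-- a relation that holds asymptotically holds at every coordinate -/
theorem nul_hv {m : ℕ} {x : BF (Fin m → I) A} {f : I → A} (hf : NF (U : Filter I) f) (l : Fin m)
    (hx : ∀ ν, BF.ev ν x = f (ν l)) : Nul (UP U m : Filter (Fin m → I)) x := by
  intro ε hε
  filter_upwards [eventually_marginal U (hf ε hε) l] with ν hν τ hτ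
  rw [hx]
  exact hν τ hτ

theorem nul_hv_comm_aux {m : ℕ} {f g : I → A} (hf : ∀ i, ‖f i‖ ≤ 1) (hg : ∀ i, ‖g i‖ ≤ 1)
    (hgc : ∀ x : A, NF (U : Filter I) fun i => x * g i - g i * x) {l l' : Fin m} (hl : l < l') :
    Nul (UP U m : Filter (Fin m → I)) (hv f hf l * hv g hg l' - hv g hg l' * hv f hf l) := by
  intro ε hε
  have := eventually_pair U (P := fun i i' => ∀ τ : A →ₗ[ℂ] ℂ, TracialState τ →
      reT τ (star (f i * g i' - g i' * f i) * (f i * g i' - g i' * f i)) ≤ ε)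
      (fun i => hgc (f i) ε hε) l l' hl
  filter_upwards [this] with ν hν τ hτ
  rw [map_sub (BF.ev ν), map_mul (BF.ev ν), map_mul (BF.ev ν)]
  exact hν τ hτ

/-- central families at different coordinates commute asymptotically -/
theorem nul_hv_comm {m : ℕ} {f g : I → A} (hf : ∀ i, ‖f i‖ ≤ 1) (hg : ∀ i, ‖g i‖ ≤ 1)
    (hfc : ∀ x : A, NF (U : Filter I) fun i => x * f i - f i * x)
    (hgc : ∀ x : A, NF (U : Filter I) fun i => x * g i - g i * x) {l l' : Fin m} (hl : l ≠ l') :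
    Nul (UP U m : Filter (Fin m → I)) (hv f hf l * hv g hg l' - hv g hg l' * hv f hf l) := by
  rcases lt_or_gt_of_ne hl with h | h
  · exact nul_hv_comm_aux hf hg hgc h
  · have := (nul_hv_comm_aux (m := m) hg hf hfc h).neg
    rwa [neg_sub] at this

theorem cen_hv {m : ℕ} {f : I → A} (hf : ∀ i, ‖f i‖ ≤ 1)
    (hfc : ∀ x : A, NF (U : Filter I) fun i => x * f i - f i * x) (l : Fin m) :
    Cen (UP U m : Filter (Fin m → I)) (hv f hf l) := fun a =>
  nul_hv (hfc a) l fun ν => by rw [map_sub, map_mul, map_mul]; rfl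

theorem comp_cn_hv_succ {m : ℕ} (f : I → A) (hf : ∀ i, ‖f i‖ ≤ 1) (l : Fin m) (i : I) :
    BF.comp (cn i) (hv f hf l.succ) = hv f hf l := BF.ext fun _ => rfl

theorem comp_cn_hv_zero {m : ℕ} (f : I → A) (hf : ∀ i, ‖f i‖ ≤ 1) (i : I) :
    BF.comp (cn (m := m) i) (hv f hf 0) = BF.cst (f i) := BF.ext fun _ => rfl

theorem comp_tl_hv {m : ℕ} (f : I → A) (hf : ∀ i, ‖f i‖ ≤ 1) (l : Fin m) :
    BF.comp tl (hv f hf l) = hv f hf l.succ := BF.ext fun _ => rfl

theorem Tlim_mul_hv_aux (f : S → I → A) (hf : ∀ s i, ‖f s i‖ ≤ 1)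
    (hfc : ∀ s, ∀ x : A, NF (U : Filter I) fun i => x * f s i - f s i * x)
    {g : I → A} (hg : ∀ i, ‖g i‖ ≤ 1) {t : ℝ}
    (hind : ∀ x : A, ∀ ε : ℝ, 0 < ε → ∀ᶠ i in (U : Filter I), ∀ τ : A →ₗ[ℂ] ℂ, TracialState τ →
      ‖τ (x * g i) - (t : ℂ) * τ x‖ ≤ ε) :
    ∀ (m : ℕ) (j : Fin m) (x : BF (Fin m → I) A)
    (_ : x ∈ Algebra.adjoin ℂ ({y | ∃ a, y = BF.cst a} ∪
      {y : BF (Fin m → I) A | ∃ s l, l ≠ j ∧ y = hv (f s) (hf s) l}))
    (τ : (Fin m → I) → A →ₗ[ℂ] ℂ) (hτ : ∀ ν, TracialState (τ ν)),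
    Tlim (UP U m) τ hτ (x * hv g hg j) = t * Tlim (UP U m) τ hτ x := by
  intro m
  induction m with
  | zero => intro j; exact j.elim0
  | succ m ih =>
    intro j x hx τ hτ
    revert hx
    refine Fin.cases ?_ (fun j => ?_) j
    · intro hx
      -- the outermost copy
      obtain ⟨x', hx', rfl⟩ : ∃ x' ∈ Algebra.adjoin ℂ ({y | ∃ a, y = BF.cst a} ∪
          {y : BF (Fin m → I) A | ∃ s l, y = hv (f s) (hf s) l}), BF.comp tl x' = x := by
        have h1 : Algebra.adjoin ℂ ({y | ∃ a, y = BF.cst a} ∪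
            {y : BF (Fin (m + 1) → I) A | ∃ s l, l ≠ 0 ∧ y = hv (f s) (hf s) l}) ≤
            (Algebra.adjoin ℂ ({y | ∃ a, y = BF.cst a} ∪
              {y : BF (Fin m → I) A | ∃ s l, y = hv (f s) (hf s) l})).map
              (BF.comp (A := A) (tl : (Fin (m + 1) → I) → (Fin m → I))).toAlgHom := by
          apply Algebra.adjoin_le
          rintro y (⟨a, rfl⟩ | ⟨s, l, hl, rfl⟩)
          · exact ⟨BF.cst a, Algebra.subset_adjoin (Or.inl ⟨a, rfl⟩), rfl⟩
          · obtain ⟨l', rfl⟩ := Fin.exists_succ_eq.2 hl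
            exact ⟨hv (f s) (hf s) l', Algebra.subset_adjoin (Or.inr ⟨s, l', rfl⟩), rfl⟩
        exact h1 hx
      have hdec : x' ∈ Dec (UP U m : Filter (Fin m → I)) A := by
        refine adjoin_le_dec ?_ hx'
        rintro y (⟨a, rfl⟩ | ⟨s, l, rfl⟩)
        · exact Or.inl ⟨a, rfl⟩
        · exact Or.inr (cen_hv (hf s) (hfc s) l)
      have hQ := QQ.dec (UP U m) hind hdec
      have e1 : ∀ i, BF.comp (cn i) (BF.comp tl x' * hv g hg 0) = x' * BF.cst (g i) := by
        intro i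
        rw [map_mul, comp_cn_tl, comp_cn_hv_zero]
      have t1 := tendsto_Tlim_succ U τ hτ (BF.comp tl x' * hv g hg 0)
      have t2 := tendsto_Tlim_succ U τ hτ (BF.comp tl x')
      have t3 := t1.sub (t2.const_mul (t : ℂ))
      have t4 : Tendsto (fun i => Tlim (UP U m) (fun ν => τ (cn i ν)) (fun ν => hτ (cn i ν))
          (BF.comp (cn i) (BF.comp tl x' * hv g hg 0)) -
          (t : ℂ) * Tlim (UP U m) (fun ν => τ (cn i ν)) (fun ν => hτ (cn i ν))
            (BF.comp (cn i) (BF.comp tl x'))) (U : Filter I) (𝓝 0) := by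
        rw [Metric.tendsto_nhds]
        intro ε hε
        filter_upwards [hQ (ε / 2) (by positivity)] with i hi
        have h5 := hi (fun ν => τ (cn i ν)) (fun ν => hτ (cn i ν))
        rw [dist_zero_right, e1, comp_cn_tl]
        linarith
      have h6 := tendsto_nhds_unique t3 t4
      exact sub_eq_zero.1 h6
    · intro hx
      apply Tlim_succ_congr U hτ
      intro i
      rw [map_mul, comp_cn_hv_succ]
      refine ih j _ ?_ _ _
      have h1 : Algebra.adjoin ℂ ({y | ∃ a, y = BF.cst a} ∪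
          {y : BF (Fin (m + 1) → I) A | ∃ s l, l ≠ j.succ ∧ y = hv (f s) (hf s) l}) ≤
          (Algebra.adjoin ℂ ({y | ∃ a, y = BF.cst a} ∪
            {y : BF (Fin m → I) A | ∃ s l, l ≠ j ∧ y = hv (f s) (hf s) l})).comap
            (BF.comp (A := A) (cn (m := m) i)).toAlgHom := by
        apply Algebra.adjoin_le
        rintro y (⟨a, rfl⟩ | ⟨s, l, hl, rfl⟩)
        · exact Algebra.subset_adjoin (Or.inl ⟨a, rfl⟩)
        · revert hl
          refine Fin.cases ?_ (fun l => ?_) l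
          · intro _
            change BF.comp (cn i) (hv (f s) (hf s) 0) ∈
              Algebra.adjoin ℂ ({y | ∃ a, y = BF.cst a} ∪
                {y : BF (Fin m → I) A | ∃ s l, l ≠ j ∧ y = hv (f s) (hf s) l})
            rw [comp_cn_hv_zero]
            exact Algebra.subset_adjoin (Or.inl ⟨_, rfl⟩)
          · intro hl
            change BF.comp (cn i) (hv (f s) (hf s) l.succ) ∈
              Algebra.adjoin ℂ ({y | ∃ a, y = BF.cst a} ∪
                {y : BF (Fin m → I) A | ∃ s l, l ≠ j ∧ y = hv (f s) (hf s) l})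
            rw [comp_cn_hv_succ]
            exact Algebra.subset_adjoin (Or.inr ⟨s, l, fun h => hl (by rw [h]), rfl⟩)
      exact h1 hx

/-- independence of the coordinate `j` from the algebra generated by the constants and central
families at the other coordinates -/
theorem Tlim_mul_hv {m : ℕ} (f : S → I → A) (hf : ∀ s i, ‖f s i‖ ≤ 1)
    (hfc : ∀ s, ∀ x : A, NF (U : Filter I) fun i => x * f s i - f s i * x)
    {g : I → A} (hg : ∀ i, ‖g i‖ ≤ 1) {t : ℝ}
    (hind : ∀ x : A, ∀ ε : ℝ, 0 < ε → ∀ᶠ i in (U : Filter I), ∀ τ : A →ₗ[ℂ] ℂ, TracialState τ →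
      ‖τ (x * g i) - (t : ℂ) * τ x‖ ≤ ε) (j : Fin m) {x : BF (Fin m → I) A}
    (hx : x ∈ StarAlgebra.adjoin ℂ ({y | ∃ a, y = BF.cst a} ∪
      {y : BF (Fin m → I) A | ∃ s l, l ≠ j ∧ y = hv (f s) (hf s) l}))
    (τ : (Fin m → I) → A →ₗ[ℂ] ℂ) (hτ : ∀ ν, TracialState (τ ν)) :
    Tlim (UP U m) τ hτ (x * hv g hg j) = t * Tlim (UP U m) τ hτ x := by
  -- add the adjoints to the family
  let f' : S ⊕ S → I → A := Sum.elim f (fun s i => star (f s i))
  have hf' : ∀ s i, ‖f' s i‖ ≤ 1 := by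
    rintro (s | s) i
    · exact hf s i
    · change ‖star (f s i)‖ ≤ 1
      rw [norm_star]
      exact hf s i
  have hfc' : ∀ s, ∀ x : A, NF (U : Filter I) fun i => x * f' s i - f' s i * x := by
    rintro (s | s) y
    · exact hfc s y
    · intro ε hε
      filter_upwards [hfc s (star y) ε hε] with i hi τ hτ
      have h1 := hi τ hτ
      change reT τ (star (y * star (f s i) - star (f s i) * y) *
        (y * star (f s i) - star (f s i) * y)) ≤ ε
      rw [hτ.rtr.tracial]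
      convert h1 using 2
      simp only [star_sub, star_mul, star_star]
      noncomm_ring
  refine Tlim_mul_hv_aux f' hf' hfc' hg hind m j x ?_ τ hτ
  have h1 : Algebra.adjoin ℂ (({y | ∃ a, y = BF.cst a} ∪
      {y : BF (Fin m → I) A | ∃ s l, l ≠ j ∧ y = hv (f s) (hf s) l}) ∪
      star ({y | ∃ a, y = BF.cst a} ∪
      {y : BF (Fin m → I) A | ∃ s l, l ≠ j ∧ y = hv (f s) (hf s) l})) ≤
      Algebra.adjoin ℂ ({y | ∃ a, y = BF.cst a} ∪
      {y : BF (Fin m → I) A | ∃ s l, l ≠ j ∧ y = hv (f' s) (hf' s) l}) := by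
    apply Algebra.adjoin_le
    rintro y (hy | hy)
    · rcases hy with ⟨a, rfl⟩ | ⟨s, l, hl, rfl⟩
      · exact Algebra.subset_adjoin (Or.inl ⟨a, rfl⟩)
      · exact Algebra.subset_adjoin (Or.inr ⟨Sum.inl s, l, hl, rfl⟩)
    · rcases hy with ⟨a, ha⟩ | ⟨s, l, hl, hk⟩
      · refine Algebra.subset_adjoin (Or.inl ⟨star a, ?_⟩)
        rw [← star_star y, ha, BF.cst_star]
      · refine Algebra.subset_adjoin (Or.inr ⟨Sum.inr s, l, hl, ?_⟩)
        rw [← star_star y, hk]
        apply BF.ext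
        intro ν
        rw [map_star]
        rfl
  exact h1 hx

end Pool.Agent.Lib.EqM
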