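import Pool.Agent.Lib.EqGamma.GTr
import Pool.Agent.Lib.EqM.Defs

/-!
Traces on copies of the matrix algebra, and a family of rank one projections.
-/

open scoped ComplexOrder

namespace Pool.Agent.Lib.EqM

open Pool.Agent.Lib.EqGamma

variable {M : Type*} [CStarAlgebra M] {T : M →ₗ[ℝ] ℝ} {k : ℕ}

private theorem T_off (hT : RTr T) (φ : Mat k →⋆ₐ[ℂ] M) {z : M} (hz : ∀ x, Commute z (φ x))
    {i j : Fin k} (hij : i ≠ j) (c : ℂ) : T (z * φ (Matrix.single i j c)) = 0 := by
  have h1 : (Matrix.single i j c : Mat k) = Matrix.single i i 1 * Matrix.single i j c := by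
    rw [Matrix.single_mul_single_same, one_mul]
  have h2 : z * φ (Matrix.single i j c) =
      z * φ (Matrix.single i i 1) * φ (Matrix.single i j c) := by
    conv_lhs => rw [h1]
    rw [map_mul, mul_assoc]
  rw [h2, hT.tracial, ← mul_assoc, ← (hz _).eq, mul_assoc, ← map_mul,
    Matrix.single_mul_single_of_ne (h := hij.symm), map_zero, mul_zero, map_zero]

private theorem T_diag (hT : RTr T) (φ : Mat k →⋆ₐ[ℂ] M) {z : M} (hz : ∀ x, Commute z (φ x))
    (i j : Fin k) : T (z * φ (Matrix.single i i 1)) = T (z * φ (Matrix.single j j 1)) := by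
  have h1 : (Matrix.single i i 1 : Mat k) = Matrix.single i j 1 * Matrix.single j i 1 := by
    rw [Matrix.single_mul_single_same, one_mul]
  have h2 : (Matrix.single j i 1 : Mat k) * Matrix.single i j 1 = Matrix.single j j 1 := by
    rw [Matrix.single_mul_single_same, one_mul]
  rw [h1, map_mul φ, ← mul_assoc, hT.tracial, ← mul_assoc, ← (hz _).eq, mul_assoc, ← map_mul, h2]

/-- independence of a copy of the matrices and the elements that commute with it -/
theorem T_mul_hom (hT : RTr T) (φ : Mat k →⋆ₐ[ℂ] M) {z : M} (hz : ∀ x, Commute z (φ x))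
    {P : Mat k} (hP : star P = P) (hP1 : P.trace = 1) : T (z * φ P) = 1 / k * T z := by
  have hk : 0 < k := by
    rcases Nat.eq_zero_or_pos k with h | h
    · subst h
      simp [Matrix.trace] at hP1
    · exact h
  let i0 : Fin k := ⟨0, hk⟩
  have hone : (1 : Mat k) = ∑ i : Fin k, Matrix.single i i 1 := by
    ext a b
    rw [Matrix.sum_apply]
    by_cases hab : a = b
    · subst hab
      simp [Matrix.single_apply]
    · rw [Matrix.one_apply_ne hab]
      symm
      apply Finset.sum_eq_zero
      intro x _
      rw [Matrix.single_apply, if_neg]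
      rintro ⟨rfl, h⟩
      exact hab h
  have hsum : ∑ i : Fin k, T (z * φ (Matrix.single i i 1)) = T z := by
    rw [← map_sum, ← Finset.mul_sum, ← map_sum, ← hone, map_one, mul_one]
  have hd : ∀ i, T (z * φ (Matrix.single i i 1)) = 1 / k * T z := by
    intro i
    have h1 : ∑ j : Fin k, T (z * φ (Matrix.single j j 1)) =
        k * T (z * φ (Matrix.single i i 1)) := by
      rw [Finset.sum_congr rfl (fun j _ => T_diag hT φ hz j i), Finset.sum_const,
        Finset.card_univ, Fintype.card_fin, nsmul_eq_mul]
    rw [← hsum, h1, one_div, ← mul_assoc, inv_mul_cancel₀ (by positivity), one_mul]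
  have hdiag : ∀ i, T (z * φ (Matrix.single i i (P i i))) = (P i i).re * (1 / k * T z) := by
    intro i
    have h1 : P i i = ((P i i).re : ℂ) := by
      have h2 := congrFun (congrFun hP i) i
      rw [Matrix.star_apply] at h2
      exact (Complex.conj_eq_iff_re.1 h2).symm
    have h3 : (Matrix.single i i (P i i) : Mat k) = ((P i i).re : ℂ) • Matrix.single i i 1 := by
      rw [Matrix.smul_single, smul_eq_mul, mul_one, ← h1]
    rw [h3, map_smul, Complex.coe_smul, mul_smul_comm, map_smul, smul_eq_mul, hd]
  have htr : ∑ i : Fin k, (P i i).re = 1 := by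
    have h1 := congrArg Complex.re hP1
    rw [Matrix.trace] at h1
    simpa [Matrix.diag] using h1
  conv_lhs => rw [Matrix.matrix_eq_sum_single P]
  simp only [map_sum, Finset.mul_sum]
  have hr : 1 / (k : ℝ) * T z = ∑ i : Fin k, (P i i).re * (1 / k * T z) := by
    rw [← Finset.sum_mul, htr, one_mul]
  rw [hr]
  apply Finset.sum_congr rfl
  intro i _
  rw [Finset.sum_eq_single i]
  · exact hdiag i
  · intro j _ hj
    exact T_off hT φ hz (fun h => hj h.symm) _
  · intro h
    exact absurd (Finset.mem_univ i) h

/-- the four fourth roots of unity -/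
private def om (w : Fin 4) : ℂ := ![1, Complex.I, -1, -Complex.I] w

private theorem om_norm (w : Fin 4) : ‖om w‖ = 1 := by
  fin_cases w <;> simp [om]

private theorem om_mul_star (w : Fin 4) : om w * star (om w) = 1 := by
  have h := om_norm w
  rw [Complex.star_def, Complex.mul_conj, Complex.normSq_eq_norm_sq, h]
  norm_num

private noncomputable def vv {k : ℕ} (i j : Fin k) (w : Fin 4) : Fin k → ℂ :=
  fun a => (if a = i then 1 else 0) + om w * (if a = j then 1 else 0)

private noncomputable def PP {k : ℕ} (x : Fin k × Fin k × Fin 4) : Mat k :=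
  if x.1 = x.2.1 then Matrix.single x.1 x.1 1
  else (1 / 2 : ℂ) • Matrix.vecMulVec (vv x.1 x.2.1 x.2.2) (star (vv x.1 x.2.1 x.2.2))

private theorem vv_dot {k : ℕ} {i j : Fin k} (h : i ≠ j) (w : Fin 4) :
    star (vv i j w) ⬝ᵥ vv i j w = 2 := by
  have h1 : ∀ a, star (vv i j w) a * vv i j w a =
      (if a = i then 1 else 0) + (if a = j then 1 else 0) := by
    intro a
    have hw := om_mul_star w
    rw [mul_comm] at hw
    simp only [Pi.star_apply, vv]
    by_cases h1 : a = i
    · have h2 : a ≠ j := fun h' => h (h1.symm.trans h')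
      simp [h1, h]
    · by_cases h2 : a = j
      · subst h2
        simp only [if_neg h1, if_true, zero_add, mul_one]
        exact hw
      · simp [h1, h2]
  unfold dotProduct
  rw [Finset.sum_congr rfl (fun a _ => h1 a), Finset.sum_add_distrib]
  simp
  norm_num

private theorem key (A B C D : ℂ) (hC : star C = C) (hD : star D = D) :
    ∑ w : Fin 4, 1 / 2 * om w * (1 / 2 * ((A + om w * B) * star (C + om w * D))) = A * D := by
  simp only [Fin.sum_univ_four, star_add, star_mul, hC, hD]
  simp only [om, Matrix.cons_val_zero, Matrix.cons_val_one, Matrix.cons_val, star_one, star_neg,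
    Complex.star_def, Complex.conj_I]
  ring_nf
  simp only [Complex.I_sq]
  ring

/-- a finite family of rank one projections that spans the matrices with coefficients at most one -/
theorem exists_projections (k : ℕ) : ∃ (c : ℕ) (P : Fin c → Mat k),
    (∀ a, P a * P a = P a) ∧ (∀ a, star (P a) = P a) ∧ (∀ a, (P a).trace = 1) ∧
    ∀ i j, ∃ lam : Fin c → ℂ, (∀ a, ‖lam a‖ ≤ 1) ∧
      Matrix.single i j (1 : ℂ) = ∑ a, lam a • P a := by
  classical
  let e := Fintype.equivFin (Fin k × Fin k × Fin 4)
  refine ⟨_, fun a => PP (e.symm a), ?_, ?_, ?_, ?_⟩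
  · intro a
    obtain ⟨⟨i, j, w⟩, hx⟩ : ∃ x, e.symm a = x := ⟨_, rfl⟩
    simp only [hx]
    unfold PP
    by_cases h : i = j
    · simp only [h, if_true]
      rw [Matrix.single_mul_single_same, one_mul]
    · simp only [h, if_false]
      rw [smul_mul_smul_comm, Matrix.vecMulVec_mul_vecMulVec, vv_dot h, Matrix.vecMulVec_smul,
        smul_smul]
      congr 1
      norm_num
  · intro a
    obtain ⟨⟨i, j, w⟩, hx⟩ : ∃ x, e.symm a = x := ⟨_, rfl⟩
    simp only [hx]
    unfold PP
    by_cases h : i = j
    · simp only [h, if_true]
      rw [Matrix.star_eq_conjTranspose, Matrix.conjTranspose_single, star_one]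
    · simp only [h, if_false]
      rw [star_smul, Matrix.star_eq_conjTranspose, Matrix.conjTranspose_vecMulVec, star_star]
      congr 1
      simp
  · intro a
    obtain ⟨⟨i, j, w⟩, hx⟩ : ∃ x, e.symm a = x := ⟨_, rfl⟩
    simp only [hx]
    unfold PP
    by_cases h : i = j
    · simp only [h, if_true]
      rw [Matrix.trace_single_eq_same]
    · simp only [h, if_false]
      rw [Matrix.trace_smul, Matrix.trace_vecMulVec, dotProduct_comm, vv_dot h]
      norm_num
  · intro i j
    by_cases h : i = j
    · subst h
      refine ⟨fun a => if e.symm a = (i, i, 0) then 1 else 0, ?_, ?_⟩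
      · intro a
        by_cases h : e.symm a = (i, i, 0) <;> simp [h]
      · rw [Finset.sum_eq_single (e (i, i, 0))]
        · simp [PP]
        · intro b _ hb
          have : e.symm b ≠ (i, i, 0) := by
            intro h'
            apply hb
            rw [← h', Equiv.apply_symm_apply]
          simp [this]
        · intro h
          exact absurd (Finset.mem_univ _) h
    · refine ⟨fun a => if (e.symm a).1 = i ∧ (e.symm a).2.1 = j then (1 / 2) * om (e.symm a).2.2
        else 0, ?_, ?_⟩
      · intro a
        by_cases h : (e.symm a).1 = i ∧ (e.symm a).2.1 = j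
        · simp only [h]
          simp [om_norm]
          norm_num
        · simp [h]
      · rw [← Equiv.sum_comp e]
        simp only [Equiv.symm_apply_apply]
        rw [Fintype.sum_prod_type, Finset.sum_eq_single i, Fintype.sum_prod_type,
          Finset.sum_eq_single j]
        · simp only [true_and, if_true, PP, h, if_false]
          ext a b
          simp only [Matrix.sum_apply, Matrix.smul_apply, Matrix.vecMulVec_apply, smul_eq_mul,
            Matrix.single_apply, Pi.star_apply, vv]
          have h5 : (if i = a ∧ j = b then (1 : ℂ) else 0) =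
              (if a = i then 1 else 0) * (if b = j then 1 else 0) := by
            by_cases h1 : a = i
            · by_cases h2 : b = j
              · rw [if_pos ⟨h1.symm, h2.symm⟩, if_pos h1, if_pos h2, one_mul]
              · rw [if_neg (fun h => h2 h.2.symm), if_neg h2, mul_zero]
            · rw [if_neg (fun h => h1 h.1.symm), if_neg h1, zero_mul]
          rw [h5]
          refine (key _ _ _ _ ?_ ?_).symm
          · by_cases h1 : b = i <;> simp [h1]
          · by_cases h1 : b = j <;> simp [h1]
        · intro b _ hb
          simp [hb]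
        · intro h
          exact absurd (Finset.mem_univ _) h
        · intro b _ hb
          simp [hb]
        · intro h
          exact absurd (Finset.mem_univ _) h

end Pool.Agent.Lib.EqM
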