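import Pool.Agent.Lib.EqM.L2

/-!
The `L^1` seminorm of a real tracial functional.
-/

open scoped ComplexOrder

namespace Pool.Agent.Lib.EqM

open Pool.Agent.Lib.EqGamma

variable {M : Type*} [CStarAlgebra M] {T : M →ₗ[ℝ] ℝ}

/-- the absolute value is selfadjoint -/
theorem star_ab (x : M) : star (ab x) = ab x :=
  (show IsSelfAdjoint (ab x) from cfc_predicate _ _).star_eq

theorem ab_mul_ab (x : M) : ab x * ab x = star x * x := by
  unfold ab
  rw [← cfc_mul Real.sqrt Real.sqrt (star x * x)]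
  conv_rhs => rw [← cfc_id ℝ (star x * x) (IsSelfAdjoint.star_mul_self x)]
  refine cfc_congr fun t ht => ?_
  have h := spectrum_star_mul_self_nonneg t ht
  simp only [Real.mul_self_sqrt h, id]

theorem ab_nonneg [PartialOrder M] [StarOrderedRing M] (x : M) : 0 ≤ ab x :=
  cfc_nonneg fun t _ => Real.sqrt_nonneg t

theorem ab_of_nonneg [PartialOrder M] [StarOrderedRing M] {x : M} (hx : 0 ≤ x) : ab x = x := by
  have hsa : IsSelfAdjoint x := hx.isSelfAdjoint
  unfold ab
  rw [hsa.star_eq, ← sq, ← cfc_comp_pow Real.sqrt 2 x]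
  conv_rhs => rw [← cfc_id ℝ x hsa]
  refine cfc_congr fun t ht => ?_
  have h := spectrum_nonneg_of_nonneg hx ht
  simp only [Real.sqrt_sq h, id]

theorem norm_ab (x : M) : ‖ab x‖ = ‖x‖ := by
  have h1 : ‖ab x‖ * ‖ab x‖ = ‖x‖ * ‖x‖ := by
    rw [← CStarRing.norm_star_mul_self, star_ab, ab_mul_ab, CStarRing.norm_star_mul_self]
  exact (mul_self_inj (norm_nonneg _) (norm_nonneg _)).1 h1

theorem map_ab {N : Type*} [CStarAlgebra N] (φ : M →⋆ₐ[ℂ] N) (x : M) : φ (ab x) = ab (φ x) := by
  unfold ab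
  have hφ : Continuous φ :=
    AddMonoidHomClass.continuous_of_bound φ 1 (fun a => by
      rw [one_mul]; exact NonUnitalStarAlgHom.norm_apply_le φ a)
  have h := StarAlgHomClass.map_cfc φ Real.sqrt (star x * x) Real.continuous_sqrt.continuousOn hφ
    (IsSelfAdjoint.star_mul_self x) (by
      rw [map_mul, map_star]; exact IsSelfAdjoint.star_mul_self _)
  rw [h, map_mul, map_star]

/-- everything that commutes with `x` and `star x` commutes with `ab x` -/
theorem commute_ab {x y : M} (h1 : Commute y x) (h2 : Commute y (star x)) : Commute y (ab x) := by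
  have h3 : Commute (star x * x) y := (h2.mul_right h1).symm
  exact (h3.cfc_real Real.sqrt).symm

theorem n1_nonneg (hT : RTr T) (x : M) : 0 ≤ n1 T x := by
  let _ := CStarAlgebra.spectralOrder M
  have := CStarAlgebra.spectralOrderedRing M
  exact hT.nonneg (ab_nonneg x)

theorem n1_of_nonneg [PartialOrder M] [StarOrderedRing M] {x : M} (hx : 0 ≤ x) :
    n1 T x = T x := by
  unfold n1
  rw [ab_of_nonneg hx]

private theorem cfc_id_mul {h : M} (hsa : IsSelfAdjoint h) (f : ℝ → ℝ) (hf : ContinuousOn f (spectrum ℝ h)) :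
    cfc (fun t : ℝ => t * f t) h = h * cfc f h := by
  rw [cfc_mul (fun t : ℝ => t) f h continuousOn_id hf, cfc_id' ℝ h hsa]

private theorem cfc_mul_id_mul {h : M} (hsa : IsSelfAdjoint h) (f : ℝ → ℝ) (hf : ContinuousOn f (spectrum ℝ h)) :
    cfc (fun t : ℝ => f t * (t * f t)) h = cfc f h * (h * cfc f h) := by
  rw [cfc_mul f (fun t : ℝ => t * f t) h hf (continuousOn_id.mul hf), cfc_id_mul hsa f hf]

/-- polar decomposition with a parameter -/
private theorem polar (x : M) {i : ℝ} (hi : 0 < i) :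
    x = (x * cfc (fun t : ℝ => (√(√t + i))⁻¹) (star x * x)) *
      cfc (fun t : ℝ => √(√t + i)) (star x * x) := by
  have hpos : ∀ t : ℝ, 0 < √t + i := fun t => by have := Real.sqrt_nonneg t; linarith
  have hpos' : ∀ t : ℝ, √(√t + i) ≠ 0 := fun t => (Real.sqrt_pos.2 (hpos t)).ne'
  have hc1 : ContinuousOn (fun t : ℝ => √(√t + i)) (spectrum ℝ (star x * x)) := by fun_prop
  have hc2 : ContinuousOn (fun t : ℝ => (√(√t + i))⁻¹) (spectrum ℝ (star x * x)) :=
    hc1.inv₀ fun t _ => hpos' t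
  rw [mul_assoc, ← cfc_mul _ _ (star x * x) hc2 hc1]
  rw [cfc_congr (g := fun _ => (1 : ℝ)) (fun t _ => inv_mul_cancel₀ (hpos' t))]
  rw [cfc_const_one ℝ (star x * x) (IsSelfAdjoint.star_mul_self x), mul_one]

/-- duality, first half -/
theorem abs_T_mul_le_n1 (hT : RTr T) (x y : M) : |T (x * y)| ≤ n1 T x * ‖y‖ := by
  let _ := CStarAlgebra.spectralOrder M
  have := CStarAlgebra.spectralOrderedRing M
  have hT1 : 0 ≤ T 1 := by have := hT.nonneg' 1; simpa using this
  have hn := n1_nonneg hT x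
  have hsa : IsSelfAdjoint (star x * x) := IsSelfAdjoint.star_mul_self x
  have key : ∀ i : ℝ, 0 < i → |T (x * y)| ≤ √(n1 T x * (n1 T x + i * T 1)) * ‖y‖ := by
    intro i hi
    have hpos : ∀ t : ℝ, 0 < √t + i := fun t => by have := Real.sqrt_nonneg t; linarith
    have hpos' : ∀ t : ℝ, √(√t + i) ≠ 0 := fun t => (Real.sqrt_pos.2 (hpos t)).ne'
    have hc1 : ContinuousOn (fun t : ℝ => √(√t + i)) (spectrum ℝ (star x * x)) := by fun_prop
    have hc2 : ContinuousOn (fun t : ℝ => (√(√t + i))⁻¹) (spectrum ℝ (star x * x)) :=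
      hc1.inv₀ fun t _ => hpos' t
    set g := cfc (fun t : ℝ => (√(√t + i))⁻¹) (star x * x) with hg
    set b := cfc (fun t : ℝ => √(√t + i)) (star x * x) with hb
    have hgs : star g = g := (show IsSelfAdjoint g from cfc_predicate _ _).star_eq
    have hbs : star b = b := (show IsSelfAdjoint b from cfc_predicate _ _).star_eq
    have hx : x = (x * g) * b := polar x hi
    have ha2 : T (star (x * g) * (x * g)) ≤ n1 T x := by
      have e1 : star (x * g) * (x * g) = cfc (fun t : ℝ => (√(√t + i))⁻¹ * (t * (√(√t + i))⁻¹)) (star x * x) := by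
        rw [cfc_mul_id_mul hsa _ hc2, star_mul, hgs]
        simp only [mul_assoc, hg]
      rw [e1]
      refine hT.mono (cfc_mono (fun t ht => ?_) (hc2.mul (continuousOn_id.mul hc2)) (by fun_prop))
      have ht0 := spectrum_star_mul_self_nonneg t ht
      have h1 : (√(√t + i))⁻¹ * (t * (√(√t + i))⁻¹) = t / (√t + i) := by
        have h2 : (√(√t + i))⁻¹ * (√(√t + i))⁻¹ = (√t + i)⁻¹ := by
          rw [← mul_inv, Real.mul_self_sqrt (hpos t).le]
        rw [div_eq_mul_inv, ← h2]
        ring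
      rw [h1, div_le_iff₀ (hpos t)]
      have h3 := Real.mul_self_sqrt ht0
      nlinarith [Real.sqrt_nonneg t]
    have hb2 : T (star b * b) = n1 T x + i * T 1 := by
      have e1 : star b * b = ab x + algebraMap ℝ M i := by
        rw [hbs, hb, ← cfc_mul _ _ (star x * x) hc1 hc1]
        rw [cfc_congr (g := fun t => √t + i) (fun t _ => Real.mul_self_sqrt (hpos t).le)]
        rw [cfc_add_const i Real.sqrt (star x * x)]
        rfl
      rw [e1, map_add, RTr.algebraMap_apply]
      rfl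
    have h1 : |T (x * y)| ≤ l2 T (x * g) * l2 T (b * y) := by
      conv_lhs => rw [hx, mul_assoc]
      exact abs_T_mul_le_l2 hT _ _
    have h2 : l2 T (b * y) ≤ l2 T b * ‖y‖ := l2_mul_right_le hT b y
    have h3 : l2 T (x * g) ≤ √(n1 T x) := Real.sqrt_le_sqrt ha2
    have h4 : l2 T b = √(n1 T x + i * T 1) := by unfold l2; rw [hb2]
    calc |T (x * y)| ≤ l2 T (x * g) * l2 T (b * y) := h1
      _ ≤ √(n1 T x) * (√(n1 T x + i * T 1) * ‖y‖) := by
          rw [← h4]
          exact mul_le_mul h3 h2 (l2_nonneg T _) (Real.sqrt_nonneg _)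
      _ = _ := by rw [Real.sqrt_mul hn]; ring
  have hlim : Filter.Tendsto (fun i : ℝ => √(n1 T x * (n1 T x + i * T 1)) * ‖y‖)
      (nhdsWithin 0 (Set.Ioi 0)) (nhds (√(n1 T x * (n1 T x + 0 * T 1)) * ‖y‖)) := by
    apply Filter.Tendsto.mono_left _ nhdsWithin_le_nhds
    have : Continuous fun i : ℝ => √(n1 T x * (n1 T x + i * T 1)) * ‖y‖ := by fun_prop
    exact this.tendsto 0
  have h5 := ge_of_tendsto hlim (by
    filter_upwards [self_mem_nhdsWithin] with i hi using key i hi)
  rwa [zero_mul, add_zero, Real.sqrt_mul_self hn] at h5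

/-- duality, second half -/
theorem n1_le_of (hT : RTr T) {x : M} {c : ℝ} (h : ∀ y : M, ‖y‖ ≤ 1 → T (x * y) ≤ c) :
    n1 T x ≤ c := by
  let _ := CStarAlgebra.spectralOrder M
  have := CStarAlgebra.spectralOrderedRing M
  have hT1 : 0 ≤ T 1 := by have := hT.nonneg' 1; simpa using this
  have hsa : IsSelfAdjoint (star x * x) := IsSelfAdjoint.star_mul_self x
  have key : ∀ i : ℝ, 0 < i → n1 T x - i * T 1 ≤ c := by
    intro i hi
    have hpos : ∀ t : ℝ, 0 < √t + i := fun t => by have := Real.sqrt_nonneg t; linarith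
    have hc1 : ContinuousOn (fun t : ℝ => √t + i) (spectrum ℝ (star x * x)) := by fun_prop
    have hc2 : ContinuousOn (fun t : ℝ => (√t + i)⁻¹) (spectrum ℝ (star x * x)) :=
      hc1.inv₀ fun t _ => (hpos t).ne'
    set g := cfc (fun t : ℝ => (√t + i)⁻¹) (star x * x) with hg
    have hgs : star g = g := (show IsSelfAdjoint g from cfc_predicate _ _).star_eq
    have hy : ‖g * star x‖ ≤ 1 := by
      have h1 : ‖g * star x‖ * ‖g * star x‖ ≤ 1 * 1 := by
        rw [← CStarRing.norm_self_mul_star, star_mul, star_star, hgs]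
        have e1 : g * star x * (x * g) = cfc (fun t : ℝ => (√t + i)⁻¹ * (t * (√t + i)⁻¹)) (star x * x) := by
          rw [cfc_mul_id_mul hsa _ hc2]
          simp only [mul_assoc, hg]
        rw [e1, one_mul]
        refine norm_cfc_le zero_le_one fun t ht => ?_
        have ht0 := spectrum_star_mul_self_nonneg t ht
        have h2 : (√t + i)⁻¹ * (t * (√t + i)⁻¹) = t / (√t + i) ^ 2 := by
          rw [div_eq_mul_inv, ← inv_pow]; ring
        have h3 := Real.mul_self_sqrt ht0
        rw [h2, Real.norm_eq_abs, abs_of_nonneg (by positivity), div_le_one (by have := hpos t; positivity)]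
        nlinarith [Real.sqrt_nonneg t]
      nlinarith [norm_nonneg (g * star x)]
    have h1 := h (g * star x) hy
    have h2 : T (x * (g * star x)) = T (cfc (fun t : ℝ => t * (√t + i)⁻¹) (star x * x)) := by
      rw [cfc_id_mul hsa _ hc2, ← hg, ← mul_assoc, hT.tracial, ← mul_assoc]
    have h3 : T (cfc (fun t : ℝ => √t - i) (star x * x)) ≤ T (cfc (fun t : ℝ => t * (√t + i)⁻¹) (star x * x)) := by
      refine hT.mono (cfc_mono (fun t ht => ?_) (by fun_prop) (continuousOn_id.mul hc2))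
      have ht0 := spectrum_star_mul_self_nonneg t ht
      rw [← div_eq_mul_inv, le_div_iff₀ (hpos t)]
      have h3 := Real.mul_self_sqrt ht0
      nlinarith [Real.sqrt_nonneg t, sq_nonneg i]
    have h4 : T (cfc (fun t : ℝ => √t - i) (star x * x)) = n1 T x - i * T 1 := by
      rw [cfc_sub Real.sqrt (fun _ => i) (star x * x) (by fun_prop) (by fun_prop), cfc_const i _ hsa, map_sub, RTr.algebraMap_apply]
      rfl
    linarith
  have hlim : Filter.Tendsto (fun i : ℝ => n1 T x - i * T 1)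
      (nhdsWithin 0 (Set.Ioi 0)) (nhds (n1 T x - 0 * T 1)) := by
    apply Filter.Tendsto.mono_left _ nhdsWithin_le_nhds
    have : Continuous fun i : ℝ => n1 T x - i * T 1 := by fun_prop
    exact this.tendsto 0
  have h5 := le_of_tendsto hlim (by
    filter_upwards [self_mem_nhdsWithin] with i hi using key i hi)
  rwa [zero_mul, sub_zero] at h5

theorem n1_zero (T : M →ₗ[ℝ] ℝ) : n1 T 0 = 0 := by
  have h : ab (0 : M) = 0 := by
    rw [← norm_eq_zero, norm_ab, norm_zero]
  unfold n1
  rw [h, map_zero]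

theorem n1_neg (T : M →ₗ[ℝ] ℝ) (x : M) : n1 T (-x) = n1 T x := by
  unfold n1 ab
  rw [star_neg, neg_mul_neg]

theorem n1_sub_comm (T : M →ₗ[ℝ] ℝ) (x y : M) : n1 T (x - y) = n1 T (y - x) := by
  rw [← neg_sub, n1_neg]

private theorem T_mul_le (hT : RTr T) (x : M) {y : M} {c : ℝ} (hy : ‖y‖ ≤ c) :
    T (x * y) ≤ c * n1 T x := by
  have h1 := (le_abs_self _).trans (abs_T_mul_le_n1 hT x y)
  have h2 := n1_nonneg hT x
  nlinarith

theorem n1_add_le (hT : RTr T) (x y : M) : n1 T (x + y) ≤ n1 T x + n1 T y := by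
  refine n1_le_of hT fun z hz => ?_
  rw [add_mul, map_add]
  have h1 := T_mul_le hT x hz
  have h2 := T_mul_le hT y hz
  linarith

theorem n1_sub_le (hT : RTr T) (x y : M) : n1 T (x - y) ≤ n1 T x + n1 T y := by
  rw [sub_eq_add_neg, ← n1_neg T y]
  exact n1_add_le hT x (-y)

theorem n1_sum_le (hT : RTr T) {ι : Type*} (s : Finset ι) (f : ι → M) :
    n1 T (∑ i ∈ s, f i) ≤ ∑ i ∈ s, n1 T (f i) := by
  classical
  induction s using Finset.induction_on with
  | empty => simp [n1_zero]
  | insert a s ha ih =>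
    rw [Finset.sum_insert ha, Finset.sum_insert ha]
    exact (n1_add_le hT _ _).trans (by linarith)

theorem n1_smul (hT : RTr T) (c : ℂ) (x : M) : n1 T (c • x) = ‖c‖ * n1 T x := by
  have h : ∀ (c : ℂ) (x : M), n1 T (c • x) ≤ ‖c‖ * n1 T x := by
    intro c x
    refine n1_le_of hT fun z hz => ?_
    rw [smul_mul_assoc, ← mul_smul_comm]
    refine T_mul_le hT x ?_
    rw [norm_smul]
    exact mul_le_of_le_one_right (norm_nonneg c) hz
  refine le_antisymm (h c x) ?_
  rcases eq_or_ne c 0 with rfl | hc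
  · rw [zero_smul, n1_zero, norm_zero, zero_mul]
  · have h1 := h c⁻¹ (c • x)
    rw [inv_smul_smul₀ hc, norm_inv] at h1
    have hc' : 0 < ‖c‖ := norm_pos_iff.2 hc
    calc ‖c‖ * n1 T x ≤ ‖c‖ * (‖c‖⁻¹ * n1 T (c • x)) := by gcongr
      _ = n1 T (c • x) := by rw [← mul_assoc, mul_inv_cancel₀ hc'.ne', one_mul]

theorem n1_star (hT : RTr T) (x : M) : n1 T (star x) = n1 T x := by
  have h : ∀ x : M, n1 T (star x) ≤ n1 T x := by
    intro x
    refine n1_le_of hT fun z hz => ?_
    rw [hT.symm x z, hT.tracial]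
    have := T_mul_le hT x (y := star z) (c := 1) (by rwa [norm_star])
    rwa [one_mul] at this
  refine le_antisymm (h x) ?_
  have := h (star x)
  rwa [star_star] at this

theorem n1_mul_left_le (hT : RTr T) (y x : M) : n1 T (y * x) ≤ ‖y‖ * n1 T x := by
  refine n1_le_of hT fun z hz => ?_
  rw [mul_assoc, hT.tracial, mul_assoc]
  refine T_mul_le hT x ?_
  exact (norm_mul_le _ _).trans (mul_le_of_le_one_left (norm_nonneg y) hz)

theorem n1_mul_right_le (hT : RTr T) (x y : M) : n1 T (x * y) ≤ n1 T x * ‖y‖ := by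
  refine n1_le_of hT fun z hz => ?_
  rw [mul_assoc, mul_comm (n1 T x)]
  refine T_mul_le hT x ?_
  exact (norm_mul_le _ _).trans (mul_le_of_le_one_right (norm_nonneg y) hz)

/-- the Hoelder inequality -/
theorem n1_mul_le (hT : RTr T) (x y : M) : n1 T (x * y) ≤ l2 T x * l2 T y := by
  refine n1_le_of hT fun z hz => ?_
  rw [hT.tracial, ← mul_assoc]
  refine (le_abs_self _).trans ((abs_T_mul_le_l2 hT (z * x) y).trans ?_)
  exact mul_le_mul_of_nonneg_right (l2_le_l2_of_norm_le_one' hT hz) (l2_nonneg T y)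

theorem l2_sq_le_n1 (hT : RTr T) (x : M) : l2 T x ^ 2 ≤ ‖x‖ * n1 T x := by
  rw [l2_sq hT, hT.tracial]
  refine T_mul_le hT x ?_
  rw [norm_star]

end Pool.Agent.Lib.EqM
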