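import Pool.Agent.Lib.EqM.L2
import Pool.Agent.Lib.EqGamma.GProj

/-!
The overlap inequality `∑_j d_j ∏_{l ≠ j} x_l ≤ ∏ f_l`.
-/

open scoped ComplexOrder

namespace Pool.Agent.Lib.EqM

open Pool.Agent.Lib.EqGamma

variable {M : Type*} [CStarAlgebra M] {T : M →ₗ[ℝ] ℝ}

/-- ordered product over all positions different from `j` -/
def skip {M : Type*} [Monoid M] {n : ℕ} (e : Fin n → M) (j : Fin n) : M :=
  ((List.finRange n).map fun l => if l = j then 1 else e l).prod

theorem map_skip {M N F : Type*} [Monoid M] [Monoid N] [FunLike F M N] [MonoidHomClass F M N]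
    (f : F) {n : ℕ} (e : Fin n → M) (j : Fin n) : f (skip e j) = skip (fun l => f (e l)) j := by
  unfold skip
  rw [map_list_prod, List.map_map]
  congr 1
  apply List.map_congr_left
  intro l _
  by_cases h : l = j <;> simp [h]

/-- products of two commuting families over a list without repetitions -/
theorem Ovl_list_prod_mul {M ι : Type*} [Monoid M] (L : List ι) (hL : L.Nodup) (a b : ι → M)
    (h : ∀ l m, l ≠ m → Commute (a l) (b m)) :
    (L.map a).prod * (L.map b).prod = (L.map fun l => a l * b l).prod := by
  induction L with
  | nil => simp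
  | cons l L ih =>
    rw [List.nodup_cons] at hL
    simp only [List.map_cons, List.prod_cons]
    rw [← ih hL.2]
    have h1 : Commute (L.map a).prod (b l) :=
      (list_prod_commute L a (b l) (fun m hm => (h m l (fun h' => hL.1 (h' ▸ hm))).symm)).symm
    calc a l * (L.map a).prod * (b l * (L.map b).prod)
        = a l * ((L.map a).prod * b l) * (L.map b).prod := by simp only [mul_assoc]
      _ = a l * (b l * (L.map a).prod) * (L.map b).prod := by rw [h1.eq]
      _ = _ := by simp only [mul_assoc]

theorem skip_mul {M : Type*} [Monoid M] {n : ℕ} (a b : Fin n → M)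
    (h : ∀ l m, l ≠ m → Commute (a l) (b m)) (j : Fin n) :
    skip a j * skip b j = skip (fun l => a l * b l) j := by
  unfold skip
  rw [Ovl_list_prod_mul _ (List.nodup_finRange n)]
  · congr 1
    apply List.map_congr_left
    intro l _
    by_cases h : l = j <;> simp [h]
  · intro l m hlm
    by_cases h1 : l = j
    · simp [h1]
    · by_cases h2 : m = j
      · simp [h2]
      · simp only [h1, h2, if_false]
        exact h l m hlm

theorem skip_idem {M : Type*} [Monoid M] {n : ℕ} {e : Fin n → M}
    (hc : ∀ l m, l ≠ m → Commute (e l) (e m)) (hi : ∀ l, e l * e l = e l) (j : Fin n) :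
    skip e j * skip e j = skip e j := by
  rw [skip_mul e e hc]
  simp only [hi]

theorem skip_star {M : Type*} [Monoid M] [StarMul M] {n : ℕ} {e : Fin n → M}
    (hc : ∀ l m, l ≠ m → Commute (e l) (e m)) (hs : ∀ l, star (e l) = e l) (j : Fin n) :
    star (skip e j) = skip e j := by
  have key : ∀ (a : Fin n → M), (∀ l m, l ≠ m → Commute (a l) (a m)) → (∀ l, star (a l) = a l) →
      ∀ L : List (Fin n), L.Nodup → star (L.map a).prod = (L.map a).prod := by
    intro a ha hsa L
    induction L with
    | nil => simp
    | cons l L ih =>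
      intro hL
      rw [List.nodup_cons] at hL
      simp only [List.map_cons, List.prod_cons]
      rw [star_mul, ih hL.2, hsa]
      exact (list_prod_commute L a (a l) (fun m hm => ha l m (fun h' => hL.1 (h' ▸ hm)))).eq.symm
  unfold skip
  refine key _ ?_ ?_ _ (List.nodup_finRange n)
  · intro l m hlm
    by_cases h1 : l = j
    · simp [h1]
    · by_cases h2 : m = j
      · simp [h2]
      · simp only [h1, h2, if_false]
        exact hc l m hlm
  · intro l
    by_cases h1 : l = j <;> simp [h1, hs]

theorem commute_skip {M : Type*} [Monoid M] {n : ℕ} {e : Fin n → M} {x : M} {j : Fin n}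
    (h : ∀ l, l ≠ j → Commute x (e l)) : Commute x (skip e j) := by
  unfold skip
  apply list_prod_commute
  intro l _
  by_cases h1 : l = j
  · simp [h1]
  · simp only [h1, if_false]
    exact h l h1

/-- the trace of `x` times a product of independent elements -/
theorem T_mul_skip {n : ℕ} {e : Fin n → M} {t : ℝ} {x : M}
    (hc : ∀ l m, l ≠ m → Commute (e l) (e m))
    (h : ∀ l, ∀ y ∈ Algebra.adjoin ℝ ({x} ∪ {y | ∃ m, m ≠ l ∧ y = e m}), T (y * e l) = t * T y)
    (j : Fin n) : T (x * skip e j) = t ^ (n - 1) * T x := by
  have key : ∀ L : List (Fin n), L.Nodup → T (x * (L.map e).prod) = t ^ L.length * T x := by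
    intro L
    induction L using List.reverseRecOn with
    | nil => simp
    | append_singleton L l ih =>
      intro hL
      rw [List.nodup_append] at hL
      obtain ⟨h1, -, h2⟩ := hL
      rw [List.map_append, List.prod_append, List.map_singleton, List.prod_singleton, ← mul_assoc,
        h l, ih h1, List.length_append, List.length_singleton, pow_succ]
      · ring
      · apply mul_mem
        · exact Algebra.subset_adjoin (Or.inl rfl)
        · apply list_prod_mem
          intro y hy
          obtain ⟨m, hm, rfl⟩ := List.mem_map.1 hy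
          exact Algebra.subset_adjoin (Or.inr ⟨m, h2 m hm l (by simp), rfl⟩)
  have h3 : ∀ L : List (Fin n), (L.map fun l => if l = j then 1 else e l).prod =
      ((L.filter (fun l => l != j)).map e).prod := by
    intro L
    induction L with
    | nil => simp
    | cons l L ih =>
      simp only [List.map_cons, List.prod_cons, List.filter_cons]
      rw [ih]
      by_cases h : l = j <;> simp [h]
  unfold skip
  rw [h3, key _ ((List.nodup_finRange n).filter _)]
  congr 2
  rw [← List.Nodup.erase_eq_filter (List.nodup_finRange n), List.length_erase_of_mem (by simp),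
    List.length_finRange]

private theorem commute_adjoin {S : Set M} {a y : M} (h : ∀ s ∈ S, Commute a s)
    (hy : y ∈ Algebra.adjoin ℝ S) : Commute a y := by
  induction hy using Algebra.adjoin_induction with
  | mem x hx => exact h x hx
  | algebraMap r => exact (Algebra.commutes r a).symm
  | add x y _ _ hx hy => exact hx.add_right hy
  | mul x y _ _ hx hy => exact hx.mul_right hy

private theorem star_mem_adjoin {S : Set M} {y : M} (h : ∀ s ∈ S, star s ∈ S)
    (hy : y ∈ Algebra.adjoin ℝ S) : star y ∈ Algebra.adjoin ℝ S := by
  induction hy using Algebra.adjoin_induction with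
  | mem x hx => exact Algebra.subset_adjoin (h x hx)
  | algebraMap r =>
    rw [← algebraMap_star_comm]
    exact Subalgebra.algebraMap_mem _ _
  | add x y _ _ hx hy =>
    rw [star_add]
    exact add_mem hx hy
  | mul x y _ _ hx hy =>
    rw [star_mul]
    exact mul_mem hy hx

section overlap

variable {n : ℕ} {p q : Fin n → M} {t : ℝ}

private def gens (p q : Fin n → M) (L : List (Fin n)) : Set M :=
  {y | ∃ m, m ∉ L ∧ (y = p m ∨ y = q m)}

private theorem induct (hT : RTr T) (ht : 0 ≤ t)
    (hp : ∀ l, p l * p l = p l) (hps : ∀ l, star (p l) = p l)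
    (hq : ∀ l, q l * q l = q l) (hqs : ∀ l, star (q l) = q l)
    (hpp : ∀ l m, l ≠ m → Commute (p l) (p m)) (hqq : ∀ l m, l ≠ m → Commute (q l) (q m))
    (hpq : ∀ l m, l ≠ m → Commute (p l) (q m))
    (hind : ∀ l, ∀ y ∈ Algebra.adjoin ℝ {y | ∃ m, m ≠ l ∧ (y = p m ∨ y = q m)},
      T (y * p l) = t * T y ∧ T (y * q l) = t * T y) (L : List (Fin n)) (hL : L.Nodup) :
    ∀ y ∈ Algebra.adjoin ℝ (gens p q L),
      0 ≤ T (star y * y * (L.map fun l => p l * q l * p l).prod) ∧
      T (star y * y * (L.map fun l => p l * q l * p l).prod) ≤ t ^ L.length * T (star y * y) ∧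
      (L.map fun j => T (star y * y * ((p j - q j) * (p j - q j) *
        (L.map fun l => if l = j then 1 else p l * q l * p l).prod))).sum +
        2 * T (star y * y * (L.map fun l => p l * q l * p l).prod) ≤
        2 * t ^ L.length * T (star y * y) := by
  induction L with
  | nil =>
    intro y _
    simp only [List.map_nil, List.prod_nil, mul_one, List.length_nil, pow_zero, one_mul,
      List.sum_nil, zero_add]
    exact ⟨hT.nonneg' y, le_refl _, le_refl _⟩
  | cons m L ih =>
    rw [List.nodup_cons] at hL
    intro y hy
    have ih := ih hL.2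
    have hgs : ∀ s ∈ gens p q (m :: L), star s ∈ gens p q (m :: L) := by
      rintro s ⟨l, hl, rfl | rfl⟩
      · exact ⟨l, hl, Or.inl (hps l)⟩
      · exact ⟨l, hl, Or.inr (hqs l)⟩
    have hsub : gens p q (m :: L) ⊆ gens p q L := by
      rintro s ⟨l, hl, h⟩
      exact ⟨l, fun h' => hl (List.mem_cons_of_mem _ h'), h⟩
    have hyL : y ∈ Algebra.adjoin ℝ (gens p q L) := Algebra.adjoin_mono hsub hy
    have hpm : p m ∈ Algebra.adjoin ℝ (gens p q L) :=
      Algebra.subset_adjoin ⟨m, hL.1, Or.inl rfl⟩
    have hqm : q m ∈ Algebra.adjoin ℝ (gens p q L) :=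
      Algebra.subset_adjoin ⟨m, hL.1, Or.inr rfl⟩
    have hsy : star y ∈ Algebra.adjoin ℝ (gens p q (m :: L)) := star_mem_adjoin hgs hy
    have cp : Commute (p m) y := by
      apply commute_adjoin _ hy
      rintro s ⟨l, hl, rfl | rfl⟩
      · exact hpp m l (fun h => hl (h ▸ List.mem_cons_self))
      · exact hpq m l (fun h => hl (h ▸ List.mem_cons_self))
    have cq : Commute (q m) y := by
      apply commute_adjoin _ hy
      rintro s ⟨l, hl, rfl | rfl⟩
      · exact (hpq l m (fun h => hl (h ▸ List.mem_cons_self))).symm
      · exact hqq m l (fun h => hl (h ▸ List.mem_cons_self))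
    have hz : star y * y ∈ Algebra.adjoin ℝ {y | ∃ l, l ≠ m ∧ (y = p l ∨ y = q l)} := by
      apply Algebra.adjoin_mono _ (mul_mem hsy hy)
      rintro s ⟨l, hl, h⟩
      exact ⟨l, fun h => hl (h ▸ List.mem_cons_self), h⟩
    obtain ⟨i1, i2⟩ := hind m _ hz
    have csp : Commute (p m) (star y) := by
      have := cp.star_star
      rwa [hps] at this
    have csq : Commute (q m) (star y) := by
      have := cq.star_star
      rwa [hqs] at this
    have czp : Commute (p m) (star y * y) := csp.mul_right cp
    have czq : Commute (q m) (star y * y) := csq.mul_right cq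
    set z := star y * y with hzdef
    set X := (L.map fun l => p l * q l * p l).prod with hX
    -- the two new elements
    have e1 : star (q m * p m * y) * (q m * p m * y) = z * (p m * q m * p m) := by
      rw [star_mul, star_mul, hps, hqs]
      have : star y * (p m * q m) * (q m * p m * y) = star y * (p m * (q m * q m) * p m * y) := by
        simp only [mul_assoc]
      rw [this, hq]
      have h3 : Commute (p m * q m * p m) y := (cp.mul_left cq).mul_left cp
      rw [h3.eq, ← mul_assoc]
    have e2 : star ((p m - q m) * y) * ((p m - q m) * y) = z * ((p m - q m) * (p m - q m)) := by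
      rw [star_mul, star_sub, hps, hqs]
      have h3 : Commute ((p m - q m) * (p m - q m)) y :=
        (cp.sub_left cq).mul_left (cp.sub_left cq)
      have : star y * (p m - q m) * ((p m - q m) * y) =
          star y * ((p m - q m) * (p m - q m) * y) := by simp only [mul_assoc]
      rw [this, h3.eq, ← mul_assoc]
    have m1 : q m * p m * y ∈ Algebra.adjoin ℝ (gens p q L) := mul_mem (mul_mem hqm hpm) hyL
    have m2 : (p m - q m) * y ∈ Algebra.adjoin ℝ (gens p q L) := mul_mem (sub_mem hpm hqm) hyL
    obtain ⟨a1, a2, a3⟩ := ih _ m1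
    obtain ⟨b1, b2, -⟩ := ih _ m2
    rw [e1] at a1 a2 a3
    rw [e2] at b1 b2
    -- traces
    have t1 : T (z * (q m * p m)) = T (z * (p m * q m)) := by
      rw [← mul_assoc, hT.tracial, ← mul_assoc, czp.eq, mul_assoc]
    have t2 : T (z * (p m * q m * p m)) = T (z * (p m * q m)) := by
      rw [← mul_assoc, hT.tracial, ← mul_assoc, czp.eq, mul_assoc, ← mul_assoc (p m), hp]
    have t3 : T (z * ((p m - q m) * (p m - q m))) = 2 * t * T z - 2 * T (z * (p m * q m * p m)) := by
      have : (p m - q m) * (p m - q m) = p m + q m - p m * q m - q m * p m := by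
        rw [sub_mul, mul_sub, mul_sub, hp, hq]
        abel
      rw [this, mul_sub, mul_sub, mul_add, map_sub, map_sub, map_add, i1, i2, t1, t2]
      ring
    have t4 : T (z * (p m * q m * p m)) ≤ t * T z := by
      have h1 := hT.nonneg' ((1 - q m) * p m * y)
      have h2 : star ((1 - q m) * p m * y) * ((1 - q m) * p m * y) =
          z * p m - z * (p m * q m * p m) := by
        rw [star_mul, star_mul, hps, star_sub, star_one, hqs]
        have h5 : star y * (p m * (1 - q m)) * ((1 - q m) * p m * y) =
            star y * (p m * ((1 - q m) * (1 - q m)) * p m * y) := by simp only [mul_assoc]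
        have h6 : (1 - q m) * (1 - q m) = 1 - q m := by
          rw [sub_mul, mul_sub, mul_sub, hq]
          simp
        have h7 : p m * (1 - q m) * p m = p m - p m * q m * p m := by
          rw [mul_sub, sub_mul, mul_one, hp]
        have h3 : Commute (p m - p m * q m * p m) y :=
          cp.sub_left ((cp.mul_left cq).mul_left cp)
        rw [h5, h6, h7, h3.eq, ← mul_assoc, mul_sub]
      rw [h2, map_sub, i1] at h1
      linarith
    have hprod : ((m :: L).map fun l => p l * q l * p l).prod = p m * q m * p m * X := by
      rw [List.map_cons, List.prod_cons]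
    rw [hprod, ← mul_assoc, List.length_cons]
    refine ⟨a1, ?_, ?_⟩
    · refine a2.trans ?_
      rw [pow_succ]
      nlinarith [pow_nonneg ht L.length]
    · have s1 : ((m :: L).map fun j => T (z * ((p j - q j) * (p j - q j) *
          ((m :: L).map fun l => if l = j then 1 else p l * q l * p l).prod))).sum =
          T (z * ((p m - q m) * (p m - q m)) * X) +
          (L.map fun j => T (z * (p m * q m * p m) * ((p j - q j) * (p j - q j) *
        (L.map fun l => if l = j then 1 else p l * q l * p l).prod))).sum := by
        rw [List.map_cons, List.sum_cons]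
        congr 1
        · rw [List.map_cons, List.prod_cons, if_pos rfl, one_mul, ← mul_assoc]
          congr 3
          apply List.map_congr_left
          intro l hl
          rw [if_neg]
          rintro rfl
          exact hL.1 hl
        · congr 1
          apply List.map_congr_left
          intro j hj
          have hjm : j ≠ m := by
            rintro rfl
            exact hL.1 hj
          rw [List.map_cons, List.prod_cons, if_neg (fun h => hjm h.symm)]
          have c1 : Commute ((p j - q j) * (p j - q j)) (p m * q m * p m) := by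
            have c2 : Commute (p j - q j) (p m) :=
              (hpp j m hjm).sub_left (hpq m j (Ne.symm hjm)).symm
            have c3 : Commute (p j - q j) (q m) :=
              (hpq j m hjm).sub_left (hqq j m hjm)
            have c4 : Commute (p j - q j) (p m * q m * p m) := (c2.mul_right c3).mul_right c2
            exact c4.mul_left c4
          rw [← mul_assoc ((p j - q j) * (p j - q j)), c1.eq]
          simp only [mul_assoc]
      rw [s1, pow_succ]
      nlinarith [pow_nonneg ht L.length, a3, b2, t3]

end overlap

/-- the overlap inequality -/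
theorem overlap (hT : RTr T) {n : ℕ} {p q : Fin n → M} {t : ℝ} (ht : 0 ≤ t)
    (hp : ∀ l, p l * p l = p l) (hps : ∀ l, star (p l) = p l)
    (hq : ∀ l, q l * q l = q l) (hqs : ∀ l, star (q l) = q l)
    (hpp : ∀ l m, l ≠ m → Commute (p l) (p m)) (hqq : ∀ l m, l ≠ m → Commute (q l) (q m))
    (hpq : ∀ l m, l ≠ m → Commute (p l) (q m))
    (hind : ∀ l, ∀ y ∈ Algebra.adjoin ℝ {y | ∃ m, m ≠ l ∧ (y = p m ∨ y = q m)},
      T (y * p l) = t * T y ∧ T (y * q l) = t * T y) :
    ∑ j, l2 T ((p j - q j) * (skip p j * skip q j)) ^ 2 ≤ 2 * t ^ n * T 1 := by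
  obtain ⟨h1, -, h2⟩ := induct hT ht hp hps hq hqs hpp hqq hpq hind (List.finRange n)
    (List.nodup_finRange n) 1 (one_mem _)
  rw [star_one, one_mul, List.length_finRange, ← Fin.sum_univ_def] at h2
  rw [star_one, one_mul] at h1
  refine le_trans (le_of_eq ?_) (le_trans (le_add_of_nonneg_right (mul_nonneg zero_le_two h1)) h2)
  apply Finset.sum_congr rfl
  intro j _
  rw [l2_sq hT]
  set P := skip p j
  set Q := skip q j
  have hP : star P = P := skip_star hpp hps j
  have hQ : star Q = Q := skip_star hqq hqs j
  have hPP : P * P = P := skip_idem hpp hp j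
  have hQQ : Q * Q = Q := skip_idem hqq hq j
  have c1 : Commute (p j - q j) P := by
    apply Commute.sub_left
    · exact commute_skip (fun l hl => hpp j l (Ne.symm hl))
    · exact commute_skip (fun l hl => (hpq l j hl).symm)
  have h3 : P * Q * P = ((List.finRange n).map fun l => if l = j then 1 else
      p l * q l * p l).prod := by
    have h4 : P * Q = skip (fun l => p l * q l) j := skip_mul p q hpq j
    have h5 : skip (fun l => p l * q l) j * P = skip (fun l => p l * q l * p l) j := by
      apply skip_mul
      intro l m hlm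
      exact (hpp l m hlm).mul_left (hpq m l (Ne.symm hlm)).symm
    rw [h4, h5]
    rfl
  rw [← h3, star_mul, star_mul, hP, hQ, star_sub, hps, hqs, one_mul]
  set D := p j - q j
  have h6 : Q * P * D * (D * (P * Q)) = Q * (P * D * D * P * Q) := by simp only [mul_assoc]
  have h7 : P * D * D * P * Q * Q = D * D * (P * P) * (Q * Q) := by
    rw [← c1.eq, mul_assoc D P D, ← c1.eq]
    simp only [mul_assoc]
  rw [h6, hT.tracial, h7, hPP, hQQ]
  have h8 : D * D * (P * Q * P) = D * D * P * Q * P := by simp only [mul_assoc]
  rw [h8, hT.tracial _ P]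
  have h9 : P * (D * D * P * Q) = D * D * (P * P) * Q := by
    have h10 : P * (D * D * P * Q) = P * D * D * P * Q := by simp only [mul_assoc]
    rw [h10, ← c1.eq, mul_assoc D P D, ← c1.eq]
    simp only [mul_assoc]
  rw [h9, hPP]

end Pool.Agent.Lib.EqM
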