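import Pool.Agent.Lib.EqGamma.GOne
import Pool.Agent.Lib.EqM.MatTr
import Pool.Agent.Lib.EqM.N1
import Pool.Agent.Lib.EqM.OSys
import Pool.Agent.Lib.EqM.Ovl

/-!
The overlap system of a block of `n` commuting copies, on the finite direct sum over the choices
`(j, σ)` of a carrier position `j` and of types `σ`.
-/

open scoped ComplexOrder

namespace Pool.Agent.Lib.EqM

open Pool.Agent.Lib.EqGamma

/-- the set of choices -/
abbrev Ch (n c : ℕ) := Fin n × (Fin n → Fin c)

section defs

variable {M : Type*} [CStarAlgebra M] {G : Type*} {k : ℕ}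

/-- the averaged functional on a finite direct sum -/
noncomputable def avT {Ω M : Type*} [Fintype Ω] [CStarAlgebra M] (T : M →ₗ[ℝ] ℝ) :
    BF Ω M →ₗ[ℝ] ℝ :=
  (Fintype.card Ω : ℝ)⁻¹ • ∑ a : Ω, T ∘ₗ ((BF.ev a : BF Ω M →⋆ₐ[ℂ] M).toAlgHom.restrictScalars
    ℝ).toLinearMap

theorem avT_apply {Ω : Type*} [Fintype Ω] (T : M →ₗ[ℝ] ℝ) (x : BF Ω M) :
    avT T x = (Fintype.card Ω : ℝ)⁻¹ * ∑ a : Ω, T (BF.ev a x) := by
  unfold avT
  rw [LinearMap.smul_apply, LinearMap.sum_apply, smul_eq_mul]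
  rfl

theorem avT_rtr {Ω : Type*} [Fintype Ω] {T : M →ₗ[ℝ] ℝ} (hT : RTr T) :
    RTr (avT (Ω := Ω) T) where
  nonneg' x := by
    rw [avT_apply]
    refine mul_nonneg (by positivity) (Finset.sum_nonneg fun a _ => ?_)
    rw [map_mul (BF.ev a), map_star (BF.ev a)]
    exact hT.nonneg' _
  tracial x y := by
    rw [avT_apply, avT_apply]
    congr 1
    refine Finset.sum_congr rfl fun a _ => ?_
    rw [map_mul (BF.ev a), map_mul (BF.ev a), hT.tracial]
  map_star x := by
    rw [avT_apply, avT_apply]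
    congr 1
    refine Finset.sum_congr rfl fun a _ => ?_
    rw [StarHomClass.map_star (BF.ev a), hT.map_star]

theorem n1_avT {Ω : Type*} [Fintype Ω] (T : M →ₗ[ℝ] ℝ) (x : BF Ω M) :
    n1 (avT T) x = (Fintype.card Ω : ℝ)⁻¹ * ∑ a : Ω, n1 T (BF.ev a x) := by
  unfold n1
  rw [avT_apply]
  congr 1
  refine Finset.sum_congr rfl fun a _ => ?_
  rw [map_ab]

private theorem l2_avT_sq {Ω : Type*} [Fintype Ω] {T : M →ₗ[ℝ] ℝ} (hT : RTr T) (x : BF Ω M) :
    l2 (avT T) x ^ 2 = (Fintype.card Ω : ℝ)⁻¹ * ∑ a : Ω, l2 T (BF.ev a x) ^ 2 := by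
  rw [l2_sq (avT_rtr hT), avT_apply]
  congr 1
  refine Finset.sum_congr rfl fun a _ => ?_
  rw [l2_sq hT, map_mul (BF.ev a), StarHomClass.map_star (BF.ev a)]

private theorem concNormProjLe {p : M} (hp : p * p = p) (hs : star p = p) : ‖p‖ ≤ 1 := by
  have h1 : ‖p‖ * ‖p‖ = ‖p‖ := by
    rw [← CStarRing.norm_star_mul_self, hs, hp]
  by_contra h
  push Not at h
  nlinarith [norm_nonneg p]

private theorem norm_listprod_le {L : List M} (h : ∀ y ∈ L, ‖y‖ ≤ 1) : ‖L.prod‖ ≤ 1 := by
  induction L with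
  | nil =>
    rw [List.prod_nil]
    exact concNormProjLe (mul_one 1) (star_one M)
  | cons a L ih =>
    rw [List.prod_cons]
    refine (norm_mul_le _ _).trans ?_
    have h1 := h a List.mem_cons_self
    have h2 := ih fun y hy => h y (List.mem_cons_of_mem a hy)
    exact mul_le_one₀ h1 (norm_nonneg _) h2

/-- the carrier at the choice `a`, as a star hom into the direct sum -/
noncomputable def cψ {n : ℕ} (c : ℕ) (ψ : Fin n → G → Mat k →⋆ₐ[ℂ] M) (g : G) :
    Mat k →⋆ₐ[ℂ] BF (Ch n c) M where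
  toFun x := BF.mk (fun a => ψ a.1 g x) (ms x) (fun a => norm_hom_le _ _)
  map_one' := BF.ext fun a => by simp
  map_mul' x y := BF.ext fun a => by simp
  map_zero' := BF.ext fun a => by simp
  map_add' x y := BF.ext fun a => by simp
  commutes' z := BF.ext fun a => by
    rw [BF.ev_mk, AlgHomClass.commutes (BF.ev a), AlgHomClass.commutes (ψ a.1 g)]
  map_star' x := BF.ext fun a => by
    rw [BF.ev_mk, map_star (ψ a.1 g), map_star (BF.ev a)]
    rfl

/-- the rare projection at the choice `a` -/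
noncomputable def rq {n c : ℕ} (P : Fin c → Mat k) (ψ : Fin n → G → Mat k →⋆ₐ[ℂ] M) (g : G)
    (a : Ch n c) : M := skip (fun l => ψ l g (P (a.2 l))) a.1

end defs

variable {M : Type*} [CStarAlgebra M] {G : Type*} {k : ℕ} {T : M →ₗ[ℝ] ℝ}

theorem norm_rq_le {n c : ℕ} {P : Fin c → Mat k} (hP : ∀ a, P a * P a = P a)
    (hPs : ∀ a, star (P a) = P a) (ψ : Fin n → G → Mat k →⋆ₐ[ℂ] M) (g : G) (a : Ch n c) :
    ‖rq P ψ g a‖ ≤ 1 := by
  unfold rq skip
  refine norm_listprod_le fun y hy => ?_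
  rw [List.mem_map] at hy
  obtain ⟨l, -, rfl⟩ := hy
  split_ifs
  · exact concNormProjLe (mul_one 1) (star_one M)
  · refine concNormProjLe ?_ ?_
    · rw [← map_mul (ψ l g), hP]
    · rw [← StarHomClass.map_star (ψ l g), hPs]

/-- the rare projections as elements of the direct sum -/
noncomputable def cq {n c : ℕ} {P : Fin c → Mat k} (hP : ∀ a, P a * P a = P a)
    (hPs : ∀ a, star (P a) = P a) (ψ : Fin n → G → Mat k →⋆ₐ[ℂ] M) (g : G) : BF (Ch n c) M :=
  BF.mk (rq P ψ g) 1 (norm_rq_le hP hPs ψ g)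

theorem ev_cq {n c : ℕ} {P : Fin c → Mat k} (hP : ∀ a, P a * P a = P a)
    (hPs : ∀ a, star (P a) = P a) (ψ : Fin n → G → Mat k →⋆ₐ[ℂ] M) (g : G) (a : Ch n c) :
    BF.ev a (cq hP hPs ψ g) = rq P ψ g a := rfl

theorem ev_cψ {n c : ℕ} (ψ : Fin n → G → Mat k →⋆ₐ[ℂ] M) (g : G) (x : Mat k) (a : Ch n c) :
    BF.ev a (cψ c ψ g x) = ψ a.1 g x := rfl

private theorem l2_lin_le {N : Type*} [CStarAlgebra N] {T' : N →ₗ[ℝ] ℝ} (hT : RTr T')
    (D : Mat k →ₗ[ℂ] N) {s : ℝ} {c : ℕ} {P : Fin c → Mat k} (hb : ∀ b, l2 T' (D (P b)) ≤ s)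
    (hspan : ∀ i j, ∃ lam : Fin c → ℂ, (∀ a, ‖lam a‖ ≤ 1) ∧
      Matrix.single i j (1 : ℂ) = ∑ a, lam a • P a) (x : Mat k) :
    l2 T' (D x) ≤ ms x * (c * s) := by
  have hE : ∀ i j, l2 T' (D (Matrix.single i j (1 : ℂ))) ≤ c * s := by
    intro i j
    obtain ⟨lam, hl1, hl2⟩ := hspan i j
    rw [hl2, map_sum]
    refine (l2_sum_le hT _ _).trans ?_
    have h1 : ∀ a ∈ (Finset.univ : Finset (Fin c)), l2 T' (D (lam a • P a)) ≤ s := by
      intro a _
      rw [map_smul, l2_smul]
      exact (mul_le_of_le_one_left (l2_nonneg T' _) (hl1 a)).trans (hb a)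
    refine (Finset.sum_le_sum h1).trans (le_of_eq ?_)
    rw [Finset.sum_const, Finset.card_univ, Fintype.card_fin, nsmul_eq_mul]
  have hx : x = ∑ i, ∑ j, x i j • Matrix.single i j (1 : ℂ) := by
    conv_lhs => rw [Matrix.matrix_eq_sum_single x]
    refine Finset.sum_congr rfl fun i _ => Finset.sum_congr rfl fun j _ => ?_
    rw [Matrix.smul_single, smul_eq_mul, mul_one]
  conv_lhs => rw [hx]
  unfold ms
  rw [map_sum, Finset.sum_mul]
  refine (l2_sum_le hT _ _).trans (Finset.sum_le_sum fun i _ => ?_)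
  rw [map_sum, Finset.sum_mul]
  refine (l2_sum_le hT _ _).trans (Finset.sum_le_sum fun j _ => ?_)
  rw [map_smul, l2_smul]
  exact mul_le_mul_of_nonneg_left (hE i j) (norm_nonneg _)

private theorem skip_congr {n : ℕ} {e e' : Fin n → M} {j : Fin n}
    (h : ∀ l, l ≠ j → e l = e' l) : skip e j = skip e' j := by
  unfold skip
  congr 1
  apply List.map_congr_left
  intro l _
  by_cases hl : l = j
  · rw [if_pos hl, if_pos hl]
  · rw [if_neg hl, if_neg hl, h l hl]

private theorem sum_update_le {n c : ℕ} (F : (Fin n → Fin c) → ℝ) (hF : ∀ σ, 0 ≤ F σ) (r : Fin n)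
    (b : Fin c) : ∑ σ, F (Function.update σ r b) ≤ c * ∑ σ, F σ := by
  classical
  rw [← Finset.sum_fiberwise (s := Finset.univ) (g := fun σ : Fin n → Fin c => σ r)
    (f := fun σ => F (Function.update σ r b))]
  have h1 : ∀ s ∈ (Finset.univ : Finset (Fin c)),
      ∑ σ ∈ Finset.univ.filter (fun σ : Fin n → Fin c => σ r = s), F (Function.update σ r b) ≤
      ∑ σ, F σ := by
    intro s _
    have hinj : Set.InjOn (fun σ : Fin n → Fin c => Function.update σ r b)
        (Finset.univ.filter (fun σ : Fin n → Fin c => σ r = s) : Finset (Fin n → Fin c)) := by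
      intro σ hσ σ' hσ' heq
      rw [Finset.mem_coe, Finset.mem_filter] at hσ hσ'
      funext l
      by_cases hl : l = r
      · rw [hl, hσ.2, hσ'.2]
      · have := congrFun heq l
        simpa [Function.update_of_ne hl] using this
    rw [← Finset.sum_image (f := F) hinj]
    exact Finset.sum_le_sum_of_subset_of_nonneg (Finset.subset_univ _) fun σ _ _ => hF σ
  refine (Finset.sum_le_sum h1).trans (le_of_eq ?_)
  rw [Finset.sum_const, Finset.card_univ, Fintype.card_fin, nsmul_eq_mul]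

private theorem commute_adjoin {S : Set M} {z : M} (h : ∀ y ∈ S, Commute y z) {y : M}
    (hy : y ∈ Algebra.adjoin ℝ S) : Commute y z := by
  induction hy using Algebra.adjoin_induction with
  | mem x hx => exact h x hx
  | algebraMap r => exact Algebra.commute_algebraMap_left r z
  | add x y _ _ hx hy => exact hx.add_left hy
  | mul x y _ _ hx hy => exact hx.mul_left hy

theorem conc_osys (hk : 0 < k) (hT : RTr T) (h1 : T 1 = 1) {n c : ℕ} (hn : 0 < n) {P : Fin c → Mat k}
    (hP : ∀ a, P a * P a = P a) (hPs : ∀ a, star (P a) = P a) (hP1 : ∀ a, (P a).trace = 1)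
    (hspan : ∀ i j, ∃ lam : Fin c → ℂ, (∀ a, ‖lam a‖ ≤ 1) ∧
      Matrix.single i j (1 : ℂ) = ∑ a, lam a • P a)
    {ψ : Fin n → G → Mat k →⋆ₐ[ℂ] M}
    (hψ : ∀ l l', l ≠ l' → ∀ g g' x x', Commute (ψ l g x) (ψ l' g' x')) :
    OSys (avT T) (cψ c ψ) (cq hP hPs ψ) ((1 / k : ℝ) ^ (n - 1)) (2 * c ^ 3 / n) := by
  have hcard : (Fintype.card (Ch n c) : ℝ) = n * (c : ℝ) ^ n := by
    rw [Fintype.card_prod, Fintype.card_fun, Fintype.card_fin, Fintype.card_fin]
    push_cast
    rfl
  have hc0 : 0 < c := by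
    rcases Nat.eq_zero_or_pos c with rfl | h
    · exfalso
      obtain ⟨lam, -, h2⟩ := hspan ⟨0, hk⟩ ⟨0, hk⟩
      have h3 := congrFun (congrFun h2 ⟨0, hk⟩) ⟨0, hk⟩
      simp at h3
    · exact h
  have hn' : (0 : ℝ) < n := by exact_mod_cast hn
  have hc' : (0 : ℝ) < c := by exact_mod_cast hc0
  have hk' : (0 : ℝ) < k := by exact_mod_cast hk
  have hcpos : (0 : ℝ) < Fintype.card (Ch n c) := by
    rw [hcard]; positivity
  refine ⟨avT_rtr hT, ?_, ?_, ?_, ?_, ?_⟩
  · intro g
    refine BF.ext fun a => ?_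
    rw [map_mul (BF.ev a), ev_cq]
    unfold rq
    refine skip_idem (fun l m hlm => hψ l m hlm g g _ _) (fun l => ?_) a.1
    rw [← map_mul (ψ l g), hP]
  · intro g
    refine BF.ext fun a => ?_
    rw [StarHomClass.map_star (BF.ev a), ev_cq]
    unfold rq
    refine skip_star (fun l m hlm => hψ l m hlm g g _ _) (fun l => ?_) a.1
    rw [← StarHomClass.map_star (ψ l g), hPs]
  · intro g h x
    refine BF.ext fun a => ?_
    rw [map_mul (BF.ev a), map_mul (BF.ev a), ev_cq, ev_cψ]
    unfold rq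
    exact commute_skip fun l hl => hψ a.1 l (Ne.symm hl) g h x _
  · intro g
    rw [avT_apply]
    have h2 : ∀ a ∈ (Finset.univ : Finset (Ch n c)),
        T (BF.ev a (cq hP hPs ψ g)) = (1 / k : ℝ) ^ (n - 1) := by
      intro a _
      rw [ev_cq]
      unfold rq
      have h3 := T_mul_skip (T := T) (n := n) (e := fun l => ψ l g (P (a.2 l))) (t := 1 / k)
        (x := 1) (fun l m hlm => hψ l m hlm g g _ _) (fun l y hy => ?_) a.1
      · rw [one_mul, h1, mul_one] at h3
        exact h3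
      · refine T_mul_hom hT (ψ l g) (fun x => ?_) (hPs _) (hP1 _)
        refine commute_adjoin (fun y hy => ?_) hy
        rcases hy with hy | ⟨m, hm, rfl⟩
        · rw [Set.mem_singleton_iff] at hy
          rw [hy]
          exact Commute.one_left _
        · exact hψ m l hm g g _ _
    rw [Finset.sum_congr rfl h2, Finset.sum_const, Finset.card_univ, nsmul_eq_mul,
      inv_mul_cancel_left₀ hcpos.ne']
  · intro g h x
    -- the overlap for a fixed choice of types
    have hov : ∀ σ : Fin n → Fin c,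
        ∑ j, l2 T ((ψ j g (P (σ j)) - ψ j h (P (σ j))) *
          (skip (fun l => ψ l g (P (σ l))) j * skip (fun l => ψ l h (P (σ l))) j)) ^ 2 ≤
        2 * (1 / k : ℝ) ^ n := by
      intro σ
      have h3 := overlap hT (n := n) (p := fun l => ψ l g (P (σ l)))
        (q := fun l => ψ l h (P (σ l))) (t := 1 / k) (by positivity)
        (fun l => by rw [← map_mul (ψ l g), hP])
        (fun l => by rw [← StarHomClass.map_star (ψ l g), hPs])
        (fun l => by rw [← map_mul (ψ l h), hP])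
        (fun l => by rw [← StarHomClass.map_star (ψ l h), hPs])
        (fun l m hlm => hψ l m hlm g g _ _) (fun l m hlm => hψ l m hlm h h _ _)
        (fun l m hlm => hψ l m hlm g h _ _)
        (fun l y hy => ?_)
      · rw [h1, mul_one] at h3
        exact h3
      · constructor
        · refine T_mul_hom hT (ψ l g) (fun x => ?_) (hPs _) (hP1 _)
          refine commute_adjoin (fun y hy => ?_) hy
          obtain ⟨m, hm, rfl | rfl⟩ := hy
          · exact hψ m l hm g g _ _
          · exact hψ m l hm h g _ _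
        · refine T_mul_hom hT (ψ l h) (fun x => ?_) (hPs _) (hP1 _)
          refine commute_adjoin (fun y hy => ?_) hy
          obtain ⟨m, hm, rfl | rfl⟩ := hy
          · exact hψ m l hm g h _ _
          · exact hψ m l hm h h _ _
    set w : ℝ := (1 / k : ℝ) ^ (n - 1) with hw
    have hw0 : 0 ≤ w := by positivity
    -- the linear map
    let D : Mat k →ₗ[ℂ] BF (Ch n c) M :=
      { toFun := fun x => (cψ c ψ g x - cψ c ψ h x) * (cq hP hPs ψ g * cq hP hPs ψ h)
        map_add' := fun x y => by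
          rw [map_add (cψ c ψ g), map_add (cψ c ψ h), add_sub_add_comm, add_mul]
        map_smul' := fun z x => by
          rw [map_smul (cψ c ψ g), map_smul (cψ c ψ h), ← smul_sub, smul_mul_assoc]
          rfl }
    have hD : ∀ b, l2 (avT T) (D (P b)) ≤ √(2 * c / n * w) := by
      intro b
      rw [← Real.sqrt_sq (l2_nonneg (avT T) (D (P b)))]
      refine Real.sqrt_le_sqrt ?_
      rw [l2_avT_sq hT]
      let F : Fin n → (Fin n → Fin c) → ℝ := fun j σ =>
        l2 T ((ψ j g (P (σ j)) - ψ j h (P (σ j))) *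
          (skip (fun l => ψ l g (P (σ l))) j * skip (fun l => ψ l h (P (σ l))) j)) ^ 2
      have h4 : ∀ a : Ch n c, l2 T (BF.ev a (D (P b))) ^ 2 = F a.1 (Function.update a.2 a.1 b) := by
        intro a
        have h5 : BF.ev a (D (P b)) =
            (ψ a.1 g (P b) - ψ a.1 h (P b)) * (rq P ψ g a * rq P ψ h a) := rfl
        rw [h5]
        show _ = l2 T ((ψ a.1 g (P (Function.update a.2 a.1 b a.1)) -
          ψ a.1 h (P (Function.update a.2 a.1 b a.1))) *
          (skip (fun l => ψ l g (P (Function.update a.2 a.1 b l))) a.1 *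
            skip (fun l => ψ l h (P (Function.update a.2 a.1 b l))) a.1)) ^ 2
        rw [Function.update_self]
        unfold rq
        have h6 : ∀ g' : G, skip (fun l => ψ l g' (P (a.2 l))) a.1 =
            skip (fun l => ψ l g' (P (Function.update a.2 a.1 b l))) a.1 := by
          intro g'
          refine skip_congr fun l hl => ?_
          rw [Function.update_of_ne hl]
        rw [h6 g, h6 h]
      have h7 : ∑ a : Ch n c, l2 T (BF.ev a (D (P b))) ^ 2 ≤
          c * ((c : ℝ) ^ n * (2 * (1 / k : ℝ) ^ n)) := by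
        rw [Finset.sum_congr rfl fun a _ => h4 a]
        rw [Fintype.sum_prod_type]
        have h8 : ∀ r ∈ (Finset.univ : Finset (Fin n)),
            ∑ σ : Fin n → Fin c, F r (Function.update σ r b) ≤ c * ∑ σ, F r σ := fun r _ =>
          sum_update_le (F r) (fun σ => sq_nonneg _) r b
        refine (Finset.sum_le_sum h8).trans ?_
        rw [← Finset.mul_sum, Finset.sum_comm]
        refine mul_le_mul_of_nonneg_left ?_ hc'.le
        refine (Finset.sum_le_sum fun σ _ => hov σ).trans (le_of_eq ?_)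
        rw [Finset.sum_const, Finset.card_univ, Fintype.card_fun, Fintype.card_fin,
          Fintype.card_fin, nsmul_eq_mul]
        push_cast
        rfl
      have h9 : (1 / k : ℝ) ^ n ≤ w := by
        rw [hw]
        have hk1 : (1 / k : ℝ) ≤ 1 := by
          rw [div_le_one hk']
          exact_mod_cast hk
        exact pow_le_pow_of_le_one (by positivity) hk1 (Nat.sub_le n 1)
      calc (Fintype.card (Ch n c) : ℝ)⁻¹ * ∑ a : Ch n c, l2 T (BF.ev a (D (P b))) ^ 2
          ≤ (Fintype.card (Ch n c) : ℝ)⁻¹ * (c * ((c : ℝ) ^ n * (2 * (1 / k : ℝ) ^ n))) :=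
            mul_le_mul_of_nonneg_left h7 (by positivity)
        _ = 2 * c / n * (1 / k : ℝ) ^ n := by
            rw [hcard]
            field_simp
        _ ≤ 2 * c / n * w := mul_le_mul_of_nonneg_left h9 (by positivity)
    have h10 := l2_lin_le (avT_rtr hT) D hD hspan x
    have h11 : l2 (avT T) ((cψ c ψ g x - cψ c ψ h x) * (cq hP hPs ψ g * cq hP hPs ψ h)) ≤
        ms x * (c * √(2 * c / n * w)) := h10
    have h12 := pow_le_pow_left₀ (l2_nonneg (avT T) _) h11 2
    refine h12.trans (le_of_eq ?_)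
    rw [mul_pow, mul_pow, Real.sq_sqrt (by positivity)]
    field_simp

end Pool.Agent.Lib.EqM
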