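import Pool.Agent.Lib.EqM.Lip
import Pool.Agent.Lib.EqM.N1
import Pool.Agent.Lib.EqM.OSys
import Pool.Agent.Lib.EqM.Tra

/-!
Comparison of the increments of `K ⊆ L`, step one.
-/

open scoped ComplexOrder

namespace Pool.Agent.Lib.EqM

open Pool.Agent.Lib.EqGamma

universe u v

/-- the bounded element `φ(C) C⁻¹ Y_u` for the larger set `L` -/
noncomputable def UU {N : Type*} [CStarAlgebra N] {G : Type*} {k : ℕ} (ψ : G → Mat k →⋆ₐ[ℂ] N)
    (q : G → N) (r η : ℝ) (L : Finset G) (x : Mat k) : N :=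
  cfc (fun t => phi η t / t) (BQ q r L) * YY ψ q r L x

namespace InvAAux

theorem ms_unitary_le {k : ℕ} {u : Mat k} (hu : star u * u = 1) : ms u ≤ (k : ℝ) ^ 2 := by
  have hmem : u ∈ Matrix.unitaryGroup (Fin k) ℂ := by
    rw [Matrix.mem_unitaryGroup_iff']
    exact hu
  unfold ms
  calc ∑ i, ∑ j, ‖u i j‖ ≤ ∑ _i : Fin k, ∑ _j : Fin k, (1 : ℝ) :=
        Finset.sum_le_sum fun i _ => Finset.sum_le_sum fun j _ =>
          entry_norm_bound_of_unitary hmem i j
    _ = (k : ℝ) ^ 2 := by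
        simp
        ring

theorem sqrt_add_le' {a b : ℝ} (ha : 0 ≤ a) (hb : 0 ≤ b) : √(a + b) ≤ √a + √b := by
  rw [Real.sqrt_le_left (by positivity), add_sq, Real.sq_sqrt ha, Real.sq_sqrt hb]
  have := mul_nonneg (Real.sqrt_nonneg a) (Real.sqrt_nonneg b)
  linarith

theorem mul_star_unitary {k : ℕ} {u : Mat k} (hu : star u * u = 1) : u * star u = 1 :=
  mul_eq_one_comm.1 hu

variable {N : Type*} [CStarAlgebra N] {T : N →ₗ[ℝ] ℝ}

theorem l2_cfc_sq [PartialOrder N] [StarOrderedRing N] (hT : RTr T) {a : N} {f : ℝ → ℝ}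
    (hf : Continuous f) : l2 T (cfc f a) ^ 2 = T (cfc (fun t => f t * f t) a) := by
  rw [l2_sq hT, (cfc_predicate f a).star_eq, ← cfc_mul f f a hf.continuousOn hf.continuousOn]

theorem T_cfc_le [PartialOrder N] [StarOrderedRing N] (hT : RTr T) {a : N} (ha : 0 ≤ a)
    {f g : ℝ → ℝ} (hf : Continuous f) (hg : Continuous g) (h : ∀ t, 0 ≤ t → f t ≤ g t) :
    T (cfc f a) ≤ T (cfc g a) := by
  refine hT.mono (cfc_mono (fun t ht => h t ?_) hf.continuousOn hg.continuousOn)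
  exact spectrum_nonneg_of_nonneg ha ht

/-- the quotient `h² / √t` -/
noncomputable def ff (s0 : ℝ) (S i : ℕ) (t : ℝ) : ℝ :=
  hh s0 S i t * hh s0 S i t / √(max t s0)

theorem continuous_ff {s0 : ℝ} (hs0 : 0 < s0) (S i : ℕ) : Continuous (ff s0 S i) := by
  unfold ff
  refine Continuous.div ((continuous_hh hs0 S i).mul (continuous_hh hs0 S i))
    (Real.continuous_sqrt.comp (continuous_id.max continuous_const)) fun t => ?_
  have : 0 < max t s0 := lt_max_of_lt_right hs0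
  exact (Real.sqrt_pos.2 this).ne'

theorem hh_of_le {s0 : ℝ} {S i : ℕ} {t : ℝ} (h : t ≤ s0) : hh s0 S i t = 0 := by
  unfold hh
  rw [rho_of_le h, zero_div]

theorem hh_mul_self {s0 : ℝ} {S i : ℕ} {t : ℝ} (ht : 0 ≤ t) :
    hh s0 S i t * hh s0 S i t = rho s0 S i t ^ 2 / t := by
  unfold hh
  rw [div_mul_div_comm, Real.mul_self_sqrt ht, sq]

theorem sqrt_mul_ff {s0 : ℝ} {S i : ℕ} {t : ℝ} (hs0 : 0 < s0) :
    √t * ff s0 S i t = hh s0 S i t * hh s0 S i t := by
  unfold ff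
  rcases le_or_gt t s0 with h | h
  · rw [hh_of_le h]
    simp
  · rw [max_eq_left h.le]
    have : 0 < √t := Real.sqrt_pos.2 (hs0.trans h)
    field_simp

theorem hh_mul_self_le {s0 : ℝ} (hs0 : 0 < s0) {S i : ℕ} {t : ℝ} (ht : 0 ≤ t) :
    hh s0 S i t * hh s0 S i t ≤ 1 / s0 * rho s0 S i t ^ 2 := by
  rw [hh_mul_self ht]
  rcases le_or_gt t s0 with h | h
  · rw [rho_of_le h]
    simp
  · rw [one_div, inv_mul_eq_div]
    exact div_le_div_of_nonneg_left (sq_nonneg _) hs0 h.le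

theorem ff_nonneg (s0 : ℝ) (S i : ℕ) (t : ℝ) : 0 ≤ ff s0 S i t := by
  unfold ff
  have := hh_nonneg s0 S i t
  positivity

theorem hh_le_one_div {s0 : ℝ} (hs0 : 0 < s0) {S i : ℕ} {t : ℝ} :
    hh s0 S i t ≤ 1 / √s0 := hh_le hs0 S i t

theorem ff_le {s0 : ℝ} (hs0 : 0 < s0) {S i : ℕ} {t : ℝ} :
    ff s0 S i t ≤ 1 / s0 * hh s0 S i t := by
  unfold ff
  have h0 := hh_nonneg s0 S i t
  have h1 := hh_le hs0 S i t
  have h2 : 0 < √s0 := Real.sqrt_pos.2 hs0
  have h3 : √s0 ≤ √(max t s0) := Real.sqrt_le_sqrt (le_max_right _ _)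
  have h4 : 1 / √(max t s0) ≤ 1 / √s0 := one_div_le_one_div_of_le h2 h3
  have h5 : 1 / √s0 * (1 / √s0) = 1 / s0 := by
    rw [div_mul_div_comm, Real.mul_self_sqrt hs0.le, one_mul]
  calc hh s0 S i t * hh s0 S i t / √(max t s0) =
        (hh s0 S i t * (1 / √(max t s0))) * hh s0 S i t := by ring
    _ ≤ (1 / √s0 * (1 / √s0)) * hh s0 S i t := by
        refine mul_le_mul_of_nonneg_right (mul_le_mul h1 h4 ?_ ?_) h0 <;> positivity
    _ = 1 / s0 * hh s0 S i t := by rw [h5]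

section osys

variable {G : Type*} {k : ℕ} {ψ : G → Mat k →⋆ₐ[ℂ] N} {q : G → N} {w θ : ℝ}
  (h : OSys T ψ q w θ) {r s0 : ℝ} {S i : ℕ} {K L : Finset G}

include h in
theorem BQ_nonneg [PartialOrder N] [StarOrderedRing N] (hr : 0 ≤ r) : 0 ≤ BQ q r K :=
  sumq_nonneg (fun g _ => h.idem g) (fun g _ => h.star_eq g) hr

include h in
theorem BQ_le [PartialOrder N] [StarOrderedRing N] (hr : 0 ≤ r) {c : ℝ} (hc : r * K.card ≤ c) :
    BQ q r K ≤ algebraMap ℝ N c :=
  sumq_le (fun g _ => h.idem g) (fun g _ => h.star_eq g) hr hc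

include h in
theorem T_rho [PartialOrder N] [StarOrderedRing N] (hr : 0 < r) (hrK : r * K.card = 1)
    (hs0 : 0 < s0) : T (cfc (fun t => rho s0 S i t ^ 2) (BQ q r K)) ≤ w / s0 :=
  T_rho_sq_le_single h.tr (fun g _ => h.idem g) (fun g _ => h.star_eq g) (fun g _ => h.mean g)
    hr hrK hs0 i

include h in
theorem l2_hh_sq [PartialOrder N] [StarOrderedRing N] (hr : 0 < r) (hrK : r * K.card = 1)
    (hs0 : 0 < s0) : T (cfc (fun t => hh s0 S i t * hh s0 S i t) (BQ q r K)) ≤ w / s0 ^ 2 := by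
  have hc := continuous_hh hs0 S i
  have hc2 : Continuous fun t => rho s0 S i t ^ 2 := (continuous_rho s0 S i).pow 2
  have h1 : T (cfc (fun t => hh s0 S i t * hh s0 S i t) (BQ q r K)) ≤
      T (cfc (fun t => 1 / s0 * rho s0 S i t ^ 2) (BQ q r K)) :=
    T_cfc_le h.tr (BQ_nonneg h hr.le) (hc.mul hc) (hc2.const_mul _) fun t ht =>
      hh_mul_self_le hs0 ht
  have h2 : cfc (fun t => 1 / s0 * rho s0 S i t ^ 2) (BQ q r K) =
      (1 / s0) • cfc (fun t => rho s0 S i t ^ 2) (BQ q r K) :=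
    cfc_const_mul (1 / s0) _ _ hc2.continuousOn
  rw [h2, map_smul, smul_eq_mul] at h1
  refine h1.trans ?_
  have h3 := T_rho (S := S) (i := i) h hr hrK hs0
  calc 1 / s0 * T (cfc (fun t => rho s0 S i t ^ 2) (BQ q r K)) ≤ 1 / s0 * (w / s0) :=
        mul_le_mul_of_nonneg_left h3 (by positivity)
    _ = w / s0 ^ 2 := by
        field_simp

include h in
theorem l2_hh [PartialOrder N] [StarOrderedRing N] (hw : 0 ≤ w) (hr : 0 < r)
    (hrK : r * K.card = 1) (hs0 : 0 < s0) :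
    l2 T (cfc (hh s0 S i) (BQ q r K)) ≤ √w / s0 := by
  refine le_of_sq_le_sq ?_ (by positivity)
  rw [l2_cfc_sq h.tr (continuous_hh hs0 S i), div_pow, Real.sq_sqrt hw]
  exact l2_hh_sq h hr hrK hs0

include h in
theorem norm_hh [PartialOrder N] [StarOrderedRing N] (hr : 0 < r) (hs0 : 0 < s0) :
    ‖cfc (hh s0 S i) (BQ q r K)‖ ≤ 1 / √s0 := by
  refine norm_cfc_le (by positivity) fun t _ => ?_
  rw [Real.norm_eq_abs, abs_of_nonneg (hh_nonneg _ _ _ _)]
  exact hh_le hs0 S i t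

include h in
theorem l2_comm_BY [PartialOrder N] [StarOrderedRing N] (hr : 0 < r) (hrK : r * K.card = 1)
    (u : Mat k) :
    l2 T (BQ q r K * YY ψ q r K u - YY ψ q r K u * BQ q r K) ≤ 4 * k * ms u * √(θ * w) := by
  have h1 := h.rel1 hr.le (K := K) (L := K) (by linarith) (by linarith) 1 u
  rw [OSys.YY_one, one_mul, ms_one] at h1
  exact h1

include h in
theorem l2_comm_hY [PartialOrder N] [StarOrderedRing N] (hr : 0 < r) (hrK : r * K.card = 1)
    (hs0 : 0 < s0) (u : Mat k) :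
    l2 T (cfc (hh s0 S i) (BQ q r K) * YY ψ q r K u - YY ψ q r K u * cfc (hh s0 S i) (BQ q r K)) ≤
      (S / √s0 + 1 / (s0 * √s0)) * (4 * k * ms u * √(θ * w)) := by
  refine (l2_comm_cfc_le h.tr (BQ_nonneg h hr.le) (BQ_le h hr.le hrK.le) (continuous_hh hs0 S i)
    (by positivity) (fun x _ y _ => hh_lip hs0 S i x y) _).trans ?_
  exact mul_le_mul_of_nonneg_left (l2_comm_BY h hr hrK u) (by positivity)

include h in
theorem norm_phi_div [PartialOrder N] [StarOrderedRing N] {η : ℝ} (hη : 0 < η) (hr : 0 < r) :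
    ‖cfc (fun t => phi η t / t) (BQ q r L)‖ ≤ 1 / η := by
  refine norm_cfc_le (by positivity) fun t _ => ?_
  rw [Real.norm_eq_abs]
  rcases le_or_gt t η with ht | ht
  · rw [phi_of_le hη ht]
    simp only [zero_div, abs_zero]
    positivity
  · have h0 : 0 < t := hη.trans ht
    rw [abs_of_nonneg (div_nonneg (phi_nonneg _ _) h0.le)]
    exact div_le_div₀ zero_le_one (phi_le_one _ _) hη ht.le

include h in
theorem norm_one_sub_phi [PartialOrder N] [StarOrderedRing N] {η : ℝ} (hη : 0 < η) (hr : 0 < r) :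
    ‖1 - cfc (phi η) (BQ q r L)‖ ≤ 1 := by
  have hsa : IsSelfAdjoint (BQ q r L) := (BQ_nonneg h hr.le).isSelfAdjoint
  have hc := continuous_phi hη
  have e : 1 - cfc (phi η) (BQ q r L) = cfc (fun t => 1 - phi η t) (BQ q r L) := by
    rw [cfc_sub (fun _ => 1) (phi η) _ continuousOn_const hc.continuousOn,
      cfc_const_one ℝ (BQ q r L)]
  rw [e]
  refine norm_cfc_le zero_le_one fun t _ => ?_
  have h1 := phi_nonneg η t
  have h2 := phi_le_one η t
  rw [Real.norm_eq_abs, abs_le]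
  constructor <;> linarith

theorem phi_eq {η : ℝ} (hη : 0 < η) (a : N) (ha : IsSelfAdjoint a) :
    cfc (phi η) a = cfc (fun t => phi η t / t) a * a := by
  have h1 : cfc (fun t => phi η t / t * t) a = cfc (fun t => phi η t / t) a * a := by
    rw [cfc_mul (fun t => phi η t / t) (fun t => t) a (continuous_phi_div hη).continuousOn
      continuousOn_id, cfc_id' ℝ a]
  rw [← h1]
  congr 1
  funext t
  rcases le_or_gt t η with ht | ht
  · rw [phi_of_le hη ht]
    simp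
  · rw [div_mul_cancel₀]
    exact (hη.trans ht).ne'

include h in
theorem rho_eq [PartialOrder N] [StarOrderedRing N] (hr : 0 < r) (hs0 : 0 < s0) :
    cfc (fun t => rho s0 S i t ^ 2) (BQ q r K) =
      BQ q r K * (cfc (hh s0 S i) (BQ q r K) * cfc (hh s0 S i) (BQ q r K)) := by
  have hsa : IsSelfAdjoint (BQ q r K) := (BQ_nonneg h hr.le).isSelfAdjoint
  have hc := continuous_hh hs0 S i
  rw [← cfc_mul _ _ _ hc.continuousOn hc.continuousOn]
  have h1 : cfc (fun t => t * (hh s0 S i t * hh s0 S i t)) (BQ q r K) = BQ q r K *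
      cfc (fun t => hh s0 S i t * hh s0 S i t) (BQ q r K) := by
    rw [cfc_mul (fun t => t) (fun t => hh s0 S i t * hh s0 S i t) (BQ q r K) continuousOn_id
      (hc.mul hc).continuousOn, cfc_id' ℝ (BQ q r K)]
  rw [← h1]
  congr 1
  funext t
  rw [← hh_sq_mul hs0 S i t]
  ring

include h in
theorem l2_ff [PartialOrder N] [StarOrderedRing N] (hw : 0 ≤ w) (hr : 0 < r)
    (hrK : r * K.card = 1) (hs0 : 0 < s0) :
    l2 T (cfc (ff s0 S i) (BQ q r K)) ≤ √w / s0 ^ 2 := by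
  have hc := continuous_hh hs0 S i
  refine le_of_sq_le_sq ?_ (by positivity)
  rw [l2_cfc_sq h.tr (continuous_ff hs0 S i), div_pow, Real.sq_sqrt hw]
  have h1 : T (cfc (fun t => ff s0 S i t * ff s0 S i t) (BQ q r K)) ≤
      T (cfc (fun t => 1 / s0 ^ 2 * (hh s0 S i t * hh s0 S i t)) (BQ q r K)) := by
    refine T_cfc_le h.tr (BQ_nonneg h hr.le) ((continuous_ff hs0 S i).mul (continuous_ff hs0 S i))
      ((hc.mul hc).const_mul _) fun t _ => ?_
    have h2 := ff_le (S := S) (i := i) (t := t) hs0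
    have h3 := ff_nonneg s0 S i t
    calc ff s0 S i t * ff s0 S i t ≤ (1 / s0 * hh s0 S i t) * (1 / s0 * hh s0 S i t) :=
          mul_le_mul h2 h2 h3 (h3.trans h2)
      _ = 1 / s0 ^ 2 * (hh s0 S i t * hh s0 S i t) := by
          field_simp
  have h2 : cfc (fun t => 1 / s0 ^ 2 * (hh s0 S i t * hh s0 S i t)) (BQ q r K) =
      (1 / s0 ^ 2) • cfc (fun t => hh s0 S i t * hh s0 S i t) (BQ q r K) :=
    cfc_const_mul (1 / s0 ^ 2) _ _ (hc.mul hc).continuousOn
  rw [h2, map_smul, smul_eq_mul] at h1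
  refine h1.trans ?_
  calc 1 / s0 ^ 2 * T (cfc (fun t => hh s0 S i t * hh s0 S i t) (BQ q r K)) ≤
        1 / s0 ^ 2 * (w / s0 ^ 2) :=
        mul_le_mul_of_nonneg_left (l2_hh_sq h hr hrK hs0) (by positivity)
    _ = w / (s0 ^ 2) ^ 2 := by
        field_simp

theorem norm_ff [PartialOrder N] [StarOrderedRing N] (hs0 : 0 < s0) (a : N) :
    ‖cfc (ff s0 S i) a‖ ≤ 1 / (s0 * √s0) := by
  refine norm_cfc_le (by positivity) fun t _ => ?_
  rw [Real.norm_eq_abs, abs_of_nonneg (ff_nonneg _ _ _ _)]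
  refine (ff_le hs0).trans ?_
  calc 1 / s0 * hh s0 S i t ≤ 1 / s0 * (1 / √s0) :=
        mul_le_mul_of_nonneg_left (hh_le hs0 S i t) (by positivity)
    _ = 1 / (s0 * √s0) := by rw [div_mul_div_comm, one_mul]

include h in
theorem T_fBBf [PartialOrder N] [StarOrderedRing N] (hr : 0 < r) (hrK : r * K.card = 1)
    (hs0 : 0 < s0) :
    T (cfc (ff s0 S i) (BQ q r K) * (BQ q r K * BQ q r K) * cfc (ff s0 S i) (BQ q r K)) ≤
      w / s0 ^ 2 := by
  have hsa : IsSelfAdjoint (BQ q r K) := (BQ_nonneg h hr.le).isSelfAdjoint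
  have hc := continuous_ff hs0 S i
  have hc2 : Continuous fun t => rho s0 S i t ^ 2 := (continuous_rho s0 S i).pow 2
  have e : cfc (ff s0 S i) (BQ q r K) * (BQ q r K * BQ q r K) * cfc (ff s0 S i) (BQ q r K) =
      cfc (fun t => ff s0 S i t * (t * t) * ff s0 S i t) (BQ q r K) := by
    rw [cfc_mul (fun t => ff s0 S i t * (t * t)) (ff s0 S i) (BQ q r K)
      (by fun_prop) hc.continuousOn,
      cfc_mul (ff s0 S i) (fun t => t * t) (BQ q r K) hc.continuousOn (by fun_prop),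
      cfc_mul (fun t => t) (fun t => t) (BQ q r K) (by fun_prop) (by fun_prop),
      cfc_id' ℝ (BQ q r K)]
  rw [e]
  have h1 : T (cfc (fun t => ff s0 S i t * (t * t) * ff s0 S i t) (BQ q r K)) ≤
      T (cfc (fun t => 1 / s0 * rho s0 S i t ^ 2) (BQ q r K)) := by
    refine T_cfc_le h.tr (BQ_nonneg h hr.le) (by fun_prop) (hc2.const_mul _) fun t ht => ?_
    have h2 := sqrt_mul_ff (S := S) (i := i) (t := t) hs0
    have h3 : ff s0 S i t * (t * t) * ff s0 S i t =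
        (hh s0 S i t * t * hh s0 S i t) * (hh s0 S i t * hh s0 S i t) := by
      calc ff s0 S i t * (t * t) * ff s0 S i t = (√t * √t) * (ff s0 S i t * t * ff s0 S i t) := by
            rw [Real.mul_self_sqrt ht]
            ring
        _ = (√t * ff s0 S i t) * t * (√t * ff s0 S i t) := by ring
        _ = _ := by
            rw [h2]
            ring
    rw [h3, hh_sq_mul hs0]
    have h4 := hh_mul_self_le (S := S) (i := i) hs0 ht
    have h5 := rho_nonneg s0 S i t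
    have h6 := rho_le_one s0 S i t
    have h7 : rho s0 S i t ^ 2 ≤ 1 := pow_le_one₀ h5 h6
    calc rho s0 S i t ^ 2 * (hh s0 S i t * hh s0 S i t) ≤ 1 * (hh s0 S i t * hh s0 S i t) :=
          mul_le_mul_of_nonneg_right h7 (mul_self_nonneg _)
      _ ≤ _ := by
          rw [one_mul]
          exact h4
  have h2 : cfc (fun t => 1 / s0 * rho s0 S i t ^ 2) (BQ q r K) =
      (1 / s0) • cfc (fun t => rho s0 S i t ^ 2) (BQ q r K) :=
    cfc_const_mul (1 / s0) _ _ hc2.continuousOn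
  rw [h2, map_smul, smul_eq_mul] at h1
  refine h1.trans ?_
  calc 1 / s0 * T (cfc (fun t => rho s0 S i t ^ 2) (BQ q r K)) ≤ 1 / s0 * (w / s0) :=
        mul_le_mul_of_nonneg_left (T_rho h hr hrK hs0) (by positivity)
    _ = w / s0 ^ 2 := by
        field_simp

theorem sqrt_mul_sqrt_mul (hw : 0 ≤ w) (hθ : 0 ≤ θ) : √(θ * w) * √w = √θ * w := by
  rw [Real.sqrt_mul hθ, mul_assoc, Real.mul_self_sqrt hw]

include h in
/-- the bound of the last part -/
theorem l2_fY [PartialOrder N] [StarOrderedRing N] (hw : 0 ≤ w) (hθ : 0 ≤ θ) (hr : 0 < r)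
    (hrK : r * K.card = 1) (hs0 : 0 < s0) {u : Mat k} (hu : star u * u = 1) :
    l2 T (cfc (ff s0 S i) (BQ q r K) * YY ψ q r K u) ^ 2 ≤
      w / s0 ^ 2 + 4 * k ^ 4 / (s0 * √s0 * s0 ^ 2) * (√θ * w) := by
  set f := cfc (ff s0 S i) (BQ q r K) with hf
  set Y := YY ψ q r K u with hY
  have hfs : star f = f := (cfc_predicate (ff s0 S i) (BQ q r K)).star_eq
  have hYs : star Y = YY ψ q r K (star u) := h.star_YY r K u
  rw [← l2_star h.tr, l2_sq h.tr, star_star, star_mul, hfs, hYs]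
  have h1 := h.rel1 hr.le (K := K) (L := K) (by linarith) (by linarith) u (star u)
  rw [mul_star_unitary hu, OSys.YY_one, ms_star] at h1
  have e : f * Y * (YY ψ q r K (star u) * f) = f * (BQ q r K * BQ q r K) * f +
      f * (Y * YY ψ q r K (star u) - BQ q r K * BQ q r K) * f := by
    noncomm_ring
  rw [e, map_add]
  refine add_le_add (T_fBBf h hr hrK hs0) ?_
  set E := Y * YY ψ q r K (star u) - BQ q r K * BQ q r K with hE
  have h2 : T (f * E * f) ≤ l2 T E * l2 T (f * f) := by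
    have h3 : T (f * E * f) = T (E * (f * f)) := by
      rw [mul_assoc, h.tr.tracial, mul_assoc]
    rw [h3]
    exact (le_abs_self _).trans (abs_T_mul_le_l2 h.tr _ _)
  have h3 : l2 T (f * f) ≤ 1 / (s0 * √s0) * (√w / s0 ^ 2) :=
    (l2_mul_left_le h.tr f f).trans (mul_le_mul (norm_ff hs0 _) (l2_ff h hw hr hrK hs0)
      (l2_nonneg _ _) (by positivity))
  have hms := ms_unitary_le hu
  have hms0 := ms_nonneg u
  have h4 : 4 * ms u * ms u ≤ 4 * (k : ℝ) ^ 4 := by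
    have : ms u * ms u ≤ (k : ℝ) ^ 2 * (k : ℝ) ^ 2 := mul_le_mul hms hms hms0 (by positivity)
    nlinarith
  have h5 : l2 T E ≤ 4 * (k : ℝ) ^ 4 * √(θ * w) :=
    h1.trans (mul_le_mul_of_nonneg_right h4 (Real.sqrt_nonneg _))
  calc T (f * E * f) ≤ l2 T E * l2 T (f * f) := h2
    _ ≤ (4 * (k : ℝ) ^ 4 * √(θ * w)) * (1 / (s0 * √s0) * (√w / s0 ^ 2)) :=
        mul_le_mul h5 h3 (l2_nonneg _ _) (by positivity)
    _ = 4 * k ^ 4 / (s0 * √s0 * s0 ^ 2) * (√(θ * w) * √w) := by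
        field_simp
    _ = _ := by rw [sqrt_mul_sqrt_mul hw hθ]

end osys

end InvAAux

open InvAAux in
theorem step_a {k : ℕ} {s0 : ℝ} (hs0 : 0 < s0) {S : ℕ} (hS : 0 < S) {η : ℝ} (hη : 0 < η) :
    ∃ C : ℝ, 0 ≤ C ∧ ∀ (N : Type u) [CStarAlgebra N] (G : Type v) (T : N →ₗ[ℝ] ℝ)
      (ψ : G → Mat k →⋆ₐ[ℂ] N) (q : G → N) (w θ : ℝ), OSys T ψ q w θ → 0 ≤ w → 0 ≤ θ → θ ≤ 1 →
      ∀ (r : ℝ) (K L : Finset G), 0 < r → r * K.card = 1 → K ⊆ L → r * L.card ≤ 2 →
      η * L.card ≤ 1 → ∀ i < S, ∀ u : Mat k, star u * u = 1 →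
      n1 T (DI ψ q r s0 S K i u -
        UU ψ q r η L u * cfc (fun t => rho s0 S i t ^ 2) (BQ q r K)) ≤
      (2 * √(η * L.card) / s0 + C * √√θ) * w := by
  set Λ : ℝ := S / √s0 + 1 / (s0 * √s0) with hΛ
  have hΛ0 : 0 ≤ Λ := by positivity
  refine ⟨Λ * (4 * k ^ 3) / s0 + 1 / η * (4 * k ^ 3) * (1 / √s0) / s0 +
    2 * (Λ * (4 * k ^ 3) / s0) + 2 * √(4 * k ^ 4 / (s0 * √s0 * s0 ^ 2)), by positivity, ?_⟩
  intro N _ G T ψ q w θ h hw hθ hθ1 r K L hr hrK hKL hrL hηL i _ u hu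
  let _ := CStarAlgebra.spectralOrder N
  have := CStarAlgebra.spectralOrderedRing N
  have hms := ms_unitary_le hu
  have hms0 := ms_nonneg u
  set B := BQ q r K with hB
  set C' := BQ q r L with hC'
  set Y := YY ψ q r K u with hY
  set YL := YY ψ q r L u with hYL
  set b := cfc (hh s0 S i) B with hb
  set Gc := cfc (fun t => phi η t / t) C' with hGc
  have hC'sa : IsSelfAdjoint C' := (BQ_nonneg h hr.le).isSelfAdjoint
  have hφ : cfc (phi η) C' = Gc * C' := phi_eq hη C' hC'sa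
  have hχ : cfc (fun t => rho s0 S i t ^ 2) B = B * (b * b) := rho_eq h hr hs0
  -- the commutator and the second relation
  have hk3 : 4 * k * ms u ≤ 4 * (k : ℝ) ^ 3 := by
    have : (k : ℝ) * ms u ≤ k * k ^ 2 := mul_le_mul_of_nonneg_left hms (Nat.cast_nonneg k)
    nlinarith
  have hcm : l2 T (b * Y - Y * b) ≤ Λ * (4 * k ^ 3) * √(θ * w) := by
    refine (l2_comm_hY h hr hrK hs0 u).trans ?_
    rw [mul_assoc Λ]
    exact mul_le_mul_of_nonneg_left (mul_le_mul_of_nonneg_right hk3 (Real.sqrt_nonneg _)) hΛ0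
  have hrel : l2 T (YL * B - C' * Y) ≤ 4 * k ^ 3 * √(θ * w) := by
    have h1 := h.rel2 hr.le (K := L) (L := K) hrL (by linarith) u 1
    rw [mul_one, OSys.YY_one, ms_one] at h1
    refine h1.trans (mul_le_mul_of_nonneg_right ?_ (Real.sqrt_nonneg _))
    linarith
  have hb2 : l2 T b ≤ √w / s0 := l2_hh h hw hr hrK hs0
  have hbn : ‖b‖ ≤ 1 / √s0 := norm_hh h hr hs0
  have hGn : ‖Gc‖ ≤ 1 / η := norm_phi_div h hη hr
  have hφn : ‖1 - Gc * C'‖ ≤ 1 := by
    rw [← hφ]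
    exact norm_one_sub_phi h hη hr
  have hθs : √θ ≤ √√θ := by
    have h1 : √√θ ≤ 1 := by
      rw [Real.sqrt_le_one, Real.sqrt_le_one]
      exact hθ1
    calc √θ = √√θ * √√θ := (Real.mul_self_sqrt (Real.sqrt_nonneg _)).symm
      _ ≤ √√θ * 1 := mul_le_mul_of_nonneg_left h1 (Real.sqrt_nonneg _)
      _ = _ := mul_one _
  -- part one
  have p1 : n1 T ((b * Y - Y * b) * b) ≤ Λ * (4 * k ^ 3) / s0 * (√θ * w) := by
    refine (n1_mul_le h.tr _ _).trans ?_
    calc l2 T (b * Y - Y * b) * l2 T b ≤ (Λ * (4 * k ^ 3) * √(θ * w)) * (√w / s0) :=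
          mul_le_mul hcm hb2 (l2_nonneg _ _) (by positivity)
      _ = Λ * (4 * k ^ 3) / s0 * (√(θ * w) * √w) := by ring
      _ = _ := by rw [sqrt_mul_sqrt_mul hw hθ]
  have p1' : n1 T (b * (b * Y - Y * b)) ≤ Λ * (4 * k ^ 3) / s0 * (√θ * w) := by
    refine (n1_mul_le h.tr _ _).trans ?_
    calc l2 T b * l2 T (b * Y - Y * b) ≤ (√w / s0) * (Λ * (4 * k ^ 3) * √(θ * w)) :=
          mul_le_mul hb2 hcm (l2_nonneg _ _) (by positivity)
      _ = Λ * (4 * k ^ 3) / s0 * (√(θ * w) * √w) := by ring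
      _ = _ := by rw [sqrt_mul_sqrt_mul hw hθ]
  -- part two
  have p2 : n1 T (Gc * ((YL * B - C' * Y) * (b * b))) ≤
      1 / η * (4 * k ^ 3) * (1 / √s0) / s0 * (√θ * w) := by
    have hbb : l2 T (b * b) ≤ 1 / √s0 * (√w / s0) :=
      (l2_mul_left_le h.tr b b).trans (mul_le_mul hbn hb2 (l2_nonneg _ _) (by positivity))
    refine (n1_mul_left_le h.tr _ _).trans ?_
    calc ‖Gc‖ * n1 T ((YL * B - C' * Y) * (b * b)) ≤
          1 / η * ((4 * k ^ 3 * √(θ * w)) * (1 / √s0 * (√w / s0))) := by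
          refine mul_le_mul hGn ?_ (n1_nonneg h.tr _) (by positivity)
          exact (n1_mul_le h.tr _ _).trans (mul_le_mul hrel hbb (l2_nonneg _ _) (by positivity))
      _ = 1 / η * (4 * k ^ 3) * (1 / √s0) / s0 * (√(θ * w) * √w) := by ring
      _ = _ := by rw [sqrt_mul_sqrt_mul hw hθ]
  -- part three
  have p3 : n1 T ((1 - Gc * C') * (Y * (b * b) - b * b * Y)) ≤
      2 * (Λ * (4 * k ^ 3) / s0) * (√θ * w) := by
    refine (n1_mul_left_le h.tr _ _).trans ?_
    have e : Y * (b * b) - b * b * Y = -((b * Y - Y * b) * b + b * (b * Y - Y * b)) := by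
      noncomm_ring
    have h1 : n1 T (Y * (b * b) - b * b * Y) ≤ 2 * (Λ * (4 * k ^ 3) / s0) * (√θ * w) := by
      rw [e, n1_neg]
      refine (n1_add_le h.tr _ _).trans ?_
      linarith
    calc ‖1 - Gc * C'‖ * n1 T (Y * (b * b) - b * b * Y) ≤
          1 * n1 T (Y * (b * b) - b * b * Y) :=
          mul_le_mul_of_nonneg_right hφn (n1_nonneg h.tr _)
      _ ≤ _ := by
          rw [one_mul]
          exact h1
  -- part four
  have p4 : n1 T ((1 - Gc * C') * (b * b) * Y) ≤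
      2 * √(η * L.card) / s0 * w + 2 * √(4 * k ^ 4 / (s0 * √s0 * s0 ^ 2)) * (√√θ * w) := by
    have hc := continuous_hh hs0 S i
    have hBsa : IsSelfAdjoint B := (BQ_nonneg h hr.le).isSelfAdjoint
    have e1 : b * b = cfc Real.sqrt B * cfc (ff s0 S i) B := by
      rw [hb, ← cfc_mul _ _ _ hc.continuousOn hc.continuousOn,
        ← cfc_mul _ _ _ Real.continuous_sqrt.continuousOn (continuous_ff hs0 S i).continuousOn]
      congr 1
      funext t
      exact (sqrt_mul_ff hs0).symm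
    have e2 : (1 - Gc * C') * (b * b) * Y =
        ((1 - Gc * C') * cfc Real.sqrt B) * (cfc (ff s0 S i) B * Y) := by
      rw [e1]
      noncomm_ring
    rw [e2]
    refine (n1_mul_le h.tr _ _).trans ?_
    have h1 : l2 T ((1 - Gc * C') * cfc Real.sqrt B) ≤ 2 * √(η * L.card) * √w := by
      refine le_of_sq_le_sq ?_ (by positivity)
      have h2 := l2_phi_sqrt_le h.tr (K := K) (L := L) (q := q) (w := w) (fun g _ => h.idem g)
        (fun g _ => h.star_eq g) (fun g _ => h.mean g) hKL (fun g _ => h.idem g)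
        (fun g _ => h.star_eq g) (fun g _ => h.mean g) hr hη
      have h3 : l2 T ((1 - Gc * C') * cfc Real.sqrt B) ^ 2 ≤ 4 * η * L.card * w := by
        rw [← hφ]
        exact h2
      refine h3.trans (le_of_eq ?_)
      rw [mul_pow, mul_pow, Real.sq_sqrt hw, Real.sq_sqrt (by positivity)]
      ring
    have h4 : l2 T (cfc (ff s0 S i) B * Y) ≤
        √w / s0 + √(4 * k ^ 4 / (s0 * √s0 * s0 ^ 2)) * (√√θ * √w) := by
      have h5 := l2_fY (S := S) (i := i) h hw hθ hr hrK hs0 hu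
      have h6 : l2 T (cfc (ff s0 S i) B * Y) ≤
          √(w / s0 ^ 2 + 4 * k ^ 4 / (s0 * √s0 * s0 ^ 2) * (√θ * w)) :=
        Real.le_sqrt_of_sq_le h5
      refine h6.trans ((sqrt_add_le' (by positivity) (by positivity)).trans
        (le_of_eq ?_))
      rw [Real.sqrt_div hw, Real.sqrt_sq hs0.le, Real.sqrt_mul (by positivity),
        Real.sqrt_mul (Real.sqrt_nonneg _)]
    have h7 : √(η * L.card) ≤ 1 := by
      rw [Real.sqrt_le_one]
      exact hηL
    set c4 := √(4 * (k : ℝ) ^ 4 / (s0 * √s0 * s0 ^ 2)) with hc4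
    have hww : √w * √w = w := Real.mul_self_sqrt hw
    calc l2 T ((1 - Gc * C') * cfc Real.sqrt B) * l2 T (cfc (ff s0 S i) B * Y) ≤
          (2 * √(η * L.card) * √w) * (√w / s0 + c4 * (√√θ * √w)) :=
          mul_le_mul h1 h4 (l2_nonneg _ _) (by positivity)
      _ = 2 * √(η * L.card) / s0 * (√w * √w) +
          √(η * L.card) * (2 * c4 * (√√θ * (√w * √w))) := by ring
      _ ≤ 2 * √(η * L.card) / s0 * w + 2 * c4 * (√√θ * w) := by
          rw [hww]
          have : √(η * L.card) * (2 * c4 * (√√θ * w)) ≤ 1 * (2 * c4 * (√√θ * w)) :=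
            mul_le_mul_of_nonneg_right h7 (by positivity)
          linarith
  -- all together
  have edec : DI ψ q r s0 S K i u - UU ψ q r η L u * cfc (fun t => rho s0 S i t ^ 2) B =
      (b * Y - Y * b) * b + (1 - Gc * C') * (Y * (b * b) - b * b * Y) +
      (1 - Gc * C') * (b * b) * Y - Gc * ((YL * B - C' * Y) * (b * b)) := by
    rw [hχ]
    show b * Y * b - Gc * YL * (B * (b * b)) = _
    noncomm_ring
  rw [edec]
  refine (n1_sub_le h.tr _ _).trans ?_
  have t1 := n1_add_le h.tr ((b * Y - Y * b) * b + (1 - Gc * C') * (Y * (b * b) - b * b * Y))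
    ((1 - Gc * C') * (b * b) * Y)
  have t2 := n1_add_le h.tr ((b * Y - Y * b) * b) ((1 - Gc * C') * (Y * (b * b) - b * b * Y))
  have hθw : √θ * w ≤ √√θ * w := mul_le_mul_of_nonneg_right hθs hw
  have q1 := p1.trans (mul_le_mul_of_nonneg_left hθw (by positivity))
  have q2 := p2.trans (mul_le_mul_of_nonneg_left hθw (by positivity))
  have q3 := p3.trans (mul_le_mul_of_nonneg_left hθw (by positivity))
  have e : (2 * √(η * L.card) / s0 + (Λ * (4 * k ^ 3) / s0 +
      1 / η * (4 * k ^ 3) * (1 / √s0) / s0 + 2 * (Λ * (4 * k ^ 3) / s0) +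
      2 * √(4 * k ^ 4 / (s0 * √s0 * s0 ^ 2))) * √√θ) * w =
      Λ * (4 * k ^ 3) / s0 * (√√θ * w) + 2 * (Λ * (4 * k ^ 3) / s0) * (√√θ * w) +
      (2 * √(η * L.card) / s0 * w + 2 * √(4 * k ^ 4 / (s0 * √s0 * s0 ^ 2)) * (√√θ * w)) +
      1 / η * (4 * k ^ 3) * (1 / √s0) / s0 * (√√θ * w) := by ring
  rw [e]
  linarith

end Pool.Agent.Lib.EqM
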