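import Pool.Agent.Lib.EqM.N1Ind

/-!
Systems of commuting matrix copies and invariant partitions of unity.
-/

open scoped ComplexOrder

namespace Pool.Agent.Lib.EqM

open Pool.Agent.Lib.EqGamma

/-- a system of commuting copies `ψ l` of the matrices and partitions of unity `p l` over `A` -/
structure MSys {M : Type*} [CStarAlgebra M] {G : Type*} {k : ℕ} {ι : Type*} [Fintype ι]
    (T : M →ₗ[ℝ] ℝ) (A : StarSubalgebra ℂ M) (ψ : ℕ → G → Mat k →⋆ₐ[ℂ] M) (p : ℕ → ι → M)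
    (R : ℕ) : Prop where
  tr : RTr T
  one : T 1 = 1
  comm : ∀ l < R, ∀ l' < R, l ≠ l' → ∀ g g' x x', Commute (ψ l g x) (ψ l' g' x')
  commA : ∀ l < R, ∀ g x, ∀ a ∈ A, Commute a (ψ l g x)
  pstar : ∀ l < R, ∀ i, star (p l i) = p l i
  pidem : ∀ l < R, ∀ i, p l i * p l i = p l i
  porth : ∀ l < R, ∀ i j, i ≠ j → p l i * p l j = 0
  psum : ∀ l < R, ∑ i, p l i = 1
  pp : ∀ l < R, ∀ l' < R, l ≠ l' → ∀ i i', Commute (p l i) (p l' i')
  pψ : ∀ l < R, ∀ l' < R, ∀ i g x, Commute (p l i) (ψ l' g x)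
  pA : ∀ l < R, ∀ i, ∀ a ∈ A, Commute a (p l i)
  ind : ∀ l < R, ∀ i, ∀ x ∈ StarAlgebra.adjoin ℂ ((A : Set M) ∪
    {y | ∃ l' g z, l' < R ∧ y = ψ l' g z} ∪ {y | ∃ l' i', l' < R ∧ l' ≠ l ∧ y = p l' i'}),
    T (x * p l i) = (Fintype.card ι : ℝ)⁻¹ * T x

section

variable {M : Type*} [CStarAlgebra M] {G : Type*} {k : ℕ} {ι : Type*} [Fintype ι]
  {T : M →ₗ[ℝ] ℝ} {A : StarSubalgebra ℂ M} {ψ : ℕ → G → Mat k →⋆ₐ[ℂ] M} {p : ℕ → ι → M} {R : ℕ}

theorem MSys.mono_R (h : MSys T A ψ p R) {R' : ℕ} (hR : R' ≤ R) : MSys T A ψ p R' := by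
  have hlt : ∀ {l : ℕ}, l < R' → l < R := fun hl => lt_of_lt_of_le hl hR
  exact
  { tr := h.tr
    one := h.one
    comm := fun l hl l' hl' => h.comm l (hlt hl) l' (hlt hl')
    commA := fun l hl => h.commA l (hlt hl)
    pstar := fun l hl => h.pstar l (hlt hl)
    pidem := fun l hl => h.pidem l (hlt hl)
    porth := fun l hl => h.porth l (hlt hl)
    psum := fun l hl => h.psum l (hlt hl)
    pp := fun l hl l' hl' => h.pp l (hlt hl) l' (hlt hl')
    pψ := fun l hl l' hl' => h.pψ l (hlt hl) l' (hlt hl')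
    pA := fun l hl => h.pA l (hlt hl)
    ind := by
      intro l hl i x hx
      refine h.ind l (hlt hl) i x (StarAlgebra.adjoin_mono ?_ hx)
      refine Set.union_subset_union (Set.union_subset_union subset_rfl ?_) ?_
      · rintro y ⟨l', g, z, hl', hy⟩
        exact ⟨l', g, z, hlt hl', hy⟩
      · rintro y ⟨l', i', hl', hn, hy⟩
        exact ⟨l', i', hlt hl', hn, hy⟩ }

/-- the closed algebra generated by `A`, the copies `l < l0` and the partitions `l < j0` -/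
noncomputable def Qs (A : StarSubalgebra ℂ M) (ψ : ℕ → G → Mat k →⋆ₐ[ℂ] M) (p : ℕ → ι → M)
    (l0 j0 : ℕ) : StarSubalgebra ℂ M :=
  (StarAlgebra.adjoin ℂ ((A : Set M) ∪ {y | ∃ l g z, l < l0 ∧ y = ψ l g z} ∪
    {y | ∃ l i, l < j0 ∧ y = p l i})).topologicalClosure

theorem isClosed_Qs (l0 j0 : ℕ) : IsClosed (Qs A ψ p l0 j0 : Set M) :=
  StarSubalgebra.isClosed_topologicalClosure _

theorem Qs_mono {l0 l1 j0 j1 : ℕ} (h1 : l0 ≤ l1) (h2 : j0 ≤ j1) :
    Qs A ψ p l0 j0 ≤ Qs A ψ p l1 j1 :=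
  StarSubalgebra.topologicalClosure_mono (StarAlgebra.adjoin_mono
    (Set.union_subset_union (Set.union_subset_union subset_rfl
      (fun _ ⟨l, g, z, hl, hy⟩ => ⟨l, g, z, lt_of_lt_of_le hl h1, hy⟩))
      (fun _ ⟨l, i, hl, hy⟩ => ⟨l, i, lt_of_lt_of_le hl h2, hy⟩)))

theorem A_le_Qs (l0 j0 : ℕ) : A ≤ Qs A ψ p l0 j0 := fun _ ha =>
  StarSubalgebra.le_topologicalClosure _ (StarAlgebra.subset_adjoin ℂ _ (Or.inl (Or.inl ha)))

theorem ψ_mem_Qs {l0 j0 l : ℕ} (h : l < l0) (g : G) (x : Mat k) : ψ l g x ∈ Qs A ψ p l0 j0 :=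
  StarSubalgebra.le_topologicalClosure _
    (StarAlgebra.subset_adjoin ℂ _ (Or.inl (Or.inr ⟨l, g, x, h, rfl⟩)))

theorem p_mem_Qs {l0 j0 l : ℕ} (h : l < j0) (i : ι) : p l i ∈ Qs A ψ p l0 j0 :=
  StarSubalgebra.le_topologicalClosure _
    (StarAlgebra.subset_adjoin ℂ _ (Or.inr ⟨l, i, h, rfl⟩))

/-- closed star subalgebras are stable under the functional calculus -/
theorem cfc_mem_of_closed {Q : StarSubalgebra ℂ M} (hQ : IsClosed (Q : Set M)) {a : M}
    (ha : a ∈ Q) (hs : star a = a) (f : ℝ → ℝ) : cfc f a ∈ Q := by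
  have _ := hs
  have _ : IsClosed (Q : Set M) := hQ
  exact cfc_mem f ha

/-- elements commuting with the generators commute with the whole closed algebra -/
theorem MSysAux.commute_of_gen {S : Set M} {y : M}
    (hy : ∀ s ∈ S, Commute y s ∧ Commute (star y) s) {x : M}
    (hx : x ∈ (StarAlgebra.adjoin ℂ S).topologicalClosure) : Commute x y := by
  have hcl : IsClosed ((StarSubalgebra.centralizer ℂ ({y} : Set M) : StarSubalgebra ℂ M) : Set M) := by
    rw [StarSubalgebra.coe_centralizer]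
    exact Set.isClosed_centralizer _
  have hle : (StarAlgebra.adjoin ℂ S).topologicalClosure ≤
      StarSubalgebra.centralizer ℂ ({y} : Set M) := by
    refine StarSubalgebra.topologicalClosure_minimal (StarAlgebra.adjoin_le fun s hs => ?_) hcl
    rw [SetLike.mem_coe, StarSubalgebra.mem_centralizer_iff]
    intro g hg
    rw [Set.mem_singleton_iff] at hg
    subst hg
    exact ⟨(hy s hs).1.eq, (hy s hs).2.eq⟩
  have h := hle hx
  rw [StarSubalgebra.mem_centralizer_iff] at h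
  exact (h y rfl).1.symm

/-- a tracial functional is bounded -/
theorem MSysAux.abs_T_le (hT : RTr T) (x : M) : |T x| ≤ T 1 * ‖x‖ := by
  let _ := CStarAlgebra.spectralOrder M
  have := CStarAlgebra.spectralOrderedRing M
  have h1 := hT.abs_cs 1 x
  rw [star_one, one_mul, one_mul] at h1
  have h2 := hT.sq_mul_le x 1
  rw [mul_one, star_one, one_mul] at h2
  have h10 : 0 ≤ T 1 := by simpa using hT.nonneg' 1
  refine h1.trans ?_
  have h3 : √(T (star x * x)) ≤ ‖x‖ * √(T 1) := by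
    rw [Real.sqrt_le_left (by positivity), mul_pow, Real.sq_sqrt h10]
    exact h2
  calc √(T 1) * √(T (star x * x)) ≤ √(T 1) * (‖x‖ * √(T 1)) :=
        mul_le_mul_of_nonneg_left h3 (Real.sqrt_nonneg _)
    _ = (√(T 1) * √(T 1)) * ‖x‖ := by ring
    _ = _ := by rw [Real.mul_self_sqrt h10]

theorem MSysAux.continuous_T (hT : RTr T) : Continuous T :=
  AddMonoidHomClass.continuous_of_bound T (T 1) fun x => by
    rw [Real.norm_eq_abs]
    exact MSysAux.abs_T_le hT x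

theorem MSys.commute_ψ (h : MSys T A ψ p R) {l0 j0 l : ℕ} (hl0 : l0 ≤ R) (hj0 : j0 ≤ R)
    (hl : l0 ≤ l) (hlR : l < R) {x : M} (hx : x ∈ Qs A ψ p l0 j0) (g : G) (z : Mat k) :
    Commute x (ψ l g z) := by
  have key : ∀ z : Mat k, ∀ s ∈ ((A : Set M) ∪ {y | ∃ l g z, l < l0 ∧ y = ψ l g z} ∪
    {y | ∃ l i, l < j0 ∧ y = p l i}), Commute (ψ l g z) s := by
    intro z s hs
    rcases hs with (hs | ⟨l', g', z', hl', rfl⟩) | ⟨l', i, hl', rfl⟩
    · exact (h.commA l hlR g z s hs).symm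
    · exact h.comm l hlR l' (lt_of_lt_of_le hl' hl0) (by omega) g g' z z'
    · exact (h.pψ l' (lt_of_lt_of_le hl' hj0) l hlR i g z).symm
  refine MSysAux.commute_of_gen (fun s hs => ⟨key z s hs, ?_⟩) hx
  rw [← map_star]
  exact key (star z) s hs

theorem MSys.commute_p (h : MSys T A ψ p R) {l0 j0 l : ℕ} (hl0 : l0 ≤ R) (hj0 : j0 ≤ R)
    (hl : j0 ≤ l) (hlR : l < R) {x : M} (hx : x ∈ Qs A ψ p l0 j0) (i : ι) :
    Commute x (p l i) := by
  have key : ∀ s ∈ ((A : Set M) ∪ {y | ∃ l g z, l < l0 ∧ y = ψ l g z} ∪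
    {y | ∃ l i, l < j0 ∧ y = p l i}), Commute (p l i) s := by
    intro s hs
    rcases hs with (hs | ⟨l', g', z', hl', rfl⟩) | ⟨l', i', hl', rfl⟩
    · exact (h.pA l hlR i s hs).symm
    · exact h.pψ l hlR l' (lt_of_lt_of_le hl' hl0) i g' z'
    · exact h.pp l hlR l' (lt_of_lt_of_le hl' hj0) (by omega) i i'
  refine MSysAux.commute_of_gen (fun s hs => ⟨key s hs, ?_⟩) hx
  rw [h.pstar l hlR]
  exact key s hs

theorem MSys.T_mul_p (h : MSys T A ψ p R) {l0 j0 l : ℕ} (hl0 : l0 ≤ R) (hj0 : j0 ≤ R)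
    (hl : j0 ≤ l) (hlR : l < R) {x : M} (hx : x ∈ Qs A ψ p l0 j0) (i : ι) :
    T (x * p l i) = (Fintype.card ι : ℝ)⁻¹ * T x := by
  have hcT := MSysAux.continuous_T h.tr
  have hcl : IsClosed {x : M | T (x * p l i) = (Fintype.card ι : ℝ)⁻¹ * T x} :=
    isClosed_eq (hcT.comp (continuous_id.mul continuous_const)) (continuous_const.mul hcT)
  have hsub : ((StarAlgebra.adjoin ℂ ((A : Set M) ∪ {y | ∃ l g z, l < l0 ∧ y = ψ l g z} ∪
    {y | ∃ l i, l < j0 ∧ y = p l i}) : StarSubalgebra ℂ M) : Set M) ⊆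
      {x : M | T (x * p l i) = (Fintype.card ι : ℝ)⁻¹ * T x} := by
    intro x hx
    refine h.ind l hlR i x (StarAlgebra.adjoin_mono ?_ hx)
    exact Set.union_subset_union (Set.union_subset_union subset_rfl
      (fun _ ⟨l', g, z, hl', hy⟩ => ⟨l', g, z, lt_of_lt_of_le hl' hl0, hy⟩))
      (fun _ ⟨l', i', hl', hy⟩ => ⟨l', i', lt_of_lt_of_le hl' hj0, by omega, hy⟩)
  have hx' : x ∈ closure ((StarAlgebra.adjoin ℂ ((A : Set M) ∪
      {y | ∃ l g z, l < l0 ∧ y = ψ l g z} ∪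
      {y | ∃ l i, l < j0 ∧ y = p l i}) : StarSubalgebra ℂ M) : Set M) := by
    rw [← StarSubalgebra.topologicalClosure_coe]
    exact hx
  exact closure_minimal hsub hcl hx'

/-- the `L^1` seminorm of a sum over the partition -/
theorem MSys.n1_sum_p_le (h : MSys T A ψ p R) {l0 j0 : ℕ} (hl0 : l0 ≤ R) (hj0 : j0 < R)
    {x : ι → M} (hx : ∀ i, x i ∈ Qs A ψ p l0 j0) :
    n1 T (∑ i, p j0 i * x i) ≤ (Fintype.card ι : ℝ)⁻¹ * ∑ i, n1 T (x i) := by
  let _ := CStarAlgebra.spectralOrder M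
  have := CStarAlgebra.spectralOrderedRing M
  rw [Finset.mul_sum]
  refine (n1_sum_le h.tr _ _).trans (Finset.sum_le_sum fun i _ => ?_)
  have hc : ∀ z ∈ Qs A ψ p l0 j0, Commute z (p j0 i) := fun z hz =>
    h.commute_p hl0 hj0.le le_rfl hj0 hz i
  have hD : 0 ≤ p j0 i := by
    have h1 := star_mul_self_nonneg (p j0 i)
    rwa [h.pstar j0 hj0, h.pidem j0 hj0] at h1
  rw [← (hc (x i) (hx i)).eq]
  refine n1_mul_pos_le h.tr (isClosed_Qs l0 j0) hD hc (by positivity) (fun z hz => ?_) (hx i)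
  exact (h.T_mul_p hl0 hj0.le le_rfl hj0 (mul_mem (star_mem hz) hz) i).le

/-- translating the copies by a group element gives a system again -/
theorem MSys.shift {G : Type*} [Group G] {ψ : ℕ → G → Mat k →⋆ₐ[ℂ] M} (h : MSys T A ψ p R)
    (g0 : G) : MSys T A (fun l g => ψ l (g0 * g)) p R where
  tr := h.tr
  one := h.one
  comm := fun l hl l' hl' hn g g' => h.comm l hl l' hl' hn (g0 * g) (g0 * g')
  commA := fun l hl g => h.commA l hl (g0 * g)
  pstar := h.pstar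
  pidem := h.pidem
  porth := h.porth
  psum := h.psum
  pp := h.pp
  pψ := fun l hl l' hl' i g => h.pψ l hl l' hl' i (g0 * g)
  pA := h.pA
  ind := by
    intro l hl i x hx
    refine h.ind l hl i x (StarAlgebra.adjoin_mono ?_ hx)
    refine Set.union_subset_union (Set.union_subset_union subset_rfl ?_) subset_rfl
    rintro y ⟨l', g, z, hl', hy⟩
    exact ⟨l', g0 * g, z, hl', hy⟩

end

end Pool.Agent.Lib.EqM
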