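import Pool.Agent.Lib.EqM.CInd
import Pool.Agent.Lib.EqM.MSys

/-!
The limit system attached to an asymptotic family and a choice of tracial states.
-/

open scoped ComplexOrder
open Filter Topology

namespace Pool.Agent.Lib.EqM

open Pool.Agent.Lib.EqGamma

universe u v

section NFlemmas

variable {I A G : Type*} [CStarAlgebra A] [Group G] {U : Filter I}

theorem NF.app (φ : A ≃⋆ₐ[ℂ] A) {f : I → A} (hf : NF U f) : NF U fun i => φ (f i) := by
  intro ε hε
  filter_upwards [hf ε hε] with i hi τ hτ
  have h1 := hi _ (hτ.pull φ)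
  refine le_trans (le_of_eq ?_) h1
  rw [reT_apply, reT_apply, pull_apply, map_mul (au φ), map_star (au φ)]
  rfl

theorem NF.congr {f g : I → A} (hf : NF U f) (h : ∀ i, g i = f i) : NF U g := by
  have : g = f := funext h
  rwa [this]

theorem aut_inv (α : G →* (A ≃⋆ₐ[ℂ] A)) (g : G) (x : A) : α g ((α g)⁻¹ x) = x := by
  rw [← StarAlgEquiv.mul_apply, mul_inv_cancel, StarAlgEquiv.one_apply]

/-- translates of central families are central -/
theorem NF.cen_app (α : G →* (A ≃⋆ₐ[ℂ] A)) (g : G) {f : I → A}
    (hf : ∀ x : A, NF U fun i => x * f i - f i * x) (x : A) :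
    NF U fun i => x * α g (f i) - α g (f i) * x := by
  refine ((hf ((α g)⁻¹ x)).app (α g)).congr fun i => ?_
  rw [map_sub, map_mul, map_mul, aut_inv]

end NFlemmas

variable {I : Type u} {A : Type v} [CStarAlgebra A] {G : Type*} [Group G] {ι : Type*}
  {k : ℕ}

/-- the `l`-th matrix copy, for `l < R` -/
noncomputable def eh (R : ℕ) (α : G →* (A ≃⋆ₐ[ℂ] A)) (e : I → Fin k → Fin k → A)
    (he : ∀ i a b, ‖e i a b‖ ≤ 1) (l : ℕ) (g : G) (x : Mat k) : BF (Fin (2 * R) → I) A :=
  if h : l < R then ∑ a, ∑ b, x a b • BF.app (au (α g)) (hv (fun i => e i a b) (fun i => he i a b)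
    (⟨l, by omega⟩ : Fin (2 * R))) else 0

/-- the `l`-th partition of unity, for `l < R` -/
noncomputable def qh (R : ℕ) (q : I → ι → A) (hq : ∀ i a, ‖q i a‖ ≤ 1) (l : ℕ) (a : ι) :
    BF (Fin (2 * R) → I) A :=
  if h : l < R then hv (fun i => q i a) (fun i => hq i a) (⟨R + l, by omega⟩ : Fin (2 * R)) else 0

theorem norm_aut_le (φ : A ≃⋆ₐ[ℂ] A) (x : A) : ‖φ x‖ ≤ ‖x‖ :=
  NonUnitalStarAlgHom.norm_apply_le (au φ) x

theorem app_hv {m : ℕ} (φ : A ≃⋆ₐ[ℂ] A) (f : I → A) (hf : ∀ i, ‖f i‖ ≤ 1) (l : Fin m) :
    BF.app (au φ) (hv f hf l) = hv (fun i => φ (f i))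
      (fun i => (norm_aut_le φ _).trans (hf i)) l := BF.ext fun _ => rfl

theorem exists_msys [Fintype ι] [DecidableEq ι] {α : G →* (A ≃⋆ₐ[ℂ] A)} {U : Ultrafilter I}
    {e : I → Fin k → Fin k → A} {q : I → ι → A} (hF : AFam α (U : Filter I) e q) (hk : 0 < k)
    {R : ℕ} (hR : 0 < R) (τ : (Fin (2 * R) → I) → A →ₗ[ℂ] ℂ) (hτ : ∀ ν, TracialState (τ ν)) :
    ∃ (M : Type (max u v)) (_ : CStarAlgebra M) (π : BF (Fin (2 * R) → I) A →⋆ₐ[ℂ] M)
      (T : M →ₗ[ℝ] ℝ) (ψ : ℕ → G → Mat k →⋆ₐ[ℂ] M) (p : ℕ → ι → M),
      MSys T (π.comp (BF.cstHom (Fin (2 * R) → I) A)).range ψ p R ∧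
      (∀ x, T (π x) = (Tlim (UP U (2 * R)) τ hτ x).re) ∧
      (∀ l < R, ∀ g x, ψ l g x = π (eh R α e hF.ebdd l g x)) ∧
      (∀ l < R, ∀ a, p l a = π (qh R q hF.qbdd l a)) ∧
      ∀ l < R, ∀ a h, π (BF.app (au (α h)) (qh R q hF.qbdd l a)) = p l a := by
  obtain ⟨M, inst, π, T, h1, h2, h3, h4⟩ := exists_quotient (Tlim_tracialState (UP U (2 * R)) τ hτ)
  have hnul : ∀ x, Nul (UP U (2 * R) : Filter (Fin (2 * R) → I)) x → π x = 0 := fun x hx =>
    h4 x (hx.Tlim_eq (UP U (2 * R)) τ hτ)
  -- the coordinate hats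
  let lc : ∀ l : ℕ, l < R → Fin (2 * R) := fun l h => ⟨l, by omega⟩
  let rc : ∀ l : ℕ, l < R → Fin (2 * R) := fun l h => ⟨R + l, by omega⟩
  -- the matrix unit families
  let ef : G → Fin k → Fin k → I → A := fun g a b i => α g (e i a b)
  have hef : ∀ g a b i, ‖ef g a b i‖ ≤ 1 := fun g a b i => (norm_aut_le _ _).trans (hF.ebdd i a b)
  have hefc : ∀ g a b, ∀ x : A, NF (U : Filter I) fun i => x * ef g a b i - ef g a b i * x :=
    fun g a b x => NF.cen_app α g (hF.ecen a b) x
  let E : Fin (2 * R) → G → Fin k → Fin k → BF (Fin (2 * R) → I) A :=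
    fun l g a b => hv (ef g a b) (hef g a b) l
  have hEstar : ∀ l g a b, star (π (E l g a b)) = π (E l g b a) := by
    intro l g a b
    have h5 : Nul (UP U (2 * R) : Filter (Fin (2 * R) → I)) (star (E l g a b) - E l g b a) := by
      refine nul_hv ((hF.estar a b).app (α g)) l fun ν => ?_
      rw [map_sub, map_star, map_sub, map_star]
      rfl
    have h6 := hnul _ h5
    rw [map_sub, map_star, sub_eq_zero] at h6
    exact h6
  have hEmul : ∀ l g a b c d, π (E l g a b) * π (E l g c d) =
      if b = c then π (E l g a d) else 0 := by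
    intro l g a b c d
    have h5 : Nul (UP U (2 * R) : Filter (Fin (2 * R) → I)) (E l g a b * E l g c d -
        if b = c then E l g a d else 0) := by
      refine nul_hv ((hF.emul a b c d).app (α g)) l fun ν => ?_
      rw [map_sub, map_mul, map_sub, map_mul]
      congr 1
      split_ifs
      · rfl
      · rw [map_zero, map_zero]
    have h6 := hnul _ h5
    rw [map_sub, map_mul, sub_eq_zero] at h6
    rw [h6]
    split_ifs
    · rfl
    · rw [map_zero]
  have hEsum : ∀ l g, ∑ a, π (E l g a a) = 1 := by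
    intro l g
    have h5 : Nul (UP U (2 * R) : Filter (Fin (2 * R) → I)) (1 - ∑ a, E l g a a) := by
      refine nul_hv (hF.esum.app (α g)) l fun ν => ?_
      rw [map_sub, map_one, map_sum, map_sub, map_one, map_sum]
      rfl
    have h6 := hnul _ h5
    rw [map_sub, map_one, map_sum, sub_eq_zero] at h6
    exact h6.symm
  have hEcomm : ∀ l l', l ≠ l' → ∀ g g' a b c d, Commute (π (E l g a b)) (π (E l' g' c d)) := by
    intro l l' hl g g' a b c d
    have h6 := hnul _ (nul_hv_comm (U := U) (hef g a b) (hef g' c d) (hefc g a b) (hefc g' c d) hl)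
    rw [map_sub, map_mul, map_mul, sub_eq_zero] at h6
    exact h6
  have hEA : ∀ l g a b (x : A), Commute (π (BF.cst x)) (π (E l g a b)) := by
    intro l g a b x
    have h6 := hnul _ (cen_hv (hef g a b) (hefc g a b) l x)
    rw [map_sub, map_mul, map_mul, sub_eq_zero] at h6
    exact h6
  -- the homomorphisms
  let ψ₀ : Fin (2 * R) → G → Mat k →⋆ₐ[ℂ] M := fun l g =>
    { toFun := fun x => ∑ a, ∑ b, x a b • π (E l g a b)
      map_one' := by
        have : ∀ a, ∑ b, (1 : Mat k) a b • π (E l g a b) = π (E l g a a) := by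
          intro a
          rw [Finset.sum_eq_single a]
          · rw [Matrix.one_apply_eq, one_smul]
          · intro b _ hb
            rw [Matrix.one_apply_ne hb.symm, zero_smul]
          · simp
        simp only [this]
        exact hEsum l g
      map_mul' := fun x y => by
        have e1 : (∑ a, ∑ b, x a b • π (E l g a b)) * (∑ c, ∑ d, y c d • π (E l g c d)) =
            ∑ a, ∑ b, ∑ d, (x a b * y b d) • π (E l g a d) := by
          rw [Finset.sum_mul]
          refine Finset.sum_congr rfl fun a _ => ?_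
          rw [Finset.sum_mul]
          refine Finset.sum_congr rfl fun b _ => ?_
          rw [Finset.mul_sum, Finset.sum_eq_single b]
          · rw [Finset.mul_sum]
            refine Finset.sum_congr rfl fun d _ => ?_
            rw [smul_mul_smul_comm, hEmul, if_pos rfl]
          · intro c _ hc
            rw [Finset.mul_sum]
            refine Finset.sum_eq_zero fun d _ => ?_
            rw [smul_mul_smul_comm, hEmul, if_neg hc.symm, smul_zero]
          · simp
        rw [e1]
        refine Finset.sum_congr rfl fun a _ => ?_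
        rw [Finset.sum_comm]
        refine Finset.sum_congr rfl fun d _ => ?_
        rw [Matrix.mul_apply, Finset.sum_smul]
      map_zero' := by simp
      map_add' := fun x y => by
        simp only [Matrix.add_apply, add_smul, Finset.sum_add_distrib]
      commutes' := fun z => by
        have : ∀ a, ∑ b, (algebraMap ℂ (Mat k) z) a b • π (E l g a b) = z • π (E l g a a) := by
          intro a
          rw [Finset.sum_eq_single a]
          · rw [Matrix.algebraMap_matrix_apply, if_pos rfl]
            rfl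
          · intro b _ hb
            rw [Matrix.algebraMap_matrix_apply, if_neg hb.symm, zero_smul]
          · simp
        simp only [this]
        rw [← Finset.smul_sum, hEsum, Algebra.algebraMap_eq_smul_one]
      map_star' := fun x => by
        rw [star_sum]
        have e1 : ∀ a, star (∑ b, x a b • π (E l g a b)) =
            ∑ b, star (x a b) • π (E l g b a) := by
          intro a
          rw [star_sum]
          refine Finset.sum_congr rfl fun b _ => ?_
          rw [star_smul, hEstar]
        simp only [e1]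
        rw [Finset.sum_comm]
        rfl }
  have hψ₀ : ∀ l g x, ψ₀ l g x = ∑ a, ∑ b, x a b • π (E l g a b) := fun _ _ _ => rfl
  -- the partitions
  let Q : Fin (2 * R) → ι → BF (Fin (2 * R) → I) A := fun l a =>
    hv (fun i => q i a) (fun i => hF.qbdd i a) l
  have hQmul : ∀ l a b, π (Q l a) * π (Q l b) = if a = b then π (Q l a) else 0 := by
    intro l a b
    have h5 : Nul (UP U (2 * R) : Filter (Fin (2 * R) → I)) (Q l a * Q l b -
        if a = b then Q l a else 0) := by
      refine nul_hv (hF.qmul a b) l fun ν => ?_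
      rw [map_sub, map_mul]
      congr 1
      split_ifs
      · rfl
      · rw [map_zero]
    have h6 := hnul _ h5
    rw [map_sub, map_mul, sub_eq_zero] at h6
    rw [h6]
    split_ifs
    · rfl
    · rw [map_zero]
  have hQsum : ∀ l, ∑ a, π (Q l a) = 1 := by
    intro l
    have h5 : Nul (UP U (2 * R) : Filter (Fin (2 * R) → I)) (1 - ∑ a, Q l a) := by
      refine nul_hv hF.qsum l fun ν => ?_
      rw [map_sub, map_one, map_sum]
      rfl
    have h6 := hnul _ h5
    rw [map_sub, map_one, map_sum, sub_eq_zero] at h6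
    exact h6.symm
  have hQE : ∀ l l', l ≠ l' → ∀ a g c d, Commute (π (Q l a)) (π (E l' g c d)) := by
    intro l l' hl a g c d
    have h6 := hnul _ (nul_hv_comm (U := U) (fun i => hF.qbdd i a) (hef g c d) (hF.qcen a)
      (hefc g c d) hl)
    rw [map_sub, map_mul, map_mul, sub_eq_zero] at h6
    exact h6
  have hQQ : ∀ l l', l ≠ l' → ∀ a b, Commute (π (Q l a)) (π (Q l' b)) := by
    intro l l' hl a b
    have h6 := hnul _ (nul_hv_comm (U := U) (fun i => hF.qbdd i a) (fun i => hF.qbdd i b)
      (hF.qcen a) (hF.qcen b) hl)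
    rw [map_sub, map_mul, map_mul, sub_eq_zero] at h6
    exact h6
  have hQA : ∀ l a (x : A), Commute (π (BF.cst x)) (π (Q l a)) := by
    intro l a x
    have h6 := hnul _ (cen_hv (fun i => hF.qbdd i a) (hF.qcen a) l x)
    rw [map_sub, map_mul, map_mul, sub_eq_zero] at h6
    exact h6
  have hmin : ∀ l : ℕ, min l (R - 1) < R := fun l => by
    have := min_le_right l (R - 1)
    omega
  have hmin' : ∀ l : ℕ, l < R → min l (R - 1) = l := fun l h => min_eq_left (by omega)
  have hcomm_sum : ∀ (z : M) (l : Fin (2 * R)) (g : G) (x : Mat k),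
      (∀ a b, Commute z (π (E l g a b))) → Commute z (ψ₀ l g x) := by
    intro z l g x hz
    rw [hψ₀]
    exact Commute.sum_right _ _ _ fun a _ => Commute.sum_right _ _ _ fun b _ =>
      (hz a b).smul_right _
  refine ⟨M, inst, π, T, fun l g => ψ₀ (lc (min l (R - 1)) (hmin l)) g,
    fun l a => π (Q (rc (min l (R - 1)) (hmin l)) a), ?_, h3, ?_, ?_, ?_⟩
  · refine ⟨h1, h2, ?_, ?_, ?_, ?_, ?_, ?_, ?_, ?_, ?_, ?_⟩
    · -- comm
      intro l hl l' hl' hne g g' x x'
      have hne' : lc (min l (R - 1)) (hmin l) ≠ lc (min l' (R - 1)) (hmin l') := by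
        intro h
        have := congrArg Fin.val h
        simp only [lc] at this
        rw [hmin' l hl, hmin' l' hl'] at this
        exact hne this
      refine hcomm_sum _ _ _ _ fun c d => (hcomm_sum _ _ _ _ fun a b => ?_).symm
      exact (hEcomm _ _ hne' g g' a b c d).symm
    · -- commA
      rintro l hl g x _ ⟨a, rfl⟩
      exact hcomm_sum _ _ _ _ fun c d => hEA _ _ _ _ a
    · -- pstar
      intro l hl a
      rw [← map_star]
      congr 1
      apply BF.ext
      intro ν
      rw [map_star]
      exact hF.qstar _ a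
    · intro l hl a
      rw [hQmul, if_pos rfl]
    · intro l hl a b hab
      rw [hQmul, if_neg hab]
    · intro l hl
      exact hQsum _
    · intro l hl l' hl' hne a b
      apply hQQ
      intro h
      have := congrArg Fin.val h
      simp only [rc] at this
      rw [hmin' l hl, hmin' l' hl'] at this
      omega
    · intro l hl l' hl' a g x
      refine hcomm_sum _ _ _ _ fun c d => hQE _ _ ?_ a g c d
      intro h
      have := congrArg Fin.val h
      simp only [rc, lc] at this
      rw [hmin' l hl, hmin' l' hl'] at this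
      omega
    · rintro l hl a _ ⟨x, rfl⟩
      exact hQA _ a x
    · -- ind
      intro l hl a x hx
      set j : Fin (2 * R) := rc (min l (R - 1)) (hmin l) with hj
      have hjv : (j : ℕ) = R + l := by
        rw [hj]
        simp only [rc]
        rw [hmin' l hl]
      -- the family of all generators
      let F : (G × Fin k × Fin k) ⊕ ι → I → A :=
        Sum.elim (fun s => ef s.1 s.2.1 s.2.2) (fun a i => q i a)
      have hFb : ∀ s i, ‖F s i‖ ≤ 1 := by
        rintro (s | s) i
        · exact hef _ _ _ i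
        · exact hF.qbdd i s
      have hFc : ∀ s, ∀ x : A, NF (U : Filter I) fun i => x * F s i - F s i * x := by
        rintro (s | s) y
        · exact hefc _ _ _ y
        · exact hF.qcen s y
      obtain ⟨x', hx', rfl⟩ : ∃ x' ∈ StarAlgebra.adjoin ℂ ({y | ∃ a, y = BF.cst a} ∪
          {y : BF (Fin (2 * R) → I) A | ∃ s l, l ≠ j ∧ y = hv (F s) (hFb s) l}), π x' = x := by
        have h5 : StarAlgebra.adjoin ℂ (((π.comp (BF.cstHom (Fin (2 * R) → I) A)).range : Set M) ∪
            {y | ∃ l' g z, l' < R ∧ y = ψ₀ (lc (min l' (R - 1)) (hmin l')) g z} ∪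
            {y | ∃ l' i', l' < R ∧ l' ≠ l ∧ y = π (Q (rc (min l' (R - 1)) (hmin l')) i')}) ≤
            (StarAlgebra.adjoin ℂ ({y | ∃ a, y = BF.cst a} ∪
              {y : BF (Fin (2 * R) → I) A | ∃ s l, l ≠ j ∧ y = hv (F s) (hFb s) l})).map π := by
          apply StarAlgebra.adjoin_le
          rintro y ((⟨a, rfl⟩ | ⟨l', g, z, hl', rfl⟩) | ⟨l', i', hl', hne, rfl⟩)
          · exact ⟨BF.cst a, StarAlgebra.subset_adjoin ℂ _ (Or.inl ⟨a, rfl⟩), rfl⟩
          · rw [hψ₀]
            refine sum_mem fun a _ => sum_mem fun b _ => ?_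
            refine SMulMemClass.smul_mem _ ?_
            refine ⟨E (lc (min l' (R - 1)) (hmin l')) g a b, ?_, rfl⟩
            refine StarAlgebra.subset_adjoin ℂ _ (Or.inr ⟨Sum.inl (g, a, b), _, ?_, rfl⟩)
            intro h
            have := congrArg Fin.val h
            simp only [lc] at this
            rw [hmin' l' hl', hjv] at this
            omega
          · refine ⟨Q (rc (min l' (R - 1)) (hmin l')) i', ?_, rfl⟩
            refine StarAlgebra.subset_adjoin ℂ _ (Or.inr ⟨Sum.inr i', _, ?_, rfl⟩)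
            intro h
            have := congrArg Fin.val h
            simp only [rc] at this
            rw [hmin' l' hl', hjv] at this
            omega
        exact h5 hx
      have hind : ∀ x : A, ∀ ε : ℝ, 0 < ε → ∀ᶠ i in (U : Filter I), ∀ τ : A →ₗ[ℂ] ℂ,
          TracialState τ → ‖τ (x * q i a) - (((Fintype.card ι : ℝ)⁻¹ : ℝ) : ℂ) * τ x‖ ≤ ε := by
        intro x ε hε
        filter_upwards [hF.qind a x ε hε] with i hi τ hτ
        have := hi τ hτ
        push_cast
        exact this
      have h6 := Tlim_mul_hv F hFb hFc (fun i => hF.qbdd i a) hind j hx' τ hτ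
      change T (π x' * π (Q j a)) = _
      rw [← map_mul, h3, h3]
      change (Tlim (UP U (2 * R)) τ hτ (x' * hv (fun i => q i a) _ j)).re = _
      rw [h6, Complex.re_ofReal_mul]
  · intro l hl g x
    change ψ₀ (lc (min l (R - 1)) (hmin l)) g x = _
    have : lc (min l (R - 1)) (hmin l) = ⟨l, by omega⟩ := Fin.ext (hmin' l hl)
    rw [this, hψ₀]
    unfold eh
    rw [dif_pos hl, map_sum]
    refine Finset.sum_congr rfl fun a _ => ?_
    rw [map_sum]
    refine Finset.sum_congr rfl fun b _ => ?_
    rw [map_smul, app_hv]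
  · intro l hl a
    have : rc (min l (R - 1)) (hmin l) = ⟨R + l, by omega⟩ :=
      Fin.ext (by simp only [rc]; rw [hmin' l hl])
    change π (Q (rc (min l (R - 1)) (hmin l)) a) = _
    rw [this]
    unfold qh
    rw [dif_pos hl]
  · intro l hl a h
    have : rc (min l (R - 1)) (hmin l) = ⟨R + l, by omega⟩ :=
      Fin.ext (by simp only [rc]; rw [hmin' l hl])
    change _ = π (Q (rc (min l (R - 1)) (hmin l)) a)
    rw [this]
    unfold qh
    rw [dif_pos hl]
    have h5 : Nul (UP U (2 * R) : Filter (Fin (2 * R) → I))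
        (BF.app (au (α h)) (Q ⟨R + l, by omega⟩ a) - Q ⟨R + l, by omega⟩ a) :=
      nul_hv (hF.qinv a h) _ fun ν => by rw [map_sub]; rfl
    have h6 := hnul _ h5
    rw [map_sub, sub_eq_zero] at h6
    exact h6

end Pool.Agent.Lib.EqM
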