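import Pool.Agent.Lib.EqM.Joint

/-!
Commutator estimate in the `L^2` seminorm for Lipschitz functions.
-/

open scoped ComplexOrder

namespace Pool.Agent.Lib.EqM

open Pool.Agent.Lib.EqGamma

variable {M : Type*} [CStarAlgebra M] {T : M →ₗ[ℝ] ℝ}

namespace LipAux

/-- the square of the `L^2` seminorm of a commutator -/
theorem comm_sq (hT : RTr T) {u : M} (hu : star u = u) (y : M) :
    T (star (u * y - y * u) * (u * y - y * u)) =
      T (u * u * y * 1 * star y) + T (1 * y * (u * u) * star y) - 2 * T (u * y * u * star y) := by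
  rw [star_sub, star_mul, star_mul, hu]
  have e : (star y * u - u * star y) * (u * y - y * u) =
      star y * (u * u * y) - star y * (u * y * u) - (u * star y) * (u * y) + (u * star y) * (y * u) := by
    noncomm_ring
  rw [e, map_add, map_sub, map_sub, hT.tracial (star y), hT.tracial (star y), hT.tracial (u * star y),
    hT.tracial (u * star y)]
  have e1 : u * u * y * 1 * star y = u * u * y * star y := by noncomm_ring
  have e2 : 1 * y * (u * u) * star y = y * u * (u * star y) := by noncomm_ring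
  have e3 : u * y * (u * star y) = u * y * u * star y := by noncomm_ring
  rw [e1, e2, e3]
  ring

end LipAux

open LipAux in
theorem l2_comm_cfc_le [PartialOrder M] [StarOrderedRing M] (hT : RTr T) {c : ℝ} {a : M}
    (ha : 0 ≤ a) (hac : a ≤ algebraMap ℝ M c) {f : ℝ → ℝ} (hf : Continuous f) {Λ : ℝ}
    (hΛ : 0 ≤ Λ) (h : ∀ x ∈ Set.Icc 0 c, ∀ y ∈ Set.Icc 0 c, |f x - f y| ≤ Λ * |x - y|) (y : M) :
    l2 T (cfc f a * y - y * cfc f a) ≤ Λ * l2 T (a * y - y * a) := by
  have hsa : IsSelfAdjoint a := IsSelfAdjoint.of_nonneg ha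
  have hu : star (cfc f a) = cfc f a := (cfc_predicate f a : IsSelfAdjoint (cfc f a))
  rw [l2_le_iff hT (mul_nonneg hΛ (l2_nonneg T _)), mul_pow, l2_sq hT, comm_sq hT hu y,
    comm_sq hT hsa.star_eq y]
  have key := joint_nonneg hT ha hac ha hac (Finset.univ : Finset (Fin 6))
    ![fun x => x * x, fun _ => 1, fun x => x, fun x => f x * f x, fun _ => 1, fun x => f x]
    ![fun _ => Λ ^ 2, fun x => Λ ^ 2 * (x * x), fun x => (-2 * Λ ^ 2) * x, fun _ => -1,
      fun x => (-1) * (f x * f x), fun x => 2 * f x]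
    (by
      intro i _
      fin_cases i
      · exact (by fun_prop : Continuous fun x : ℝ => x * x)
      · exact continuous_const
      · exact continuous_id
      · exact (by fun_prop : Continuous fun x : ℝ => f x * f x)
      · exact continuous_const
      · exact hf)
    (by
      intro i _
      fin_cases i
      · exact continuous_const
      · exact (by fun_prop : Continuous fun x : ℝ => Λ ^ 2 * (x * x))
      · exact (by fun_prop : Continuous fun x : ℝ => (-2 * Λ ^ 2) * x)
      · exact continuous_const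
      · exact (by fun_prop : Continuous fun x : ℝ => (-1) * (f x * f x))
      · exact (by fun_prop : Continuous fun x : ℝ => 2 * f x))
    (by
      intro x hx z hz
      rw [Fin.sum_univ_six]
      simp only [Matrix.cons_val]
      have h1 := h x hx z hz
      have h2 : (f x - f z) ^ 2 ≤ (Λ * |x - z|) ^ 2 := by
        rw [← sq_abs (f x - f z)]
        exact pow_le_pow_left₀ (abs_nonneg _) h1 2
      rw [mul_pow, sq_abs] at h2
      nlinarith) y
  rw [Fin.sum_univ_six] at key
  simp only [Matrix.cons_val] at key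
  have hfc := hf.continuousOn (s := spectrum ℝ a)
  have i1 : cfc (fun x : ℝ => x * x) a = a * a := by
    rw [cfc_mul (fun x : ℝ => x) (fun x : ℝ => x) a, cfc_id' ℝ a]
  have i2 : cfc (fun _ : ℝ => (1:ℝ)) a = 1 := cfc_const_one ℝ a
  have i3 : cfc (fun x : ℝ => x) a = a := cfc_id' ℝ a
  have i4 : cfc (fun x : ℝ => f x * f x) a = cfc f a * cfc f a := cfc_mul f f a
  have i5 : cfc (fun x : ℝ => f x) a = cfc f a := rfl
  have j1 : cfc (fun _ : ℝ => Λ ^ 2) a = Λ ^ 2 • (1 : M) := by
    rw [cfc_const (Λ ^ 2) a hsa, Algebra.algebraMap_eq_smul_one]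
  have j2 : cfc (fun x : ℝ => Λ ^ 2 * (x * x)) a = Λ ^ 2 • (a * a) := by
    rw [cfc_const_mul _ _ a, i1]
  have j3 : cfc (fun x : ℝ => (-2 * Λ ^ 2) * x) a = (-2 * Λ ^ 2) • a := by
    rw [cfc_const_mul _ _ a, i3]
  have j4 : cfc (fun _ : ℝ => (-1:ℝ)) a = (-1 : ℝ) • (1 : M) := by
    rw [cfc_const (-1 : ℝ) a hsa, Algebra.algebraMap_eq_smul_one]
  have j5 : cfc (fun x : ℝ => (-1) * (f x * f x)) a = (-1 : ℝ) • (cfc f a * cfc f a) := by
    rw [cfc_const_mul _ _ a, i4]
  have j6 : cfc (fun x : ℝ => 2 * f x) a = (2 : ℝ) • cfc f a := by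
    rw [cfc_const_mul _ _ a]
  rw [i1, i2, i3, i4, i5, j1, j2, j3, j4, j5, j6] at key
  simp only [mul_smul_comm, smul_mul_assoc, map_smul, smul_eq_mul] at key
  linarith

end Pool.Agent.Lib.EqM
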