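import Pool.Agent.Lib.EqM.Lip
import Pool.Agent.Lib.EqM.N1
import Pool.Agent.Lib.EqM.OSys
import Pool.Agent.Lib.EqM.Tra

/-!
The increments of an overlap system are almost multiplicative in `L^1`.
-/

open scoped ComplexOrder

namespace Pool.Agent.Lib.EqM

open Pool.Agent.Lib.EqGamma

universe u v

namespace MultAux

/-- first factor -/
noncomputable def aa (s0 : ℝ) (S i : ℕ) (t : ℝ) : ℝ := rho s0 S i t * √(1 - rho s0 S i t ^ 2)

/-- second factor -/
noncomputable def bb (s0 : ℝ) (S i : ℕ) (t : ℝ) : ℝ := √(1 - rho s0 S i t ^ 2) / √(max t s0)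

theorem continuous_aa (s0 : ℝ) (S i : ℕ) : Continuous (aa s0 S i) := by
  have := continuous_rho s0 S i
  unfold aa
  fun_prop

theorem continuous_bb {s0 : ℝ} (hs0 : 0 < s0) (S i : ℕ) : Continuous (bb s0 S i) := by
  have := continuous_rho s0 S i
  unfold bb
  refine Continuous.div (by fun_prop) (by fun_prop) fun t => ?_
  exact (Real.sqrt_pos.2 (lt_max_of_lt_right hs0)).ne'

theorem one_sub_rho_sq_nonneg (s0 : ℝ) (S i : ℕ) (t : ℝ) : 0 ≤ 1 - rho s0 S i t ^ 2 := by
  have h1 := rho_nonneg s0 S i t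
  have h2 := rho_le_one s0 S i t
  nlinarith

theorem bb_nonneg (s0 : ℝ) (S i : ℕ) (t : ℝ) : 0 ≤ bb s0 S i t :=
  div_nonneg (Real.sqrt_nonneg _) (Real.sqrt_nonneg _)

theorem bb_le {s0 : ℝ} (hs0 : 0 < s0) (S i : ℕ) (t : ℝ) : bb s0 S i t ≤ 1 / √s0 := by
  unfold bb
  refine div_le_div₀ zero_le_one ?_ (Real.sqrt_pos.2 hs0) (Real.sqrt_le_sqrt (le_max_right _ _))
  rw [Real.sqrt_le_one]
  have := sq_nonneg (rho s0 S i t)
  linarith

theorem hh_of_le {s0 : ℝ} {S i : ℕ} {t : ℝ} (h : t ≤ s0) : hh s0 S i t = 0 := by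
  unfold hh
  rw [rho_of_le h, zero_div]

theorem aa_mul_bb {s0 : ℝ} (S i : ℕ) (t : ℝ) :
    aa s0 S i t * bb s0 S i t = (1 - rho s0 S i t ^ 2) * hh s0 S i t := by
  rcases le_or_gt t s0 with h | h
  · rw [hh_of_le h, aa, rho_of_le h]
    ring
  · unfold aa bb hh
    rw [max_eq_left h.le]
    have := Real.mul_self_sqrt (one_sub_rho_sq_nonneg s0 S i t)
    rw [mul_div_assoc', mul_div_assoc']
    congr 1
    calc _ = rho s0 S i t * (√(1 - rho s0 S i t ^ 2) * √(1 - rho s0 S i t ^ 2)) := by ring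
      _ = _ := by rw [this]; ring

theorem aa_sq (s0 : ℝ) (S i : ℕ) (t : ℝ) :
    aa s0 S i t * aa s0 S i t = rho s0 S i t ^ 2 * (1 - rho s0 S i t ^ 2) := by
  unfold aa
  have := Real.mul_self_sqrt (one_sub_rho_sq_nonneg s0 S i t)
  calc _ = rho s0 S i t ^ 2 * (√(1 - rho s0 S i t ^ 2) * √(1 - rho s0 S i t ^ 2)) := by ring
      _ = _ := by rw [this]

theorem bb_hh_sq {s0 : ℝ} (hs0 : 0 < s0) (S i : ℕ) (t : ℝ) :
    (bb s0 S i t * hh s0 S i t) * (t * t) * (bb s0 S i t * hh s0 S i t) =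
      rho s0 S i t ^ 2 * (1 - rho s0 S i t ^ 2) := by
  rcases le_or_gt t s0 with h | h
  · rw [hh_of_le h, rho_of_le h]
    ring
  · unfold bb hh
    rw [max_eq_left h.le]
    have h1 := Real.mul_self_sqrt (one_sub_rho_sq_nonneg s0 S i t)
    have ht : 0 < t := hs0.trans h
    have h2 := Real.mul_self_sqrt ht.le
    have h3 : √t ≠ 0 := (Real.sqrt_pos.2 ht).ne'
    field_simp
    calc _ = (√(1 - rho s0 S i t ^ 2) * √(1 - rho s0 S i t ^ 2)) * rho s0 S i t ^ 2 * t ^ 2 := by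
          ring
      _ = (1 - rho s0 S i t ^ 2) * rho s0 S i t ^ 2 * t ^ 2 := by rw [h1]
      _ = (1 - rho s0 S i t ^ 2) * rho s0 S i t ^ 2 * (√t * √t) ^ 2 := by rw [h2]
      _ = _ := by ring

theorem hh_sq_le {s0 : ℝ} (hs0 : 0 < s0) (S i : ℕ) (t : ℝ) :
    hh s0 S i t * hh s0 S i t ≤ 1 / s0 * rho s0 S i t ^ 2 := by
  rcases le_or_gt t s0 with h | h
  · rw [hh_of_le h, rho_of_le h]
    simp
  · have ht : 0 < t := hs0.trans h
    unfold hh
    rw [div_mul_div_comm, Real.mul_self_sqrt ht.le, ← sq, div_eq_mul_one_div, mul_comm]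
    exact mul_le_mul_of_nonneg_right (one_div_le_one_div_of_le hs0 h.le) (sq_nonneg _)

/-- the Lipschitz constants -/
noncomputable def La (s0 : ℝ) (S : ℕ) : ℝ := S / √s0 + 1 / (s0 * √s0)

theorem La_nonneg {s0 : ℝ} (hs0 : 0 < s0) (S : ℕ) : 0 ≤ La s0 S := by
  unfold La
  positivity

section cf

variable {N : Type*} [CStarAlgebra N] {T : N →ₗ[ℝ] ℝ}

theorem sa_cfc (f : ℝ → ℝ) (b : N) : star (cfc f b) = cfc f b :=
  (cfc_predicate (R := ℝ) (p := IsSelfAdjoint) f b).star_eq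

theorem norm_cfc_le' {f : ℝ → ℝ} {c : ℝ} (hc : 0 ≤ c) (h0 : ∀ t, 0 ≤ f t) (h : ∀ t, f t ≤ c)
    (b : N) : ‖cfc f b‖ ≤ c := by
  refine norm_cfc_le hc fun t _ => ?_
  rw [Real.norm_eq_abs, abs_of_nonneg (h0 t)]
  exact h t

variable [PartialOrder N] [StarOrderedRing N]

theorem conj_id {b : N} (hb : 0 ≤ b) {f g : ℝ → ℝ} (hf : Continuous f)
    (h : ∀ t, f t * t * f t = g t) : cfc f b * b * cfc f b = cfc g b := by
  have hs : IsSelfAdjoint b := .of_nonneg hb
  have e1 : cfc (fun t => f t * t * f t) b = cfc (fun t => f t * t) b * cfc f b :=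
    cfc_mul _ _ b (hf.mul continuous_id').continuousOn hf.continuousOn
  have e2 : cfc (fun t => f t * t) b = cfc f b * cfc (fun t => t) b :=
    cfc_mul _ _ b hf.continuousOn continuous_id'.continuousOn
  rw [cfc_id' ℝ b hs] at e2
  rw [← e2, ← e1]
  congr 1
  funext t
  exact h t

theorem conj_sq {b : N} (hb : 0 ≤ b) {f g : ℝ → ℝ} (hf : Continuous f)
    (h : ∀ t, f t * (t * t) * f t = g t) : cfc f b * (b * b) * cfc f b = cfc g b := by
  have hs : IsSelfAdjoint b := .of_nonneg hb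
  have e1 : cfc (fun t => f t * (t * t) * f t) b = cfc (fun t => f t * (t * t)) b * cfc f b :=
    cfc_mul _ _ b (by fun_prop) hf.continuousOn
  have e2 : cfc (fun t => f t * (t * t)) b = cfc f b * cfc (fun t => t * t) b :=
    cfc_mul _ _ b hf.continuousOn (by fun_prop)
  have e3 : cfc (fun t : ℝ => t * t) b = cfc (fun t => t) b * cfc (fun t => t) b :=
    cfc_mul _ _ b (by fun_prop) (by fun_prop)
  rw [cfc_id' ℝ b hs] at e3
  rw [e3] at e2
  rw [← e2, ← e1]
  congr 1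
  funext t
  exact h t

omit [PartialOrder N] [StarOrderedRing N] in
theorem mul_cf {b : N} {f g p : ℝ → ℝ} (hf : Continuous f) (hg : Continuous g)
    (h : ∀ t, f t * g t = p t) : cfc f b * cfc g b = cfc p b := by
  rw [← cfc_mul f g b hf.continuousOn hg.continuousOn]
  congr 1
  funext t
  exact h t

theorem one_sub_cf {b : N} (hb : 0 ≤ b) {f : ℝ → ℝ} (hf : Continuous f) :
    1 - cfc f b = cfc (fun t => 1 - f t) b := by
  have hs : IsSelfAdjoint b := .of_nonneg hb
  rw [cfc_sub _ _ b (by fun_prop) hf.continuousOn, cfc_const_one ℝ b hs]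

end cf

section one

variable {N : Type*} [CStarAlgebra N] [PartialOrder N] [StarOrderedRing N] {G : Type*} {k : ℕ}
  {T : N →ₗ[ℝ] ℝ} {ψ : G → Mat k →⋆ₐ[ℂ] N} {q : G → N} {w θ : ℝ} (h : OSys T ψ q w θ)

variable {s0 : ℝ} (hs0 : 0 < s0) (S i : ℕ) {r : ℝ} (hr : 0 < r) {K : Finset G}
  (hrK : r * K.card = 1)

include h hr in
theorem B_nonneg : 0 ≤ BQ q r K := sumq_nonneg (fun g _ => h.idem g) (fun g _ => h.star_eq g) hr.le

include h hr hrK in
theorem B_le : BQ q r K ≤ algebraMap ℝ N 1 :=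
  sumq_le (fun g _ => h.idem g) (fun g _ => h.star_eq g) hr.le hrK.le

omit [PartialOrder N] [StarOrderedRing N] in
include h hr hrK in
theorem comm_B (x : Mat k) :
    l2 T (BQ q r K * YY ψ q r K x - YY ψ q r K x * BQ q r K) ≤ 4 * k * ms x * √(θ * w) := by
  have h1 := h.rel1 hr.le (K := K) (L := K) (by rw [hrK]; norm_num) (by rw [hrK]; norm_num) 1 x
  rw [OSys.YY_one, one_mul, ms_one] at h1
  exact h1

include h hs0 hr hrK in
theorem comm_H (x : Mat k) :
    l2 T (cfc (hh s0 S i) (BQ q r K) * YY ψ q r K x - YY ψ q r K x * cfc (hh s0 S i) (BQ q r K)) ≤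
      La s0 S * (4 * k * ms x * √(θ * w)) := by
  refine (l2_comm_cfc_le h.tr (B_nonneg h hr) (B_le h hr hrK) (continuous_hh hs0 S i)
    (La_nonneg hs0 S) (fun x _ y _ => hh_lip hs0 S i x y) _).trans ?_
  exact mul_le_mul_of_nonneg_left (comm_B h hr hrK x) (La_nonneg hs0 S)

include h hs0 hr hrK in
theorem comm_H2 (x : Mat k) :
    l2 T (cfc (hh s0 S i) (BQ q r K) * cfc (hh s0 S i) (BQ q r K) * YY ψ q r K x -
      YY ψ q r K x * (cfc (hh s0 S i) (BQ q r K) * cfc (hh s0 S i) (BQ q r K))) ≤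
      2 / √s0 * La s0 S * (4 * k * ms x * √(θ * w)) := by
  have hc := continuous_hh hs0 S i
  rw [mul_cf (p := fun t => hh s0 S i t ^ 2) hc hc (fun t => (sq _).symm)]
  have h0 : 0 ≤ 2 / √s0 * La s0 S := mul_nonneg (by positivity) (La_nonneg hs0 S)
  refine (l2_comm_cfc_le h.tr (B_nonneg h hr) (B_le h hr hrK) (by fun_prop)
    h0 (fun x _ y _ => hh_sq_lip hs0 S i x y) _).trans ?_
  exact mul_le_mul_of_nonneg_left (comm_B h hr hrK x) h0

omit [PartialOrder N] [StarOrderedRing N] in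
include h in
theorem norm_q_le (g : G) : ‖q g‖ ≤ 1 := by
  have h1 : ‖star (q g) * q g‖ = ‖q g‖ * ‖q g‖ := CStarRing.norm_star_mul_self
  rw [h.star_eq, h.idem] at h1
  by_contra hlt
  push Not at hlt
  nlinarith

omit [PartialOrder N] [StarOrderedRing N] in
include h hr hrK in
theorem norm_YY (x : Mat k) : ‖YY ψ q r K x‖ ≤ ms x := by
  unfold YY
  rw [norm_smul, Real.norm_eq_abs, abs_of_pos hr]
  have h1 : ‖∑ g ∈ K, ψ g x * q g‖ ≤ K.card * ms x := by
    refine (norm_sum_le _ _).trans ?_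
    rw [← nsmul_eq_mul, ← Finset.sum_const]
    refine Finset.sum_le_sum fun g _ => ?_
    refine (norm_mul_le _ _).trans ?_
    have := mul_le_mul (norm_hom_le (ψ g) x) (norm_q_le h g) (norm_nonneg _) (ms_nonneg x)
    rwa [mul_one] at this
  calc r * ‖∑ g ∈ K, ψ g x * q g‖ ≤ r * (K.card * ms x) := mul_le_mul_of_nonneg_left h1 hr.le
    _ = ms x := by rw [← mul_assoc, hrK, one_mul]

omit [PartialOrder N] [StarOrderedRing N] in
include hs0 in
theorem norm_H_le (b : N) : ‖cfc (hh s0 S i) b‖ ≤ 1 / √s0 :=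
  norm_cfc_le' (by positivity) (hh_nonneg s0 S i) (hh_le hs0 S i) b

include h hs0 hr hrK in
theorem l2_H_le (hw : 0 ≤ w) : l2 T (cfc (hh s0 S i) (BQ q r K)) ≤ √w / s0 := by
  rw [l2_le_iff h.tr (by positivity), sa_cfc]
  have hc := continuous_hh hs0 S i
  have hc2 := continuous_rho s0 S i
  rw [mul_cf (p := fun t => hh s0 S i t * hh s0 S i t) hc hc (fun t => rfl)]
  have h1 : cfc (fun t => hh s0 S i t * hh s0 S i t) (BQ q r K) ≤
      cfc (fun t => 1 / s0 * rho s0 S i t ^ 2) (BQ q r K) :=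
    cfc_mono (fun t _ => hh_sq_le hs0 S i t) (by fun_prop) (by fun_prop)
  have h2 : cfc (fun t => 1 / s0 * rho s0 S i t ^ 2) (BQ q r K) =
      (1 / s0) • cfc (fun t => rho s0 S i t ^ 2) (BQ q r K) :=
    cfc_const_mul _ _ _ (by fun_prop)
  rw [h2] at h1
  have h3 := h.tr.mono h1
  rw [map_smul, smul_eq_mul] at h3
  have h4 := T_rho_sq_le_single h.tr (K := K) (fun g _ => h.idem g) (fun g _ => h.star_eq g)
    (fun g _ => h.mean g) hr hrK hs0 (S := S) i
  refine h3.trans ?_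
  calc 1 / s0 * T (cfc (fun t => rho s0 S i t ^ 2) (BQ q r K)) ≤ 1 / s0 * (w / s0) :=
        mul_le_mul_of_nonneg_left h4 (by positivity)
    _ = (√w / s0) ^ 2 := by
        rw [div_pow, Real.sq_sqrt hw]
        field_simp

include h hs0 hr hrK in
/-- the error terms which are not at the threshold -/
theorem rest_le (hw : 0 ≤ w) (hθ : 0 ≤ θ) (x y : Mat k) :
    n1 T (DI ψ q r s0 S K i x * DI ψ q r s0 S K i y - DI ψ q r s0 S K i (x * y)) ≤
      n1 T ((1 - cfc (fun t => rho s0 S i t ^ 2) (BQ q r K)) * DI ψ q r s0 S K i (x * y)) +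
      ((1 / √s0) ^ 3 * 4 * (1 / s0) + 1 / √s0 * (2 / √s0 * La s0 S * (4 * k)) * (1 / s0)) *
        (ms x * ms y * (√θ * w)) := by
  have hc := continuous_hh hs0 S i
  have hc2 := continuous_rho s0 S i
  have hB := B_nonneg h hr (K := K)
  unfold DI
  set B := BQ q r K with hBdef
  set H := cfc (hh s0 S i) B with hH
  set R := cfc (fun t => rho s0 S i t ^ 2) B with hR
  have hHBH : H * B * H = R := conj_id hB hc (hh_sq_mul hs0 S i)
  have hcomm : Commute H B := by
    have := cfc_commute_cfc (R := ℝ) (p := IsSelfAdjoint) (hh s0 S i) (fun t => t) B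
    rwa [cfc_id' ℝ B (.of_nonneg hB)] at this
  have hHB : H * B = B * H := hcomm.eq
  have hne := norm_H_le hs0 S i (N := N) B
  rw [← hH] at hne
  have hl2 := l2_H_le h hs0 S i hr hrK hw
  rw [← hBdef, ← hH] at hl2
  set E2 := YY ψ q r K x * YY ψ q r K y - B * YY ψ q r K (x * y) with hE2
  have hE2l : l2 T E2 ≤ 4 * ms x * ms y * √(θ * w) :=
    h.rel2 hr.le (K := K) (L := K) (by rw [hrK]; norm_num) (by rw [hrK]; norm_num) x y
  set Cm := H * H * YY ψ q r K x - YY ψ q r K x * (H * H) with hCm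
  have hCml : l2 T Cm ≤ 2 / √s0 * La s0 S * (4 * k * ms x * √(θ * w)) :=
    comm_H2 h hs0 S i hr hrK x
  have hid : H * YY ψ q r K x * H * (H * YY ψ q r K y * H) - H * YY ψ q r K (x * y) * H =
      -((1 - R) * (H * YY ψ q r K (x * y) * H)) + (H * H * H * E2 * H -
        H * Cm * YY ψ q r K y * H) := by
    have e1 : R * (H * YY ψ q r K (x * y) * H) = H * H * H * (B * YY ψ q r K (x * y)) * H := by
      rw [← hHBH]
      calc H * B * H * (H * YY ψ q r K (x * y) * H) = H * (B * H) * H * YY ψ q r K (x * y) * H := by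
            noncomm_ring
        _ = H * (H * B) * H * YY ψ q r K (x * y) * H := by rw [hHB]
        _ = H * H * (B * H) * YY ψ q r K (x * y) * H := by noncomm_ring
        _ = H * H * (H * B) * YY ψ q r K (x * y) * H := by rw [hHB]
        _ = _ := by noncomm_ring
    rw [sub_mul 1 R, one_mul, e1, hE2, hCm]
    noncomm_ring
  rw [hid]
  have hsw : √(θ * w) * √w = √θ * w := by
    rw [Real.sqrt_mul hθ, mul_assoc, Real.mul_self_sqrt hw]
  have ha : 0 ≤ 1 / √s0 := by positivity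
  have hmx := ms_nonneg x
  have hmy := ms_nonneg y
  have hLa := La_nonneg hs0 S
  have t1 : n1 T (H * H * H * E2 * H) ≤
      (1 / √s0) ^ 3 * (4 * ms x * ms y * √(θ * w)) * (√w / s0) := by
    refine (n1_mul_le h.tr _ _).trans ?_
    refine mul_le_mul ?_ hl2 (l2_nonneg _ _) (by positivity)
    refine (l2_mul_left_le h.tr _ _).trans ?_
    refine mul_le_mul ?_ hE2l (l2_nonneg _ _) (by positivity)
    calc ‖H * H * H‖ ≤ ‖H‖ * ‖H‖ * ‖H‖ := norm_mul₃_le
      _ = ‖H‖ ^ 3 := by ring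
      _ ≤ (1 / √s0) ^ 3 := pow_le_pow_left₀ (norm_nonneg _) hne 3
  have t2 : n1 T (H * Cm * YY ψ q r K y * H) ≤
      1 / √s0 * (2 / √s0 * La s0 S * (4 * k * ms x * √(θ * w))) * ms y * (√w / s0) := by
    refine (n1_mul_le h.tr _ _).trans ?_
    refine mul_le_mul ?_ hl2 (l2_nonneg _ _) (by positivity)
    refine (l2_mul_right_le h.tr _ _).trans ?_
    refine mul_le_mul ?_ (norm_YY h hr hrK y) (norm_nonneg _) (by positivity)
    refine (l2_mul_left_le h.tr _ _).trans ?_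
    exact mul_le_mul hne hCml (l2_nonneg _ _) ha
  refine (n1_add_le h.tr _ _).trans ?_
  rw [n1_neg]
  refine add_le_add le_rfl ((n1_sub_le h.tr _ _).trans ((add_le_add t1 t2).trans (le_of_eq ?_)))
  rw [← hsw]
  ring

/-- a crude bound for the entries of a unitary -/
theorem ms_unitary_le {u : Mat k} (hu : star u * u = 1) : ms u ≤ (k : ℝ) ^ 2 := by
  unfold ms
  have hm : u ∈ Matrix.unitaryGroup (Fin k) ℂ := Matrix.mem_unitaryGroup_iff'.2 hu
  calc ∑ i, ∑ j, ‖u i j‖ ≤ ∑ i : Fin k, ∑ j : Fin k, (1 : ℝ) :=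
        Finset.sum_le_sum fun i _ => Finset.sum_le_sum fun j _ => entry_norm_bound_of_unitary hm i j
    _ = (k : ℝ) ^ 2 := by
        simp
        ring

include h hs0 hr hrK in
/-- the error term at the threshold, for unitaries -/
theorem unit_le (hw : 0 ≤ w) (hθ : 0 ≤ θ) (hθ1 : θ ≤ 1) {u : Mat k} (hu : star u * u = 1) :
    n1 T ((1 - cfc (fun t => rho s0 S i t ^ 2) (BQ q r K)) * DI ψ q r s0 S K i u) ≤
      T (cfc (fun t => rho s0 S i t ^ 2 * (1 - rho s0 S i t ^ 2)) (BQ q r K)) +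
      1 / √s0 * (√((1 / √s0) ^ 3 * (1 / s0) * (4 * (k ^ 2) ^ 2)) +
        1 / √s0 * (La s0 S * (4 * k * k ^ 2))) * √√θ * w := by
  have hc := continuous_hh hs0 S i
  have hc2 := continuous_rho s0 S i
  have hca := continuous_aa s0 S i
  have hcb := continuous_bb hs0 S i
  have hB := B_nonneg h hr (K := K)
  have hT := h.tr
  have hu' : u * star u = 1 := mul_eq_one_comm.1 hu
  have hms := ms_unitary_le hu
  have hms' : ms (star u) ≤ (k : ℝ) ^ 2 := by rwa [ms_star]
  unfold DI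
  set B := BQ q r K with hBdef
  set H := cfc (hh s0 S i) B with hH
  set R := cfc (fun t => rho s0 S i t ^ 2) B with hR
  set A := cfc (aa s0 S i) B with hA
  set D := cfc (bb s0 S i) B with hD
  set Y := YY ψ q r K u with hY
  set κ := T (cfc (fun t => rho s0 S i t ^ 2 * (1 - rho s0 S i t ^ 2)) B) with hκ
  have hne := norm_H_le hs0 S i (N := N) B
  rw [← hH] at hne
  have hneD : ‖D‖ ≤ 1 / √s0 :=
    norm_cfc_le' (by positivity) (bb_nonneg s0 S i) (bb_le hs0 S i) B
  have hl2 := l2_H_le h hs0 S i hr hrK hw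
  rw [← hBdef, ← hH] at hl2
  have hfac : (1 - R) * H = A * D := by
    rw [hR, one_sub_cf hB (by fun_prop), hH, hA, hD,
      mul_cf (p := fun t => (1 - rho s0 S i t ^ 2) * hh s0 S i t) (by fun_prop) hc (fun t => rfl),
      mul_cf (p := fun t => (1 - rho s0 S i t ^ 2) * hh s0 S i t) hca hcb
        (fun t => aa_mul_bb S i t)]
  have hDH : Commute D H := cfc_commute_cfc (R := ℝ) (p := IsSelfAdjoint) _ _ B
  have hAl : l2 T A ^ 2 = κ := by
    rw [l2_sq hT, hA, sa_cfc, mul_cf (p := fun t => rho s0 S i t ^ 2 * (1 - rho s0 S i t ^ 2)) hca hca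
      (aa_sq s0 S i)]
  have hκ0 : 0 ≤ κ := by
    rw [← hAl]
    exact sq_nonneg _
  have hκw : κ ≤ w / s0 := by
    have h4 := T_rho_sq_le_single h.tr (K := K) (fun g _ => h.idem g) (fun g _ => h.star_eq g)
      (fun g _ => h.mean g) hr hrK hs0 (S := S) i
    refine (hT.mono (cfc_mono (fun t _ => ?_) (by fun_prop) (by fun_prop))).trans h4
    have := sq_nonneg (rho s0 S i t)
    nlinarith
  have hsw : √(θ * w) * √w = √θ * w := by
    rw [Real.sqrt_mul hθ, mul_assoc, Real.mul_self_sqrt hw]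
  have hLa := La_nonneg hs0 S
  have ha : 0 ≤ 1 / √s0 := by positivity
  -- the second factor
  have hgl : l2 T (D * H * Y) ^ 2 ≤ κ +
      (1 / √s0) ^ 3 * (1 / s0) * (4 * (k ^ 2) ^ 2) * (√θ * w) := by
    set E := Y * YY ψ q r K (star u) - B * YY ψ q r K (u * star u) with hE
    have hEl : l2 T E ≤ 4 * k ^ 2 * k ^ 2 * √(θ * w) := by
      refine (h.rel2 hr.le (K := K) (L := K) (by rw [hrK]; norm_num) (by rw [hrK]; norm_num)
        u (star u)).trans ?_
      refine mul_le_mul_of_nonneg_right ?_ (Real.sqrt_nonneg _)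
      exact mul_le_mul (mul_le_mul_of_nonneg_left hms (by norm_num)) hms' (ms_nonneg _)
        (by positivity)
    rw [hu', OSys.YY_one] at hE
    have hYs : star Y = YY ψ q r K (star u) := h.star_YY r K u
    have hDs : star D = D := sa_cfc _ _
    have hHs : star H = H := sa_cfc _ _
    have e1 : T (star (D * H * Y) * (D * H * Y)) =
        T ((D * H) * (B * B) * (D * H)) + T (D * D * H * E * H) := by
      rw [hT.tracial, star_mul, star_mul, hYs, hDs, hHs]
      have e2 : D * H * Y * (YY ψ q r K (star u) * (H * D)) =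
          D * H * (B * B) * (H * D) + D * H * E * (H * D) := by
        rw [hE]
        noncomm_ring
      rw [e2, map_add, ← hDH.eq]
      congr 1
      rw [show D * H * E * (D * H) = (D * H * E) * (D * H) from rfl, hDH.eq,
        show H * D * E * (H * D) = (H * D * E * H) * D by noncomm_ring, hT.tracial]
      congr 1
      rw [← hDH.eq]
      noncomm_ring
    have e3 : T ((D * H) * (B * B) * (D * H)) = κ := by
      rw [hD, hH, mul_cf (p := fun t => bb s0 S i t * hh s0 S i t) hcb hc (fun t => rfl),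
        conj_sq (f := fun t => bb s0 S i t * hh s0 S i t) hB (hcb.mul hc) (bb_hh_sq hs0 S i)]
    have e4 : T (D * D * H * E * H) ≤
        (1 / √s0) ^ 3 * (1 / s0) * (4 * (k ^ 2) ^ 2) * (√θ * w) := by
      refine (le_abs_self _).trans ((abs_T_mul_le_l2 hT _ _).trans ?_)
      have h5 : l2 T (D * D * H * E) ≤ (1 / √s0) ^ 3 * (4 * k ^ 2 * k ^ 2 * √(θ * w)) := by
        refine (l2_mul_left_le hT _ _).trans (mul_le_mul ?_ hEl (l2_nonneg _ _) (by positivity))
        calc ‖D * D * H‖ ≤ ‖D‖ * ‖D‖ * ‖H‖ := norm_mul₃_le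
          _ ≤ (1 / √s0) * (1 / √s0) * (1 / √s0) :=
            mul_le_mul (mul_le_mul hneD hneD (norm_nonneg _) ha) hne (norm_nonneg _)
              (by positivity)
          _ = _ := by ring
      refine (mul_le_mul h5 hl2 (l2_nonneg _ _) (by positivity)).trans (le_of_eq ?_)
      rw [← hsw]
      ring
    rw [l2_sq hT, e1, e3]
    linarith
  have hC3 : 0 ≤ (1 / √s0) ^ 3 * (1 / s0) * (4 * ((k : ℝ) ^ 2) ^ 2) := by positivity
  set C3 := (1 / √s0) ^ 3 * (1 / s0) * (4 * ((k : ℝ) ^ 2) ^ 2) with hC3def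
  have hg : l2 T (D * H * Y) ≤ √κ + √C3 * √√θ * √w := by
    have h6 : l2 T (D * H * Y) ≤ √(κ + C3 * (√θ * w)) := Real.le_sqrt_of_sq_le hgl
    refine h6.trans ?_
    have h10 : 0 ≤ √C3 * √√θ * √w := by positivity
    have h11 : (√C3 * √√θ * √w) ^ 2 = C3 * (√θ * w) := by
      rw [mul_pow, mul_pow, Real.sq_sqrt hC3, Real.sq_sqrt (Real.sqrt_nonneg _), Real.sq_sqrt hw]
      ring
    refine Real.sqrt_le_iff.2 ⟨by positivity, ?_⟩
    rw [add_sq, Real.sq_sqrt hκ0, h11]
    have := mul_nonneg (Real.sqrt_nonneg κ) h10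
    linarith
  have hθθ : √θ ≤ √√θ := by
    refine Real.le_sqrt_of_sq_le ?_
    rw [Real.sq_sqrt hθ]
    exact Real.le_sqrt_of_sq_le (by nlinarith)
  have hl : l2 T (D * Y * H) ≤ √κ +
      (√C3 + 1 / √s0 * (La s0 S * (4 * k * k ^ 2))) * √√θ * √w := by
    have e5 : D * Y * H = D * H * Y - D * (H * Y - Y * H) := by noncomm_ring
    rw [e5]
    refine (l2_sub_le hT _ _).trans ?_
    have h7 : l2 T (D * (H * Y - Y * H)) ≤
        1 / √s0 * (La s0 S * (4 * k * k ^ 2)) * √√θ * √w := by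
      refine (l2_mul_left_le hT _ _).trans ?_
      refine (mul_le_mul hneD (comm_H h hs0 S i hr hrK u) (l2_nonneg _ _) ha).trans ?_
      have h8 : La s0 S * (4 * k * ms u * √(θ * w)) ≤
          La s0 S * (4 * k * k ^ 2 * (√√θ * √w)) := by
        refine mul_le_mul_of_nonneg_left ?_ hLa
        refine mul_le_mul (mul_le_mul_of_nonneg_left hms (by positivity)) ?_ (Real.sqrt_nonneg _)
          (by positivity)
        rw [Real.sqrt_mul hθ]
        exact mul_le_mul_of_nonneg_right hθθ (Real.sqrt_nonneg _)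
      refine (mul_le_mul_of_nonneg_left h8 ha).trans (le_of_eq (by ring))
    refine (add_le_add hg h7).trans (le_of_eq (by ring))
  have hAl' : l2 T A = √κ := by
    rw [← hAl, Real.sqrt_sq (l2_nonneg _ _)]
  have e6 : (1 - R) * (H * Y * H) = A * (D * Y * H) := by
    calc (1 - R) * (H * Y * H) = ((1 - R) * H) * Y * H := by noncomm_ring
      _ = A * D * Y * H := by rw [hfac]
      _ = _ := by noncomm_ring
  rw [e6]
  refine (n1_mul_le hT _ _).trans ?_
  rw [hAl']
  refine (mul_le_mul_of_nonneg_left hl (Real.sqrt_nonneg _)).trans ?_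
  rw [mul_add, Real.mul_self_sqrt hκ0]
  refine add_le_add le_rfl ?_
  have h9 : √κ ≤ 1 / √s0 * √w := by
    refine (Real.sqrt_le_sqrt hκw).trans (le_of_eq ?_)
    rw [Real.sqrt_div hw]
    ring
  refine (mul_le_mul_of_nonneg_right h9 (by positivity)).trans (le_of_eq ?_)
  have hww : √w * √w = w := Real.mul_self_sqrt hw
  calc _ = 1 / √s0 * (√C3 + 1 / √s0 * (La s0 S * (4 * k * k ^ 2))) * √√θ * (√w * √w) := by ring
    _ = _ := by rw [hww]

end one

section lin

variable {N : Type*} [CStarAlgebra N] {G : Type*} {k : ℕ}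

/-- the increments as a linear map -/
noncomputable def Lin (ψ : G → Mat k →⋆ₐ[ℂ] N) (q : G → N) (r s0 : ℝ) (S : ℕ) (K : Finset G) :
    Mat k →ₗ[ℂ] (ℕ → N) where
  toFun x i := (1 - cfc (fun t => rho s0 S i t ^ 2) (BQ q r K)) * DI ψ q r s0 S K i x
  map_add' x y := by
    funext i
    simp only [DI, YY, map_add, add_mul, Finset.sum_add_distrib, smul_add, mul_add, Pi.add_apply]
  map_smul' c x := by
    funext i
    simp only [DI, YY, map_smul, smul_mul_assoc, ← Finset.smul_sum, RingHom.id_apply,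
      Pi.smul_apply]
    rw [smul_comm r c, mul_smul_comm, smul_mul_assoc, mul_smul_comm]

end lin

end MultAux

open MultAux in
theorem mult_bound {k : ℕ} {s0 : ℝ} (hs0 : 0 < s0) {S : ℕ} (hS : 0 < S) :
    ∃ C : ℝ, 0 ≤ C ∧ ∀ (N : Type u) [CStarAlgebra N] (G : Type v) (T : N →ₗ[ℝ] ℝ)
      (ψ : G → Mat k →⋆ₐ[ℂ] N) (q : G → N) (w θ : ℝ), OSys T ψ q w θ → 0 ≤ w → 0 ≤ θ → θ ≤ 1 →
      ∀ (r : ℝ) (K : Finset G), 0 < r → r * K.card = 1 → ∀ x y : Mat k,
      (1 / S : ℝ) * ∑ i ∈ Finset.range S,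
        n1 T (DI ψ q r s0 S K i x * DI ψ q r s0 S K i y - DI ψ q r s0 S K i (x * y)) ≤
      ms x * ms y * (1 / (s0 * S) + C * √√θ) * w := by
  have hLa := La_nonneg hs0 S
  have hS' : (0 : ℝ) < S := by exact_mod_cast hS
  set c1 : ℝ := (1 / √s0) ^ 3 * 4 * (1 / s0) +
    1 / √s0 * (2 / √s0 * La s0 S * (4 * k)) * (1 / s0) with hc1
  set c2 : ℝ := 1 / √s0 * (√((1 / √s0) ^ 3 * (1 / s0) * (4 * (k ^ 2) ^ 2)) +
        1 / √s0 * (La s0 S * (4 * k * k ^ 2))) with hc2
  have hc1' : 0 ≤ c1 := by positivity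
  have hc2' : 0 ≤ c2 := by positivity
  refine ⟨c1 + c2, by positivity, ?_⟩
  intro N _ G T ψ q w θ h hw hθ hθ1 r K hr hrK x y
  let _ := CStarAlgebra.spectralOrder N
  have := CStarAlgebra.spectralOrderedRing N
  have hT := h.tr
  have hθθ : √θ ≤ √√θ := by
    refine Real.le_sqrt_of_sq_le ?_
    rw [Real.sq_sqrt hθ]
    exact Real.le_sqrt_of_sq_le (by nlinarith)
  have hS0 : (0:ℝ) ≤ 1 / S := by positivity
  -- the main term
  have hmain := seminorm_le_of_unitary (V := ℕ → N)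
    (c := (1 / (s0 * S) + c2 * √√θ) * w)
    (fun a => (1 / S : ℝ) * ∑ i ∈ Finset.range S, n1 T (a i))
    (by simp [n1_zero])
    (fun a b => by
      rw [← mul_add, ← Finset.sum_add_distrib]
      exact mul_le_mul_of_nonneg_left (Finset.sum_le_sum fun i _ => n1_add_le hT _ _) hS0)
    (fun z a => by
      change (1 / S : ℝ) * ∑ i ∈ Finset.range S, n1 T ((z • a) i) ≤
        ‖z‖ * ((1 / S : ℝ) * ∑ i ∈ Finset.range S, n1 T (a i))
      rw [mul_left_comm ‖z‖]
      refine mul_le_mul_of_nonneg_left ?_ hS0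
      rw [Finset.mul_sum]
      refine Finset.sum_le_sum fun i _ => ?_
      rw [Pi.smul_apply, n1_smul hT])
    (Lin ψ q r s0 S K)
    (fun u hu => by
      have h1 : ∀ i ∈ Finset.range S, n1 T (Lin ψ q r s0 S K u i) ≤
          T (cfc (fun t => rho s0 S i t ^ 2 * (1 - rho s0 S i t ^ 2)) (BQ q r K)) +
            c2 * √√θ * w := fun i _ => unit_le h hs0 S i hr hrK hw hθ hθ1 hu
      have h2 := T_kappa_le h.tr (K := K) (fun g _ => h.idem g) (fun g _ => h.star_eq g)
        (fun g _ => h.mean g) hr hrK hs0 hS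
      have h3 := mul_le_mul_of_nonneg_left (Finset.sum_le_sum h1) hS0
      refine h3.trans ?_
      rw [Finset.sum_add_distrib, mul_add, Finset.sum_const, Finset.card_range, nsmul_eq_mul]
      have h4 : (1 / S : ℝ) * (S * (c2 * √√θ * w)) = c2 * √√θ * w := by
        rw [← mul_assoc, one_div_mul_cancel hS'.ne', one_mul]
      rw [h4, add_mul]
      refine add_le_add (h2.trans (le_of_eq (by ring))) le_rfl)
    (x * y)
  have hrest : ∀ i ∈ Finset.range S,
      n1 T (DI ψ q r s0 S K i x * DI ψ q r s0 S K i y - DI ψ q r s0 S K i (x * y)) ≤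
      n1 T (Lin ψ q r s0 S K (x * y) i) + c1 * (ms x * ms y * (√θ * w)) := fun i _ =>
    rest_le h hs0 S i hr hrK hw hθ x y
  have h5 := mul_le_mul_of_nonneg_left (Finset.sum_le_sum hrest) hS0
  refine h5.trans ?_
  rw [Finset.sum_add_distrib, mul_add, Finset.sum_const, Finset.card_range, nsmul_eq_mul]
  have h4 : (1 / S : ℝ) * (S * (c1 * (ms x * ms y * (√θ * w)))) =
      c1 * (ms x * ms y * (√θ * w)) := by
    rw [← mul_assoc, one_div_mul_cancel hS'.ne', one_mul]
  rw [h4]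
  have h6 : 0 ≤ (1 / (s0 * S) + c2 * √√θ) * w := by positivity
  have hmx := ms_nonneg x
  have hmy := ms_nonneg y
  have h7 := hmain.trans (mul_le_mul_of_nonneg_right (ms_mul_le x y) h6)
  have h8 : c1 * (ms x * ms y * (√θ * w)) ≤ c1 * (ms x * ms y * (√√θ * w)) :=
    mul_le_mul_of_nonneg_left (mul_le_mul_of_nonneg_left (mul_le_mul_of_nonneg_right hθθ hw)
      (by positivity)) hc1'
  refine (add_le_add h7 h8).trans (le_of_eq (by ring))

end Pool.Agent.Lib.EqM
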