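import Pool.Agent.Lib.EqM.N1

/-!
The `L^1` seminorm of a product with an independent positive element.
-/

open scoped ComplexOrder

namespace Pool.Agent.Lib.EqM

open Pool.Agent.Lib.EqGamma

variable {M : Type*} [CStarAlgebra M] {T : M →ₗ[ℝ] ℝ}

/-- closed star subalgebras are stable under the functional calculus -/
theorem n1ind_cfc_mem {Q : StarSubalgebra ℂ M} (hQ : IsClosed (Q : Set M)) {a : M}
    (ha : a ∈ Q) (f : ℝ → ℝ) : cfc f a ∈ Q := by
  have : IsClosed (Q : Set M) := hQ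
  exact cfc_mem (𝕜' := ℂ) (s := Q) f ha

theorem n1ind_spec_nonneg [PartialOrder M] [StarOrderedRing M] {p : M} (hp : 0 ≤ p) :
    ∀ t ∈ spectrum ℝ p, (0 : ℝ) ≤ t := fun _ ht => spectrum_nonneg_of_nonneg hp ht

/-- the two factors of the absolute value -/
theorem n1ind_factor [PartialOrder M] [StarOrderedRing M] {p : M} (hp : 0 ≤ p) {ε : ℝ}
    (hε : 0 < ε) :
    cfc (fun t : ℝ => 1 / √(t + ε)) p * cfc (fun t : ℝ => √(t + ε)) p = 1 ∧
    cfc (fun t : ℝ => √(t + ε)) p * cfc (fun t : ℝ => √(t + ε)) p = p + algebraMap ℝ M ε ∧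
    cfc (fun t : ℝ => 1 / √(t + ε)) p * (p * p) * cfc (fun t : ℝ => 1 / √(t + ε)) p ≤ p := by
  have hs := n1ind_spec_nonneg hp
  have hsa : IsSelfAdjoint p := hp.isSelfAdjoint
  have hpos : ∀ t ∈ spectrum ℝ p, 0 < t + ε := fun t ht => by have := hs t ht; linarith
  have hc1 : ContinuousOn (fun t : ℝ => √(t + ε)) (spectrum ℝ p) := by fun_prop
  have hc2 : ContinuousOn (fun t : ℝ => 1 / √(t + ε)) (spectrum ℝ p) := by
    refine ContinuousOn.div continuousOn_const hc1 fun t ht => ?_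
    exact (Real.sqrt_pos.2 (hpos t ht)).ne'
  refine ⟨?_, ?_, ?_⟩
  · rw [← cfc_mul _ _ p hc2 hc1]
    rw [← cfc_one ℝ p]
    refine cfc_congr fun t ht => ?_
    have := (Real.sqrt_pos.2 (hpos t ht)).ne'
    simp only [Pi.one_apply]
    field_simp
  · rw [← cfc_mul _ _ p hc1 hc1]
    have h1 : p + algebraMap ℝ M ε = cfc (fun t : ℝ => t + ε) p := by
      rw [cfc_add_const ε (fun t : ℝ => t) p, cfc_id' ℝ p]
    rw [h1]
    refine cfc_congr fun t ht => ?_
    exact Real.mul_self_sqrt (hpos t ht).le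
  · have h2 : p * p = cfc (fun t : ℝ => t * t) p := by
      rw [cfc_mul (fun t : ℝ => t) (fun t : ℝ => t) p, cfc_id' ℝ p]
    have hc3 : ContinuousOn (fun t : ℝ => t * t) (spectrum ℝ p) := by fun_prop
    have hc4 : ContinuousOn (fun t : ℝ => 1 / √(t + ε) * (t * t)) (spectrum ℝ p) := hc2.mul hc3
    rw [h2, ← cfc_mul _ _ p hc2 hc3, ← cfc_mul _ _ p hc4 hc2]
    conv_rhs => rw [← cfc_id' ℝ p]
    refine cfc_mono (fun t ht => ?_) (hc4.mul hc2) continuousOn_id
    have h3 := hpos t ht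
    have h4 : √(t + ε) * √(t + ε) = t + ε := Real.mul_self_sqrt h3.le
    have h5 := Real.sqrt_pos.2 h3
    have h6 : 1 / √(t + ε) * (t * t) * (1 / √(t + ε)) = t * t / (t + ε) := by
      have h7 : 1 / √(t + ε) * (t * t) * (1 / √(t + ε)) = t * t / (√(t + ε) * √(t + ε)) := by
        rw [div_mul_eq_mul_div, one_mul, div_mul_div_comm, mul_one]
      rw [h7, h4]
    show 1 / √(t + ε) * (t * t) * (1 / √(t + ε)) ≤ t
    rw [h6, div_le_iff₀ h3]
    nlinarith [hs t ht]

/-- If `D` is positive, commutes with the elements of the closed star subalgebra `Q` and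
`T (star z * z * D) ≤ θ T (star z * z)` for `z ∈ Q`, then `n1 T (a * D) ≤ θ * n1 T a` for `a ∈ Q`. -/
theorem n1_mul_pos_le [PartialOrder M] [StarOrderedRing M] (hT : RTr T) {Q : StarSubalgebra ℂ M}
    (hQ : IsClosed (Q : Set M)) {D : M} (hD : 0 ≤ D) (hc : ∀ z ∈ Q, Commute z D) {θ : ℝ}
    (hθ : 0 ≤ θ) (hD' : ∀ z ∈ Q, T (star z * z * D) ≤ θ * T (star z * z)) {a : M} (ha : a ∈ Q) :
    n1 T (a * D) ≤ θ * n1 T a := by
  have hn : 0 ≤ n1 T a := n1_nonneg hT a
  have hT1 : 0 ≤ T 1 := by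
    have := hT.nonneg' 1
    simpa using this
  -- the square root of `D`
  have hDs := n1ind_spec_nonneg hD
  have hDsa : IsSelfAdjoint D := hD.isSelfAdjoint
  set d : M := cfc Real.sqrt D with hd
  have hdsa : star d = d := (cfc_predicate Real.sqrt D : IsSelfAdjoint d).star_eq
  have hdd : d * d = D := by
    rw [hd, ← cfc_mul _ _ D (by fun_prop) (by fun_prop)]
    conv_rhs => rw [← cfc_id' ℝ D]
    exact cfc_congr fun t ht => Real.mul_self_sqrt (hDs t ht)
  have hcd : ∀ z ∈ Q, Commute z d := fun z hz => ((hc z hz).symm.cfc_real Real.sqrt).symm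
  -- the absolute value of `a`
  set p : M := ab a with hp
  have hp0 : 0 ≤ p := ab_nonneg a
  have hpp : p * p = star a * a := ab_mul_ab a
  have hpQ : p ∈ Q := n1ind_cfc_mem hQ (mul_mem (star_mem ha) ha) _
  have hTp : T p = n1 T a := rfl
  refine le_of_forall_pos_le_add fun η hη => ?_
  obtain ⟨ε, hε, hεη⟩ : ∃ ε : ℝ, 0 < ε ∧ θ * (ε * T 1) ≤ η := by
    refine ⟨η / (θ * T 1 + 1), by positivity, ?_⟩
    have h1 : 0 < θ * T 1 + 1 := by positivity
    have h2 : θ * (η / (θ * T 1 + 1) * T 1) = η * (θ * T 1 / (θ * T 1 + 1)) := by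
      field_simp
    rw [h2]
    have h3 : θ * T 1 / (θ * T 1 + 1) ≤ 1 := by
      rw [div_le_one h1]; linarith
    nlinarith
  obtain ⟨hrs, hss, hrp⟩ := n1ind_factor hp0 hε
  set r : M := cfc (fun t : ℝ => 1 / √(t + ε)) p with hr
  set s : M := cfc (fun t : ℝ => √(t + ε)) p with hs
  have hrsa : star r = r := (cfc_predicate (fun t : ℝ => 1 / √(t + ε)) p : IsSelfAdjoint r).star_eq
  have hssa : star s = s := (cfc_predicate (fun t : ℝ => √(t + ε)) p : IsSelfAdjoint s).star_eq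
  have hrQ : r ∈ Q := n1ind_cfc_mem hQ hpQ _
  have hsQ : s ∈ Q := n1ind_cfc_mem hQ hpQ _
  have harQ : a * r ∈ Q := mul_mem ha hrQ
  refine n1_le_of hT fun y hy => ?_
  have e1 : a * D * y = d * (a * r) * (s * d * y) := by
    have h1 : d * (a * r) = a * r * d := (hcd _ harQ).symm
    have h2 : d * s = s * d := (hcd _ hsQ).symm
    calc a * D * y = a * (r * s) * (d * d) * y := by rw [hrs, mul_one, hdd]
      _ = a * r * (s * d) * d * y := by simp only [mul_assoc]
      _ = a * r * (d * s) * d * y := by rw [h2]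
      _ = (a * r * d) * (s * d * y) := by simp only [mul_assoc]
      _ = _ := by rw [h1]
  have e2 : T (a * D * y) ≤ l2 T (d * (a * r)) * l2 T (s * d * y) := by
    rw [e1]
    exact (le_abs_self _).trans (abs_T_mul_le_l2 hT _ _)
  have e3 : l2 T (s * d * y) ≤ l2 T (s * d) := l2_le_l2_of_norm_le_one hT hy
  have e4 : l2 T (d * (a * r)) ^ 2 ≤ θ * n1 T a := by
    have h1 : star (d * (a * r)) * (d * (a * r)) = star (a * r) * (D * (a * r)) := by
      rw [star_mul, hdsa, ← hdd]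
      simp only [mul_assoc]
    have h2 : D * (a * r) = a * r * D := (hc _ harQ).symm
    rw [l2_sq hT, h1, h2, ← mul_assoc]
    refine (hD' _ harQ).trans (mul_le_mul_of_nonneg_left ?_ hθ)
    have h3 : star (a * r) * (a * r) = r * (p * p) * r := by
      rw [star_mul, hrsa, hpp]
      simp only [mul_assoc]
    rw [h3, ← hTp]
    exact hT.mono hrp
  have e5 : l2 T (s * d) ^ 2 ≤ θ * (n1 T a + ε * T 1) := by
    have h1 : star (s * d) * (s * d) = d * (s * s * d) := by
      rw [star_mul, hssa, hdsa]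
      simp only [mul_assoc]
    have h2 : T (d * (s * s * d)) = T (star s * s * D) := by
      rw [hT.tracial, mul_assoc, hdd, hssa]
    rw [l2_sq hT, h1, h2]
    refine (hD' _ hsQ).trans (mul_le_mul_of_nonneg_left ?_ hθ)
    rw [hssa, hss, map_add, RTr.algebraMap_apply, hTp]
  have h6 : 0 ≤ l2 T (d * (a * r)) := l2_nonneg T _
  have h7 : 0 ≤ l2 T (s * d) := l2_nonneg T _
  have h8 : 0 ≤ l2 T (s * d * y) := l2_nonneg T _
  have e6 : l2 T (d * (a * r)) * l2 T (s * d * y) ≤ l2 T (d * (a * r)) * l2 T (s * d) :=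
    mul_le_mul_of_nonneg_left e3 h6
  have e7 : 2 * (l2 T (d * (a * r)) * l2 T (s * d)) ≤
      l2 T (d * (a * r)) ^ 2 + l2 T (s * d) ^ 2 := by nlinarith [sq_nonneg (l2 T (d * (a * r)) - l2 T (s * d))]
  have e8 : 0 ≤ θ * (ε * T 1) := by positivity
  nlinarith

end Pool.Agent.Lib.EqM
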